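import Pool.Agent.MSL.Bas

/-!
# Project MSL: facts (A1) - (A4) on aperiodic monoids

(A1) `x = a^K x b^K` by iteration, so `a x = a^(K+1) x b^K = a^K x b^K = x`, and similarly `x b = x`.
(A2) `n = a m b = (a u) n (v b)` because `m = u v`, `u = u n`; (A1): `(a u) n = n`, so `a u = n`.  Then
`v = n v = a u v = a m`, `v u = a m u = a u = n`.
(A3) `e = a x b`, `x = x e`: `e = (a x) e b`, (A1): `a x e = e`, so `a x = e`.  `e = a (e x) b = a e (x b)`,
(A1): `a e = e`.  `x = e x = a e x = a x = e`.
(A4) `b = p b (b' q)`: (A1): `b (b' q) = b`.  `b' = (p' b) b' q'`: (A1): `p' b b' = b'`.  Since `b = b b' q`,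
`b' = p' b b' = (p' b)(b' q) b'`... : `b' = p' (b b' q) b' q'`, and (A1) for `b' = (p' b b' q) b' q'` gives
`p' b b' q b' = b'`, that is `b' q b' = b'`.  Put `e = (b' q)^(K+1)`; it is idempotent (`Aper.idem`, and
`s^(K+1) = s^K`), `b e = b`, `e b' = b'`, and `e = 1 * b' * (...)`, `b' = (p' b) b'`, so `e` is in the ideal of
`b`: `e = p' * b * (b' * ...)`.
-/

namespace Pool.Agent.MSL

open Pool.Agent.DD Pool.Agent.HLV

variable {A M N S : Type}

theorem ap_one [Monoid S] {K : ℕ} (h : Aper S K) {a x b : S} (e : x = a * x * b) :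
    a * x = x ∧ x * b = x := by
  have key : ∀ n : ℕ, x = a ^ n * x * b ^ n := by
    intro n
    induction n with
    | zero => simp
    | succ n ih =>
      calc x = a * x * b := e
        _ = a * (a ^ n * x * b ^ n) * b := by rw [← ih]
        _ = a ^ (n + 1) * x * b ^ (n + 1) := by
          rw [pow_succ' a n, pow_succ b n]
          simp only [mul_assoc]
  constructor
  · calc a * x = a * (a ^ K * x * b ^ K) := by rw [← key K]
      _ = (a * a ^ K) * x * b ^ K := by simp only [mul_assoc]
      _ = a ^ K * x * b ^ K := by rw [h.mul]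
      _ = x := (key K).symm
  · calc x * b = a ^ K * x * b ^ K * b := by rw [← key K]
      _ = a ^ K * x * (b ^ K * b) := by simp only [mul_assoc]
      _ = a ^ K * x * b ^ K := by rw [h.mul']
      _ = x := (key K).symm

theorem ap_two [Monoid S] {K : ℕ} (h : Aper S K) {m n u v a b : S} (hm : m * m = m) (hn : n * n = n)
    (mu : m * u = u) (un : u * n = u) (nv : n * v = v) (vm : v * m = v) (uv : u * v = m)
    (e : n = a * m * b) : v * u = n := by
  have h1 : n = (a * u) * n * (v * b) := by
    calc n = a * m * b := e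
      _ = a * (u * v) * b := by rw [uv]
      _ = a * (u * (n * v)) * b := by rw [nv]
      _ = (a * u) * n * (v * b) := by simp only [mul_assoc]
  have h2 : a * u = n := by
    have h3 := (ap_one h h1).1
    rw [mul_assoc, un] at h3
    exact h3
  have h4 : v = a * m := by
    calc v = n * v := nv.symm
      _ = (a * u) * v := by rw [h2]
      _ = a * m := by rw [mul_assoc, uv]
  calc v * u = (a * m) * u := by rw [← h4]
    _ = a * (m * u) := mul_assoc _ _ _
    _ = a * u := by rw [mu]
    _ = n := h2

theorem ap_three [Monoid S] {K : ℕ} (h : Aper S K) {e x a b : S} (he : e * e = e)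
    (hx : x = e * x * e) (hi : e = a * x * b) : x = e := by
  have hxe : x * e = x := by
    calc x * e = (e * x * e) * e := by rw [← hx]
      _ = e * x * (e * e) := by simp only [mul_assoc]
      _ = x := by rw [he, ← hx]
  have hex : e * x = x := by
    calc e * x = e * (e * x * e) := by rw [← hx]
      _ = (e * e) * x * e := by simp only [mul_assoc]
      _ = x := by rw [he, ← hx]
  have h1 : e = (a * x) * e * b := by
    calc e = a * x * b := hi
      _ = a * (x * e) * b := by rw [hxe]
      _ = (a * x) * e * b := by simp only [mul_assoc]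
  have h2 : a * x = e := by
    have h3 := (ap_one h h1).1
    rw [mul_assoc, hxe] at h3
    exact h3
  have h4 : e = a * e * (x * b) := by
    calc e = a * x * b := hi
      _ = a * (e * x) * b := by rw [hex]
      _ = a * e * (x * b) := by simp only [mul_assoc]
  have h5 := (ap_one h h4).1
  calc x = e * x := hex.symm
    _ = (a * e) * x := by rw [h5]
    _ = a * x := by rw [mul_assoc, hex]
    _ = e := h2

theorem ap_four [Monoid S] {K : ℕ} (h : Aper S K) {b b' p q p' q' : S}
    (h1 : b = p * (b * b') * q) (h2 : b' = p' * (b * b') * q') :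
    ∃ e, e * e = e ∧ b * e = b ∧ e * b' = b' ∧ ∃ x y, e = x * b * y := by
  have e1 : b = p * b * (b' * q) := by
    calc b = p * (b * b') * q := h1
      _ = p * b * (b' * q) := by simp only [mul_assoc]
  have e2 : b * (b' * q) = b := (ap_one h e1).2
  have e3 : b' = (p' * b) * b' * q' := by
    calc b' = p' * (b * b') * q' := h2
      _ = (p' * b) * b' * q' := by simp only [mul_assoc]
  have e4 : p' * b * b' = b' := (ap_one h e3).1
  have e5 : b' = (b' * q) * b' * q' := by
    calc b' = (p' * b) * b' * q' := e3
      _ = (p' * (b * (b' * q))) * b' * q' := by rw [e2]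
      _ = (p' * b * b') * q * b' * q' := by simp only [mul_assoc]
      _ = (b' * q) * b' * q' := by rw [e4]
  have e6 : b' * q * b' = b' := (ap_one h e5).1
  refine ⟨b' * q, ?_, e2, e6, p', b' * q, ?_⟩
  · rw [← mul_assoc (b' * q) b' q, e6]
  · rw [← mul_assoc (p' * b) b' q, e4]

end Pool.Agent.MSL
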