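import Pool.Agent.HSP.Decd

/-!
# Project MSL: computable predicates

`cp_comp`, `cp_and`, `cp_imp`, `cp_not`: Boolean operations (`ComputablePred.computable_iff`).  `cp_forall`: bounded
quantifier over a computable list, by recursion on the number of the entries which are already tested (`cpf_all`).
-/

namespace Pool.Agent.MSL

open Pool.Agent.DD Pool.Agent.HLV Pool.Agent.HSP

variable {α β : Type} [Primcodable α] [Primcodable β]

theorem cp_comp {P : β → Prop} (hP : ComputablePred P) {f : α → β} (hf : Computable f) :
    ComputablePred fun a => P (f a) := by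
  obtain ⟨g, hg, rfl⟩ := ComputablePred.computable_iff.1 hP
  exact ComputablePred.computable_iff.2 ⟨fun a => g (f a), hg.comp hf, rfl⟩

theorem cp_not {P : α → Prop} (hP : ComputablePred P) : ComputablePred fun a => ¬ P a := by
  obtain ⟨f, hf, rfl⟩ := ComputablePred.computable_iff.1 hP
  refine ComputablePred.computable_iff.2 ⟨fun a => !(f a), Primrec.not.to_comp.comp hf, ?_⟩
  funext a
  cases h : f a <;> simp [h]

theorem cp_and {P Q : α → Prop} (hP : ComputablePred P) (hQ : ComputablePred Q) :
    ComputablePred fun a => P a ∧ Q a := by
  obtain ⟨f, hf, rfl⟩ := ComputablePred.computable_iff.1 hP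
  obtain ⟨g, hg, rfl⟩ := ComputablePred.computable_iff.1 hQ
  refine ComputablePred.computable_iff.2 ⟨fun a => (f a && g a), Primrec.and.to_comp.comp hf hg, ?_⟩
  funext a
  cases h1 : f a <;> cases h2 : g a <;> simp [h1, h2]

theorem cp_imp {P Q : α → Prop} (hP : ComputablePred P) (hQ : ComputablePred Q) :
    ComputablePred fun a => P a → Q a := by
  obtain ⟨f, hf, rfl⟩ := ComputablePred.computable_iff.1 hP
  obtain ⟨g, hg, rfl⟩ := ComputablePred.computable_iff.1 hQ
  refine ComputablePred.computable_iff.2 ⟨fun a => (!(f a) || g a),
    Primrec.or.to_comp.comp (Primrec.not.to_comp.comp hf) hg, ?_⟩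
  funext a
  cases h1 : f a <;> cases h2 : g a <;> simp [h1, h2]

private def cpfStep (f : α × β → Bool) (l : α → List β) (a : α) (p : ℕ × Bool) : Bool :=
  Option.casesOn ((l a)[p.1]?) p.2 (fun b => p.2 && f (a, b))

private def cpfAll (f : α × β → Bool) (l : α → List β) (a : α) (n : ℕ) : Bool :=
  Nat.rec (motive := fun _ => Bool) true (fun y IH => cpfStep f l a (y, IH)) n

private theorem cpf_comp {f : α × β → Bool} (hf : Computable f) {l : α → List β} (hl : Computable l) :
    Computable fun a => cpfAll f l a (l a).length := by
  have hstep : Computable₂ (cpfStep f l) := by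
    have h1 : Computable fun q : α × (ℕ × Bool) => (l q.1)[q.2.1]? :=
      Computable.list_getElem?.comp (hl.comp Computable.fst) (Computable.fst.comp Computable.snd)
    have h2 : Computable fun q : α × (ℕ × Bool) => q.2.2 := Computable.snd.comp Computable.snd
    have h3 : Computable₂ fun (q : α × (ℕ × Bool)) (b : β) => (q.2.2 && f (q.1, b)) :=
      Primrec.and.to_comp.comp (h2.comp Computable.fst)
        (hf.comp (Computable.pair (Computable.fst.comp Computable.fst) Computable.snd))
    exact Computable.option_casesOn h1 h2 h3
  exact Computable.nat_rec (Computable.list_length.comp hl) (Computable.const true) hstep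

omit [Primcodable α] [Primcodable β] in
private theorem cpf_all (f : α × β → Bool) (l : α → List β) (a : α) (n : ℕ) :
    cpfAll f l a n = true ↔ ∀ i < n, ∀ b, (l a)[i]? = some b → f (a, b) = true := by
  induction n with
  | zero => exact ⟨fun _ i hi => absurd hi (Nat.not_lt_zero i), fun _ => rfl⟩
  | succ n ih =>
      have e : cpfAll f l a (n + 1) = cpfStep f l a (n, cpfAll f l a n) := rfl
      rw [e]
      unfold cpfStep
      cases h : (l a)[n]? with
      | none =>
          simp only []
          rw [ih]
          constructor
          · intro H i hi b hb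
            rcases Nat.lt_succ_iff_lt_or_eq.1 hi with h1 | h1
            · exact H i h1 b hb
            · rw [h1, h] at hb
              cases hb
          · exact fun H i hi => H i (Nat.lt_succ_of_lt hi)
      | some c =>
          simp only []
          rw [Bool.and_eq_true, ih]
          constructor
          · rintro ⟨H, hc⟩ i hi b hb
            rcases Nat.lt_succ_iff_lt_or_eq.1 hi with h1 | h1
            · exact H i h1 b hb
            · rw [h1, h] at hb
              rw [← Option.some.inj hb]
              exact hc
          · exact fun H => ⟨fun i hi => H i (Nat.lt_succ_of_lt hi), H n (Nat.lt_succ_self n) c h⟩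

theorem cp_forall {P : α × β → Prop} (hP : ComputablePred P) {l : α → List β}
    (hl : Computable l) : ComputablePred fun a => ∀ b ∈ l a, P (a, b) := by
  obtain ⟨f, hf, rfl⟩ := ComputablePred.computable_iff.1 hP
  refine ComputablePred.computable_iff.2 ⟨fun a => cpfAll f l a (l a).length, cpf_comp hf hl, ?_⟩
  funext a
  rw [eq_iff_iff, cpf_all]
  constructor
  · intro H i _ b hb
    exact H b (List.mem_of_getElem? hb)
  · intro H b hb
    obtain ⟨i, hi, e⟩ := List.mem_iff_getElem.1 hb
    exact H i hi b (by rw [List.getElem?_eq_getElem hi, e])

end Pool.Agent.MSL
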