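import Pool.Agent.HSP.QRed
import Pool.Agent.HSP.Cim
import Pool.Agent.MSL.Cpf

/-!
# Project MSL: separation over all alphabets reduces to separation over one alphabet

The images `cimg M m X` under a coding are separable by `B i` over `Fin (m + 2)` iff `X`, `Y` are
separable by `B i` over `Fin M` (`i ≥ 1`).
-/

namespace Pool.Agent.MSL

open Pool.Agent.DD Pool.Agent.HLV Pool.Agent.HSP

private theorem alp_ne (M m : ℕ) (a : Fin M) : (fun a : Fin M => cw m M a.val) a ≠ [] := by
  intro e
  have h1 := cw_length (m := m) a.isLt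
  have h2 : cw m M a.val = [] := e
  rw [h2, List.length_nil] at h1
  omega

theorem cimg_sepB {M m i : ℕ} (hi : 1 ≤ i) (X Y : Lang (Fin M)) :
    Separable (B (Fin (m + 2)) i) (cimg M m X) (cimg M m Y) ↔ Separable (B (Fin M) i) X Y := by
  constructor
  · rintro ⟨Z, hZ, h1, h2⟩
    refine ⟨iq (fun a : Fin M => cw m M a.val) [] [] Z, iq_B (alp_ne M m) hZ [] [], ?_, ?_⟩
    · intro v hv
      rw [mem_iq, List.nil_append, List.append_nil]
      exact h1 ⟨v, hv, rfl⟩
    · intro v hv hvY
      rw [mem_iq, List.nil_append, List.append_nil] at hv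
      exact h2 _ hv ⟨v, hvY, rfl⟩
  · rintro ⟨Z, hZ, h1, h2⟩
    refine ⟨cimg M m Z, (cimg_B hi Z).2 hZ, ?_, ?_⟩
    · rintro _ ⟨v, hv, rfl⟩
      exact ⟨v, h1 hv, rfl⟩
    · exact cimg_disj h2

theorem decSepB_alph (M m : ℕ) {i : ℕ} (hi : 1 ≤ i) (h : DecSepB (m + 2) i) : DecSepB M i := by
  obtain ⟨g, hg, hr⟩ := exists_cimg m
  have hc : Computable fun p : Code × Code => (g (M, p.1), g (M, p.2)) :=
    (hg.comp ((Computable.const M).pair Computable.fst)).pair
      (hg.comp ((Computable.const M).pair Computable.snd))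
  refine (cp_comp h hc).of_eq fun p => ?_
  rw [hr, hr]
  exact cimg_sepB hi _ _

theorem decSep_alph (M m : ℕ) {n : ℕ} (hn : 1 ≤ n) (h : DecSep (m + 2) n) : DecSep M n := by
  obtain ⟨g, hg, hr⟩ := exists_cimg m
  have hc : Computable fun p : Code × Code => (g (M, p.1), g (M, p.2)) :=
    (hg.comp ((Computable.const M).pair Computable.fst)).pair
      (hg.comp ((Computable.const M).pair Computable.snd))
  refine (cp_comp h hc).of_eq fun p => ?_
  rw [hr, hr]
  exact cimg_sep hn _ _

end Pool.Agent.MSL
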