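import Pool.Agent.MSL.Defs

/-!
# Project MSL: basic facts on homomorphisms, domination, chains
-/

namespace Pool.Agent.MSL

open Pool.Agent.DD Pool.Agent.HLV

variable {A M N S : Type}

theorem IsHom.pw [Monoid S] {φ : List A → S} (h : IsHom φ) (x : List A) (n : ℕ) :
    φ (pw x n) = φ x ^ n := by
  induction n with
  | zero => simp [DD.pw, h.one]
  | succ n ih => rw [pw_succ, h.mul, ih, pow_succ']

theorem IsHom.mul3 [Monoid S] {φ : List A → S} (h : IsHom φ) (x y z : List A) :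
    φ (x ++ y ++ z) = φ x * φ y * φ z := by rw [h.mul, h.mul]

theorem Aper.mono [Monoid S] {K K' : ℕ} (h : Aper S K) (hk : K ≤ K') (s : S) :
    s ^ K' = s ^ K := by
  induction hk with
  | refl => rfl
  | step _ ih => rw [pow_succ, ih, ← pow_succ, h s]

theorem Aper.idem [Monoid S] {K : ℕ} (h : Aper S K) (s : S) : s ^ K * s ^ K = s ^ K := by
  rw [← pow_add, h.mono (by omega) s]

theorem Aper.mul [Monoid S] {K : ℕ} (h : Aper S K) (s : S) : s * s ^ K = s ^ K := by
  rw [← pow_succ', h s]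

theorem Aper.mul' [Monoid S] {K : ℕ} (h : Aper S K) (s : S) : s ^ K * s = s ^ K := by
  rw [← pow_succ, h s]

theorem Aper.of_le [Monoid S] {K K' : ℕ} (h : Aper S K) (hk : K ≤ K') : Aper S K' := fun s => by
  rw [h.mono (by omega) s, h.mono hk s]

theorem idem_pow [Monoid S] {e : S} (h : e * e = e) {n : ℕ} (hn : 1 ≤ n) : e ^ n = e := by
  induction n with
  | zero => omega
  | succ n ih =>
      rcases Nat.eq_zero_or_pos n with h0 | h0
      · subst h0; simp
      · rw [pow_succ, ih h0, h]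

theorem Cg.pw {r : List A → List A → Prop} (h : Cg r) {x y : List A} (hxy : r x y) (n : ℕ) :
    r (pw x n) (pw y n) := by
  induction n with
  | zero => exact h.refl _
  | succ n ih => rw [pw_succ, pw_succ]; exact h.app hxy ih

/-! ### Domination -/

variable {r : List A → List A → Prop}

theorem dom_refl (h : Cg r) (k : ℕ) (u : List A) : Dom r k u u := by
  induction k generalizing u with
  | zero => exact h.refl u
  | succ k ih => exact fun u₁ u₂ hu => ⟨u₁, u₂, hu, ih u₁, ih u₂⟩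

theorem dom_trans (h : Cg r) {k : ℕ} {u v w : List A} (h1 : Dom r k u v) (h2 : Dom r k v w) :
    Dom r k u w := by
  induction k generalizing u v w with
  | zero => exact h.trans h1 h2
  | succ k ih =>
      intro u₁ u₂ hu
      obtain ⟨v₁, v₂, hv, a1, a2⟩ := h1 u₁ u₂ hu
      obtain ⟨w₁, w₂, hw, b1, b2⟩ := h2 v₁ v₂ hv
      exact ⟨w₁, w₂, hw, ih a1 b1, ih a2 b2⟩

theorem dom_app_le (h : Cg r) (k : ℕ) :
    (∀ u u' v v' : List A, Dom r k u v → Dom r k u' v' → Dom r k (u ++ u') (v ++ v')) ∧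
    (∀ u v : List A, Dom r (k + 1) u v → Dom r k u v) := by
  induction k with
  | zero =>
      refine ⟨fun u u' v v' h1 h2 => h.app h1 h2, fun u v h1 => ?_⟩
      obtain ⟨v₁, v₂, hv, a1, a2⟩ := h1 [] u rfl
      have h2 : r ([] ++ u) (v₁ ++ v₂) := h.app a1 a2
      rw [← hv] at h2
      exact h2
  | succ k ih =>
      have h1 : ∀ u u' v v' : List A, Dom r (k + 1) u v → Dom r (k + 1) u' v' →
          Dom r (k + 1) (u ++ u') (v ++ v') := by
        intro u u' v v' h1 h2 w₁ w₂ hw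
        rcases List.append_eq_append_iff.1 hw with ⟨c, hc1, hc2⟩ | ⟨c, hc1, hc2⟩
        · -- w₁ = u ++ c, u' = c ++ w₂
          obtain ⟨v₁, v₂, hv, a1, a2⟩ := h2 c w₂ hc2
          refine ⟨v ++ v₁, v₂, by rw [hv, List.append_assoc], ?_, a2⟩
          rw [hc1]
          exact ih.1 _ _ _ _ (ih.2 _ _ h1) a1
        · -- u = w₁ ++ c, w₂ = c ++ u'
          obtain ⟨v₁, v₂, hv, a1, a2⟩ := h1 w₁ c hc1
          refine ⟨v₁, v₂ ++ v', by rw [hv, List.append_assoc], a1, ?_⟩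
          rw [hc2]
          exact ih.1 _ _ _ _ a2 (ih.2 _ _ h2)
      refine ⟨h1, fun u v h2 => ?_⟩
      obtain ⟨v₁, v₂, hv, a1, a2⟩ := h2 [] u rfl
      have h3 := h1 _ _ _ _ a1 a2
      rw [← hv] at h3
      simpa using h3

theorem dom_app (h : Cg r) {k : ℕ} {u u' v v' : List A} (h1 : Dom r k u v) (h2 : Dom r k u' v') :
    Dom r k (u ++ u') (v ++ v') := (dom_app_le h k).1 _ _ _ _ h1 h2

theorem dom_mono (h : Cg r) {k k' : ℕ} (hk : k ≤ k') {u v : List A} (h1 : Dom r k' u v) :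
    Dom r k u v := by
  induction hk with
  | refl => exact h1
  | step _ ih => exact ih ((dom_app_le h _).2 _ _ h1)

theorem dom_base (h : Cg r) {k : ℕ} {u v : List A} (h1 : Dom r k u v) : r u v :=
  dom_mono h (Nat.zero_le k) h1

/-- A dominated word with two parts. -/
theorem dom_two {k : ℕ} {u₁ u₂ v : List A} (h1 : Dom r (k + 1) (u₁ ++ u₂) v) :
    ∃ v₁ v₂, v = v₁ ++ v₂ ∧ Dom r k u₁ v₁ ∧ Dom r k u₂ v₂ := h1 u₁ u₂ rfl

/-- A dominated word with three parts. -/
theorem dom_three (h : Cg r) {k : ℕ} {u₁ u₂ u₃ v : List A}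
    (h1 : Dom r (k + 2) (u₁ ++ u₂ ++ u₃) v) :
    ∃ v₁ v₂ v₃, v = v₁ ++ v₂ ++ v₃ ∧ Dom r k u₁ v₁ ∧ Dom r k u₂ v₂ ∧ Dom r k u₃ v₃ := by
  obtain ⟨v', v₃, hv, a1, a2⟩ := h1 (u₁ ++ u₂) u₃ rfl
  obtain ⟨v₁, v₂, hv', b1, b2⟩ := a1 u₁ u₂ rfl
  exact ⟨v₁, v₂, v₃, by rw [hv, hv'], b1, b2, dom_mono h (Nat.le_succ k) a2⟩

/-- The relation may be replaced by a coarser one. -/
theorem dom_rel {r' : List A → List A → Prop} (hr : ∀ x y, r x y → r' x y) {k : ℕ} {u v : List A}
    (h1 : Dom r k u v) : Dom r' k u v := by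
  induction k generalizing u v with
  | zero => exact hr u v h1
  | succ k ih =>
      intro u₁ u₂ hu
      obtain ⟨v₁, v₂, hv, a1, a2⟩ := h1 u₁ u₂ hu
      exact ⟨v₁, v₂, hv, ih a1, ih a2⟩

theorem eqv_cg (h : Cg r) (k : ℕ) : Cg (Eqv r k) where
  refl x := ⟨dom_refl h k x, dom_refl h k x⟩
  symm h1 := ⟨h1.2, h1.1⟩
  trans h1 h2 := ⟨dom_trans h h1.1 h2.1, dom_trans h h2.2 h1.2⟩
  app h1 h2 := ⟨dom_app h h1.1 h2.1, dom_app h h1.2 h2.2⟩

theorem eqv_mono (h : Cg r) {k k' : ℕ} (hk : k ≤ k') {u v : List A} (h1 : Eqv r k' u v) :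
    Eqv r k u v := ⟨dom_mono h hk h1.1, dom_mono h hk h1.2⟩

theorem eqv_pw (h : Cg r) {k : ℕ} {E : List A} (hE : Eqv r k E (E ++ E)) {n : ℕ} (hn : 1 ≤ n) :
    Eqv r k E (pw E n) := by
  induction n with
  | zero => omega
  | succ n ih =>
      rcases Nat.eq_zero_or_pos n with h0 | h0
      · subst h0; simpa [DD.pw] using (eqv_cg h k).refl E
      · rw [pw_succ]
        exact (eqv_cg h k).trans hE ((eqv_cg h k).app ((eqv_cg h k).refl E) (ih h0))

theorem ApR.mono (h : Cg r) {K K' : ℕ} (hr : ApR r K) (hk : K ≤ K') : ApR r K' := by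
  induction hk with
  | refl => exact hr
  | step _ ih =>
      intro x
      rw [pw_succ, pw_succ x]
      exact h.app (h.refl x) (ih x)

/-! ### Chains -/

theorem step_mul [Monoid S] [Monoid N] {σ : List A → S} {η : List A → N} (hσ : IsHom σ) {s s' : S}
    (h : Step σ η s s') (x z : List A) : Step σ η (σ x * s * σ z) (σ x * s' * σ z) := by
  obtain ⟨G, E, Y, H, h1, h2, h3, rfl, rfl⟩ := h
  refine ⟨x ++ G, E, Y, H ++ z, h1, h2, h3, ?_, ?_⟩ <;> simp only [hσ.mul, mul_assoc]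

theorem chain_mul [Monoid S] [Monoid N] {σ : List A → S} {η : List A → N} (hσ : IsHom σ) {s s' : S}
    (h : Chain σ η s s') (x z : List A) : Chain σ η (σ x * s * σ z) (σ x * s' * σ z) := by
  induction h with
  | refl => exact Relation.ReflTransGen.refl
  | tail _ h2 ih => exact ih.tail (step_mul hσ h2 x z)

end Pool.Agent.MSL
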