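import Pool.Agent.MSL.Bas

/-!
# Project MSL: facts on blocks

`Bl η m r x`: `x = y₁ y₂ ... y_r z` with all `y_i` in `L_m` (`bl_list`; induction on `r`).  `L_m` is closed under
superwords (`inl_sup`).  `inl_nil`: `1 = a m b` implies `m = 1`: (A1) directly: `1 = a * 1 * (m b)`, so
`a^K = 1`-type argument: `a (m b) = 1` gives `a^(K+1) (m b)^(K+1) = 1 = a^K (m b)^K`, so `a = 1` (`a = a^(K+1) (mb)^K =
a^K (mb)^K = 1`), then `m b = 1`, and in the same way `m = 1`.
`bl_snoc`: `x ++ [a] = y₁ ... y_(r+1) z`; since `y_(r+1) ≠ []` (`inl_nil`), `y₁ ... y_r` is a initial part of `x` (it is a proper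
initial part of `x ++ [a]`).  `bl_cons`: if `y₁ = [a] ++ y'` then `x = y' y₂ ... z` has the blocks `y₂, ..., y_(r+1)`.
`bl_dom`: induction on `j`: `x = y z` with `y ∈ L_m`, `Bl j z`; `dom_two`; `η` of the first parts agree.
-/

namespace Pool.Agent.MSL

open Pool.Agent.DD Pool.Agent.HLV

variable {A M N S : Type}

theorem inl_sup [Monoid N] {η : List A → N} (hη : IsHom η) {m : N} {x : List A} (p q : List A)
    (h : InL η m x) : InL η m (p ++ x ++ q) := by
  obtain ⟨a, b, h⟩ := h
  refine ⟨η p * a, b * η q, ?_⟩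
  rw [hη.mul3, h]
  simp only [mul_assoc]

theorem bl_sup [Monoid N] {η : List A → N} (hη : IsHom η) {m : N} {r : ℕ} {x : List A}
    (p q : List A) (h : Bl η m r x) : Bl η m r (p ++ x ++ q) := by
  induction r generalizing x p q with
  | zero => trivial
  | succ r ih =>
      obtain ⟨y, z, hx, hy, hz⟩ := h
      refine ⟨p ++ y, z ++ q, ?_, ?_, ?_⟩
      · rw [hx]
        simp only [List.append_assoc]
      · have h1 := inl_sup hη p [] hy
        rwa [List.append_nil] at h1
      · exact ih [] q hz

theorem bl_inf [Monoid N] {η : List A → N} (hη : IsHom η) {m : N} {r : ℕ} {x y : List A}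
    (hxy : x <:+: y) (h : Bl η m r x) : Bl η m r y := by
  obtain ⟨p, q, rfl⟩ := hxy
  exact bl_sup hη p q h

theorem bl_le [Monoid N] {η : List A → N} {m : N} {r s : ℕ} (hs : s ≤ r) {x : List A}
    (h : Bl η m r x) : Bl η m s x := by
  induction r generalizing s x with
  | zero =>
      obtain rfl : s = 0 := by omega
      trivial
  | succ r ih =>
      cases s with
      | zero => trivial
      | succ s =>
          obtain ⟨y, z, hx, hy, hz⟩ := h
          exact ⟨y, z, hx, hy, ih (by omega) hz⟩

theorem bl_add [Monoid N] {η : List A → N} (hη : IsHom η) {m : N} {r s : ℕ} {x y : List A}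
    (h : Bl η m r x) (h' : Bl η m s y) : Bl η m (r + s) (x ++ y) := by
  induction r generalizing x with
  | zero =>
      rw [Nat.zero_add]
      have h1 := bl_sup hη x [] h'
      rwa [List.append_nil] at h1
  | succ r ih =>
      obtain ⟨u, z, hx, hu, hz⟩ := h
      rw [Nat.succ_add]
      exact ⟨u, z ++ y, by rw [hx, List.append_assoc], hu, ih hz⟩

theorem bl_split [Monoid N] {η : List A → N} {m : N} {r s : ℕ} {z : List A}
    (h : Bl η m (r + s) z) : ∃ x y, z = x ++ y ∧ Bl η m r x ∧ Bl η m s y := by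
  induction r generalizing z with
  | zero => exact ⟨[], z, rfl, trivial, by rwa [Nat.zero_add] at h⟩
  | succ r ih =>
      rw [Nat.succ_add] at h
      obtain ⟨u, w, hz, hu, hw⟩ := h
      obtain ⟨x, y, hxy, hx, hy⟩ := ih hw
      exact ⟨u ++ x, y, by rw [hz, hxy, List.append_assoc], ⟨u, x, rfl, hu, hx⟩, hy⟩

theorem bl_list [Monoid N] {η : List A → N} {m : N} {r : ℕ} {x : List A} :
    Bl η m r x ↔ ∃ (ys : List (List A)) (z : List A), x = ys.flatten ++ z ∧ ys.length = r ∧
      ∀ y ∈ ys, InL η m y := by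
  constructor
  · intro h
    induction r generalizing x with
    | zero => exact ⟨[], x, rfl, rfl, by simp⟩
    | succ r ih =>
        obtain ⟨u, w, hx, hu, hw⟩ := h
        obtain ⟨ys, z, h1, h2, h3⟩ := ih hw
        refine ⟨u :: ys, z, ?_, ?_, ?_⟩
        · rw [hx, h1, List.flatten_cons, List.append_assoc]
        · rw [List.length_cons, h2]
        · intro y hy
          rcases List.mem_cons.1 hy with h | h
          · rw [h]
            exact hu
          · exact h3 y h
  · rintro ⟨ys, z, h1, h2, h3⟩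
    induction ys generalizing r x with
    | nil =>
        obtain rfl : r = 0 := by rw [← h2]; rfl
        trivial
    | cons y ys ih =>
        obtain ⟨s, rfl⟩ : ∃ s, r = s + 1 := ⟨ys.length, by rw [← h2]; rfl⟩
        refine ⟨y, ys.flatten ++ z, ?_, h3 y List.mem_cons_self, ih rfl ?_ ?_⟩
        · rw [h1, List.flatten_cons, List.append_assoc]
        · have h4 : ys.length + 1 = s + 1 := h2
          omega
        · exact fun y' hy' => h3 y' (List.mem_cons_of_mem _ hy')

theorem bl_one [Monoid N] {η : List A → N} (hη : IsHom η) {m : N} {x : List A} :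
    Bl η m 1 x ↔ InL η m x := by
  constructor
  · rintro ⟨y, z, rfl, hy, -⟩
    exact inl_sup hη [] z hy
  · intro h
    exact ⟨x, [], (List.append_nil x).symm, h, trivial⟩

theorem inl_nil [Monoid N] {η : List A → N} (hη : IsHom η) {K : ℕ} (aN : Aper N K) {m : N}
    (hm : m ≠ 1) : ¬ InL η m [] := by
  have key : ∀ x y : N, x * y = 1 → x = 1 ∧ y = 1 := by
    intro x y hxy
    have h1 : ∀ n : ℕ, x ^ n * y ^ n = 1 := by
      intro n
      induction n with
      | zero => rw [pow_zero, pow_zero, mul_one]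
      | succ n ih =>
          calc x ^ (n + 1) * y ^ (n + 1) = x ^ n * (x * y) * y ^ n := by
                rw [pow_succ, pow_succ']
                simp only [mul_assoc]
            _ = 1 := by rw [hxy, mul_one, ih]
    have h2 : x = 1 := by
      calc x = x * (x ^ K * y ^ K) := by rw [h1, mul_one]
        _ = x ^ (K + 1) * y ^ K := by rw [← mul_assoc, ← pow_succ']
        _ = 1 := by rw [aN x, h1]
    refine ⟨h2, ?_⟩
    rwa [h2, one_mul] at hxy
  rintro ⟨a, b, h⟩
  rw [hη.one, mul_assoc] at h
  exact hm (key m b (key a (m * b) h.symm).2).1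

theorem bl_snoc [Monoid N] {η : List A → N} (hη : IsHom η) {K : ℕ} (aN : Aper N K) {m : N}
    (hm : m ≠ 1) {r : ℕ} {x : List A} {a : A} (h : Bl η m (r + 1) (x ++ [a])) :
    Bl η m r x := by
  obtain ⟨u, v, h1, h2, h3⟩ := bl_split h
  rw [bl_one hη] at h3
  rcases List.eq_nil_or_concat v with hv | ⟨v', c, hv⟩
  · rw [hv] at h3
    exact absurd h3 (inl_nil hη aN hm)
  · rw [hv, List.concat_eq_append, ← List.append_assoc] at h1
    have h4 := (List.append_inj' h1 rfl).1
    rw [h4]
    exact bl_sup hη [] v' h2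

theorem bl_cons [Monoid N] {η : List A → N} (hη : IsHom η) {K : ℕ} (aN : Aper N K) {m : N}
    (hm : m ≠ 1) {r : ℕ} {x : List A} {a : A} (h : Bl η m (r + 1) (a :: x)) :
    Bl η m r x := by
  obtain ⟨y, z, h1, h2, h3⟩ := h
  cases y with
  | nil => exact absurd h2 (inl_nil hη aN hm)
  | cons c y' =>
      rw [List.cons_append] at h1
      rw [(List.cons.inj h1).2]
      have h4 := bl_sup hη y' [] h3
      rwa [List.append_nil] at h4

theorem bl_dom [Monoid N] {η : List A → N} {r : List A → List A → Prop} (h : Cg r)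
    (hr : ∀ x y, r x y → η x = η y) {m : N} {j k : ℕ} (hj : j ≤ k) {x y : List A}
    (hd : Dom r k x y) (hx : Bl η m j x) : Bl η m j y := by
  induction j generalizing k x y with
  | zero => trivial
  | succ j ih =>
      obtain ⟨k, rfl⟩ : ∃ k', k = k' + 1 := ⟨k - 1, by omega⟩
      obtain ⟨u, v, rfl, hu, hv⟩ := hx
      obtain ⟨y₁, y₂, hy, h1, h2⟩ := dom_two hd
      refine ⟨y₁, y₂, hy, ?_, ih (by omega) h2 hv⟩
      obtain ⟨a, b, hab⟩ := hu
      exact ⟨a, b, by rw [← hr _ _ (dom_base h h1), hab]⟩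

end Pool.Agent.MSL
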