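import Pool.Agent.MSL.Bas
import Pool.Agent.HLV.Cls
import Pool.Agent.DD.Rec

/-!
# Project MSL: relations `δ` which see given languages of `B A n` or `B A (n+1)`

`exists_base0`: add to `Qs` the singletons `{[]}` and `{[a]}`, `a : A` (members of `B A 0`, so of `B A n`:
`HLV.finite_mem_B`; `A` is finite), and put `δ x y := ∀ Q ∈ Qs', SynEq Q x y`.  `Cg`: `SynEq.refl/symm/trans/app`.
Finite index: `HLV.exists_reps` gives a list of representatives; `c x` = index of a representative.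
Aperiodic: each `Q` is `Rec` (`DD.rec_B`), which gives an exponent for each `Q`; take the maximum.
Classes: `HLV.synClass_B`.  `eps`, `sgl`: `SynEq.mem` for the singletons.
`exists_base`: every `L ∈ Ls` is a Boolean combination of members of `MonCl (B A n)`
(`BoolCl.exists_list`), and each of these is `catList L₀ Ls'` with all factors in `B A n` (`MonCl_B`).  Let `δ` be
from `exists_base0` for all these factors, and `k` the maximum of the lengths of the `Ls'`.  If `x ≤_k y`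
(`Dom δ k x y`, `k ≥ Ls'.length`) and `x ∈ catList L₀ Ls'` then `y ∈ catList L₀ Ls'` (induction on `Ls'`;
`SynEq.mem` at level 0), and `s ++ x ++ t ≤_k s ++ y ++ t` by `dom_app`; so `SynEq P x y` for all these
products `P`, so `SynEq L x y`.
-/

namespace Pool.Agent.MSL

open Pool.Agent.DD Pool.Agent.HLV

variable {A M N S : Type}

theorem exists_base0 [Finite A] (n : ℕ) (Qs : List (Lang A)) (hQ : ∀ Q ∈ Qs, Q ∈ B A n) :
    ∃ δ : List A → List A → Prop, Base n δ ∧ ∀ x y, δ x y → ∀ Q ∈ Qs, SynEq Q x y := by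
  classical
  have := Fintype.ofFinite A
  obtain ⟨Qs', hQs'⟩ : ∃ Qs' : List (Lang A), Qs' = Qs ++ ({[]} : Lang A) ::
    (Finset.univ : Finset A).toList.map (fun a => ({[a]} : Lang A)) := ⟨_, rfl⟩
  have h0 : ∀ Q ∈ Qs', Q ∈ B A n := by
    intro Q hq
    rw [hQs'] at hq
    rcases List.mem_append.1 hq with hq | hq
    · exact hQ Q hq
    rcases List.mem_cons.1 hq with hq | hq
    · rw [hq]
      exact finite_mem_B (Set.finite_singleton _) n
    · obtain ⟨a, _, rfl⟩ := List.mem_map.1 hq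
      exact finite_mem_B (Set.finite_singleton _) n
  have h1 : ∀ Q ∈ Qs, Q ∈ Qs' := fun Q hq => by
    rw [hQs']; exact List.mem_append.2 (Or.inl hq)
  have h2 : ({[]} : Lang A) ∈ Qs' := by
    rw [hQs']; exact List.mem_append.2 (Or.inr (List.mem_cons.2 (Or.inl rfl)))
  have h3 : ∀ a : A, ({[a]} : Lang A) ∈ Qs' := fun a => by
    rw [hQs']
    exact List.mem_append.2 (Or.inr (List.mem_cons.2 (Or.inr
      (List.mem_map.2 ⟨a, Finset.mem_toList.2 (Finset.mem_univ _), rfl⟩))))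
  obtain ⟨N, hM, hF, φ, e1, e2, ⟨k, e3⟩, e4⟩ := exists_common_rec Qs' fun Q hq => rec_B (h0 Q hq)
  have hφ : IsHom φ := ⟨e1, e2⟩
  have key : ∀ x y, φ x = φ y → ∀ Q ∈ Qs', SynEq Q x y := by
    intro x y hxy Q hq s t
    refine e4 Q hq _ _ ?_
    rw [hφ.mul3, hφ.mul3, hxy]
  refine ⟨fun x y => ∀ Q ∈ Qs', SynEq Q x y, ?_, fun x y h Q hq => h Q (h1 Q hq)⟩
  refine ⟨⟨fun x Q _ => SynEq.refl Q x, fun h Q hq => (h Q hq).symm,
    fun h h' Q hq => (h Q hq).trans (h' Q hq), fun h h' Q hq => (h Q hq).app (h' Q hq)⟩,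
    ?_, ⟨k, ?_⟩, ?_, ?_, ?_⟩
  · obtain ⟨m, ⟨e⟩⟩ := Finite.exists_equiv_fin N
    exact ⟨m, fun x => e (φ x), fun x y h => key x y (e.injective h)⟩
  · intro x
    refine key _ _ ?_
    rw [hφ.pw, hφ.pw, e3]
  · intro u
    exact synClass_B Qs' h0 u
  · intro x hx
    have := (hx _ h2).mem
    exact this.2 rfl
  · intro x a hx
    have := (hx _ (h3 a)).mem
    exact this.2 rfl

private theorem dom_catList {δ : List A → List A → Prop} (h : Cg δ) (Ls : List (Lang A)) :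
    ∀ (L₀ : Lang A) (k : ℕ), Ls.length ≤ k →
      (∀ x y, δ x y → ∀ Q ∈ L₀ :: Ls, SynEq Q x y) →
      ∀ x y, Dom δ k x y → x ∈ catList L₀ Ls → y ∈ catList L₀ Ls := by
  induction Ls with
  | nil =>
      intro L₀ k _ hδ x y hd hx
      exact ((hδ x y (dom_base h hd) L₀ (by simp)).mem).1 hx
  | cons K Ks ih =>
      intro L₀ k hk hδ x y hd hx
      obtain ⟨x₁, hx₁, x₂, hx₂, rfl⟩ := hx
      obtain ⟨k', rfl⟩ : ∃ k', k = k' + 1 := ⟨k - 1, by simp at hk; omega⟩
      obtain ⟨y₁, y₂, rfl, h1, h2⟩ := dom_two hd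
      refine ⟨y₁, ?_, y₂, ?_, rfl⟩
      · exact ((hδ x₁ y₁ (dom_base h h1) L₀ (by simp)).mem).1 hx₁
      · refine ih K k' (by simpa using hk) (fun a b hab Q hq => hδ a b hab Q ?_) x₂ y₂ h2 hx₂
        exact List.mem_cons.2 (Or.inr hq)

private theorem exists_prod (n : ℕ) (Ls : List (Lang A)) (hL : ∀ L ∈ Ls, L ∈ B A (n + 1)) :
    ∃ Ps : List (Lang A), (∀ P ∈ Ps, P ∈ MonCl (B A n)) ∧
      ∀ x y, (∀ P ∈ Ps, SynEq P x y) → ∀ L ∈ Ls, SynEq L x y := by
  induction Ls with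
  | nil => exact ⟨[], by simp, fun x y _ L hL => absurd hL (by simp)⟩
  | cons L Ls ih =>
      obtain ⟨Ps, h1, h2⟩ := ih fun L' h' => hL L' (List.mem_cons.2 (Or.inr h'))
      have hb : BoolCl (MonCl (B A n)) L := hL L (by simp)
      obtain ⟨Ps', h3, h4⟩ := hb.exists_list
      refine ⟨Ps' ++ Ps, fun P hP => ?_, fun x y hxy L' h' => ?_⟩
      · rcases List.mem_append.1 hP with hP | hP
        · exact h3 P hP
        · exact h1 P hP
      · rcases List.mem_cons.1 h' with rfl | h'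
        · exact h4 x y fun P hP => hxy P (List.mem_append.2 (Or.inl hP))
        · exact h2 x y (fun P hP => hxy P (List.mem_append.2 (Or.inr hP))) L' h'

private theorem exists_fac (n : ℕ) (Ps : List (Lang A)) (hP : ∀ P ∈ Ps, P ∈ MonCl (B A n)) :
    ∃ (Qs : List (Lang A)) (k : ℕ), (∀ Q ∈ Qs, Q ∈ B A n) ∧
      ∀ δ : List A → List A → Prop, Cg δ → (∀ x y, δ x y → ∀ Q ∈ Qs, SynEq Q x y) →
        ∀ x y, Dom δ k x y → ∀ P ∈ Ps, x ∈ P → y ∈ P := by
  induction Ps with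
  | nil => exact ⟨[], 0, by simp, fun δ _ _ x y _ P hP => absurd hP (by simp)⟩
  | cons P Ps ih =>
      obtain ⟨Qs, k, h1, h2⟩ := ih fun P' h' => hP P' (List.mem_cons.2 (Or.inr h'))
      obtain ⟨L₀, hL₀, Ls, hLs, hPe⟩ := MonCl_B (hP P (by simp))
      refine ⟨(L₀ :: Ls) ++ Qs, max Ls.length k, fun Q hq => ?_, fun δ hδ hs x y hd P' h' hx => ?_⟩
      · rcases List.mem_append.1 hq with hq | hq
        · rcases List.mem_cons.1 hq with rfl | hq
          · exact hL₀
          · exact hLs Q hq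
        · exact h1 Q hq
      · rcases List.mem_cons.1 h' with rfl | h'
        · rw [hPe] at hx ⊢
          exact dom_catList hδ Ls L₀ (max Ls.length k) (le_max_left _ _)
            (fun a b hab Q hq => hs a b hab Q (List.mem_append.2 (Or.inl hq))) x y hd hx
        · exact h2 δ hδ (fun a b hab Q hq => hs a b hab Q (List.mem_append.2 (Or.inr hq))) x y
            (dom_mono hδ (le_max_right _ _) hd) P' h' hx

theorem exists_base [Finite A] (n : ℕ) (Ls : List (Lang A)) (hL : ∀ L ∈ Ls, L ∈ B A (n + 1)) :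
    ∃ (δ : List A → List A → Prop) (k : ℕ), Base n δ ∧
      ∀ x y, Eqv δ k x y → ∀ L ∈ Ls, SynEq L x y := by
  obtain ⟨Ps, h1, h2⟩ := exists_prod n Ls hL
  obtain ⟨Qs, k, h3, h4⟩ := exists_fac n Ps h1
  obtain ⟨δ, hb, hδ⟩ := exists_base0 n Qs h3
  refine ⟨δ, k, hb, fun x y hxy => h2 x y fun P hP s t => ?_⟩
  have hr := dom_refl hb.cg k
  exact ⟨h4 δ hb.cg hδ _ _ (dom_app hb.cg (dom_app hb.cg (hr s) hxy.1) (hr t)) P hP,
    h4 δ hb.cg hδ _ _ (dom_app hb.cg (dom_app hb.cg (hr s) hxy.2) (hr t)) P hP⟩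

end Pool.Agent.MSL
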