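import Pool.Agent.MSL.Cpf

/-!
# Project MSL: computable `flatMap`

The image of a computable list under `flatMap` of a computable map is computable, by recursion on the number of entries of the
list which are already treated.
-/

namespace Pool.Agent.MSL

open Pool.Agent.DD Pool.Agent.HLV Pool.Agent.HSP

variable {α β γ : Type} [Primcodable α] [Primcodable β] [Primcodable γ]

private def cflStep (h : α × β → List γ) (l : α → List β) (a : α) (p : ℕ × List γ) : List γ :=
  Option.casesOn ((l a)[p.1]?) p.2 (fun b => p.2 ++ h (a, b))

private def cflAll (h : α × β → List γ) (l : α → List β) (a : α) (n : ℕ) : List γ :=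
  Nat.rec (motive := fun _ => List γ) [] (fun y IH => cflStep h l a (y, IH)) n

private theorem cfl_comp {h : α × β → List γ} (hh : Computable h) {l : α → List β} (hl : Computable l) :
    Computable fun a => cflAll h l a (l a).length := by
  have hstep : Computable₂ (cflStep h l) := by
    have h1 : Computable fun q : α × (ℕ × List γ) => (l q.1)[q.2.1]? :=
      Computable.list_getElem?.comp (hl.comp Computable.fst) (Computable.fst.comp Computable.snd)
    have h2 : Computable fun q : α × (ℕ × List γ) => q.2.2 := Computable.snd.comp Computable.snd
    have h3 : Computable₂ fun (q : α × (ℕ × List γ)) (b : β) => (q.2.2 ++ h (q.1, b)) :=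
      Computable.list_append.comp (h2.comp Computable.fst)
        (hh.comp (Computable.pair (Computable.fst.comp Computable.fst) Computable.snd))
    exact Computable.option_casesOn h1 h2 h3
  exact Computable.nat_rec (Computable.list_length.comp hl) (Computable.const []) hstep

omit [Primcodable α] [Primcodable β] [Primcodable γ] in
private theorem cfl_all (h : α × β → List γ) (l : α → List β) (a : α) (n : ℕ) :
    cflAll h l a n = ((l a).take n).flatMap fun b => h (a, b) := by
  induction n with
  | zero => rw [List.take_zero]; rfl
  | succ n ih =>
      have e : cflAll h l a (n + 1) = cflStep h l a (n, cflAll h l a n) := rfl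
      rw [e]
      unfold cflStep
      rw [List.take_add_one, List.flatMap_append, ← ih]
      cases hn : (l a)[n]? with
      | none => simp
      | some c => simp

theorem cl_flatMap {l : α → List β} (hl : Computable l) {h : α × β → List γ}
    (hh : Computable h) : Computable fun a => (l a).flatMap fun b => h (a, b) := by
  refine (cfl_comp hh hl).of_eq fun a => ?_
  rw [cfl_all, List.take_length]

end Pool.Agent.MSL
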