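import Pool.Agent.MSL.Bas
import Pool.Agent.DD.Rec

/-!
# Project MSL: idempotent powers, aperiodicity with a given exponent

`exists_idem`: a common exponent of idempotent powers in a finite monoid.  `snd_aper`: the syntactic congruence of a
language in `B A i` is aperiodic with every exponent at least the cardinality of a monoid which recognizes it.
-/

namespace Pool.Agent.MSL

open Pool.Agent.DD Pool.Agent.HLV

variable {A M : Type}

private theorem idm_period [Monoid M] {m : M} {a p : ℕ} (h : m ^ a = m ^ (a + p)) (t : ℕ) {n : ℕ}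
    (hn : a ≤ n) : m ^ (n + t * p) = m ^ n := by
  induction t with
  | zero => rw [Nat.zero_mul, Nat.add_zero]
  | succ t ih =>
    obtain ⟨c, rfl⟩ := Nat.exists_eq_add_of_le hn
    have e1 : a + c + (t + 1) * p = (a + p) + (c + t * p) := by ring
    have e2 : a + c + t * p = a + (c + t * p) := by ring
    rw [e1, pow_add, ← h, ← pow_add, ← e2, ih]

theorem exists_idem (M : Type) [Monoid M] [Finite M] :
    ∃ N, 1 ≤ N ∧ ∀ m : M, m ^ N * m ^ N = m ^ N := by
  have h1 : ∀ m : M, ∃ n : ℕ, 1 ≤ n ∧ m ^ n * m ^ n = m ^ n := by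
    intro m
    obtain ⟨i, j, hij, he⟩ := Finite.exists_ne_map_eq_of_infinite (fun i : ℕ => m ^ (i + 1))
    have h2 : ∀ i j : ℕ, i < j → m ^ (i + 1) = m ^ (j + 1) →
        ∃ n : ℕ, 1 ≤ n ∧ m ^ n * m ^ n = m ^ n := by
      intro i j hlt heq
      obtain ⟨p, rfl⟩ := Nat.exists_eq_add_of_lt hlt
      have e1 : i + p + 1 + 1 = (i + 1) + (p + 1) := by ring
      rw [e1] at heq
      refine ⟨(i + 1) * (p + 1), Nat.succ_le_of_lt (Nat.mul_pos (Nat.succ_pos i) (Nat.succ_pos p)), ?_⟩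
      rw [← pow_add]
      exact idm_period heq (i + 1) (Nat.le_mul_of_pos_right (i + 1) (Nat.succ_pos p))
    rcases lt_or_gt_of_ne hij with h | h
    · exact h2 i j h he
    · exact h2 j i h he.symm
  choose f hf1 hf2 using h1
  have := Fintype.ofFinite M
  refine ⟨∏ m : M, f m, Nat.succ_le_of_lt (Finset.prod_pos fun m _ => hf1 m), ?_⟩
  intro m
  obtain ⟨t, ht⟩ := Finset.dvd_prod_of_mem f (Finset.mem_univ m)
  have hpos : 0 < ∏ m : M, f m := Finset.prod_pos fun m _ => hf1 m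
  have ht1 : 1 ≤ t := by
    rcases Nat.eq_zero_or_pos t with h0 | h0
    · rw [ht, h0, Nat.mul_zero] at hpos
      exact absurd hpos (lt_irrefl 0)
    · exact h0
  rw [ht, pow_mul, idem_pow (hf2 m) ht1]
  exact hf2 m

theorem snd_aper [Finite A] {i : ℕ} {L : Lang A} (hL : L ∈ B A i) [Monoid M] [Finite M]
    {α : List A → M} (hα : IsHom α) (hr : ∀ x y, α x = α y → SynEq L x y) {K : ℕ}
    (hK : Nat.card M ≤ K) : ∀ x, SynEq L (pw x (K + 1)) (pw x K) := by
  obtain ⟨N', _, _, φ, h1, hmul, ⟨k₀, hk₀⟩, hφ⟩ := rec_B hL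
  have hφh : IsHom φ := ⟨h1, hmul⟩
  have hap : Aper N' k₀ := hk₀
  have hsyn : ∀ x y, φ x = φ y → SynEq L x y := by
    intro x y hxy s t
    refine hφ _ _ ?_
    rw [hmul, hmul, hxy, hmul, hmul]
  intro x
  have := Fintype.ofFinite M
  obtain ⟨i, j, hij, he⟩ := Fintype.exists_ne_map_eq_of_card_lt
    (fun i : Fin (Nat.card M + 1) => α x ^ (i : ℕ)) (by
      rw [Fintype.card_fin, Nat.card_eq_fintype_card]
      exact Nat.lt_succ_self _)
  have h2 : ∃ a p : ℕ, 1 ≤ p ∧ a ≤ K ∧ α x ^ a = α x ^ (a + p) := by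
    have h3 : ∀ a b : ℕ, a < b → b < Nat.card M + 1 → α x ^ a = α x ^ b →
        ∃ a p : ℕ, 1 ≤ p ∧ a ≤ K ∧ α x ^ a = α x ^ (a + p) := by
      intro a b hab hb heq
      refine ⟨a, b - a, by omega, by omega, ?_⟩
      have e1 : a + (b - a) = b := by omega
      rw [e1]
      exact heq
    have hne : (i : ℕ) ≠ (j : ℕ) := fun h => hij (Fin.ext h)
    rcases lt_or_gt_of_ne hne with h | h
    · exact h3 i j h j.2 he
    · exact h3 j i h i.2 he.symm
  obtain ⟨a, p, hp, haK, hper⟩ := h2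
  have e1 : SynEq L (pw x (K + k₀ * p)) (pw x K) := by
    refine hr _ _ ?_
    rw [hα.pw, hα.pw]
    exact idm_period hper k₀ haK
  have hk : k₀ ≤ K + k₀ * p := by
    have h3 : k₀ * 1 ≤ k₀ * p := Nat.mul_le_mul_left k₀ hp
    omega
  have e2 : SynEq L (pw x (K + k₀ * p + 1)) (pw x (K + k₀ * p)) := by
    refine hsyn _ _ ?_
    rw [hφh.pw, hφh.pw, hap.mono (by omega) (φ x), hap.mono hk (φ x)]
  have e3 : SynEq L (pw x (K + 1)) (pw x (K + k₀ * p + 1)) := by
    rw [pw_succ, pw_succ x (K + k₀ * p)]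
    exact (e1.symm).left x
  exact e3.trans (e2.trans e1)

end Pool.Agent.MSL
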