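import Pool.Agent.MSL.Jma
import Pool.Agent.MSL.Idm
import Pool.Agent.HLV.Cls
import Pool.Agent.HLV.PolB

/-!
# Project MSL: the first condition is necessary

If the classes of `e` and `y` are not separable by a member of `B A (n+1)`, there are members of them which are equivalent for
the finitely many languages of `jump_one`; a large power of the first one is idempotent for these languages.
-/

namespace Pool.Agent.MSL

open Pool.Agent.DD Pool.Agent.HLV

variable {A M : Type}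

private theorem snb_pw {L : Lang A} {x y : List A} (h : SynEq L x y) (n : ℕ) :
    SynEq L (pw x n) (pw y n) := by
  induction n with
  | zero => exact SynEq.refl L _
  | succ n ih =>
      rw [pw_succ, pw_succ y]
      exact h.app ih

/-- a common exponent for finitely many languages -/
private theorem snb_exp [Finite A] {i : ℕ} (Qs : List (Lang A)) (hQ : ∀ Q ∈ Qs, Q ∈ B A i) :
    ∃ κ : ℕ, 1 ≤ κ ∧ ∀ Q ∈ Qs, ∀ (x : List A) (j : ℕ), κ ≤ j → SynEq Q (pw x j) (pw x κ) := by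
  induction Qs with
  | nil => exact ⟨1, le_refl 1, fun Q h => absurd h List.not_mem_nil⟩
  | cons Q₀ Qs ih =>
      obtain ⟨κ, h1, h2⟩ := ih fun Q h => hQ Q (List.mem_cons_of_mem _ h)
      obtain ⟨N', _, _, φ, g1, g2, ⟨k₀, g3⟩, g4⟩ := rec_B (hQ Q₀ List.mem_cons_self)
      have hφ : IsHom φ := ⟨g1, g2⟩
      have hap : Aper N' k₀ := g3
      refine ⟨max κ k₀, h1.trans (le_max_left _ _), ?_⟩
      intro Q hQ' x j hj
      rcases List.mem_cons.1 hQ' with rfl | h
      · intro s t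
        refine g4 _ _ ?_
        rw [hφ.mul3, hφ.mul3, hφ.pw, hφ.pw, hap.mono ((le_max_right κ k₀).trans hj) (φ x),
          hap.mono (le_max_right κ k₀) (φ x)]
      · exact (h2 Q h x j ((le_max_left _ _).trans hj)).trans
          (h2 Q h x (max κ k₀) (le_max_left _ _)).symm

theorem i1_congr {L : Lang A} {K : ℕ} {e e' y y' z : List A} (he : SynEq L e e')
    (hy : SynEq L y y') (h : I1 L K e y z) : I1 L K e' y' z := by
  have h1 : SynEq L (z ++ e) (z ++ e') := he.left z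
  have h2 : SynEq L (z ++ e ++ y ++ e) (z ++ e' ++ y' ++ e') := (h1.app hy).app he
  have h3 := snb_pw h2 K
  unfold I1 at h ⊢
  exact ((((h3.app h1).app h3).symm).trans h).trans h3

theorem snd1 [Finite A] {n : ℕ} {L : Lang A} (hL : L ∈ B A (n + 2)) [Monoid M]
    {α : List A → M} (hα : IsHom α) (hr : ∀ x y, α x = α y → SynEq L x y) {K : ℕ}
    (hap : ∀ x, SynEq L (pw x (K + 1)) (pw x K)) {e y z : List A} (he : α (e ++ e) = α e)
    (hs : ¬ Separable (B A (n + 1)) (cls α e) (cls α y)) : I1 L K e y z := by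
  obtain ⟨Qs, hQ, hj⟩ := jump_one hL hap
  have hex : ∃ E ∈ cls α e, ∃ Y ∈ cls α y, ∀ Q ∈ Qs, SynEq Q E Y := by
    by_contra hno
    apply hs
    obtain ⟨xs, hxs⟩ := exists_reps Qs hQ
    classical
    refine ⟨{w | ∃ x ∈ xs.filter (fun x => decide (∃ E ∈ cls α e, ∀ Q ∈ Qs, SynEq Q E x)),
      w ∈ {w | ∀ Q ∈ Qs, SynEq Q x w}}, ?_, ?_, ?_⟩
    · exact B_list_union _ (fun x => {w | ∀ Q ∈ Qs, SynEq Q x w}) fun x _ => synClass_B Qs hQ x
    · intro w hw
      obtain ⟨x, hx, hxw⟩ := hxs w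
      exact ⟨x, List.mem_filter.2 ⟨hx, decide_eq_true ⟨w, hw, fun Q hQ' => (hxw Q hQ').symm⟩⟩, hxw⟩
    · rintro w ⟨x, hx, hxw⟩ hwy
      obtain ⟨_, h2⟩ := List.mem_filter.1 hx
      obtain ⟨E, hE, hEx⟩ := of_decide_eq_true h2
      exact hno ⟨E, hE, w, hwy, fun Q hQ' => (hEx Q hQ').trans (hxw Q hQ')⟩
  obtain ⟨E, hE, Y, hY, hEY⟩ := hex
  obtain ⟨κ, hκ, hexp⟩ := snb_exp Qs hQ
  have hEe : α E = α e := hE
  have hYy : α Y = α y := hY
  have hee : α e * α e = α e := by rw [← hα.mul, he]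
  have hE' : α (pw E κ) = α e := by rw [hα.pw, hEe, idem_pow hee hκ]
  have h1 : ∀ Q ∈ Qs, SynEq Q (pw E κ) (pw E κ ++ pw E κ) := by
    intro Q hQ'
    rw [← pw_add]
    exact (hexp Q hQ' E (κ + κ) (Nat.le_add_left _ _)).symm
  have h2 : ∀ Q ∈ Qs, SynEq Q (pw E κ) (pw E κ ++ Y ++ pw E κ) := by
    intro Q hQ'
    have h3 : SynEq Q (pw E κ ++ E ++ pw E κ) (pw E κ ++ Y ++ pw E κ) :=
      ((SynEq.refl Q (pw E κ)).app (hEY Q hQ')).app (SynEq.refl Q (pw E κ))
    refine SynEq.trans ?_ h3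
    rw [← pw_succ', ← pw_add]
    exact (hexp Q hQ' E (κ + 1 + κ) (Nat.le_add_left _ _)).symm
  have h3 : SynEq L (pw E κ) (pw E κ ++ pw E κ) := by
    refine hr _ _ ?_
    rw [hα.mul, hE', hee]
  exact i1_congr (hr _ _ hE') (hr _ _ hYy) (hj (pw E κ) Y z (fun Q hQ' => ⟨h1 Q hQ', h2 Q hQ'⟩) h3)

end Pool.Agent.MSL
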