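import Pool.Agent.MSL.Hya
import Pool.Agent.MSL.Idm
import Pool.Agent.MSL.Snb

/-!
# Project MSL: the hypothesis (H1) from the first condition

`Bad m m' := ∃ e y z, α e = m ∧ α y = m' ∧ ¬ I1 L K e y z`.  `hyp1`: if `α (ee) = α e` and `Bad (α e) (α y)` with witnesses
`e' y' z'`, then by `h` (for `e'`, `y'`; `cls α e' = cls α e`) the classes are separable.  So `δ`, `k`.  Let `Base n δ'`, and let
`Dom δ' k' → Dom δ k` (hypothesis `hd` of the conclusion).  Let `β E` be idempotent, `Eqv δ' k' E (E ++ E)`, `Eqv δ' k' E Y`, `N` from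
`exists_idem M`, `E' = pw E N`: `α (E' E') = α E'`, `β E' = β E` (`idem_pow`), `Eqv δ' k' E' E` (`eqv_pw`).  So `Eqv δ k E' Y`, so
`¬ Bad (α E') (α Y)`, so `I1 L K E' Y z` for all `z`, which is the identity for `β` (`hβ`: `β x = β y ↔ SynEq L x y`; `IsHom.pw`).
-/

namespace Pool.Agent.MSL

open Pool.Agent.DD Pool.Agent.HLV

variable {A M M' : Type} [Monoid M] [Monoid M'] {α : List A → M} {β : List A → M'}

theorem cm_h1 [Finite A] {n : ℕ} [Finite M] (hα : IsHom α) (hβ : IsHom β) {L : Lang A}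
    (hβL : ∀ x y, β x = β y ↔ SynEq L x y) {K : ℕ}
    (h : ∀ e y z, α (e ++ e) = α e → ¬ Separable (B A (n + 1)) (cls α e) (cls α y) →
      I1 L K e y z) :
    ∃ (δ : List A → List A → Prop) (k : ℕ), Base n δ ∧
      ∀ (δ' : List A → List A → Prop) (k' : ℕ), Base n δ' →
      (∀ x y, Dom δ' k' x y → Dom δ k x y) → ∀ E Y z : List A, β E * β E = β E →
      Eqv δ' k' E (E ++ E) → Eqv δ' k' E Y →
      β (z ++ E ++ Y ++ E) ^ K * β (z ++ E) * β (z ++ E ++ Y ++ E) ^ K =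
        β (z ++ E ++ Y ++ E) ^ K := by
  obtain ⟨δ, k, hδ, hsep⟩ := hyp1 (α := α) (n := n)
    (fun m m' => ∃ e y z, α e = m ∧ α y = m' ∧ ¬ I1 L K e y z) (by
      intro e y he hbad
      obtain ⟨e', y', z', h1, h2, h3⟩ := hbad
      by_contra hns
      refine h3 (h e' y' z' ?_ ?_)
      · rw [hα.mul, h1, ← hα.mul, he]
      · have c1 : cls α e' = cls α e := by unfold cls; rw [h1]
        have c2 : cls α y' = cls α y := by unfold cls; rw [h2]
        rw [c1, c2]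
        exact hns)
  obtain ⟨N, hN, hid⟩ := exists_idem M
  refine ⟨δ, k, hδ, ?_⟩
  intro δ' k' hδ' hd E Y z hβE hEE hEY
  have e1 : α (pw E N ++ pw E N) = α (pw E N) := by
    rw [hα.mul, hα.pw, hid]
  have e2 : β (pw E N) = β E := by rw [hβ.pw, idem_pow hβE hN]
  have e3 : Eqv δ' k' E (pw E N) := eqv_pw hδ'.cg hEE hN
  have e4 : Eqv δ' k' (pw E N) Y :=
    (eqv_cg hδ'.cg k').trans ((eqv_cg hδ'.cg k').symm e3) hEY
  have e5 : Eqv δ k (pw E N) Y := ⟨hd _ _ e4.1, hd _ _ e4.2⟩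
  have e6 : I1 L K (pw E N) Y z := by
    by_contra hn
    exact hsep (pw E N) Y e1 ⟨pw E N, Y, z, rfl, rfl, hn⟩ e5
  have e7 := (hβL _ _).2 e6
  have e8 : β (z ++ pw E N ++ Y ++ pw E N) = β (z ++ E ++ Y ++ E) := by
    rw [hβ.mul, hβ.mul, hβ.mul, e2, hβ.mul, hβ.mul, hβ.mul]
  have e9 : β (z ++ pw E N) = β (z ++ E) := by
    rw [hβ.mul, e2, hβ.mul]
  rw [hβ.mul, hβ.mul, hβ.pw, e8, e9] at e7
  exact e7

end Pool.Agent.MSL
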