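import Pool.Agent.MSL.Ula

/-!
# Project MSL: uniform lemma: the step for `E`

`ul_eqs`: `Q R =_(k+1) E`, so `Q ++ R ≤_(k+1) E`, `dom_two`: `E = E₁ ++ E₂`, `Q ≤_k E₁`, `R ≤_k E₂`.
Put `E' = E₂ E E₁`, `Q' = E₂ E Q`, `R' = R E E₁`, `S' = E₂ E S`, `T' = T E E₁`.  With `~` (`Sim`, a congruence, `sim_cg`;
`E₁ ++ E₂ = E` literally): `E'E' = E₂ E (E₁E₂) E E₁ ~ E'`; `E' Q' = E₂ E E₁E₂ E Q ~ E₂ E Q`; `Q' F ~ Q'`; `F R' ~ R'`;
`R' E' = R E E₁E₂ E E₁ ~ R E E₁`; the same for `S'`, `T'`.  `Q' T' = E₂ E Q T E E₁ =_(k+1) E₂ E E E E₁ =_(k+1) E'`;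
`R' S' = R E E₁E₂ E S ~ R S =_(k+1) F`.
`F ≤_k E'`: `F =_(k+1) R Q =_(k+1) R E Q ≤_k E₂ E E₁`.
`BadI`: with `x = β(QR)`, `y = β(ST)`, `w = β(QT)`, `e = β E`, `g = β(E₂ E)`, `h = β(E E₁)`: `h g = e` (`E E₁E₂ E ~ E`),
`e x = x = x e` etc.; `β(Q'R') = g x h`, `(g x h)^j = g x^j h` for `j ≥ 1`.  If the identity holds for the new tuple:
`g x^K y^K h = g x^K w y^K h`; multiply by `h` on the left and `g` on the right: `x^K y^K = x^K w y^K` (`K ≥ 1`).
-/

namespace Pool.Agent.MSL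

open Pool.Agent.DD Pool.Agent.HLV

variable {A M M' : Type} [Monoid M] [Monoid M'] {α : List A → M} {β : List A → M'}
  {δ : List A → List A → Prop} {k K : ℕ} {E F Q R S T : List A}

private theorem ulc_pow {P : Type} [Monoid P] {e g h x : P} (hg : h * g = e) (ex : e * x = x) {j : ℕ}
    (hj : 1 ≤ j) : (g * x * h) ^ j = g * x ^ j * h := by
  induction j with
  | zero => omega
  | succ j ih =>
      rcases Nat.eq_zero_or_pos j with h0 | h0
      · subst h0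
        simp
      · rw [pow_succ, ih h0]
        calc g * x ^ j * h * (g * x * h) = g * x ^ j * (h * g) * x * h := by simp only [mul_assoc]
          _ = g * x ^ j * (e * x) * h := by rw [hg]; simp only [mul_assoc]
          _ = g * x ^ (j + 1) * h := by rw [ex, pow_succ]; simp only [mul_assoc]

private theorem ulc_pe {P : Type} [Monoid P] {e x : P} (xe : x * e = x) {j : ℕ} (hj : 1 ≤ j) :
    x ^ j * e = x ^ j := by
  obtain ⟨i, rfl⟩ : ∃ i, j = i + 1 := ⟨j - 1, by omega⟩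
  rw [pow_succ, mul_assoc, xe]

private theorem ulc_ep {P : Type} [Monoid P] {e x : P} (ex : e * x = x) {j : ℕ} (hj : 1 ≤ j) :
    e * x ^ j = x ^ j := by
  obtain ⟨i, rfl⟩ : ∃ i, j = i + 1 := ⟨j - 1, by omega⟩
  rw [pow_succ', ← mul_assoc, ex]

private theorem ulc_bad {P : Type} [Monoid P] {e g h x y w : P} {K : ℕ} (hK : 1 ≤ K)
    (hg : h * g = e) (ex : e * x = x) (xe : x * e = x) (ey : e * y = y) (ye : y * e = y)
    (hid : (g * x * h) ^ K * (g * y * h) ^ K = (g * x * h) ^ K * (g * w * h) * (g * y * h) ^ K) :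
    x ^ K * y ^ K = x ^ K * w * y ^ K := by
  rw [ulc_pow hg ex hK, ulc_pow hg ey hK] at hid
  have h1 : g * x ^ K * h * (g * y ^ K * h) = g * (x ^ K * y ^ K) * h := by
    calc g * x ^ K * h * (g * y ^ K * h) = g * x ^ K * (h * g) * y ^ K * h := by
          simp only [mul_assoc]
      _ = g * (x ^ K * e) * y ^ K * h := by rw [hg]; simp only [mul_assoc]
      _ = g * (x ^ K * y ^ K) * h := by rw [ulc_pe xe hK]; simp only [mul_assoc]
  have h2 : g * x ^ K * h * (g * w * h) * (g * y ^ K * h) = g * (x ^ K * w * y ^ K) * h := by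
    calc g * x ^ K * h * (g * w * h) * (g * y ^ K * h) =
          g * x ^ K * (h * g) * w * (h * g) * y ^ K * h := by simp only [mul_assoc]
      _ = g * (x ^ K * e) * w * (e * y ^ K) * h := by rw [hg]; simp only [mul_assoc]
      _ = g * (x ^ K * w * y ^ K) * h := by
          rw [ulc_pe xe hK, ulc_ep ey hK]; simp only [mul_assoc]
  rw [h1, h2] at hid
  have h3 : ∀ z : P, e * z * e = z → h * (g * z * h) * g = z := fun z hz => by
    calc h * (g * z * h) * g = (h * g) * z * (h * g) := by simp only [mul_assoc]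
      _ = z := by rw [hg, hz]
  have h4 : e * (x ^ K * y ^ K) * e = x ^ K * y ^ K := by
    calc e * (x ^ K * y ^ K) * e = (e * x ^ K) * (y ^ K * e) := by simp only [mul_assoc]
      _ = x ^ K * y ^ K := by rw [ulc_ep ex hK, ulc_pe ye hK]
  have h5 : e * (x ^ K * w * y ^ K) * e = x ^ K * w * y ^ K := by
    calc e * (x ^ K * w * y ^ K) * e = (e * x ^ K) * w * (y ^ K * e) := by simp only [mul_assoc]
      _ = x ^ K * w * y ^ K := by rw [ulc_ep ex hK, ulc_pe ye hK]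
  rw [← h3 _ h4, hid, h3 _ h5]

theorem ul_E (h : Cg δ) (hf : FinIdx δ) {K' : ℕ} (hap : ApR δ K') (hα : IsHom α) (hβ : IsHom β)
    (hαβ : ∀ x y, α x = α y → β x = β y) (hK : 1 ≤ K) (ht : TupV α δ k E F Q R S T)
    (hb : BadI β K Q R S T) :
    ∃ E' Q' R' S' T', TupV α δ k E' F Q' R' S' T' ∧ BadI β K Q' R' S' T' ∧ Dom δ k F E' := by
  obtain ⟨hQR, hRQ, -, -⟩ := ul_eqs h hf hap ht
  obtain ⟨E₁, E₂, hE, hQ1, hR2⟩ := dom_two hQR.1
  obtain ⟨P, iP, -, φ, hφ, -, hφr⟩ := exists_quot (eqv_cg h (k + 1)) (eqv_fin h hf (k + 1))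
  -- the values
  have aE : α E₁ * α E₂ = α E := by rw [← hα.mul, ← hE]
  have pE : φ E₁ * φ E₂ = φ E := by rw [← hφ.mul, ← hE]
  have bE : β E₁ * β E₂ = β E := by rw [← hβ.mul, ← hE]
  have sa : ∀ {x y z : List A}, Sim α δ k (x ++ y) z → α x * α y = α z := fun h1 => by
    rw [← hα.mul, h1.1]
  have sp : ∀ {x y z : List A}, Sim α δ k (x ++ y) z → φ x * φ y = φ z := fun h1 => by
    rw [← hφ.mul, (hφr _ _).2 h1.2]
  have sb : ∀ {x y z : List A}, Sim α δ k (x ++ y) z → β x * β y = β z := fun h1 => by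
    rw [← hβ.mul, hαβ _ _ h1.1]
  have mid3 : ∀ {P' : Type} [Monoid P'] (a e e₁ e₂ b : P'), e₁ * e₂ = e → e * e = e →
      a * e * e₁ * (e₂ * e * b) = a * e * b := by
    intro P' _ a e e₁ e₂ b h1 h2
    calc a * e * e₁ * (e₂ * e * b) = a * (e * (e₁ * e₂) * e) * b := by simp only [mul_assoc]
      _ = a * e * b := by rw [h1, h2, h2]
  have QTp : φ Q * φ T = φ E := by rw [← hφ.mul, (hφr _ _).2 ht.QT]
  have RSp : φ R * φ S = φ F := by rw [← hφ.mul, (hφr _ _).2 ht.RS]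
  refine ⟨E₂ ++ E ++ E₁, E₂ ++ E ++ Q, R ++ E ++ E₁, E₂ ++ E ++ S, T ++ E ++ E₁, ?_, ?_, ?_⟩
  · refine ⟨?_, ht.FF, ?_, ?_, ?_, ?_, ?_, ?_, ?_, ?_, ?_, ?_⟩
    · -- E' E' ~ E'
      refine ⟨?_, (hφr _ _).1 ?_⟩
      · simp only [hα.mul]
        exact mid3 _ _ _ _ _ aE (sa ht.EE)
      · simp only [hφ.mul]
        exact mid3 _ _ _ _ _ pE (sp ht.EE)
    · -- E' Q' ~ Q'
      refine ⟨?_, (hφr _ _).1 ?_⟩
      · simp only [hα.mul]
        exact mid3 _ _ _ _ _ aE (sa ht.EE)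
      · simp only [hφ.mul]
        exact mid3 _ _ _ _ _ pE (sp ht.EE)
    · -- Q' F ~ Q'
      refine ⟨?_, (hφr _ _).1 ?_⟩
      · simp only [hα.mul]
        rw [mul_assoc, sa ht.QF]
      · simp only [hφ.mul]
        rw [mul_assoc, sp ht.QF]
    · -- F R' ~ R'
      refine ⟨?_, (hφr _ _).1 ?_⟩
      · simp only [hα.mul]
        rw [← mul_assoc, ← mul_assoc, sa ht.FR]
      · simp only [hφ.mul]
        rw [← mul_assoc, ← mul_assoc, sp ht.FR]
    · -- R' E' ~ R'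
      refine ⟨?_, (hφr _ _).1 ?_⟩
      · simp only [hα.mul]
        exact mid3 _ _ _ _ _ aE (sa ht.EE)
      · simp only [hφ.mul]
        exact mid3 _ _ _ _ _ pE (sp ht.EE)
    · -- E' S' ~ S'
      refine ⟨?_, (hφr _ _).1 ?_⟩
      · simp only [hα.mul]
        exact mid3 _ _ _ _ _ aE (sa ht.EE)
      · simp only [hφ.mul]
        exact mid3 _ _ _ _ _ pE (sp ht.EE)
    · -- S' F ~ S'
      refine ⟨?_, (hφr _ _).1 ?_⟩
      · simp only [hα.mul]
        rw [mul_assoc, sa ht.SF]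
      · simp only [hφ.mul]
        rw [mul_assoc, sp ht.SF]
    · -- F T' ~ T'
      refine ⟨?_, (hφr _ _).1 ?_⟩
      · simp only [hα.mul]
        rw [← mul_assoc, ← mul_assoc, sa ht.FT]
      · simp only [hφ.mul]
        rw [← mul_assoc, ← mul_assoc, sp ht.FT]
    · -- T' E' ~ T'
      refine ⟨?_, (hφr _ _).1 ?_⟩
      · simp only [hα.mul]
        exact mid3 _ _ _ _ _ aE (sa ht.EE)
      · simp only [hφ.mul]
        exact mid3 _ _ _ _ _ pE (sp ht.EE)
    · -- Q' T'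
      refine (hφr _ _).1 ?_
      simp only [hφ.mul]
      calc φ E₂ * φ E * φ Q * (φ T * φ E * φ E₁) = φ E₂ * (φ E * (φ Q * φ T) * φ E) * φ E₁ := by
            simp only [mul_assoc]
        _ = φ E₂ * φ E * φ E₁ := by rw [QTp, sp ht.EE, sp ht.EE]
    · -- R' S'
      refine (hφr _ _).1 ?_
      simp only [hφ.mul]
      rw [mid3 _ _ _ _ _ pE (sp ht.EE), sp ht.RE, RSp]
  · intro hid
    apply hb
    have bee := sb ht.EE
    have ex : β E * β (Q ++ R) = β (Q ++ R) := by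
      rw [hβ.mul, ← mul_assoc, sb ht.EQ]
    have xe : β (Q ++ R) * β E = β (Q ++ R) := by
      rw [hβ.mul, mul_assoc, sb ht.RE]
    have ey : β E * β (S ++ T) = β (S ++ T) := by
      rw [hβ.mul, ← mul_assoc, sb ht.ES]
    have ye : β (S ++ T) * β E = β (S ++ T) := by
      rw [hβ.mul, mul_assoc, sb ht.TE]
    have hg : (β E * β E₁) * (β E₂ * β E) = β E := by
      calc (β E * β E₁) * (β E₂ * β E) = β E * (β E₁ * β E₂) * β E := by simp only [mul_assoc]
        _ = β E := by rw [bE, bee, bee]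
    refine ulc_bad (g := β E₂ * β E) (h := β E * β E₁) hK hg ex xe ey ye ?_
    have c1 : ∀ X Y : List A, β (E₂ ++ E ++ X ++ (Y ++ E ++ E₁)) =
        (β E₂ * β E) * β (X ++ Y) * (β E * β E₁) := by
      intro X Y
      simp only [hβ.mul, mul_assoc]
    rw [← c1, ← c1, ← c1]
    exact hid
  · -- F ≤ E'
    have h1 : Dom δ k F (R ++ Q) := dom_mono h (Nat.le_succ k) hRQ.2
    have h2 : Eqv δ (k + 1) (R ++ E ++ Q) (R ++ Q) :=
      (eqv_cg h (k + 1)).app ht.RE.2 ((eqv_cg h (k + 1)).refl Q)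
    have h3 : Dom δ k (R ++ Q) (R ++ E ++ Q) := dom_mono h (Nat.le_succ k) h2.2
    exact dom_trans h (dom_trans h h1 h3) (dom_app h (dom_app h hR2 (dom_refl h k E)) hQ1)

end Pool.Agent.MSL
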