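import Pool.Agent.MSL.Ula

/-!
# Project MSL: uniform lemma: the relations at level `k`

Work in the quotient monoid of `Eqv δ k` (`exists_quot`, `eqv_fin`, `eqv_ap`, `aper_of_quot`); `Eqv δ (k+1)` implies
`Eqv δ k` (`eqv_mono`).  There `E = F = e` is idempotent, `Q = e Q = Q e`, and the same for `R`, `S`, `T`, and
`Q T = e`, `R S = e`.  (A1) for `e = Q e T`: `Q e = e`, `e T = e`, so `Q = T = e`; similarly `R = S = e`.
-/

namespace Pool.Agent.MSL

open Pool.Agent.DD Pool.Agent.HLV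

variable {A M M' : Type} [Monoid M] [Monoid M'] {α : List A → M} {β : List A → M'}
  {δ : List A → List A → Prop} {k K : ℕ} {E F Q R S T : List A}

private theorem Ule_mon {S' : Type} [Monoid S'] {K : ℕ} (h : Aper S' K) {e Q T : S'}
    (Qe : Q * e = Q) (eT : e * T = T) (QT : Q * T = e) : Q = e ∧ T = e := by
  have h1 : e = Q * e * T := by rw [Qe, QT]
  obtain ⟨h2, h3⟩ := ap_one h h1
  exact ⟨by rw [← h2, Qe], by rw [← h3, eT]⟩

theorem ul_eq (h : Cg δ) (hf : FinIdx δ) {K' : ℕ} (hap : ApR δ K')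
    (ht : TupV α δ k E F Q R S T) (hEF : Eqv δ k E F) :
    Eqv δ k F Q ∧ Eqv δ k F R ∧ Eqv δ k F S ∧ Eqv δ k F T := by
  obtain ⟨S', iM, _, φ, hφ, hs, key⟩ := exists_quot (eqv_cg h k) (eqv_fin h hf k)
  obtain ⟨K'', hK⟩ := eqv_ap h hap k
  have hA : Aper S' K'' := aper_of_quot hφ hs (fun x y e => (key x y).2 e) hK
  have tr : ∀ x y z : List A, Eqv δ (k + 1) (x ++ y) z → φ x * φ y = φ z := by
    intro x y z e
    rw [← hφ.mul]
    exact (key _ _).2 (eqv_mono h (Nat.le_succ k) e)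
  have hE : φ E = φ F := (key _ _).2 hEF
  have QF := tr _ _ _ ht.QF.2
  have FT := tr _ _ _ ht.FT.2
  have QT := tr _ _ _ ht.QT
  have RE := tr _ _ _ ht.RE.2
  have ES := tr _ _ _ ht.ES.2
  have RS := tr _ _ _ ht.RS
  rw [hE] at QT RE ES
  obtain ⟨h1, h2⟩ := Ule_mon hA QF FT QT
  obtain ⟨h3, h4⟩ := Ule_mon hA RE ES RS
  exact ⟨(key _ _).1 h1.symm, (key _ _).1 h3.symm, (key _ _).1 h4.symm, (key _ _).1 h2.symm⟩

end Pool.Agent.MSL
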