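import Pool.Agent.MSL.Ulb
import Pool.Agent.MSL.Ulc
import Pool.Agent.MSL.Ule

/-!
# Project MSL: the uniform lemma (UL)

`ul_max`: among all valid bad tuples one is chosen whose `E` has the largest number of classes below it; `ul_F` and `ul_E`
give `E ≤_k F' ≤_k E''`, so by maximality `E'' ≤_k E`, hence `Eqv δ k E F'`, and `ul_eq` gives the rest.
`ul`: the tuple `Q = E q F`, `R = F r E`, `S = E s F`, `T = F t E` is valid and bad; the tuple of `ul_max` gives the claim.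
-/

namespace Pool.Agent.MSL

open Pool.Agent.DD Pool.Agent.HLV

variable {A M M' : Type} [Monoid M] [Monoid M'] {α : List A → M} {β : List A → M'}
  {δ : List A → List A → Prop} {k K : ℕ} {E F Q R S T : List A}

private theorem Ul_ex (h : Cg δ) {n : ℕ} {c : List A → Fin n} (hc : ∀ x y, c x = c y → Eqv δ k x y)
    (U : Set (List A)) (hU : U.Nonempty) :
    ∃ E ∈ U, ∀ E' ∈ U, Dom δ k E E' → Dom δ k E' E := by
  let D : List A → Set (Fin n) := fun E => {i | ∃ x, c x = i ∧ Dom δ k x E}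
  obtain ⟨E, hE, hmax⟩ := (measure fun E => n - (D E).ncard).wf.has_min U hU
  refine ⟨E, hE, fun E' hE' h1 => ?_⟩
  by_contra h2
  refine hmax E' hE' ?_
  have hsub : D E ⊂ D E' := by
    refine ⟨?_, fun hs => ?_⟩
    · rintro i ⟨x, hx, hd⟩
      exact ⟨x, hx, dom_trans h hd h1⟩
    · obtain ⟨x, hx, hd⟩ := hs ⟨E', rfl, dom_refl h k E'⟩
      exact h2 (dom_trans h (hc x E' hx).2 hd)
  have hlt : (D E).ncard < (D E').ncard := Set.ncard_lt_ncard hsub (Set.toFinite _)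
  have hle : (D E').ncard ≤ n := by
    have h3 := Set.ncard_le_card (D E')
    rwa [Nat.card_eq_fintype_card, Fintype.card_fin] at h3
  show n - (D E').ncard < n - (D E).ncard
  omega

theorem ul_max (h : Cg δ) (hf : FinIdx δ) {K' : ℕ} (hap : ApR δ K') (hα : IsHom α)
    (hβ : IsHom β) (hαβ : ∀ x y, α x = α y → β x = β y) (hK : 1 ≤ K)
    (ht : TupV α δ k E F Q R S T) (hb : BadI β K Q R S T) :
    ∃ E F Q R S T, TupV α δ k E F Q R S T ∧ BadI β K Q R S T ∧ Eqv δ k E F ∧ Eqv δ k F Q ∧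
      Eqv δ k F R ∧ Eqv δ k F S ∧ Eqv δ k F T := by
  obtain ⟨n, c, hc⟩ := eqv_fin h hf k
  obtain ⟨E, ⟨F, Q, R, S, T, ht, hb⟩, hmax⟩ := Ul_ex h hc
    {E | ∃ F Q R S T, TupV α δ k E F Q R S T ∧ BadI β K Q R S T} ⟨E, F, Q, R, S, T, ht, hb⟩
  obtain ⟨F', Q', R', S', T', ht', hb', hd'⟩ := ul_F h hf hap hα hαβ ht hb
  obtain ⟨E'', Q'', R'', S'', T'', ht'', hb'', hd''⟩ := ul_E h hf hap hα hβ hαβ hK ht' hb'
  have h1 : Dom δ k E'' E := hmax E'' ⟨F', Q'', R'', S'', T'', ht'', hb''⟩ (dom_trans h hd' hd'')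
  have h2 : Eqv δ k E F' := ⟨hd', dom_trans h hd'' h1⟩
  obtain ⟨h3, h4, h5, h6⟩ := ul_eq h hf hap ht' h2
  exact ⟨E, F', Q', R', S', T', ht', hb', h2, h3, h4, h5, h6⟩

theorem ul (h : Cg δ) (hf : FinIdx δ) {K' : ℕ} (hap : ApR δ K') (hα : IsHom α)
    (hβ : IsHom β) (hαβ : ∀ x y, α x = α y → β x = β y) (hK : 1 ≤ K) {q r s t : List A}
    (hE : α (E ++ E) = α E) (hF : α (F ++ F) = α F) (hE' : Eqv δ (k + 1) (E ++ E) E)
    (hF' : Eqv δ (k + 1) (F ++ F) F) (h1 : Eqv δ (k + 1) (E ++ q ++ F ++ t ++ E) E)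
    (h2 : Eqv δ (k + 1) (F ++ r ++ E ++ s ++ F) F)
    (hb : β (E ++ q ++ F ++ r ++ E) ^ K * β (E ++ s ++ F ++ t ++ E) ^ K ≠
      β (E ++ q ++ F ++ r ++ E) ^ K * β (q ++ F ++ t) * β (E ++ s ++ F ++ t ++ E) ^ K) :
    ∃ e f a b c d : List A, α (e ++ e) = α e ∧ α (f ++ f) = α f ∧ Eqv δ k e f ∧ Eqv δ k f a ∧
      Eqv δ k f b ∧ Eqv δ k f c ∧ Eqv δ k f d ∧
      β (e ++ a ++ f ++ b ++ e) ^ K * β (e ++ c ++ f ++ d ++ e) ^ K ≠
        β (e ++ a ++ f ++ b ++ e) ^ K * β (a ++ f ++ d) * β (e ++ c ++ f ++ d ++ e) ^ K := by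
  have hs := sim_cg hα h k
  have sE : Sim α δ k (E ++ E) E := ⟨hE, hE'⟩
  have sF : Sim α δ k (F ++ F) F := ⟨hF, hF'⟩
  have left : ∀ {X : List A} (x y : List A), Sim α δ k (X ++ X) X → Sim α δ k (X ++ (X ++ x ++ y)) (X ++ x ++ y) := by
    intro X x y hX
    have h3 := hs.app (hs.app hX (hs.refl x)) (hs.refl y)
    rw [show X ++ (X ++ x ++ y) = X ++ X ++ x ++ y by simp only [List.append_assoc]]
    exact h3
  have right : ∀ {X : List A} (x y : List A), Sim α δ k (X ++ X) X → Sim α δ k (x ++ y ++ X ++ X) (x ++ y ++ X) := by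
    intro X x y hX
    have h3 := hs.app (hs.refl (x ++ y)) hX
    rw [show x ++ y ++ X ++ X = x ++ y ++ (X ++ X) by simp only [List.append_assoc]]
    exact h3
  have mid : ∀ {X : List A} (x y z w : List A), Sim α δ k (X ++ X) X →
      Sim α δ k (x ++ y ++ X ++ (X ++ z ++ w)) (x ++ y ++ X ++ z ++ w) := by
    intro X x y z w hX
    have h3 := hs.app (hs.refl (x ++ y)) (hs.app hX (hs.refl (z ++ w)))
    rw [show x ++ y ++ X ++ (X ++ z ++ w) = x ++ y ++ (X ++ X ++ (z ++ w)) by simp only [List.append_assoc],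
      show x ++ y ++ X ++ z ++ w = x ++ y ++ (X ++ (z ++ w)) by simp only [List.append_assoc]]
    exact h3
  have ht : TupV α δ k E F (E ++ q ++ F) (F ++ r ++ E) (E ++ s ++ F) (F ++ t ++ E) :=
    { EE := sE
      FF := sF
      EQ := left q F sE
      QF := right E q sF
      FR := left r E sF
      RE := right F r sE
      ES := left s F sE
      SF := right E s sF
      FT := left t E sF
      TE := right F t sE
      QT := (eqv_cg h (k + 1)).trans (mid E q t E sF).2 h1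
      RS := (eqv_cg h (k + 1)).trans (mid F r s F sE).2 h2 }
  have hbad : BadI β K (E ++ q ++ F) (F ++ r ++ E) (E ++ s ++ F) (F ++ t ++ E) := by
    intro hcon
    have bE : β E * β E = β E := by rw [← hβ.mul]; exact hαβ _ _ hE
    have b1 : β (E ++ q ++ F ++ (F ++ r ++ E)) = β (E ++ q ++ F ++ r ++ E) := hαβ _ _ (mid E q r E sF).1
    have b2 : β (E ++ s ++ F ++ (F ++ t ++ E)) = β (E ++ s ++ F ++ t ++ E) := hαβ _ _ (mid E s t E sF).1
    have b3 : β (E ++ q ++ F ++ (F ++ t ++ E)) = β E * β (q ++ F ++ t) * β E := by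
      rw [hαβ _ _ (mid E q t E sF).1, ← hβ.mul, ← hβ.mul]
      congr 1
      simp only [List.append_assoc]
    rw [b1, b2, b3] at hcon
    have c1 : β (E ++ q ++ F ++ r ++ E) ^ K * β E = β (E ++ q ++ F ++ r ++ E) ^ K := by
      have c2 : β (E ++ q ++ F ++ r ++ E) * β E = β (E ++ q ++ F ++ r ++ E) := by
        rw [hβ.mul (E ++ q ++ F ++ r) E, mul_assoc, bE]
      obtain ⟨m, rfl⟩ : ∃ m, K = m + 1 := ⟨K - 1, by omega⟩
      rw [pow_succ, mul_assoc, c2]
    have c3 : β E * β (E ++ s ++ F ++ t ++ E) ^ K = β (E ++ s ++ F ++ t ++ E) ^ K := by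
      have c2 : β E * β (E ++ s ++ F ++ t ++ E) = β (E ++ s ++ F ++ t ++ E) := by
        rw [show E ++ s ++ F ++ t ++ E = E ++ (s ++ F ++ t ++ E) by simp only [List.append_assoc], hβ.mul E,
          ← mul_assoc, bE]
      obtain ⟨m, rfl⟩ : ∃ m, K = m + 1 := ⟨K - 1, by omega⟩
      rw [pow_succ', ← mul_assoc, c2]
    refine hb (hcon.trans ?_)
    calc β (E ++ q ++ F ++ r ++ E) ^ K * (β E * β (q ++ F ++ t) * β E) * β (E ++ s ++ F ++ t ++ E) ^ K
        = β (E ++ q ++ F ++ r ++ E) ^ K * β E * β (q ++ F ++ t) * (β E * β (E ++ s ++ F ++ t ++ E) ^ K) := by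
          simp only [mul_assoc]
      _ = β (E ++ q ++ F ++ r ++ E) ^ K * β (q ++ F ++ t) * β (E ++ s ++ F ++ t ++ E) ^ K := by rw [c1, c3]
  obtain ⟨e, f, a, b, c, d, hv, hbd, g1, g2, g3, g4, g5⟩ := ul_max h hf hap hα hβ hαβ hK ht hbad
  refine ⟨e, f, a, b, c, d, hv.EE.1, hv.FF.1, g1, g2, g3, g4, g5, ?_⟩
  have u1 : α e * α a = α a := by rw [← hα.mul]; exact hv.EQ.1
  have u2 : α a * α f = α a := by rw [← hα.mul]; exact hv.QF.1
  have u3 : α b * α e = α b := by rw [← hα.mul]; exact hv.RE.1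
  have u4 : α e * α c = α c := by rw [← hα.mul]; exact hv.ES.1
  have u5 : α c * α f = α c := by rw [← hα.mul]; exact hv.SF.1
  have u6 : α d * α e = α d := by rw [← hα.mul]; exact hv.TE.1
  have v1 : β (e ++ a ++ f ++ b ++ e) = β (a ++ b) := by
    refine hαβ _ _ ?_
    simp only [hα.mul]
    rw [u1, u2, mul_assoc, u3]
  have v2 : β (e ++ c ++ f ++ d ++ e) = β (c ++ d) := by
    refine hαβ _ _ ?_
    simp only [hα.mul]
    rw [u4, u5, mul_assoc, u6]
  have v3 : β (a ++ f ++ d) = β (a ++ d) := by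
    refine hαβ _ _ ?_
    simp only [hα.mul]
    rw [u2]
  rw [v1, v2, v3]
  exact hbd

end Pool.Agent.MSL
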