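import Pool.Agent.MSL.Hyb
import Pool.Agent.MSL.Idm
import Pool.Agent.MSL.Ul

/-!
# Project MSL: the hypothesis (H2) from the second condition

`hyp2` gives a relation which separates the bad tuples; a failure of (H2) for a finer relation would give, by the
uniform lemma `ul`, a bad tuple of pairwise equivalent words.
-/

namespace Pool.Agent.MSL

open Pool.Agent.DD Pool.Agent.HLV

variable {A M M' : Type} [Monoid M] [Monoid M'] {α : List A → M} {β : List A → M'}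

theorem cm_h2 [Finite A] {n : ℕ} {K₀ : Lang (Fin 2)} (h0 : K₀ᶜ ∉ Half (B (Fin 2) n)) [Finite M]
    (hα : IsHom α) (hβ : IsHom β) {L : Lang A} (hr : ∀ x y, α x = α y → SynEq L x y)
    (hβL : ∀ x y, β x = β y ↔ SynEq L x y) {K : ℕ} (hK : 1 ≤ K)
    (h : ∀ e f a b c d, α (e ++ e) = α e → α (f ++ f) = α f →
      Mix n K₀ (cls α e) (cls α f) (cls α a) → Mix n K₀ (cls α e) (cls α f) (cls α b) →
      Mix n K₀ (cls α e) (cls α f) (cls α c) → Mix n K₀ (cls α e) (cls α f) (cls α d) →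
      I2 L K e f a b c d) :
    ∃ (δ : List A → List A → Prop) (k : ℕ), Base n δ ∧
      ∀ (δ' : List A → List A → Prop) (k' : ℕ), Base n δ' →
      (∀ x y, Dom δ' k' x y → Dom δ k x y) → ∀ E F q r s t : List A, β E * β E = β E →
      β F * β F = β F → Eqv δ' (k' + 1) (E ++ E) E → Eqv δ' (k' + 1) (F ++ F) F →
      Eqv δ' (k' + 1) (E ++ q ++ F ++ t ++ E) E → Eqv δ' (k' + 1) (F ++ r ++ E ++ s ++ F) F →
      β (E ++ q ++ F ++ r ++ E) ^ K * β (E ++ s ++ F ++ t ++ E) ^ K =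
        β (E ++ q ++ F ++ r ++ E) ^ K * β (q ++ F ++ t) * β (E ++ s ++ F ++ t ++ E) ^ K := by
  obtain ⟨δ, k, hδ, hbad⟩ := hyp2 (n := n) (α := α) (K₀ := K₀) h0
    (fun m₁ m₂ m₃ m₄ m₅ m₆ => ∃ e f a b c d : List A, α e = m₁ ∧ α f = m₂ ∧ α a = m₃ ∧ α b = m₄ ∧
      α c = m₅ ∧ α d = m₆ ∧ ¬ I2 L K e f a b c d) (by
    rintro e f a b c d he hf ⟨e', f', a', b', c', d', h1, h2, h3, h4, h5, h6, h7⟩
    by_contra hcon
    push Not at hcon
    obtain ⟨c1, c2, c3, c4⟩ := hcon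
    have g : ∀ x y : List A, α x = α y → cls α x = cls α y := by
      intro x y hxy
      unfold cls
      rw [hxy]
    have ge := g _ _ h1
    have gf := g _ _ h2
    refine h7 (h e' f' a' b' c' d' ?_ ?_ ?_ ?_ ?_ ?_)
    · rw [hα.mul, h1, ← hα.mul, he]
    · rw [hα.mul, h2, ← hα.mul, hf]
    · rw [ge, gf, g _ _ h3]; exact c1
    · rw [ge, gf, g _ _ h4]; exact c2
    · rw [ge, gf, g _ _ h5]; exact c3
    · rw [ge, gf, g _ _ h6]; exact c4)
  refine ⟨δ, k, hδ, ?_⟩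
  intro δ' k' hb' hdom E F q r s t hE hF hE' hF' h1 h2
  by_contra hne
  obtain ⟨N, hN, hidem⟩ := exists_idem M
  obtain ⟨K', hap⟩ := hb'.ap
  have hcg := eqv_cg hb'.cg (k' + 1)
  have hαβ : ∀ x y, α x = α y → β x = β y := fun x y hxy => (hβL x y).2 (hr x y hxy)
  have hαi : ∀ x : List A, α (pw x N ++ pw x N) = α (pw x N) := by
    intro x
    rw [hα.mul, hα.pw, hidem]
  have hβE : β (pw E N) = β E := by rw [hβ.pw, idem_pow hE hN]
  have hβF : β (pw F N) = β F := by rw [hβ.pw, idem_pow hF hN]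
  have hEE : Eqv δ' (k' + 1) (pw E N) E := hcg.symm (eqv_pw hb'.cg (hcg.symm hE') hN)
  have hFF : Eqv δ' (k' + 1) (pw F N) F := hcg.symm (eqv_pw hb'.cg (hcg.symm hF') hN)
  obtain ⟨e, f, a, b, c, d, g1, g2, g3, g4, g5, g6, g7, g8⟩ := ul (β := β) (K := K) (q := q) (r := r)
    (s := s) (t := t) hb'.cg hb'.fin hap hα hβ hαβ hK (hαi E) (hαi F)
    (hcg.trans (hcg.trans (hcg.app hEE hEE) hE') (hcg.symm hEE))
    (hcg.trans (hcg.trans (hcg.app hFF hFF) hF') (hcg.symm hFF))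
    (hcg.trans (hcg.trans (hcg.app (hcg.app (hcg.app (hcg.app hEE (hcg.refl q)) hFF)
      (hcg.refl t)) hEE) h1) (hcg.symm hEE))
    (hcg.trans (hcg.trans (hcg.app (hcg.app (hcg.app (hcg.app hFF (hcg.refl r)) hEE)
      (hcg.refl s)) hFF) h2) (hcg.symm hFF))
    (by
      simp only [hβ.mul, hβE, hβF] at hne ⊢
      exact hne)
  refine hbad e f a b c d g1 g2 ⟨e, f, a, b, c, d, rfl, rfl, rfl, rfl, rfl, rfl, ?_⟩ ?_
  · intro hI
    have h3 := (hβL _ _).2 hI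
    refine g8 ?_
    rw [hβ.mul, hβ.mul, hβ.mul, hβ.pw, hβ.pw] at h3
    exact h3
  · have hk : ∀ x y : List A, Eqv δ' k' x y → Eqv δ k x y :=
      fun x y hxy => ⟨hdom x y hxy.1, hdom y x hxy.2⟩
    exact ⟨hk _ _ g3, hk _ _ g4, hk _ _ g5, hk _ _ g6, hk _ _ g7⟩

end Pool.Agent.MSL
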