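import Pool.Agent.MSL.Bas

/-!
# Project MSL: aperiodicity of the equivalences (D4)

First: for `Q ≥ 1` every decomposition `pw x Q = w₁ ++ w₂` is `w₁ = pw x i ++ x₁`, `w₂ = x₂ ++ pw x j`,
`x = x₁ ++ x₂`, `i + 1 + j = Q` (induction on `Q`, `List.append_eq_append_iff`).
Then induction on `k`.  `k = 0`: `Eqv r 0` is `r` in both directions.  Step: let `ApR (Eqv r k) q`, so
`pw x i =_k pw x (i+1)` for `i ≥ q` (`ApR.mono`, `eqv_cg`); claim `ApR (Eqv r (k+1)) (2 * q + 1)`.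
`x^(2q+1) ≤_(k+1) x^(2q+2)`: a split has `i + 1 + j = 2q + 1`, so `i ≥ q` or `j ≥ q`; if `i ≥ q` answer
`x^(i+1) x₁ | x₂ x^j`, if `j ≥ q` answer `x^i x₁ | x₂ x^(j+1)`.
`x^(2q+2) ≤_(k+1) x^(2q+1)`: `i + 1 + j = 2q + 2`, so `i ≥ q + 1` or `j ≥ q + 1`; remove one copy there.
-/

namespace Pool.Agent.MSL

open Pool.Agent.DD Pool.Agent.HLV

variable {A M N S : Type}

variable {r : List A → List A → Prop}

private theorem pw_split (x : List A) : ∀ (n : ℕ) (w₁ w₂ : List A), pw x (n + 1) = w₁ ++ w₂ →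
    ∃ (i j : ℕ) (x₁ x₂ : List A), x = x₁ ++ x₂ ∧ i + j = n ∧ w₁ = pw x i ++ x₁ ∧
      w₂ = x₂ ++ pw x j := by
  intro n
  induction n with
  | zero =>
      intro w₁ w₂ hw
      refine ⟨0, 0, w₁, w₂, ?_, rfl, by simp [pw_zero], by simp [pw_zero]⟩
      rw [← hw, pw_succ, pw_zero, List.append_nil]
  | succ n ih =>
      intro w₁ w₂ hw
      rw [pw_succ] at hw
      rcases List.append_eq_append_iff.1 hw with ⟨c, hc1, hc2⟩ | ⟨c, hc1, hc2⟩
      · obtain ⟨i, j, x₁, x₂, hx, hij, h1, h2⟩ := ih c w₂ hc2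
        exact ⟨i + 1, j, x₁, x₂, hx, by omega, by rw [hc1, h1, pw_succ, List.append_assoc], h2⟩
      · exact ⟨0, n + 1, w₁, c, hc1, by omega, by rw [pw_zero, List.nil_append], hc2⟩

private theorem pw_join (x x₁ x₂ : List A) (hx : x = x₁ ++ x₂) (i j n : ℕ) (hn : n = i + 1 + j) :
    pw x n = (pw x i ++ x₁) ++ (x₂ ++ pw x j) := by
  have h1 : (pw x i ++ x₁) ++ (x₂ ++ pw x j) = pw x i ++ (x ++ pw x j) := by
    rw [List.append_assoc, ← List.append_assoc x₁, ← hx]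
  rw [h1, ← pw_succ, ← pw_add, hn, Nat.add_right_comm, Nat.add_assoc]

private theorem ap_step (h : Cg r) {k q : ℕ} (hq : ApR (Eqv r k) q) :
    ApR (Eqv r (k + 1)) (2 * q + 1) := by
  have hge : ∀ (x : List A) (i : ℕ), q ≤ i → Eqv r k (pw x (i + 1)) (pw x i) := fun x i hi =>
    ApR.mono (eqv_cg h k) hq hi x
  intro x
  constructor
  · intro w₁ w₂ hw
    obtain ⟨i, j, x₁, x₂, hx, hij, h1, h2⟩ := pw_split x (2 * q + 1) w₁ w₂ hw
    rcases Nat.lt_or_ge i (q + 1) with hi | hi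
    · obtain ⟨j', rfl⟩ : ∃ j', j = j' + 1 := ⟨j - 1, by omega⟩
      refine ⟨pw x i ++ x₁, x₂ ++ pw x j', pw_join x x₁ x₂ hx i j' _ (by omega), ?_, ?_⟩
      · rw [h1]; exact dom_refl h k _
      · rw [h2]; exact dom_app h (dom_refl h k _) (hge x j' (by omega)).1
    · obtain ⟨i', rfl⟩ : ∃ i', i = i' + 1 := ⟨i - 1, by omega⟩
      refine ⟨pw x i' ++ x₁, x₂ ++ pw x j, pw_join x x₁ x₂ hx i' j _ (by omega), ?_, ?_⟩
      · rw [h1]; exact dom_app h (hge x i' (by omega)).1 (dom_refl h k _)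
      · rw [h2]; exact dom_refl h k _
  · intro w₁ w₂ hw
    obtain ⟨i, j, x₁, x₂, hx, hij, h1, h2⟩ := pw_split x (2 * q) w₁ w₂ hw
    rcases Nat.lt_or_ge i q with hi | hi
    · refine ⟨pw x i ++ x₁, x₂ ++ pw x (j + 1), pw_join x x₁ x₂ hx i (j + 1) _ (by omega), ?_, ?_⟩
      · rw [h1]; exact dom_refl h k _
      · rw [h2]; exact dom_app h (dom_refl h k _) (hge x j (by omega)).2
    · refine ⟨pw x (i + 1) ++ x₁, x₂ ++ pw x j, pw_join x x₁ x₂ hx (i + 1) j _ (by omega), ?_, ?_⟩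
      · rw [h1]; exact dom_app h (hge x i hi).2 (dom_refl h k _)
      · rw [h2]; exact dom_refl h k _

/-- (D4) -/
theorem eqv_ap (h : Cg r) {K : ℕ} (hr : ApR r K) (k : ℕ) : ∃ K', ApR (Eqv r k) K' := by
  induction k with
  | zero => exact ⟨K, fun x => ⟨hr x, h.symm (hr x)⟩⟩
  | succ k ih =>
      obtain ⟨q, hq⟩ := ih
      exact ⟨2 * q + 1, ap_step h hq⟩

end Pool.Agent.MSL
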