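import Pool.Agent.MSL.Bas

/-!
# Project MSL: finite index of the equivalences

`eqv_fin`: induction on `k`.  `k = 0`: `Eqv r 0` is `r` in both directions.  Step: if `c : List A → Fin n` is
such that equal values imply `Eqv r k`, then the set
`{p : Fin n × Fin n | ∃ u₁ u₂, u = u₁ ++ u₂ ∧ p = (c u₁, c u₂)}` determines `u` up to `Eqv r (k+1)`; the type
`Set (Fin n × Fin n)` is finite (use `Finite.equivFin` or `Fintype.equivFin` to get a map to `Fin n'`).
`chain_stab`: by pigeonhole (`Finite.exists_ne_map_eq_of_infinite`) there are `i < j` with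
`c (x (2i)) = c (x (2j))`, so `x (2i) ≤ x (2i+1) ≤ x (2j) ≤ x (2i)` at level `k`.
-/

namespace Pool.Agent.MSL

open Pool.Agent.DD Pool.Agent.HLV

variable {A M N S : Type}

variable {r : List A → List A → Prop}

private theorem dfi_half {k n : ℕ} {c : List A → Fin n} (hc : ∀ x y, c x = c y → Eqv r k x y)
    {u v : List A}
    (huv : {p : Fin n × Fin n | ∃ u₁ u₂, u = u₁ ++ u₂ ∧ p = (c u₁, c u₂)} =
      {p : Fin n × Fin n | ∃ u₁ u₂, v = u₁ ++ u₂ ∧ p = (c u₁, c u₂)}) :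
    Dom r (k + 1) u v := by
  intro u₁ u₂ hu
  have hmem : (c u₁, c u₂) ∈ {p : Fin n × Fin n | ∃ u₁ u₂, u = u₁ ++ u₂ ∧ p = (c u₁, c u₂)} :=
    ⟨u₁, u₂, hu, rfl⟩
  rw [huv] at hmem
  obtain ⟨v₁, v₂, hv, hp⟩ := hmem
  have h1 : c u₁ = c v₁ := congrArg Prod.fst hp
  have h2 : c u₂ = c v₂ := congrArg Prod.snd hp
  exact ⟨v₁, v₂, hv, (hc _ _ h1).1, (hc _ _ h2).1⟩

theorem eqv_fin (h : Cg r) (hf : FinIdx r) (k : ℕ) : FinIdx (Eqv r k) := by
  induction k with
  | zero =>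
      obtain ⟨n, c, hc⟩ := hf
      exact ⟨n, c, fun x y e => ⟨hc x y e, h.symm (hc x y e)⟩⟩
  | succ k ih =>
      obtain ⟨n, c, hc⟩ := ih
      have hfin : Finite (Set (Fin n × Fin n)) := inferInstance
      refine ⟨Nat.card (Set (Fin n × Fin n)), fun u => Finite.equivFin (Set (Fin n × Fin n))
        {p : Fin n × Fin n | ∃ u₁ u₂, u = u₁ ++ u₂ ∧ p = (c u₁, c u₂)}, fun x y e => ?_⟩
      have he := (Finite.equivFin (Set (Fin n × Fin n))).injective e
      exact ⟨dfi_half hc he, dfi_half hc he.symm⟩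

theorem chain_stab (h : Cg r) (hf : FinIdx r) (k : ℕ) (x : ℕ → List A)
    (hx : ∀ i, Dom r k (x i) (x (i + 1))) : ∃ i, Eqv r k (x (2 * i)) (x (2 * i + 1)) := by
  obtain ⟨n, c, hc⟩ := eqv_fin h hf k
  have hch : ∀ i j, i ≤ j → Dom r k (x i) (x j) := by
    intro i j hij
    induction hij with
    | refl => exact dom_refl h k _
    | step _ ih => exact dom_trans h ih (hx _)
  have key : ∀ i j, i < j → c (x (2 * i)) = c (x (2 * j)) →
      Eqv r k (x (2 * i)) (x (2 * i + 1)) := by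
    intro i j hij e
    exact ⟨hx _, dom_trans h (hch (2 * i + 1) (2 * j) (by omega)) (hc _ _ e).2⟩
  obtain ⟨i, j, hne, he⟩ := Finite.exists_ne_map_eq_of_infinite (fun i : ℕ => c (x (2 * i)))
  have he' : c (x (2 * i)) = c (x (2 * j)) := he
  rcases Nat.lt_or_gt_of_ne hne with hlt | hlt
  · exact ⟨i, key i j hlt he'⟩
  · exact ⟨j, key j i hlt he'.symm⟩

end Pool.Agent.MSL
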