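import Pool.Agent.MSL.Bas
import Pool.Agent.MSL.Dfi
import Pool.Agent.HLV.PolB
import Pool.Agent.HLV.Cut

/-!
# Project MSL: up-sets are in `Pol`, unions of classes in `B (j+1)` (D5)

`dom_pol`: induction on `k`, for all `u`.  `k = 0` is `hc`.  Step:
`{v | Dom r (k+1) u v} = {v | ∀ i ∈ List.range (u.length + 1), v ∈ cat {v | Dom r k (u.take i) v}
{v | Dom r k (u.drop i) v}}` (the splits of `u` are the pairs `(u.take i, u.drop i)`), which is a finite
intersection of products: `HLV.pol_list_inter` and `Pol.cat`.
`union_B`: let `c : List A → Fin n'` be from `eqv_fin` (for level `k`).  For a word `u` the class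
`{v | Eqv r k u v} = {v | Dom r k u v} ∩ {v | Dom r k v u}` and `{v | Dom r k v u}` is the complement of
the union of the sets `{v | Dom r k v' v}` over representatives `v'` with `¬ Dom r k v' u` (one `v'` for each
value of `c`): `HLV.pol_sub_B`, `HLV.pol_finite_union` (or `pol_list_union`), `B_compl`, `B_inter`.  `L` is the
finite union of the classes of representatives of members of `L` (`HLV.B_list_union`).
-/

namespace Pool.Agent.MSL

open Pool.Agent.DD Pool.Agent.HLV

variable {A M N S : Type}

variable {r : List A → List A → Prop}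

theorem dom_pol [Finite A] {j : ℕ} (h : Cg r) (hc : ∀ u, Pol (B A j) {v | r u v}) (k : ℕ)
    (u : List A) : Pol (B A j) {v | Dom r k u v} := by
  induction k generalizing u with
  | zero => exact hc u
  | succ k ih =>
    have e : ({v | Dom r (k + 1) u v} : Lang A) = {v | ∀ i ∈ List.range (u.length + 1),
        v ∈ (fun i => DD.cat {v | Dom r k (u.take i) v} {v | Dom r k (u.drop i) v}) i} := by
      ext v
      constructor
      · intro hv i _
        obtain ⟨v₁, v₂, e, h1, h2⟩ := hv (u.take i) (u.drop i) (List.take_append_drop i u).symm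
        exact ⟨v₁, h1, v₂, h2, e⟩
      · intro hv u₁ u₂ hu
        have hi : u₁.length ∈ List.range (u.length + 1) := by
          rw [List.mem_range, hu, List.length_append]
          omega
        obtain ⟨v₁, h1, v₂, h2, e⟩ := hv u₁.length hi
        have e1 : u.take u₁.length = u₁ := by rw [hu, List.take_left]
        have e2 : u.drop u₁.length = u₂ := by rw [hu, List.drop_left]
        have h1' : Dom r k (u.take u₁.length) v₁ := h1
        have h2' : Dom r k (u.drop u₁.length) v₂ := h2
        rw [e1] at h1'
        rw [e2] at h2'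
        exact ⟨v₁, v₂, e, h1', h2'⟩
    rw [e]
    exact pol_list_inter _ _ fun i _ => Pol.cat (ih _) (ih _)

theorem union_B [Finite A] {j : ℕ} (h : Cg r) (hf : FinIdx r)
    (hc : ∀ u, Pol (B A j) {v | r u v}) (k : ℕ) {L : Lang A}
    (hL : ∀ x y, Eqv r k x y → (x ∈ L ↔ y ∈ L)) : L ∈ B A (j + 1) := by
  classical
  obtain ⟨n, c, hcn⟩ := eqv_fin h hf k
  have hrep : ∀ p : Fin n, ∃ u : List A, (∃ v, c v = p) → c u = p := by
    intro p
    by_cases hp : ∃ v, c v = p
    · obtain ⟨v, hv⟩ := hp
      exact ⟨v, fun _ => hv⟩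
    · exact ⟨[], fun h' => absurd h' hp⟩
  choose rep hrep' using hrep
  have hr : ∀ w, Eqv r k (rep (c w)) w := fun w => hcn _ _ (hrep' (c w) ⟨w, rfl⟩)
  have hup : ∀ u, ({v | Dom r k u v} : Lang A) ∈ B A (j + 1) := fun u =>
    pol_sub_B (dom_pol h hc k u)
  have hdn : ∀ u, ({v | Dom r k v u} : Lang A) ∈ B A (j + 1) := by
    intro u
    have e : ({v | Dom r k v u} : Lang A) =
        ({v | ∃ p ∈ (List.finRange n).filter (fun p => decide (¬ Dom r k (rep p) u)),
          v ∈ (fun p => ({v | Dom r k (rep p) v} : Lang A)) p} : Lang A)ᶜ := by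
      ext v
      constructor
      · rintro hv ⟨p, hp, hpv⟩
        have hp' := (List.mem_filter.1 hp).2
        rw [decide_eq_true_eq] at hp'
        exact hp' (dom_trans h hpv hv)
      · intro hv
        by_contra hvu
        refine hv ⟨c v, List.mem_filter.2 ⟨List.mem_finRange _, ?_⟩, (hr v).1⟩
        rw [decide_eq_true_eq]
        exact fun h' => hvu (dom_trans h (hr v).2 h')
    rw [e]
    exact B_compl (B_list_union _ _ fun p _ => hup _)
  have e : L = ({w | ∃ p ∈ (List.finRange n).filter (fun p => decide (rep p ∈ L)),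
      w ∈ (fun p => ({v | Dom r k (rep p) v} ∩ {v | Dom r k v (rep p)} : Lang A)) p} :
        Lang A) := by
    ext w
    constructor
    · intro hw
      refine ⟨c w, List.mem_filter.2 ⟨List.mem_finRange _, ?_⟩, (hr w).1, (hr w).2⟩
      rw [decide_eq_true_eq]
      exact (hL _ _ (hr w)).2 hw
    · rintro ⟨p, hp, h1, h2⟩
      have hp' := (List.mem_filter.1 hp).2
      rw [decide_eq_true_eq] at hp'
      exact (hL _ _ ⟨h1, h2⟩).1 hp'
  rw [e]
  exact B_list_union _ _ fun p _ => B_inter (hup _) (hdn _)

end Pool.Agent.MSL
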