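import Pool.Agent.MSL.Blk

/-!
# Project MSL: choice of the two cuts
-/

namespace Pool.Agent.MSL

open Pool.Agent.DD Pool.Agent.HLV

variable {A N : Type} [Monoid N] {η : List A → N}

private theorem ctc_take (Y : List A) {c d : ℕ} (hcd : c ≤ d) :
    Y.take c ++ (Y.take d).drop c = Y.take d := by
  have h := List.take_append_drop c (Y.take d)
  rwa [List.take_take, Nat.min_eq_left hcd] at h

private theorem ctc_drop (Y : List A) {c d : ℕ} (hcd : c ≤ d) (hd : d ≤ Y.length) :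
    (Y.take d).drop c ++ Y.drop d = Y.drop c := by
  have h : (Y.take d ++ Y.drop d).drop c = (Y.take d).drop c ++ Y.drop d := by
    apply List.drop_append_of_le_length
    rw [List.length_take, Nat.min_eq_left hd]
    exact hcd
  rw [← h, List.take_append_drop]

private theorem ctc_nil (hη : IsHom η) {K : ℕ} (aN : Aper N K) {n : N} (hn : n ≠ 1) (r : ℕ) :
    ¬ Bl η n (r + 1) [] := by
  rintro ⟨y, z, h1, h2, -⟩
  have hy : y = [] := (List.append_eq_nil_iff.1 h1.symm).1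
  rw [hy] at h2
  exact inl_nil hη aN hn h2

theorem ctc (hη : IsHom η) {K : ℕ} (aN : Aper N K) {n : N} (hn : n ≠ 1) {ρ : ℕ}
    (Lp Rp : List A → List A → Prop) {Y : List A}
    (hw : ∀ Y₁ Y₂ Y₃, Y = Y₁ ++ Y₂ ++ Y₃ → ¬ Bl η n (ρ + 2) Y₂ →
      Lp (Y₁ ++ Y₂) Y₃ ∨ Rp Y₁ (Y₂ ++ Y₃))
    (hL : ¬ Lp Y []) (hR : ¬ Rp [] Y) :
    ∃ Y₁ Y₂ Y₃, Y = Y₁ ++ Y₂ ++ Y₃ ∧ Bl η n ρ Y₂ ∧ Lp (Y₁ ++ Y₂) Y₃ ∧ Rp Y₁ (Y₂ ++ Y₃) := by
  classical
  have hw' : ∀ c d, c ≤ d → d ≤ Y.length → ¬ Bl η n (ρ + 2) ((Y.take d).drop c) →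
      Lp (Y.take d) (Y.drop d) ∨ Rp (Y.take c) (Y.drop c) := by
    intro c d hcd hd hB
    have h := hw (Y.take c) ((Y.take d).drop c) (Y.drop d)
      (by rw [ctc_take Y hcd, List.take_append_drop]) hB
    rwa [ctc_take Y hcd, ctc_drop Y hcd hd] at h
  have hR0 : ¬ Rp (Y.take 0) (Y.drop 0) := hR
  have hL0 : Lp (Y.take 0) (Y.drop 0) := by
    rcases hw' 0 0 (le_refl _) (Nat.zero_le _) (ctc_nil hη aN hn (ρ + 1)) with h | h
    · exact h
    · exact absurd h hR0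
  have hex : ∃ c, c ≤ Y.length ∧ ¬ Lp (Y.take c) (Y.drop c) :=
    ⟨Y.length, le_refl _, by rwa [List.take_length, List.drop_length]⟩
  obtain ⟨cs, hcs⟩ : ∃ cs, Nat.find hex = cs + 1 := by
    refine ⟨Nat.find hex - 1, ?_⟩
    have h1 : Nat.find hex ≠ 0 := by
      intro h0
      have h2 := (Nat.find_spec hex).2
      rw [h0] at h2
      exact h2 hL0
    omega
  have hspec := Nat.find_spec hex
  have hmin : ∀ k, k < Nat.find hex → ¬ (k ≤ Y.length ∧ ¬ Lp (Y.take k) (Y.drop k)) :=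
    fun k hk => Nat.find_min hex hk
  rw [hcs] at hspec hmin
  obtain ⟨hle, hnL⟩ := hspec
  have hLcs : Lp (Y.take cs) (Y.drop cs) := by
    by_contra h
    exact hmin cs (Nat.lt_succ_self cs) ⟨by omega, h⟩
  have hex2 : ∃ c, c ≤ cs + 1 ∧ ¬ Bl η n (ρ + 2) ((Y.take (cs + 1)).drop c) := by
    refine ⟨cs + 1, le_refl _, ?_⟩
    have h1 : (Y.take (cs + 1)).drop (cs + 1) = [] := by
      apply List.drop_eq_nil_of_le
      rw [List.length_take]
      exact min_le_left _ _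
    rw [h1]
    exact ctc_nil hη aN hn (ρ + 1)
  have hRc : Rp (Y.take (Nat.find hex2)) (Y.drop (Nat.find hex2)) := by
    rcases hw' _ _ (Nat.find_spec hex2).1 hle (Nat.find_spec hex2).2 with h | h
    · exact absurd h hnL
    · exact h
  obtain ⟨c, hc⟩ : ∃ c, Nat.find hex2 = c + 1 := by
    refine ⟨Nat.find hex2 - 1, ?_⟩
    have h1 : Nat.find hex2 ≠ 0 := by
      intro h0
      rw [h0] at hRc
      exact hR0 hRc
    omega
  have hc1 := (Nat.find_spec hex2).1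
  have hmin2 : ∀ k, k < Nat.find hex2 →
      ¬ (k ≤ cs + 1 ∧ ¬ Bl η n (ρ + 2) ((Y.take (cs + 1)).drop k)) :=
    fun k hk => Nat.find_min hex2 hk
  rw [hc] at hRc hc1 hmin2
  have hB1 : Bl η n (ρ + 2) ((Y.take (cs + 1)).drop c) := by
    by_contra h
    exact hmin2 c (Nat.lt_succ_self c) ⟨by omega, h⟩
  have hlen : (Y.take (cs + 1)).length = cs + 1 := by
    rw [List.length_take, Nat.min_eq_left hle]
  have hcons : (Y.take (cs + 1)).drop c =
      (Y.take (cs + 1))[c]'(by rw [hlen]; omega) :: (Y.take (cs + 1)).drop (c + 1) :=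
    List.drop_eq_getElem_cons (by rw [hlen]; omega)
  rw [hcons] at hB1
  have hB2 : Bl η n (ρ + 1) ((Y.take (cs + 1)).drop (c + 1)) := bl_cons hη aN hn hB1
  have hlt : c + 1 ≤ cs := by
    by_contra h
    have h2 : (Y.take (cs + 1)).drop (c + 1) = [] := by
      apply List.drop_eq_nil_of_le
      rw [hlen]
      omega
    rw [h2] at hB2
    exact ctc_nil hη aN hn ρ hB2
  have hsnoc : (Y.take (cs + 1)).drop (c + 1) =
      (Y.take cs).drop (c + 1) ++ [Y[cs]'(by omega)] := by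
    rw [List.take_succ_eq_append_getElem (by omega : cs < Y.length)]
    apply List.drop_append_of_le_length
    rw [List.length_take]
    exact le_min hlt (by omega)
  rw [hsnoc] at hB2
  have hB3 : Bl η n ρ ((Y.take cs).drop (c + 1)) := bl_snoc hη aN hn hB2
  refine ⟨Y.take (c + 1), (Y.take cs).drop (c + 1), Y.drop cs, ?_, hB3, ?_, ?_⟩
  · rw [ctc_take Y hlt, List.take_append_drop]
  · rw [ctc_take Y hlt]
    exact hLcs
  · rw [ctc_drop Y hlt (by omega)]
    exact hRc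

end Pool.Agent.MSL
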