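import Pool.Agent.MSL.Bas

/-!
# Project MSL: reversal of the hypotheses
-/

namespace Pool.Agent.MSL

open Pool.Agent.DD Pool.Agent.HLV

variable {A M N S : Type}

theorem IsHom.rev [Monoid S] {φ : List A → S} (h : IsHom φ) : IsHom (rv φ) where
  one := by
    show MulOpposite.op (φ ([] : List A).reverse) = 1
    rw [List.reverse_nil, h.one, MulOpposite.op_one]
  mul x y := by
    show MulOpposite.op (φ (x ++ y).reverse) =
      MulOpposite.op (φ x.reverse) * MulOpposite.op (φ y.reverse)
    rw [List.reverse_append, h.mul, MulOpposite.op_mul]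

private theorem rva_pow [Monoid M] (e y z : M) (j : ℕ) :
    (e * y * e * z) ^ (j + 1) = e * y * e * (z * e * y * e) ^ j * z := by
  induction j with
  | zero => rw [pow_one, pow_zero, mul_one]
  | succ j ih =>
      rw [pow_succ, ih, pow_succ]
      simp only [mul_assoc]

private theorem rva_h1 [Monoid M] {K : ℕ} (hA : Aper M K) (e y z : M)
    (h : (z * e * y * e) ^ K * (z * e) * (z * e * y * e) ^ K = (z * e * y * e) ^ K) :
    (e * y * e * z) ^ K * (e * z) * (e * y * e * z) ^ K = (e * y * e * z) ^ K := by
  have h1 : (e * y * e * z) ^ K = e * y * e * (z * e * y * e) ^ K * z := by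
    rw [← hA.mono (Nat.le_succ K) (e * y * e * z)]
    exact rva_pow e y z K
  have h2 : (z * e * y * e) * (z * e * y * e) ^ K = (z * e * y * e) ^ K := hA.mul _
  rw [h1]
  have h3 : e * y * e * (z * e * y * e) ^ K * z * (e * z) * (e * y * e * (z * e * y * e) ^ K * z) =
      e * y * e * ((z * e * y * e) ^ K * (z * e) *
        ((z * e * y * e) * (z * e * y * e) ^ K)) * z := by
    simp only [mul_assoc]
  rw [h3, h2, h]

private theorem rva_eq [Monoid S] {φ : List A → S} {x y : List A} :
    rv φ x = rv φ y ↔ φ x.reverse = φ y.reverse := MulOpposite.op_injective.eq_iff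

private theorem rva_idem [Monoid S] {φ : List A → S} {x : List A}
    (h : rv φ x * rv φ x = rv φ x) : φ x.reverse * φ x.reverse = φ x.reverse :=
  MulOpposite.op_injective (by rw [MulOpposite.op_mul]; exact h)

theorem Setup.rev [Monoid M] [Monoid N] {α : List A → M} {η : List A → N} {K : ℕ}
    (hS : Setup α η K) : Setup (rv α) (rv η) K where
  pos := hS.pos
  αh := hS.αh.rev
  ηh := hS.ηh.rev
  sur := by
    intro s
    obtain ⟨x, hx⟩ := hS.sur s.unop
    refine ⟨x.reverse, ?_⟩
    show MulOpposite.op (α x.reverse.reverse) = s
    rw [List.reverse_reverse, hx, MulOpposite.op_unop]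
  aM := by
    intro s
    apply MulOpposite.unop_injective
    rw [MulOpposite.unop_pow, MulOpposite.unop_pow]
    exact hS.aM _
  aN := by
    intro s
    apply MulOpposite.unop_injective
    rw [MulOpposite.unop_pow, MulOpposite.unop_pow]
    exact hS.aN _
  one := by
    intro x hx
    have h1 : η x.reverse = 1 := MulOpposite.op_injective hx
    exact List.reverse_eq_nil_iff.1 (hS.one _ h1)
  sgl := by
    intro x a hx
    have h1 : η x.reverse = η [a] := by
      have := rva_eq.1 hx
      rwa [List.reverse_singleton] at this
    have h2 := hS.sgl _ _ h1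
    rw [← List.reverse_reverse x, h2, List.reverse_singleton]
  h1 := by
    intro E Y z hE hE' hY
    have h1 := rva_h1 hS.aM _ _ _ (hS.h1 E.reverse Y.reverse z.unop (rva_idem hE) (rva_idem hE')
      (rva_eq.1 hY))
    apply MulOpposite.unop_injective
    have e1 : (z * rv α E * rv α Y * rv α E).unop =
        α E.reverse * α Y.reverse * α E.reverse * z.unop := by
      show α E.reverse * (α Y.reverse * (α E.reverse * z.unop)) = _
      simp only [mul_assoc]
    have e2 : (z * rv α E).unop = α E.reverse * z.unop := rfl
    rw [MulOpposite.unop_mul, MulOpposite.unop_mul, MulOpposite.unop_pow, e1, e2, ← mul_assoc]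
    exact h1
  h2 := by
    intro E F q r s t hE hF hE' hF' h3 h4
    have h5 := rva_eq.1 h3
    have h6 := rva_eq.1 h4
    simp only [List.reverse_append] at h5 h6
    have h7 := hS.h2 E.reverse F.reverse t.reverse s.reverse r.reverse q.reverse (rva_idem hE)
      (rva_idem hF) (rva_idem hE') (rva_idem hF')
      (by simpa only [List.append_assoc] using h5) (by simpa only [List.append_assoc] using h6)
    apply MulOpposite.unop_injective
    have e1 : (rv α (E ++ q ++ F ++ r ++ E)).unop =
        α (E.reverse ++ r.reverse ++ F.reverse ++ q.reverse ++ E.reverse) := by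
      show α (E ++ q ++ F ++ r ++ E).reverse = _
      simp only [List.reverse_append, List.append_assoc]
    have e2 : (rv α (E ++ s ++ F ++ t ++ E)).unop =
        α (E.reverse ++ t.reverse ++ F.reverse ++ s.reverse ++ E.reverse) := by
      show α (E ++ s ++ F ++ t ++ E).reverse = _
      simp only [List.reverse_append, List.append_assoc]
    have e3 : (rv α (q ++ F ++ t)).unop = α (t.reverse ++ F.reverse ++ q.reverse) := by
      show α (q ++ F ++ t).reverse = _
      simp only [List.reverse_append, List.append_assoc]
    simp only [MulOpposite.unop_mul, MulOpposite.unop_pow, e1, e2, e3, ← mul_assoc]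
    exact h7

end Pool.Agent.MSL
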