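import Pool.Agent.MSL.Jj
import Pool.Agent.MSL.Rva

/-!
# Project MSL: the dual of (J)

`hS.rev : Setup (rv α) (rv η) K` and `jj_abs` for the words `E.reverse`, `W.reverse`, `W'.reverse` and `p := op p'`:
`op p' * (rv α (E W E)ʳ * rv α (E W' E)ʳ) = op (α (E W' E) * α (E W E) * p')`.
-/

namespace Pool.Agent.MSL

open Pool.Agent.DD Pool.Agent.HLV

variable {A M N : Type} [Monoid M] [Monoid N] {α : List A → M} {η : List A → N} {K : ℕ}

private theorem jd_rv {S : Type} [Monoid S] (φ : List A → S) (E W : List A) :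
    rv φ (E.reverse ++ W.reverse ++ E.reverse) = MulOpposite.op (φ (E ++ W ++ E)) := by
  show MulOpposite.op (φ (E.reverse ++ W.reverse ++ E.reverse).reverse) = _
  simp only [List.reverse_append, List.reverse_reverse, List.append_assoc]

private theorem jd_rv1 {S : Type} [Monoid S] (φ : List A → S) (E : List A) :
    rv φ E.reverse = MulOpposite.op (φ E) := by
  show MulOpposite.op (φ E.reverse.reverse) = _
  rw [List.reverse_reverse]

theorem jj_abs' (hS : Setup α η K) {E W W' : List A} (h1 : α E * α E = α E)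
    (h2 : η E * η E = η E) (h3 : η (E ++ W ++ E) = η E) (h4 : η (E ++ W' ++ E) = η E) {p : M}
    (hp : (α (E ++ W' ++ E) * α (E ++ W ++ E)) * p = p) : α (E ++ W ++ E) * p = p := by
  have h := jj_abs hS.rev (E := E.reverse) (W := W.reverse) (W' := W'.reverse)
    (p := MulOpposite.op p)
    (by rw [jd_rv1, ← MulOpposite.op_mul, h1])
    (by rw [jd_rv1, ← MulOpposite.op_mul, h2])
    (by rw [jd_rv, jd_rv1, h3])
    (by rw [jd_rv, jd_rv1, h4])
    (by rw [jd_rv, jd_rv, ← MulOpposite.op_mul, ← MulOpposite.op_mul, hp])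
  rw [jd_rv, ← MulOpposite.op_mul] at h
  exact MulOpposite.op_injective h

end Pool.Agent.MSL
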