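import Pool.Agent.MSL.Jj
import Pool.Agent.MSL.Alg

/-!
# Project MSL: one step lemma: the use of (H2)

`e = α E`, `f = α F`, `n = η E`, `n' = η F`.  In `N`: `u = η(EqF)`, `w = η(FrE)`, `u' = η(EsF)`, `w' = η(FtE)`:
`u w = n`, `u w' = n`, `u' w' = n`, so `w u = n'`, `w' u = n'`, `w' u' = n'` (A2), and `w = w'`, `u' = u`.  Hence
(H2) applies, and `p (qft) p' = p (..)^K qft (..)^K p' = p (..)^K (..)^K p' = p p'`.
-/

namespace Pool.Agent.MSL

open Pool.Agent.DD Pool.Agent.HLV

variable {A M N : Type} [Monoid M] [Monoid N] {α : List A → M} {η : List A → N} {K : ℕ}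

/-- powers act trivially from the right -/
private theorem Osa_pow {S : Type} [Monoid S] {p x : S} (h : p * x = p) (n : ℕ) :
    p * x ^ n = p := by
  induction n with
  | zero => simp
  | succ n ih => rw [pow_succ, ← mul_assoc, ih, h]

/-- powers act trivially from the left -/
private theorem Osa_pow' {S : Type} [Monoid S] {p x : S} (h : x * p = p) (n : ℕ) :
    x ^ n * p = p := by
  induction n with
  | zero => simp
  | succ n ih => rw [pow_succ, mul_assoc, h, ih]

theorem os_alg (hS : Setup α η K) {G E H F q r s t : List A} (hE : α E * α E = α E)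
    (hE' : η E * η E = η E) (hF : α F * α F = α F) (hF' : η F * η F = η F)
    (hF'' : InL η (η E) F)
    (h1 : α (G ++ E ++ (q ++ F ++ r) ++ E) = α (G ++ E))
    (h1' : η (E ++ (q ++ F ++ r) ++ E) = η E)
    (h2 : α (E ++ (s ++ F ++ t) ++ E ++ H) = α (E ++ H))
    (h2' : η (E ++ (s ++ F ++ t) ++ E) = η E) (h3 : η (E ++ (q ++ F ++ t) ++ E) = η E) :
    α (G ++ E ++ (q ++ F ++ t) ++ E ++ H) = α (G ++ E ++ H) := by
  obtain ⟨a, b, hab⟩ := hF''
  have hηm := hS.ηh.mul
  have hαm := hS.αh.mul
  -- products over `n = η E`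
  have key : ∀ x y : List A, η (E ++ x ++ F) * η (F ++ y ++ E) = η (E ++ (x ++ F ++ y) ++ E) := by
    intro x y
    simp only [hηm]
    calc η E * η x * η F * (η F * η y * η E) = η E * η x * (η F * η F) * η y * η E := by
          simp only [mul_assoc]
      _ = η E * (η x * η F * η y) * η E := by rw [hF']; simp only [mul_assoc]
  have mu : ∀ x : List A, η E * η (E ++ x ++ F) = η (E ++ x ++ F) := by
    intro x
    simp only [hηm]
    rw [← mul_assoc, ← mul_assoc, hE']
  have un : ∀ x : List A, η (E ++ x ++ F) * η F = η (E ++ x ++ F) := by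
    intro x
    simp only [hηm]
    rw [mul_assoc, hF']
  have nv : ∀ x : List A, η F * η (F ++ x ++ E) = η (F ++ x ++ E) := by
    intro x
    simp only [hηm]
    rw [← mul_assoc, ← mul_assoc, hF']
  have vm : ∀ x : List A, η (F ++ x ++ E) * η E = η (F ++ x ++ E) := by
    intro x
    simp only [hηm]
    rw [mul_assoc, hE']
  have two : ∀ x y : List A, η (E ++ (x ++ F ++ y) ++ E) = η E →
      η (F ++ y ++ E) * η (E ++ x ++ F) = η F := by
    intro x y hxy
    exact ap_two hS.aN hE' hF' (mu x) (un x) (nv y) (vm y) ((key x y).trans hxy) hab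
  have w1 := two q r h1'
  have w2 := two s t h2'
  have w3 := two q t h3
  have e1 : η (F ++ r ++ E) = η (F ++ t ++ E) := by
    calc η (F ++ r ++ E) = η (F ++ r ++ E) * η E := (vm r).symm
      _ = η (F ++ r ++ E) * (η (E ++ q ++ F) * η (F ++ t ++ E)) := by rw [key, h3]
      _ = η F * η (F ++ t ++ E) := by rw [← mul_assoc, w1]
      _ = η (F ++ t ++ E) := nv t
  have h4 : η (F ++ r ++ E ++ s ++ F) = η F := by
    calc η (F ++ r ++ E ++ s ++ F) = η (F ++ r ++ E) * η (E ++ s ++ F) := by
          simp only [hηm]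
          calc η F * η r * η E * η s * η F = η F * η r * (η E * η E) * η s * η F := by rw [hE']
            _ = η F * η r * η E * (η E * η s * η F) := by simp only [mul_assoc]
      _ = η F := by rw [e1, w2]
  have h5 : η (E ++ q ++ F ++ t ++ E) = η E := by
    rw [← h3]
    simp only [List.append_assoc]
  have h6 := hS.h2 E F q r s t hE hF hE' hF' h5 h4
  have p1 : α (G ++ E) * α (E ++ q ++ F ++ r ++ E) = α (G ++ E) := by
    calc α (G ++ E) * α (E ++ q ++ F ++ r ++ E) = α (G ++ E ++ (q ++ F ++ r) ++ E) := by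
          simp only [hαm]
          calc α G * α E * (α E * α q * α F * α r * α E)
              = α G * (α E * α E) * α q * α F * α r * α E := by simp only [mul_assoc]
            _ = α G * α E * (α q * α F * α r) * α E := by rw [hE]; simp only [mul_assoc]
      _ = α (G ++ E) := h1
  have p2 : α (E ++ s ++ F ++ t ++ E) * α (E ++ H) = α (E ++ H) := by
    calc α (E ++ s ++ F ++ t ++ E) * α (E ++ H) = α (E ++ (s ++ F ++ t) ++ E ++ H) := by
          simp only [hαm]
          calc α E * α s * α F * α t * α E * (α E * α H)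
              = α E * α s * α F * α t * (α E * α E) * α H := by simp only [mul_assoc]
            _ = α E * (α s * α F * α t) * α E * α H := by rw [hE]; simp only [mul_assoc]
      _ = α (E ++ H) := h2
  have p3 := Osa_pow p1 K
  have p4 := Osa_pow' p2 K
  calc α (G ++ E ++ (q ++ F ++ t) ++ E ++ H)
      = α (G ++ E) * α (q ++ F ++ t) * α (E ++ H) := by
        rw [List.append_assoc (G ++ E ++ (q ++ F ++ t)), hαm (G ++ E ++ (q ++ F ++ t)),
          hαm (G ++ E)]
    _ = (α (G ++ E) * α (E ++ q ++ F ++ r ++ E) ^ K) * α (q ++ F ++ t) *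
          (α (E ++ s ++ F ++ t ++ E) ^ K * α (E ++ H)) := by rw [p3, p4]
    _ = α (G ++ E) * (α (E ++ q ++ F ++ r ++ E) ^ K * α (q ++ F ++ t) *
          α (E ++ s ++ F ++ t ++ E) ^ K) * α (E ++ H) := by simp only [mul_assoc]
    _ = α (G ++ E) * (α (E ++ q ++ F ++ r ++ E) ^ K *
          α (E ++ s ++ F ++ t ++ E) ^ K) * α (E ++ H) := by rw [h6]
    _ = (α (G ++ E) * α (E ++ q ++ F ++ r ++ E) ^ K) *
          (α (E ++ s ++ F ++ t ++ E) ^ K * α (E ++ H)) := by simp only [mul_assoc]
    _ = α (G ++ E) * α (E ++ H) := by rw [p3, p4]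
    _ = α (G ++ E ++ H) := by
        simp only [hαm]
        calc α G * α E * (α E * α H) = α G * (α E * α E) * α H := by simp only [mul_assoc]
          _ = α G * α E * α H := by rw [hE]

end Pool.Agent.MSL
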