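import Pool.Agent.MSL.Bas

/-!
# Project MSL: Ramsey numbers of finite monoids

`exists_ramsey`.  One way: Ramsey's theorem for pairs with colours `S` (three indices `i < j < k` with the same
colour of `(i,j)`, `(j,k)`, `(i,k)`; the colour of `(i,j)` is the product of the entries `i, ..., j-1`), proved
directly by pigeonhole: choose indices `i₀ < i₁ < ...` such that the colour of `(i_a, i_b)`, `a < b`, depends
only on `a` (each time at least a fraction `1 / |S|` of the remaining indices is kept), then two of these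
colours agree and a third index exists.  (Induction on the number of colours that are still needed; state it
for lists: for every list of length at least `f k` there are `k` consecutive nonempty parts whose starting
colours are as above.)
`ramsey_words`: apply it to `xs.map φ`; `(xs.map φ).prod = φ xs.flatten`; a decomposition of `xs.map φ` comes
from one of `xs` (`List.map_eq_append_iff`).
`ramsey_blocks`: `Bl η m (ρ + j) V` gives `V = y₁ ... y_(ρ+j) z`, all `y_i` in `L_m` (unfold `Bl`); apply
`ramsey_words` to `φ = (α, η)` and the first `ρ` of them; `F = y_a ... y_b` is in `L_m` since it contains `y_a`;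
`V''` contains the last `j` blocks.
-/

namespace Pool.Agent.MSL

open Pool.Agent.DD Pool.Agent.HLV

variable {A M N S : Type}

theorem IsHom.pair [Monoid M] [Monoid N] {α : List A → M} {η : List A → N} (hα : IsHom α)
    (hη : IsHom η) : IsHom (fun x => (α x, η x)) where
  one := by simp [hα.one, hη.one]
  mul x y := by simp [hα.mul, hη.mul]

theorem RamC.mono [Monoid S] {R R' : ℕ} (h : RamC S R) (hR : R ≤ R') : RamC S R' :=
  fun l hl => h l (hR.trans hl)

private theorem Ram_triple (S : Type) [Finite S] (t : ℕ) :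
    ∃ n : ℕ, ∀ (c : ℕ → ℕ → S) (T : Finset S), T.card = t → ∀ X : Finset ℕ, n ≤ X.card →
      (∀ i ∈ X, ∀ j ∈ X, i < j → c i j ∈ T) →
      ∃ i j m : ℕ, i < j ∧ j < m ∧ m ∈ X ∧ c i j = c i m ∧ c j m = c i m := by
  classical
  induction t with
  | zero =>
    refine ⟨2, fun c T hT X hX hc => ?_⟩
    obtain ⟨a, ha, b, hb, hab⟩ := Finset.one_lt_card.1 (by omega : 1 < X.card)
    have hT0 : T = ∅ := Finset.card_eq_zero.1 hT
    rcases Nat.lt_or_gt_of_ne hab with h | h
    · have := hc a ha b hb h
      rw [hT0] at this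
      exact absurd this (Finset.notMem_empty _)
    · have := hc b hb a ha h
      rw [hT0] at this
      exact absurd this (Finset.notMem_empty _)
  | succ t ih =>
    obtain ⟨n, hn⟩ := ih
    refine ⟨(t + 1) * (n + 1) + 1, fun c T hT X hX hc => ?_⟩
    have hXne : X.Nonempty := by
      rw [← Finset.card_pos]
      omega
    set x := X.min' hXne with hx
    have hxX : x ∈ X := Finset.min'_mem _ _
    have hlt : ∀ y ∈ X.erase x, x < y := fun y hy =>
      lt_of_le_of_ne (Finset.min'_le _ _ (Finset.mem_of_mem_erase hy))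
        (Finset.ne_of_mem_erase hy).symm
    have hcard : (t + 1) * (n + 1) ≤ (X.erase x).card := by
      rw [Finset.card_erase_of_mem hxX]
      omega
    have hTne : T.Nonempty := by
      rw [← Finset.card_pos]
      omega
    obtain ⟨s, hs, hfib⟩ := Finset.exists_le_card_fiber_of_mul_le_card_of_maps_to
      (s := X.erase x) (t := T) (f := fun y => c x y) (n := n + 1)
      (fun y hy => hc x hxX y (Finset.mem_of_mem_erase hy) (hlt y hy)) hTne (by rw [hT]; exact hcard)
    set X' := (X.erase x).filter (fun y => c x y = s) with hX'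
    by_cases hp : ∃ j ∈ X', ∃ m ∈ X', j < m ∧ c j m = s
    · obtain ⟨j, hj, m, hm, hjm, hcs⟩ := hp
      have hj1 := Finset.mem_filter.1 hj
      have hm1 := Finset.mem_filter.1 hm
      refine ⟨x, j, m, hlt j hj1.1, hjm, Finset.mem_of_mem_erase hm1.1, ?_, ?_⟩
      · rw [hj1.2, hm1.2]
      · rw [hcs, hm1.2]
    · push Not at hp
      obtain ⟨i, j, m, h1, h2, h3, h4, h5⟩ := hn c (T.erase s)
        (by rw [Finset.card_erase_of_mem hs, hT]; rfl) X' (by omega) (by
          intro i hi j hj hij
          have hi1 := Finset.mem_filter.1 hi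
          have hj1 := Finset.mem_filter.1 hj
          refine Finset.mem_erase.2 ⟨hp i hi j hj hij, ?_⟩
          exact hc i (Finset.mem_of_mem_erase hi1.1) j (Finset.mem_of_mem_erase hj1.1) hij)
      exact ⟨i, j, m, h1, h2, Finset.mem_of_mem_erase (Finset.mem_filter.1 h3).1, h4, h5⟩

private theorem Ram_split {S : Type} (l : List S) {i j m : ℕ} (hij : i < j) (hjm : j < m) :
    (l.drop i).take (m - i) = (l.drop i).take (j - i) ++ (l.drop j).take (m - j) := by
  have h1 : m - i = (j - i) + (m - j) := by omega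
  have h2 : (l.drop i).drop (j - i) = l.drop j := by
    rw [List.drop_drop]
    congr 1
    omega
  rw [h1, List.take_add, h2]

theorem exists_ramsey (S : Type) [Monoid S] [Finite S] : ∃ R, RamC S R := by
  classical
  have := Fintype.ofFinite S
  obtain ⟨n, hn⟩ := Ram_triple S (Finset.univ : Finset S).card
  refine ⟨n, fun l hl => ?_⟩
  obtain ⟨i, j, m, hij, hjm, hm, h1, h2⟩ := hn (fun i j => ((l.drop i).take (j - i)).prod)
    Finset.univ rfl (Finset.range l.length) (by rw [Finset.card_range]; exact hl)
    (fun i _ j _ _ => Finset.mem_univ _)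
  have hm' : m < l.length := Finset.mem_range.1 hm
  refine ⟨l.take i, (l.drop i).take (m - i), l.drop m, ?_, ?_, ?_⟩
  · have h3 : l.drop m = (l.drop i).drop (m - i) := by
      rw [List.drop_drop]
      congr 1
      omega
    rw [h3, List.append_assoc, List.take_append_drop, List.take_append_drop]
  · intro h0
    have h3 := congrArg List.length h0
    rw [List.length_take, List.length_drop, List.length_nil] at h3
    omega
  · have h3 : ((l.drop i).take (m - i)).prod =
        ((l.drop i).take (j - i)).prod * ((l.drop j).take (m - j)).prod := by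
      rw [Ram_split l hij hjm, List.prod_append]
    have h4 : ((l.drop i).take (j - i)).prod = ((l.drop i).take (m - i)).prod := h1
    have h5 : ((l.drop j).take (m - j)).prod = ((l.drop i).take (m - i)).prod := h2
    rw [h4, h5] at h3
    exact h3.symm

private theorem Ram_flatten [Monoid S] {φ : List A → S} (hφ : IsHom φ) (xs : List (List A)) :
    (xs.map φ).prod = φ xs.flatten := by
  induction xs with
  | nil => simp [hφ.one]
  | cons x xs ih => rw [List.map_cons, List.prod_cons, ih, List.flatten_cons, hφ.mul]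

theorem ramsey_words [Monoid S] {φ : List A → S} (hφ : IsHom φ) {R : ℕ} (hR : RamC S R)
    {xs : List (List A)} (hx : R ≤ xs.length) :
    ∃ xs₁ xs₂ xs₃, xs = xs₁ ++ xs₂ ++ xs₃ ∧ xs₂ ≠ [] ∧
      φ xs₂.flatten * φ xs₂.flatten = φ xs₂.flatten := by
  obtain ⟨l₁, l₂, l₃, hl, hne, hid⟩ := hR (xs.map φ) (by rw [List.length_map]; exact hx)
  obtain ⟨ys, xs₃, h1, h2, h3⟩ := List.map_eq_append_iff.1 hl
  obtain ⟨xs₁, xs₂, h4, h5, h6⟩ := List.map_eq_append_iff.1 h2
  refine ⟨xs₁, xs₂, xs₃, by rw [h1, h4], ?_, ?_⟩
  · intro h0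
    apply hne
    rw [← h6, h0]
    rfl
  · rw [← Ram_flatten hφ, h6]
    exact hid

private theorem Ram_inL_left [Monoid N] {η : List A → N} (hη : IsHom η) {m : N} {x : List A}
    (h : InL η m x) (w : List A) : InL η m (w ++ x) := by
  obtain ⟨a, b, hab⟩ := h
  exact ⟨η w * a, b, by rw [hη.mul, hab]; simp only [mul_assoc]⟩

private theorem Ram_inL_right [Monoid N] {η : List A → N} (hη : IsHom η) {m : N} {x : List A}
    (h : InL η m x) (w : List A) : InL η m (x ++ w) := by
  obtain ⟨a, b, hab⟩ := h
  exact ⟨a, b * η w, by rw [hη.mul, hab]; simp only [mul_assoc]⟩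

private theorem Ram_bl_left [Monoid N] {η : List A → N} (hη : IsHom η) {m : N} {j : ℕ}
    {x : List A} (h : Bl η m j x) (w : List A) : Bl η m j (w ++ x) := by
  cases j with
  | zero => exact True.intro
  | succ j =>
    obtain ⟨y, z, hyz, hy, hz⟩ := h
    exact ⟨w ++ y, z, by rw [hyz, List.append_assoc], Ram_inL_left hη hy w, hz⟩

private theorem Ram_bl_list [Monoid N] {η : List A → N} {m : N} {j : ℕ} (ρ : ℕ) {V : List A}
    (hV : Bl η m (ρ + j) V) : ∃ (ys : List (List A)) (V' : List A), ys.length = ρ ∧
      V = ys.flatten ++ V' ∧ (∀ y ∈ ys, InL η m y) ∧ Bl η m j V' := by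
  induction ρ generalizing V with
  | zero =>
    rw [Nat.zero_add] at hV
    exact ⟨[], V, rfl, rfl, by simp, hV⟩
  | succ ρ ih =>
    have h1 : ρ + 1 + j = (ρ + j) + 1 := by omega
    rw [h1] at hV
    obtain ⟨y, z, hyz, hy, hz⟩ := hV
    obtain ⟨ys, V', h2, h3, h4, h5⟩ := ih hz
    refine ⟨y :: ys, V', by rw [List.length_cons, h2], ?_, ?_, h5⟩
    · rw [hyz, h3, List.flatten_cons, List.append_assoc]
    · intro w hw
      rcases List.mem_cons.1 hw with h | h
      · rw [h]
        exact hy
      · exact h4 w h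

theorem ramsey_blocks [Monoid M] [Monoid N] {α : List A → M} {η : List A → N} (hα : IsHom α)
    (hη : IsHom η) {ρ j : ℕ} (hρ : RamC (M × N) ρ) {m : N} {V : List A}
    (hV : Bl η m (ρ + j) V) :
    ∃ V₁ F V₂, V = V₁ ++ F ++ V₂ ∧ α F * α F = α F ∧ η F * η F = η F ∧ InL η m F ∧
      Bl η m j V₂ := by
  obtain ⟨ys, V', h1, h2, h3, h4⟩ := Ram_bl_list ρ hV
  obtain ⟨xs₁, xs₂, xs₃, h5, h6, h7⟩ := ramsey_words (hα.pair hη) hρ (xs := ys) (by omega)
  have h8 := Prod.ext_iff.1 h7
  refine ⟨xs₁.flatten, xs₂.flatten, xs₃.flatten ++ V', ?_, h8.1, h8.2, ?_,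
    Ram_bl_left hη h4 _⟩
  · rw [h2, h5, List.flatten_append, List.flatten_append]
    simp only [List.append_assoc]
  · obtain ⟨y, ys', hy⟩ := List.exists_cons_of_ne_nil h6
    have h9 : y ∈ ys := by
      rw [h5, hy]
      simp
    rw [hy, List.flatten_cons]
    exact Ram_inL_right hη (h3 y h9) _

end Pool.Agent.MSL
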