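import Pool.Agent.MSL.Blk
import Pool.Agent.MSL.Rva

/-!
# Project MSL: reversal of domination

`inl_rev`: direct.  `bl_rev`: induction on `r`, with `bl_split` (`Bl (r+1) z` gives `z = x y`, `Bl r x`, `Bl 1 y`) and
`bl_add`.  `th_rev`: `(a ++ x ++ b).reverse = b.reverse ++ x.reverse ++ a.reverse`, every element of the opposite
monoid is `op m`.  `dom_rev`: induction on `k`.
-/

namespace Pool.Agent.MSL

open Pool.Agent.DD Pool.Agent.HLV

variable {A M N S : Type}

theorem inl_rev [Monoid N] {η : List A → N} {m : N} {x : List A} :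
    InL (rv η) (MulOpposite.op m) x ↔ InL η m x.reverse := by
  constructor
  · rintro ⟨a, b, h⟩
    refine ⟨b.unop, a.unop, ?_⟩
    have h2 := congrArg MulOpposite.unop h
    simp only [rv, MulOpposite.unop_op, MulOpposite.unop_mul] at h2
    rw [h2, mul_assoc]
  · rintro ⟨a, b, h⟩
    refine ⟨MulOpposite.op b, MulOpposite.op a, ?_⟩
    simp only [rv, h, MulOpposite.op_mul, mul_assoc]

theorem bl_rev [Monoid N] {η : List A → N} (hη : IsHom η) (m : N) (r : ℕ) (x : List A) :
    Bl (rv η) (MulOpposite.op m) r x ↔ Bl η m r x.reverse := by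
  induction r generalizing x with
  | zero => exact Iff.rfl
  | succ r ih =>
      constructor
      · rintro ⟨y, z, rfl, h1, h2⟩
        rw [List.reverse_append]
        exact bl_add hη ((ih z).1 h2) ((bl_one hη).2 (inl_rev.1 h1))
      · intro h
        obtain ⟨p, q, hpq, h1, h2⟩ := bl_split (r := r) (s := 1) h
        refine ⟨q.reverse, p.reverse, ?_, ?_, ?_⟩
        · rw [← List.reverse_append, ← hpq, List.reverse_reverse]
        · rw [inl_rev, List.reverse_reverse]
          exact (bl_one hη).1 h2
        · rw [ih, List.reverse_reverse]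
          exact h1

theorem th_rev [Monoid N] {η : List A → N} (hη : IsHom η) {R : ℕ} {x y : List A} :
    Th (rv η) R x y ↔ Th η R x.reverse y.reverse := by
  have key : ∀ (m : N) (r : ℕ) (a b w : List A), Bl (rv η) (MulOpposite.op m) r (a ++ w ++ b) ↔
      Bl η m r (b.reverse ++ w.reverse ++ a.reverse) := by
    intro m r a b w
    rw [bl_rev hη, List.reverse_append, List.reverse_append, List.append_assoc]
  constructor
  · rintro ⟨h1, h2⟩
    refine ⟨MulOpposite.op_injective h1, fun m r hr a b => ?_⟩
    have h3 := h2 (MulOpposite.op m) r hr b.reverse a.reverse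
    rw [key, key, List.reverse_reverse, List.reverse_reverse] at h3
    exact h3
  · rintro ⟨h1, h2⟩
    refine ⟨congrArg MulOpposite.op h1, fun m r hr a b => ?_⟩
    have h3 := h2 m.unop r hr b.reverse a.reverse
    rw [← key, ← key, MulOpposite.op_unop] at h3
    exact h3

theorem dom_rev [Monoid N] {η : List A → N} (hη : IsHom η) {R k : ℕ} {x y : List A} :
    Dom (Th (rv η) R) k x y ↔ Dom (Th η R) k x.reverse y.reverse := by
  induction k generalizing x y with
  | zero => exact th_rev hη
  | succ k ih =>
      constructor
      · intro h u₁ u₂ hu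
        obtain ⟨v₁, v₂, hv, h1, h2⟩ := h u₂.reverse u₁.reverse (by
          rw [← List.reverse_append, ← hu, List.reverse_reverse])
        refine ⟨v₂.reverse, v₁.reverse, by rw [hv, List.reverse_append], ?_, ?_⟩
        · have h3 := ih.1 h2
          rwa [List.reverse_reverse] at h3
        · have h3 := ih.1 h1
          rwa [List.reverse_reverse] at h3
      · intro h u₁ u₂ hu
        obtain ⟨v₁, v₂, hv, h1, h2⟩ := h u₂.reverse u₁.reverse (by
          rw [hu, List.reverse_append])
        refine ⟨v₂.reverse, v₁.reverse, ?_, ?_, ?_⟩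
        · rw [← List.reverse_append, ← hv, List.reverse_reverse]
        · rw [ih, List.reverse_reverse]
          exact h2
        · rw [ih, List.reverse_reverse]
          exact h1

end Pool.Agent.MSL
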