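import Pool.Agent.MSL.Lod
import Pool.Agent.MSL.Rvb

/-!
# Project MSL: (RO) by reversal

(LO) for the reversed homomorphisms and the reversed words is (RO); (LO) and (RO) are monotone in the number of rounds.
-/

namespace Pool.Agent.MSL

open Pool.Agent.DD Pool.Agent.HLV

variable {A M N : Type} [Monoid M] [Monoid N] {α : List A → M} {η : List A → N}

private theorem ro_cg (hη : IsHom η) (R : ℕ) : Cg (Th η R) where
  refl _ := ⟨rfl, fun _ _ _ _ _ => Iff.rfl⟩
  symm h := ⟨h.1.symm, fun m r hr a b => (h.2 m r hr a b).symm⟩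
  trans h h' := ⟨h.1.trans h'.1, fun m r hr a b => (h.2 m r hr a b).trans (h'.2 m r hr a b)⟩
  app := by
    intro x x' y y' h h'
    refine ⟨by rw [hη.mul, hη.mul, h.1, h'.1], fun m r hr a b => ?_⟩
    have h1 := h.2 m r hr a (y ++ b)
    have h2 := h'.2 m r hr (a ++ x') b
    simp only [List.append_assoc] at h1 h2 ⊢
    exact h1.trans h2

private theorem ro_pw (x : List A) (n : ℕ) : (pw x n).reverse = pw x.reverse n := by
  induction n with
  | zero => rfl
  | succ n ih => rw [pw_succ, List.reverse_append, ih, pw_succ']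

private theorem ro_val {S : Type} [Monoid S] (φ : List A → S) (x : List A) :
    rv φ x.reverse = MulOpposite.op (φ x) := by
  unfold rv
  rw [List.reverse_reverse]

theorem ro_of_lo (hη : IsHom η) {R k : ℕ} (h : LOp (rv α) (rv η) R k) : ROp α η R k := by
  intro P G E Y₀ Y₁ Y₂ H hP hE hEE hY hηY hη1 hIn hRc
  obtain ⟨T, z, hTz, hd1, hd2⟩ := hRc
  have hrev : E.reverse ++ Y₀.reverse ++ E.reverse = (E ++ Y₀ ++ E).reverse := by
    simp only [List.reverse_append, List.append_assoc]
  have h1 : rv α E.reverse * rv α E.reverse = rv α E.reverse := by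
    rw [ro_val, ← MulOpposite.op_mul, hE]
  have h2 : Eqv (Th (rv η) R) k E.reverse (E.reverse ++ E.reverse) := by
    have e : (E.reverse ++ E.reverse).reverse = E ++ E := by
      rw [List.reverse_append, List.reverse_reverse]
    constructor
    · rw [dom_rev hη, e, List.reverse_reverse]
      exact hEE.1
    · rw [dom_rev hη, e, List.reverse_reverse]
      exact hEE.2
  have h3 : E.reverse ++ Y₀.reverse ++ E.reverse = Y₂.reverse ++ Y₁.reverse := by
    rw [hrev, hY, List.reverse_append]
  have h4 : rv η (E.reverse ++ Y₀.reverse ++ E.reverse) = rv η E.reverse := by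
    rw [hrev, ro_val, ro_val, hηY]
  have h5 : rv η E.reverse ≠ 1 := by
    rw [ro_val]
    intro h6
    exact hη1 (MulOpposite.op_injective h6)
  have h6 : InL (rv η) (rv η E.reverse) Y₂.reverse := by
    rw [ro_val, inl_rev, List.reverse_reverse]
    exact hIn
  have h7 : Lc (rv η) R k P H.reverse E.reverse G.reverse Y₂.reverse Y₁.reverse := by
    refine ⟨z.reverse, T.reverse, ?_, ?_, ?_⟩
    · rw [← List.reverse_append, hTz, List.reverse_append, ro_pw]
    · rw [dom_rev hη]
      simp only [List.reverse_append, List.reverse_reverse]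
      simpa only [List.append_assoc] using hd1
    · rw [dom_rev hη, ← ro_pw]
      simp only [List.reverse_append, List.reverse_reverse]
      simpa only [List.append_assoc] using hd2
  rcases h P H.reverse E.reverse Y₀.reverse Y₂.reverse Y₁.reverse G.reverse hP h1 h2 h3 h4 h5 h6 h7 with
    h8 | ⟨s, h8, h9⟩
  · left
    have h10 := MulOpposite.op_injective h8
    simp only [List.reverse_append, List.reverse_reverse, List.append_assoc] at h10 ⊢
    exact h10
  · right
    refine ⟨s.reverse, ?_, ?_⟩
    · have h10 := MulOpposite.op_injective h8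
      simp only [List.reverse_append, List.reverse_reverse, List.append_assoc] at h10 ⊢
      exact h10
    · have h10 := MulOpposite.op_injective h9
      simp only [List.reverse_append, List.reverse_reverse, List.append_assoc] at h10 ⊢
      exact h10

theorem lop_mono (hη : IsHom η) {R k k' : ℕ} (hk : k ≤ k') (h : LOp α η R k) : LOp α η R k' := by
  intro P G E Y₀ Y₁ Y₂ H hP hE hEE hY hηY hη1 hIn hLc
  obtain ⟨z, T, h1, h2, h3⟩ := hLc
  exact h P G E Y₀ Y₁ Y₂ H hP hE (eqv_mono (ro_cg hη R) hk hEE) hY hηY hη1 hIn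
    ⟨z, T, h1, dom_mono (ro_cg hη R) hk h2, dom_mono (ro_cg hη R) hk h3⟩

theorem rop_mono (hη : IsHom η) {R k k' : ℕ} (hk : k ≤ k') (h : ROp α η R k) : ROp α η R k' := by
  intro P G E Y₀ Y₁ Y₂ H hP hE hEE hY hηY hη1 hIn hRc
  obtain ⟨T, z, h1, h2, h3⟩ := hRc
  exact h P G E Y₀ Y₁ Y₂ H hP hE (eqv_mono (ro_cg hη R) hk hEE) hY hηY hη1 hIn
    ⟨T, z, h1, dom_mono (ro_cg hη R) hk h2, dom_mono (ro_cg hη R) hk h3⟩

end Pool.Agent.MSL
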