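import Pool.Agent.MSL.Blk
import Pool.Agent.MSL.Dfi
import Pool.Agent.MSL.Dap

/-!
# Project MSL: first facts on `θ` (T1)

`th_cg`: direct (for `app`: change `x` to `x'` in the context `a, y ++ b`, then `y` to `y'` in `a ++ x', b`).
`th_of_eqv`: `η`-equality is a congruence `r₀` (`eta_cg`); `Eqv r₀ R x y` implies `Eqv r₀ R (axb) (ayb)` (`eqv_cg`), and
`bl_dom` with `j = r ≤ R` gives both directions.  `th_fin`: `r₀` has finite index (`N` finite), `eqv_fin`.  `th_ap`:
`ApR r₀ K` (`IsHom.pw`, `Aper`), `eqv_ap`.  `th_bl`: `a = b = []`.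
-/

namespace Pool.Agent.MSL

open Pool.Agent.DD Pool.Agent.HLV

variable {A M N S : Type}

theorem th_cg [Monoid N] {η : List A → N} (hη : IsHom η) (R : ℕ) : Cg (Th η R) where
  refl x := ⟨rfl, fun _ _ _ _ _ => Iff.rfl⟩
  symm h := ⟨h.1.symm, fun m r hr a b => (h.2 m r hr a b).symm⟩
  trans h h' := ⟨h.1.trans h'.1, fun m r hr a b => (h.2 m r hr a b).trans (h'.2 m r hr a b)⟩
  app := by
    intro x x' y y' h h'
    refine ⟨by rw [hη.mul, hη.mul, h.1, h'.1], fun m r hr a b => ?_⟩
    have h1 := h.2 m r hr a (y ++ b)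
    have h2 := h'.2 m r hr (a ++ x') b
    have e1 : a ++ (x ++ y) ++ b = a ++ x ++ (y ++ b) := by simp only [List.append_assoc]
    have e2 : a ++ x' ++ (y ++ b) = a ++ x' ++ y ++ b := by simp only [List.append_assoc]
    have e3 : a ++ (x' ++ y') ++ b = a ++ x' ++ y' ++ b := by simp only [List.append_assoc]
    rw [e1, e3, h1, e2]
    exact h2

theorem eta_cg [Monoid N] {η : List A → N} (hη : IsHom η) : Cg (fun x y => η x = η y) where
  refl _ := rfl
  symm h := h.symm
  trans h h' := h.trans h'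
  app := by
    intro x x' y y' h h'
    have e1 : η x = η x' := h
    have e2 : η y = η y' := h'
    show η (x ++ y) = η (x' ++ y')
    rw [hη.mul, hη.mul, e1, e2]

theorem th_of_eqv [Monoid N] {η : List A → N} (hη : IsHom η) {R : ℕ} {x y : List A}
    (h : Eqv (fun x y => η x = η y) R x y) : Th η R x y := by
  have hc := eta_cg hη
  refine ⟨dom_base hc h.1, fun m r hr a b => ?_⟩
  have hE := eqv_cg hc R
  have h1 : Eqv (fun x y => η x = η y) R (a ++ x ++ b) (a ++ y ++ b) :=
    hE.app (hE.app (hE.refl a) h) (hE.refl b)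
  exact ⟨fun h2 => bl_dom hc (fun _ _ e => e) hr h1.1 h2,
    fun h2 => bl_dom hc (fun _ _ e => e) hr h1.2 h2⟩

theorem th_fin [Monoid N] [Finite N] {η : List A → N} (hη : IsHom η) (R : ℕ) :
    FinIdx (Th η R) := by
  have hf : FinIdx (fun x y : List A => η x = η y) :=
    ⟨Nat.card N, fun x => Finite.equivFin N (η x),
      fun x y e => (Finite.equivFin N).injective e⟩
  obtain ⟨n, c, hcn⟩ := eqv_fin (eta_cg hη) hf R
  exact ⟨n, c, fun x y e => th_of_eqv hη (hcn x y e)⟩

theorem th_ap [Monoid N] {η : List A → N} (hη : IsHom η) {K : ℕ} (aN : Aper N K)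
    (R : ℕ) : ∃ K', ApR (Th η R) K' := by
  have hr : ApR (fun x y : List A => η x = η y) K := by
    intro x
    show η (pw x (K + 1)) = η (pw x K)
    rw [hη.pw, hη.pw, aN]
  obtain ⟨K', hK'⟩ := eqv_ap (eta_cg hη) hr R
  exact ⟨K', fun x => th_of_eqv hη (hK' x)⟩

theorem th_bl [Monoid N] {η : List A → N} {R : ℕ} {x y : List A} (h : Th η R x y) {m : N} {r : ℕ}
    (hr : r ≤ R) : Bl η m r x ↔ Bl η m r y := by
  have h1 := h.2 m r hr [] []
  simpa using h1

end Pool.Agent.MSL
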