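import Pool.Agent.MSL.Lod
import Pool.Agent.MSL.Tha

/-!
# Project MSL: the window lemma

`dom_three` for `(G E Y₁) | Y₂ | (Y₃ E H)`: `G E^(3P) H = A₁ ++ W ++ B₁`.  If `A₁ ++ W` is a prefix of
`G E^(2P)`, then `Lc` holds for `Y₁ Y₂ | Y₃`.  Otherwise `G E^(2P)` is a prefix of `A₁ ++ W`; if `G E^P` is a prefix of
`A₁`, then `Rc` holds for `Y₁ | Y₂ Y₃`; otherwise `W` has the factor `E^P`, which has `P ≥ j + 1` blocks for `η E`.
-/

namespace Pool.Agent.MSL

open Pool.Agent.DD Pool.Agent.HLV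

variable {A N : Type} [Monoid N] {η : List A → N}

private theorem wnd_bl (E : List A) (n : ℕ) : Bl η (η E) n (pw E n) := by
  induction n with
  | zero => trivial
  | succ n ih =>
      rw [pw_succ]
      exact ⟨E, pw E n, rfl, ⟨1, 1, by rw [one_mul, mul_one]⟩, ih⟩

theorem window (hη : IsHom η) {R k j P : ℕ} (hR : j + 1 ≤ R) (hP : j + 1 ≤ P)
    {G E H Y₁ Y₂ Y₃ : List A}
    (hd : Dom (Th η R) (k + 2) (G ++ E ++ (Y₁ ++ Y₂ ++ Y₃) ++ E ++ H) (G ++ pw E (3 * P) ++ H))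
    (hb : ¬ Bl η (η E) (j + 1) Y₂) :
    Lc η R k P G E H (Y₁ ++ Y₂) Y₃ ∨ Rc η R k P G E H Y₁ (Y₂ ++ Y₃) := by
  have hc : Cg (Th η R) := th_cg hη R
  have e1 : G ++ E ++ (Y₁ ++ Y₂ ++ Y₃) ++ E ++ H = (G ++ E ++ Y₁) ++ Y₂ ++ (Y₃ ++ E ++ H) := by
    simp only [List.append_assoc]
  rw [e1] at hd
  obtain ⟨A₁, W, B₁, he, h1, h2, h3⟩ := dom_three hc hd
  have hW : ¬ Bl η (η E) (j + 1) W := fun h => hb ((th_bl (dom_base hc h2) hR).2 h)
  have p3 : pw E (3 * P) = pw E (2 * P) ++ pw E P := by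
    rw [← pw_add]
    congr 1
    omega
  have p2 : pw E (2 * P) = pw E P ++ pw E P := by
    rw [← pw_add]
    congr 1
    omega
  have e2 : (G ++ pw E (2 * P)) ++ (pw E P ++ H) = (A₁ ++ W) ++ B₁ := by
    rw [← he, p3]
    simp only [List.append_assoc]
  rcases List.append_eq_append_iff.1 e2 with ⟨S, hS1, hS2⟩ | ⟨T, hT1, hT2⟩
  · have e3 : A₁ ++ W = (G ++ pw E P) ++ (pw E P ++ S) := by
      rw [hS1, p2]
      simp only [List.append_assoc]
    rcases List.append_eq_append_iff.1 e3 with ⟨c, hc1, hc2⟩ | ⟨c, hc1, hc2⟩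
    · exfalso
      apply hW
      rw [hc2, ← List.append_assoc]
      exact bl_sup hη c S (bl_le hP (wnd_bl E P))
    · right
      refine ⟨c, W ++ B₁, ?_, ?_, ?_⟩
      · rw [← List.append_assoc, ← hc2, List.append_assoc, ← hS2, ← List.append_assoc, ← p2]
      · have h4 := dom_app hc h2 h3
        have e4 : Y₂ ++ Y₃ ++ E ++ H = Y₂ ++ (Y₃ ++ E ++ H) := by
          simp only [List.append_assoc]
        rw [e4]
        exact h4
      · rw [← hc1]
        exact h1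
  · left
    refine ⟨A₁ ++ W, T, hT1.symm, ?_, ?_⟩
    · have h4 := dom_app hc h1 h2
      rw [← List.append_assoc (G ++ E) Y₁ Y₂]
      exact h4
    · rw [List.append_assoc T (pw E P) H, ← hT2]
      exact h3

end Pool.Agent.MSL
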