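import Pool.Agent.MSL.Lod
import Pool.Agent.MSL.Wnd
import Pool.Agent.MSL.Ctc
import Pool.Agent.MSL.Osa
import Pool.Agent.MSL.Jd
import Pool.Agent.MSL.Ram
import Pool.Agent.MSL.Ro

/-!
# Project MSL: the one step lemma (OS)

`k' = k + 2`, `P = ρ + 2`, `j = ρ + 1`.  Let `GEYEH ≤_k' GEH`, `n = η E` (idempotent).  `n = 1`: `E = Y = []` (`hS.one`;
`η Y = η E = 1`), trivial.  Otherwise put `Y' = E Y E` (`Y₀ := Y`): `α (G E Y' E H) = α (G E Y E H)`, `η Y' = n`,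
`G E Y' E H ≤_k' G E Y E H ≤ G E H ≤ G E^(3P) H` (`EE ≤ E ≤ E^(3P)`: `hEE`, `eqv_pw`, `dom_app`).
If `Lc` holds for the cut `Y' | []`: (LO) with `Y₁ = Y'`, `Y₂ = []` (`InL η n Y'`): done, or `r` with
`α (G E Y' r E) = α (G E)`, `η (E Y' r E) = n`: `jj_abs` with `p = α (G E)`, `W = Y'`, `W' = r`:
`α (E Y' E) α (E r E)` is the value of `E Y' r E` because `Y' = E Y E`; `η (E r E) = n` since
`n = η (E Y' r E) = n n η(r) n`; so `p α (E Y' E) = p`, `α (G E Y' E) = α (G E)`: done.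
If `Rc` holds for `[] | Y'`: (RO) with `Y₁ = []`, `Y₂ = Y'`: done, or `r` with `α (E r Y' E H) = α (E H)`,
`η (E r Y' E) = n`, so `η (E r E) = n`; `α (E r E) α (E Y' E)` is the value of `E r Y' E`; `jj_abs'` (Jd.lean) with
`p = α (E H)`, `W = Y'`, `W' = r`: `α (E Y' E) α (E H) = α (E H)`: done.
Otherwise `ctc` with `Lp := Lc ...`, `Rp := Rc ...` (`hw` is `window` with `j + 1 = ρ + 2`):
`Y' = Y₁ Y₂ Y₃`, `Bl n ρ Y₂`, `Lc (Y₁Y₂) Y₃`, `Rc Y₁ (Y₂Y₃)`.  `ramsey_blocks` (`j = 0`): `Y₂ = V₁ F V₂`.  `q = Y₁ V₁`,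
`t = V₂ Y₃`.  (LO) for the cut `Y₁Y₂ | Y₃` (`Y₁ Y₂` contains `F`, so `InL η n`): done or `r'`; (RO) for `Y₁ | Y₂Y₃`: done
or `s'`.  `os_alg` with `q`, `r := V₂ ++ r'`, `s := s' ++ V₁`, `t`.
-/

namespace Pool.Agent.MSL

open Pool.Agent.DD Pool.Agent.HLV

variable {A M N : Type} [Monoid M] [Monoid N] {α : List A → M} {η : List A → N} {K : ℕ}

theorem os_of (hS : Setup α η K) {ρ R k : ℕ} (hρ : RamC (M × N) ρ) (hR : ρ + 2 ≤ R)
    (hL : LOp α η R k) (hRo : ROp α η R k) : OSp α η R (k + 2) := by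
  intro G E Y H hE hEE hY hd
  have hc : Cg (Th η R) := th_cg hS.ηh R
  have hEk : Eqv (Th η R) k E (E ++ E) := eqv_mono hc (by omega) hEE
  have hn : η E * η E = η E := by
    have h1 : η E = η (E ++ E) := (dom_base hc hEE.1).1
    rw [hS.ηh.mul] at h1
    exact h1.symm
  have hEx : ∀ x, α E * (α E * x) = α E * x := fun x => by rw [← mul_assoc, hE]
  have hnx : ∀ x, η E * (η E * x) = η E * x := fun x => by rw [← mul_assoc, hn]
  by_cases h1 : η E = 1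
  · have hE0 : E = [] := hS.one E h1
    have hY0 : Y = [] := hS.one Y (by rw [hY, h1])
    rw [hE0, hY0]
    simp only [List.append_nil]
  have hYn : η (E ++ Y ++ E) = η E := by
    simp only [hS.ηh.mul, mul_assoc, hY, hn]
  have hYY : α (G ++ E ++ (E ++ Y ++ E) ++ E ++ H) = α (G ++ E ++ Y ++ E ++ H) := by
    simp only [hS.αh.mul, mul_assoc, hEx]
  have hin : InL η (η E) (E ++ Y ++ E) := ⟨1, 1, by rw [hYn, one_mul, mul_one]⟩
  have hdd : Dom (Th η R) (k + 2) (G ++ E ++ (E ++ Y ++ E) ++ E ++ H)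
      (G ++ pw E (3 * (ρ + 2)) ++ H) := by
    have s1 : Dom (Th η R) (k + 2) (G ++ (E ++ E) ++ Y ++ (E ++ E) ++ H)
        (G ++ E ++ Y ++ E ++ H) :=
      dom_app hc (dom_app hc (dom_app hc (dom_app hc (dom_refl hc _ _) hEE.2)
        (dom_refl hc _ _)) hEE.2) (dom_refl hc _ _)
    have s2 : Dom (Th η R) (k + 2) (G ++ E ++ H) (G ++ pw E (3 * (ρ + 2)) ++ H) :=
      dom_app hc (dom_app hc (dom_refl hc _ _) (eqv_pw hc hEE (by omega)).1) (dom_refl hc _ _)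
    have e1 : G ++ E ++ (E ++ Y ++ E) ++ E ++ H = G ++ (E ++ E) ++ Y ++ (E ++ E) ++ H := by
      simp only [List.append_assoc]
    rw [e1]
    exact dom_trans hc s1 (dom_trans hc hd s2)
  by_cases hLc : Lc η R k (ρ + 2) G E H (E ++ Y ++ E) []
  · rcases hL (ρ + 2) G E Y (E ++ Y ++ E) [] H (by omega) hE hEk (List.append_nil _).symm hYn h1
      hin hLc with h2 | ⟨r, h2, h3⟩
    · rw [← hYY, h2]
    · have h4 : η (E ++ r ++ E) = η E := by
        simp only [hS.ηh.mul, mul_assoc, hY, hn, hnx] at h3 ⊢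
        exact h3
      have h5 : η (E ++ (E ++ Y ++ E) ++ E) = η E := by
        simp only [hS.ηh.mul, mul_assoc, hY, hn]
      have h6 := jj_abs hS (W := E ++ Y ++ E) (W' := r) (p := α (G ++ E)) hE hn h5 h4 (by
        simp only [hS.αh.mul, mul_assoc, hE, hEx] at h2 ⊢
        exact h2)
      have h7 : α (G ++ E ++ Y ++ E ++ H) = α (G ++ E) * α (E ++ (E ++ Y ++ E) ++ E) * α H := by
        simp only [hS.αh.mul, mul_assoc, hEx]
      rw [h7, h6, ← hS.αh.mul]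
  by_cases hRc : Rc η R k (ρ + 2) G E H [] (E ++ Y ++ E)
  · rcases hRo (ρ + 2) G E Y [] (E ++ Y ++ E) H (by omega) hE hEk (List.nil_append _).symm hYn h1
      hin hRc with h2 | ⟨r, h2, h3⟩
    · rw [← hYY, h2]
    · have h4 : η (E ++ r ++ E) = η E := by
        simp only [hS.ηh.mul, mul_assoc, hY, hn, hnx] at h3 ⊢
        exact h3
      have h5 : η (E ++ (E ++ Y ++ E) ++ E) = η E := by
        simp only [hS.ηh.mul, mul_assoc, hY, hn]
      have h6 := jj_abs' hS (W := E ++ Y ++ E) (W' := r) (p := α (E ++ H)) hE hn h5 h4 (by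
        simp only [hS.αh.mul, mul_assoc, hEx] at h2 ⊢
        exact h2)
      have h7 : α (G ++ E ++ Y ++ E ++ H) =
          α G * (α (E ++ (E ++ Y ++ E) ++ E) * α (E ++ H)) := by
        simp only [hS.αh.mul, mul_assoc, hEx]
      rw [h7, h6, ← hS.αh.mul, ← List.append_assoc]
  obtain ⟨Y₁, Y₂, Y₃, hYs, hBl, hLp, hRp⟩ := ctc hS.ηh hS.aN h1 (ρ := ρ)
    (Lc η R k (ρ + 2) G E H) (Rc η R k (ρ + 2) G E H) (Y := E ++ Y ++ E)
    (fun Y₁ Y₂ Y₃ he hb => window hS.ηh (j := ρ + 1) (by omega) (by omega)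
      (by rw [← he]; exact hdd) hb) hLc hRc
  obtain ⟨V₁, F, V₂, hV, hF, hF', hF''⟩ := ramsey_blocks (j := 0) hS.αh hS.ηh hρ hBl
  have hF3 : InL η (η E) F := hF''.1
  have hin2 : InL η (η E) Y₂ := by
    rw [hV]
    exact inl_sup hS.ηh V₁ V₂ hF3
  have hin12 : InL η (η E) (Y₁ ++ Y₂) := by
    have h2 := inl_sup hS.ηh Y₁ [] hin2
    rwa [List.append_nil] at h2
  have hin23 : InL η (η E) (Y₂ ++ Y₃) := inl_sup hS.ηh [] Y₃ hin2
  rcases hL (ρ + 2) G E Y (Y₁ ++ Y₂) Y₃ H (by omega) hE hEk hYs hYn h1 hin12 hLp with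
    h2 | ⟨r, h2, h3⟩
  · rw [← hYY, h2]
  rcases hRo (ρ + 2) G E Y Y₁ (Y₂ ++ Y₃) H (by omega) hE hEk
      (by rw [hYs, List.append_assoc]) hYn h1 hin23 hRp with h4 | ⟨t, h4, h5⟩
  · rw [← hYY, h4]
  have hq : (Y₁ ++ V₁) ++ F ++ (V₂ ++ Y₃) = E ++ Y ++ E := by
    rw [hYs, hV]
    simp only [List.append_assoc]
  have key := os_alg hS (G := G) (E := E) (H := H) (F := F) (q := Y₁ ++ V₁) (r := V₂ ++ r)
    (s := t ++ V₁) (t := V₂ ++ Y₃) hE hn hF hF' hF3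
    (by
      rw [← h2, hV]
      simp only [List.append_assoc])
    (by
      rw [hV] at h3
      simp only [List.append_assoc] at h3 ⊢
      exact h3)
    (by
      rw [← h4, hV]
      simp only [List.append_assoc])
    (by
      rw [hV] at h5
      simp only [List.append_assoc] at h5 ⊢
      exact h5)
    (by
      rw [hq]
      simp only [hS.ηh.mul, mul_assoc, hY, hn])
  rw [hq] at key
  rw [← hYY, key]

end Pool.Agent.MSL
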