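import Pool.Agent.MSL.Bas

/-!
# Project MSL: the quotient monoid of a congruence

`exists_quot`: `S := Quotient ⟨r, _⟩` of `List A` with the product induced by `++` (a `Monoid`), `φ` the
quotient map.  Finiteness: the map `c : List A → Fin n` of `FinIdx` gives a surjection of a subset of `Fin n`
onto `S`, for example `Finite.of_injective` for the map `S → Fin n`, `s ↦ c (Quotient.out s)`.
`aper_of_quot`: `s = φ x`, `φ (pw x n) = φ x ^ n` (`IsHom.pw`).
-/

namespace Pool.Agent.MSL

open Pool.Agent.DD Pool.Agent.HLV

variable {A M N S : Type}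

theorem exists_quot {r : List A → List A → Prop} (h : Cg r) (hf : FinIdx r) :
    ∃ (S : Type) (_ : Monoid S) (_ : Finite S) (φ : List A → S), IsHom φ ∧ Function.Surjective φ ∧
      ∀ x y, φ x = φ y ↔ r x y := by
  let st : Setoid (List A) := ⟨r, ⟨h.refl, fun h1 => h.symm h1, fun h1 h2 => h.trans h1 h2⟩⟩
  let mulQ : Quotient st → Quotient st → Quotient st :=
    Quotient.map₂ (fun x y : List A => x ++ y) (fun _ _ h1 _ _ h2 => h.app h1 h2)
  let inst : Monoid (Quotient st) :=
    { mul := mulQ
      one := Quotient.mk st []
      mul_assoc := by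
        intro a b c
        refine Quotient.inductionOn₃ a b c (fun x y z => ?_)
        exact congrArg (Quotient.mk st) (List.append_assoc x y z)
      one_mul := by
        intro a
        refine Quotient.inductionOn a (fun x => ?_)
        exact congrArg (Quotient.mk st) (List.nil_append x)
      mul_one := by
        intro a
        refine Quotient.inductionOn a (fun x => ?_)
        exact congrArg (Quotient.mk st) (List.append_nil x) }
  have key : ∀ x y, Quotient.mk st x = Quotient.mk st y ↔ r x y := fun x y =>
    ⟨fun e => Quotient.exact e, fun e => Quotient.sound e⟩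
  refine ⟨Quotient st, inst, ?_, Quotient.mk st, ⟨rfl, fun x y => rfl⟩, ?_, key⟩
  · obtain ⟨n, c, hc⟩ := hf
    refine Finite.of_injective (fun s : Quotient st => c (Quotient.out s)) ?_
    intro s t hst
    have h1 : r (Quotient.out s) (Quotient.out t) := hc _ _ hst
    rw [← Quotient.out_eq s, ← Quotient.out_eq t]
    exact (key _ _).2 h1
  · intro s
    exact ⟨Quotient.out s, Quotient.out_eq s⟩

theorem aper_of_quot [Monoid S] {φ : List A → S} (hφ : IsHom φ) (hs : Function.Surjective φ)
    {r : List A → List A → Prop} (hr : ∀ x y, r x y → φ x = φ y) {K : ℕ} (ha : ApR r K) :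
    Aper S K := by
  intro s
  obtain ⟨x, rfl⟩ := hs s
  rw [← hφ.pw, ← hφ.pw]
  exact hr _ _ (ha x)

end Pool.Agent.MSL
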