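import Pool.Agent.MSL.Bas

/-!
# Project MSL: greedy factorization
-/

namespace Pool.Agent.MSL

open Pool.Agent.DD Pool.Agent.HLV

variable {A M N S : Type}

theorem greedy (P : List A → Prop) (u : List A) :
    ∃ (bs : List (List A)) (w : List A), u = bs.flatten ++ w ∧ (w = [] ∨ ¬ P w) ∧
      ∀ b ∈ bs, P b ∧ ∃ v a, b = v ++ [a] ∧ (v = [] ∨ ¬ P v) := by
  classical
  obtain ⟨m, hm⟩ : ∃ m, u.length = m := ⟨_, rfl⟩
  induction m using Nat.strong_induction_on generalizing u with
  | _ m ih =>
    by_cases hex : ∃ n, 1 ≤ n ∧ n ≤ u.length ∧ P (u.take n)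
    · obtain ⟨h1, h2, h3⟩ := Nat.find_spec hex
      have hmin : ∀ k, k < Nat.find hex → ¬ (1 ≤ k ∧ k ≤ u.length ∧ P (u.take k)) :=
        fun k hk => Nat.find_min hex hk
      obtain ⟨n, hn⟩ : ∃ n, Nat.find hex = n + 1 := ⟨Nat.find hex - 1, by omega⟩
      rw [hn] at h1 h2 h3 hmin
      have hlen : (u.drop (n + 1)).length < m := by
        rw [List.length_drop]; omega
      obtain ⟨bs, w, hu, hw, hb⟩ := ih _ hlen (u.drop (n + 1)) rfl
      refine ⟨u.take (n + 1) :: bs, w, ?_, hw, ?_⟩
      · rw [List.flatten_cons, List.append_assoc, ← hu, List.take_append_drop]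
      · intro b hb'
        rcases List.mem_cons.1 hb' with rfl | hb'
        · refine ⟨h3, u.take n, u[n], ?_, ?_⟩
          · exact List.take_succ_eq_append_getElem (by omega)
          · rcases Nat.eq_zero_or_pos n with h0 | h0
            · left; rw [h0]; rfl
            · right
              intro hP
              exact hmin n (Nat.lt_succ_self n) ⟨h0, by omega, hP⟩
        · exact hb b hb'
    · refine ⟨[], u, rfl, ?_, fun b hb => absurd hb List.not_mem_nil⟩
      rcases Nat.eq_zero_or_pos u.length with h0 | h0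
      · left; exact List.length_eq_zero_iff.1 h0
      · right
        intro hP
        exact hex ⟨u.length, h0, le_refl _, by rwa [List.take_length]⟩

end Pool.Agent.MSL
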