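import Pool.Agent.MSL.Lab
import Pool.Agent.MSL.Gre
import Pool.Agent.MSL.Alg

/-!
# Project MSL: factorization forests for aperiodic monoids

For `s : S` let `rk s = Nat.card {y : S // ∃ a b, y = a * s * b}` (size of the ideal of `s`).  If `s = a t b`, the
ideal of `s` is contained in the ideal of `t`, so `rk s ≤ rk t`, and if `rk s = rk t` then the ideals are equal.
Claim for `c` (downward induction from `c = |S| + 1`, where it is void): `∃ H, ∀ u, c ≤ rk (τ u) → Ht τ H u`.
Step from `c + 1` to `c`: let `rk (τ u) = c` (words with larger `rk` are done).  `greedy` with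
`P x := rk (τ x) ≤ c`: `u = b₁ ... b_k w`, each `b_i = v a` with `v = []` or `rk (τ v) ≥ c + 1`, so `b_i` has height
`≤ H + 1`, and `w` has height `≤ H`.  Let `I` be the ideal of `τ u`.  Each `b_i` and each product of consecutive
blocks contains `u` in its ideal and has `rk ≤ c`, so its ideal is `I`.  For `0 < i < k` (`ap_four` for
`b = τ b_i`, `b' = τ b_(i+1)`; indices of the list `bs`: `bs[i-1]`, `bs[i]`) choose `lab i = e` idempotent in `I`
with `b e = b`, `e b' = b'`.  If `lab i = lab j = e`, `i < j`, the product `p` of the blocks `i, ..., j - 1` has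
`p = e p e` and `e` is in the ideal of `p`, so `p = e` by `ap_three`.  `label_lemma` with `Λ` = all of `S`
gives the height of `bs.flatten`; one more binary node for `w`.
-/

namespace Pool.Agent.MSL

open Pool.Agent.DD Pool.Agent.HLV

variable {A M N S : Type}

/-- The size of the ideal. -/
private noncomputable def forRk [Monoid S] (s : S) : ℕ := Nat.card {y : S // ∃ a b, y = a * s * b}

private theorem forRk_le_card [Monoid S] [Finite S] (s : S) : forRk s ≤ Nat.card S :=
  Nat.card_le_card_of_injective (fun y : {y : S // ∃ a b, y = a * s * b} => y.1)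
    Subtype.val_injective

private theorem forRk_le [Monoid S] [Finite S] {s t a b : S} (h : s = a * t * b) :
    forRk s ≤ forRk t := by
  refine Nat.card_le_card_of_injective
    (fun y : {y : S // ∃ a b, y = a * s * b} =>
      (⟨y.1, by
        obtain ⟨c, d, hy⟩ := y.2
        exact ⟨c * a, b * d, by rw [hy, h]; simp only [mul_assoc]⟩⟩ :
        {y : S // ∃ a b, y = a * t * b})) ?_
  intro y z hyz
  exact Subtype.ext (congrArg (fun w => w.1) hyz)

private theorem forRk_eq [Monoid S] [Finite S] {s t a b : S} (h : s = a * t * b)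
    (hr : forRk t ≤ forRk s) : ∃ c d, t = c * s * d := by
  classical
  by_contra hcon
  have hlt : forRk s < forRk t := by
    have hfin : ({y : S | ∃ a b, y = a * t * b}).Finite := Set.toFinite _
    have hss : {y : S | ∃ a b, y = a * s * b} ⊂ {y : S | ∃ a b, y = a * t * b} := by
      refine ⟨?_, ?_⟩
      · rintro y ⟨c, d, hy⟩
        exact ⟨c * a, b * d, by rw [hy, h]; simp only [mul_assoc]⟩
      · intro hsub
        apply hcon
        exact hsub ⟨1, 1, by simp⟩
    exact Set.ncard_lt_ncard hss hfin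
  omega

private theorem for_seg [Monoid S] {τ : List A → S} (hτ : IsHom τ) (bs : List (List A))
    (w : List A) (i m : ℕ) :
    ∃ X Y, τ (bs.flatten ++ w) = X * τ ((bs.drop i).take m).flatten * Y := by
  refine ⟨τ (bs.take i).flatten, τ (((bs.drop i).drop m).flatten ++ w), ?_⟩
  rw [← hτ.mul, ← hτ.mul]
  congr 1
  rw [← List.append_assoc, ← List.flatten_append, ← List.flatten_append, List.append_assoc,
    List.take_append_drop, List.take_append_drop]

private theorem for_left [Monoid S] {τ : List A → S} (hτ : IsHom τ) (bs : List (List A))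
    (i m : ℕ) (hi : i < bs.length) (hm : 1 ≤ m) :
    ∃ Z, τ ((bs.drop i).take m).flatten = τ (bs[i]) * Z := by
  obtain ⟨m', rfl⟩ : ∃ m', m = m' + 1 := ⟨m - 1, by omega⟩
  refine ⟨τ ((bs.drop (i + 1)).take m').flatten, ?_⟩
  rw [List.drop_eq_getElem_cons hi, List.take_succ_cons, List.flatten_cons, hτ.mul]

private theorem for_right [Monoid S] {τ : List A → S} (hτ : IsHom τ) (bs : List (List A))
    (i m : ℕ) (hi : i + m < bs.length) :
    ∃ Z, τ ((bs.drop i).take (m + 1)).flatten = Z * τ (bs[i + m]) := by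
  refine ⟨τ ((bs.drop i).take m).flatten, ?_⟩
  have hlen : m < (bs.drop i).length := by rw [List.length_drop]; omega
  rw [List.take_succ_eq_append_getElem hlen, List.flatten_append, hτ.mul]
  congr 2
  rw [List.flatten_cons, List.flatten_nil, List.append_nil, List.getElem_drop]

private theorem for_step [Monoid S] [Finite S] {τ : List A → S} (hτ : IsHom τ) {K : ℕ}
    (h : Aper S K) (n H : ℕ) (hH : ∀ u, Nat.card S + 1 ≤ forRk (τ u) + n → Ht τ H u) :
    ∃ H', ∀ u, Nat.card S + 1 ≤ forRk (τ u) + (n + 1) → Ht τ H' u := by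
  classical
  have : Fintype S := Fintype.ofFinite S
  obtain ⟨H1, hH1⟩ := label_lemma hτ (H + 1) (Finset.univ : Finset S)
  refine ⟨max H H1 + 1, ?_⟩
  intro u hu
  by_cases hgood : Nat.card S + 1 ≤ forRk (τ u) + n
  · exact ht_mono (by omega) (hH u hgood)
  have hc : forRk (τ u) + n = Nat.card S := by omega
  obtain ⟨bs, w, huw, hw, hbs⟩ := greedy (fun x => ¬ (Nat.card S + 1 ≤ forRk (τ x) + n)) u
  have hwH : Ht τ H w := by
    rcases hw with rfl | hw
    · exact ht_mono (Nat.zero_le H) (show ([] : List A).length ≤ 1 by simp)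
    · exact hH w (not_not.1 hw)
  -- heights of the blocks
  have hb1 : ∀ b ∈ bs, Ht τ (H + 1) b := by
    intro b hb
    obtain ⟨_, v, a, rfl, hv⟩ := hbs b hb
    have ha : Ht τ H [a] := ht_mono (Nat.zero_le H) (show ([a] : List A).length ≤ 1 by simp)
    rcases hv with rfl | hv
    · exact Or.inl ha
    · exact Or.inr (Or.inl ⟨v, [a], rfl, hH v (not_not.1 hv), ha⟩)
  -- ranks
  have hrb : ∀ b ∈ bs, forRk (τ b) ≤ forRk (τ u) := by
    intro b hb
    have := (hbs b hb).1
    omega
  have hseg : ∀ i m, forRk (τ u) ≤ forRk (τ ((bs.drop i).take m).flatten) := by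
    intro i m
    obtain ⟨X, Y, hXY⟩ := for_seg hτ bs w i m
    rw [huw]
    exact forRk_le hXY
  -- every block is in the ideal of every product of blocks which contains it on the left or right
  have hL : ∀ i m, (hi : i < bs.length) → 1 ≤ m →
      ∃ c d, τ (bs[i]) = c * τ ((bs.drop i).take m).flatten * d := by
    intro i m hi hm
    obtain ⟨Z, hZ⟩ := for_left hτ bs i m hi hm
    refine forRk_eq (s := τ ((bs.drop i).take m).flatten) (t := τ (bs[i])) (a := 1) (b := Z)
      (by rw [hZ, one_mul]) ?_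
    exact (hrb _ (List.getElem_mem hi)).trans (hseg i m)
  have hR : ∀ i m, (hi : i + m < bs.length) →
      ∃ c d, τ (bs[i + m]) = c * τ ((bs.drop i).take (m + 1)).flatten * d := by
    intro i m hi
    obtain ⟨Z, hZ⟩ := for_right hτ bs i m hi
    refine forRk_eq (s := τ ((bs.drop i).take (m + 1)).flatten) (t := τ (bs[i + m])) (a := Z)
      (b := 1) (by rw [hZ, mul_one]) ?_
    exact (hrb _ (List.getElem_mem hi)).trans (hseg i (m + 1))
  -- the labels
  have hlab : ∀ i, (hi : i + 1 < bs.length) → ∃ e : S, e * e = e ∧ τ (bs[i]) * e = τ (bs[i]) ∧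
      e * τ (bs[i + 1]) = τ (bs[i + 1]) ∧ ∃ x y, e = x * τ (bs[i]) * y := by
    intro i hi
    have htwo : τ ((bs.drop i).take (1 + 1)).flatten = τ (bs[i]) * τ (bs[i + 1]) := by
      rw [List.drop_eq_getElem_cons (by omega : i < bs.length), List.take_succ_cons,
        List.drop_eq_getElem_cons hi, List.take_succ_cons, List.take_zero, List.flatten_cons,
        List.flatten_cons, List.flatten_nil, List.append_nil, hτ.mul]
    obtain ⟨c, d, h1⟩ := hL i (1 + 1) (by omega) (by omega)
    obtain ⟨c', d', h2⟩ := hR i 1 hi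
    rw [htwo] at h1 h2
    exact ap_four h h1 h2
  obtain ⟨lab, hlab'⟩ : ∃ lab : ℕ → S, ∀ i, (hi : i + 1 < bs.length) →
      lab (i + 1) * lab (i + 1) = lab (i + 1) ∧ τ (bs[i]) * lab (i + 1) = τ (bs[i]) ∧
      lab (i + 1) * τ (bs[i + 1]) = τ (bs[i + 1]) ∧ ∃ x y, lab (i + 1) = x * τ (bs[i]) * y := by
    refine ⟨fun i => if hi : i - 1 + 1 < bs.length then (hlab (i - 1) hi).choose else 1, ?_⟩
    intro i hi
    have e : (fun i => if hi : i - 1 + 1 < bs.length then (hlab (i - 1) hi).choose else 1) (i + 1) =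
        (hlab i hi).choose := by
      simp only [Nat.add_sub_cancel]
      rw [dif_pos hi]
    rw [e]
    exact (hlab i hi).choose_spec
  have hbsH : Ht τ H1 bs.flatten := by
    refine hH1 bs lab hb1 (fun i _ _ => Finset.mem_univ _) ?_
    intro i j hi hij hj heq
    obtain ⟨i', rfl⟩ : ∃ i', i = i' + 1 := ⟨i - 1, by omega⟩
    obtain ⟨m, rfl⟩ : ∃ m, j = (i' + 1 + m) + 1 := ⟨j - 1 - (i' + 1), by omega⟩
    have hm : i' + 1 + m + 1 - (i' + 1) = m + 1 := by omega
    rw [hm]
    obtain ⟨a1, _, a3, _⟩ := hlab' i' (by omega)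
    obtain ⟨_, b2, _, x, y, b4⟩ := hlab' (i' + 1 + m) hj
    rw [← heq] at b2 b4
    obtain ⟨Z, hZ⟩ := for_left hτ bs (i' + 1) (m + 1) (by omega) (by omega)
    obtain ⟨Z', hZ'⟩ := for_right hτ bs (i' + 1) m (by omega)
    obtain ⟨c, d, hcd⟩ := hR (i' + 1) m (by omega)
    refine ⟨?_, a1⟩
    have hep : lab (i' + 1) * τ ((bs.drop (i' + 1)).take (m + 1)).flatten =
        τ ((bs.drop (i' + 1)).take (m + 1)).flatten := by
      rw [hZ, ← mul_assoc, a3]
    have hpe : τ ((bs.drop (i' + 1)).take (m + 1)).flatten * lab (i' + 1) =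
        τ ((bs.drop (i' + 1)).take (m + 1)).flatten := by
      rw [hZ', mul_assoc, b2]
    refine ap_three h a1 (x := τ ((bs.drop (i' + 1)).take (m + 1)).flatten)
      (a := x * c) (b := d * y) ?_ ?_
    · rw [hep, hpe]
    · rw [b4, hcd]
      simp only [mul_assoc]
  refine Or.inr (Or.inl ⟨bs.flatten, w, huw, ht_mono (le_max_right _ _) hbsH,
    ht_mono (le_max_left _ _) hwH⟩)

theorem forest [Monoid S] [Finite S] {τ : List A → S} (hτ : IsHom τ) {K : ℕ} (h : Aper S K) :
    ∃ H, ∀ u, Ht τ H u := by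
  have key : ∀ n, ∃ H, ∀ u, Nat.card S + 1 ≤ forRk (τ u) + n → Ht τ H u := by
    intro n
    induction n with
    | zero =>
      refine ⟨0, fun u hu => ?_⟩
      have := forRk_le_card (τ u)
      omega
    | succ n ih =>
      obtain ⟨H, hH⟩ := ih
      exact for_step hτ h n H hH
  obtain ⟨H, hH⟩ := key (Nat.card S + 1)
  exact ⟨H, fun u => hH u (by omega)⟩

end Pool.Agent.MSL
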