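import Pool.Agent.MSL.Pta
import Pool.Agent.MSL.For

/-!
# Project MSL: chains (PT)

`forest` for `τ x = (σ x, η x)` into `S × N` (finite, aperiodic with exponent `K`): all words have height `≤ H`.
By induction on `h`, with `pt_step`: for all words `u` of height `≤ h`, `Dom r (2 h) u v → Chain`.  Height 0:
`u.length ≤ 1`: `u = []`: `η v = η [] = 1`, `v = []` (`one`); `u = [a]`: `η v = η [a]`, `v = [a]` (`sgl`).
-/

namespace Pool.Agent.MSL

open Pool.Agent.DD Pool.Agent.HLV

variable {A M N S : Type}

theorem pt [Monoid S] [Finite S] [Monoid N] [Finite N] {σ : List A → S} {η : List A → N}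
    (hσ : IsHom σ) (hη : IsHom η) {K : ℕ} (aS : Aper S K) (aN : Aper N K)
    (one : ∀ x, η x = 1 → x = []) (sgl : ∀ x a, η x = η [a] → x = [a])
    {r : List A → List A → Prop} (h : Cg r) (hr : ∀ x y, r x y → η x = η y) :
    ∃ k, ∀ u v, Dom r k u v → Chain σ η (σ u) (σ v) := by
  have hτ : IsHom (fun x : List A => ((σ x, η x) : S × N)) :=
    ⟨Prod.ext hσ.one hη.one, fun x y => Prod.ext (hσ.mul x y) (hη.mul x y)⟩
  have aSN : Aper (S × N) K := fun s => Prod.ext (aS s.1) (aN s.2)
  obtain ⟨H, hH⟩ := forest hτ aSN
  have key : ∀ n : ℕ, ∀ u, Ht (fun x : List A => ((σ x, η x) : S × N)) n u →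
      ∀ v, Dom r (2 * n) u v → Chain σ η (σ u) (σ v) := by
    intro n
    induction n with
    | zero =>
      intro u hu v huv
      have hl : u.length ≤ 1 := hu
      have hηuv : η u = η v := hr u v huv
      have huv' : v = u := by
        match u, hl, hηuv with
        | [], _, hh =>
          apply one
          rw [← hh, hη.one]
        | [a], _, hh => exact sgl v a hh.symm
      rw [huv']
      exact Relation.ReflTransGen.refl
    | succ n ih =>
      intro u hu v huv
      exact pt_step hσ hη one h hr n (2 * n) ih u hu v huv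
  exact ⟨2 * H, fun u v huv => key H u (hH u) v huv⟩

end Pool.Agent.MSL
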