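import Pool.Agent.MSL.Zz
import Pool.Agent.MSL.Pt
import Pool.Agent.MSL.Tha

/-!
# Project MSL: the constant `kM`

`pt` with `σ = α`, `r = Th η R` (`th_cg`, `Th` implies `η x = η y`), then `zz`.
-/

namespace Pool.Agent.MSL

open Pool.Agent.DD Pool.Agent.HLV

variable {A M N S : Type}

theorem exists_factZ [Monoid M] [Finite M] [Monoid N] [Finite N] {α : List A → M} {η : List A → N}
    {K : ℕ} (hS : Setup α η K) (R : ℕ) : ∃ kM, FactZ α η K R kM := by
  obtain ⟨k, hk⟩ := pt hS.αh hS.ηh hS.aM hS.aN hS.one hS.sgl (th_cg hS.ηh R) fun x y h => h.1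
  exact ⟨k, fun B' B h ζ => zz hS (hk B' B h) ζ⟩

end Pool.Agent.MSL
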