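import Pool.Agent.MSL.Lo
import Pool.Agent.MSL.Os
import Pool.Agent.MSL.Zd
import Pool.Agent.MSL.Quo

/-!
# Project MSL: the main theorem (MT)

`exists_os`: `ρ` = maximum of Ramsey numbers of `M × N` and `Mᵐᵒᵖ × Nᵐᵒᵖ`, `R = ρ + 2`, `kM`, `kM'` from `exists_factZ` for
`hS` and `hS.rev`, `exists_lo` for both, `ro_of_lo`, `lop_mono`, `rop_mono`, `os_of`.
`mt`: let `OSp α η R k'`.  `T` = quotient of `Eqv (Th η R) k'` (`exists_quot`, `eqv_fin`, `th_fin`; aperiodic by `eqv_ap`,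
`th_ap`, `aper_of_quot`), with homomorphism `τ`.  `σ x = (α x, τ x)` into `M × T`, aperiodic with the maximum of the
exponents (`Aper.of_le`).  `pt` with `r = Th η R`, `η`: `k` with `Dom k u v → Chain σ η (σ u) (σ v)`; take the maximum of
`k` and `k'`.
(a) If `Step σ η s s'` then for all words `x`, `y` with `σ x = s`, `σ y = s'`: `x ≤_k' y`: `s = σ (GEH)`, `s' = σ (GEYEH)`,
`E =_k' EE` (`τ E` idempotent), `Th (EYE) E` by `th_ins` (`dom_base`), so `E ≤_k' EYE` (`dom_ins`); `x =_k' GEH`,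
`GEYEH =_k' y`.  So the same for chains.
(b) If `Chain σ η s s'`, `σ x = s`, `σ y = s'` and `y ≤_k' x` then `s.1 = s'.1`: induction from the head of the chain:
first step `GEH → GEYEH`, then a chain from `GEYEH` to `y`: `GEYEH ≤ y ≤ x ≤ GEH`, so `OSp` gives
`α (GEYEH) = α (GEH)`; and `y ≤ x ≤ GEH ≤ GEYEH`: induction hypothesis.
Apply (b) to the chain from `σ u` to `σ v`.
-/

namespace Pool.Agent.MSL

open Pool.Agent.DD Pool.Agent.HLV

variable {A M N : Type} [Monoid M] [Monoid N] {α : List A → M} {η : List A → N} {K : ℕ}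

theorem exists_os [Finite M] [Finite N] (hS : Setup α η K) : ∃ R k, OSp α η R k := by
  obtain ⟨ρ₁, h₁⟩ := exists_ramsey (M × N)
  have : Finite Mᵐᵒᵖ := Finite.of_equiv M MulOpposite.opEquiv
  have : Finite Nᵐᵒᵖ := Finite.of_equiv N MulOpposite.opEquiv
  obtain ⟨ρ₂, h₂⟩ := exists_ramsey (Mᵐᵒᵖ × Nᵐᵒᵖ)
  have hρ : RamC (M × N) (max ρ₁ ρ₂) := h₁.mono (le_max_left _ _)
  have hρ' : RamC (Mᵐᵒᵖ × Nᵐᵒᵖ) (max ρ₁ ρ₂) := h₂.mono (le_max_right _ _)
  obtain ⟨kM, hz⟩ := exists_factZ hS (max ρ₁ ρ₂ + 2)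
  obtain ⟨kM', hz'⟩ := exists_factZ hS.rev (max ρ₁ ρ₂ + 2)
  obtain ⟨k₁, hL⟩ := exists_lo hS hρ hz le_rfl
  obtain ⟨k₂, hL'⟩ := exists_lo hS.rev hρ' hz' le_rfl
  have hR := ro_of_lo hS.ηh hL'
  exact ⟨max ρ₁ ρ₂ + 2, max k₁ k₂ + 2, os_of hS hρ le_rfl
    (lop_mono hS.ηh (le_max_left _ _) hL) (rop_mono hS.ηh (le_max_right _ _) hR)⟩

/-- (a) for one step -/
private theorem mt_step {T : Type} [Monoid T] {τ : List A → T} (hτ : IsHom τ) (hη : IsHom η)
    {R k : ℕ} (hτe : ∀ x y, τ x = τ y ↔ Eqv (Th η R) k x y) {G E Y H x y : List A}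
    (hE : τ E * τ E = τ E) (hY : η Y = η E) (hx : τ x = τ (G ++ E ++ H))
    (hy : τ y = τ (G ++ E ++ Y ++ E ++ H)) :
    Eqv (Th η R) k E (E ++ E) ∧ Dom (Th η R) k x (G ++ E ++ H) ∧
      Dom (Th η R) k (G ++ E ++ H) (G ++ E ++ Y ++ E ++ H) ∧
      Dom (Th η R) k (G ++ E ++ Y ++ E ++ H) y := by
  have hc := th_cg hη R
  have h1 : Eqv (Th η R) k E (E ++ E) := (hτe _ _).1 (by rw [hτ.mul, hE])
  have h2 : Th η R (E ++ Y ++ E) E := th_ins hη (dom_base hc h1.1) hY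
  have h3 : Dom (Th η R) k E (E ++ Y ++ E) := dom_ins hc h1 h2
  have h4 : Dom (Th η R) k (G ++ E ++ H) (G ++ (E ++ Y ++ E) ++ H) :=
    dom_app hc (dom_app hc (dom_refl hc k G) h3) (dom_refl hc k H)
  have e1 : G ++ (E ++ Y ++ E) ++ H = G ++ E ++ Y ++ E ++ H := by
    simp only [List.append_assoc]
  rw [e1] at h4
  exact ⟨h1, ((hτe _ _).1 hx).1, h4, ((hτe _ _).1 hy).2⟩

/-- (a) for chains -/
private theorem mt_chain {T : Type} [Monoid T] {τ : List A → T} (hτ : IsHom τ) (hη : IsHom η)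
    {R k : ℕ} (hτe : ∀ x y, τ x = τ y ↔ Eqv (Th η R) k x y) {s s' : M × T}
    (h : Chain (fun x : List A => ((α x, τ x) : M × T)) η s s') :
    ∀ x y, (α x, τ x) = s → (α y, τ y) = s' → Dom (Th η R) k x y := by
  have hc := th_cg hη R
  induction h using Relation.ReflTransGen.head_induction_on with
  | refl =>
    intro x y hx hy
    have h1 : τ x = τ y := (congrArg Prod.snd hx).trans (congrArg Prod.snd hy).symm
    exact ((hτe _ _).1 h1).1
  | head h1 _ ih =>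
    obtain ⟨G, E, Y, H, hE, -, hY, hs, hs'⟩ := h1
    intro x y hx hy
    have hE2 : τ E * τ E = τ E := congrArg Prod.snd hE
    have hx2 : τ x = τ (G ++ E ++ H) := (congrArg Prod.snd hx).trans (congrArg Prod.snd hs)
    obtain ⟨-, a1, a2, -⟩ := mt_step hτ hη hτe (y := G ++ E ++ Y ++ E ++ H) hE2 hY hx2 rfl
    exact dom_trans hc (dom_trans hc a1 a2) (ih _ y hs'.symm hy)

/-- (b) -/
private theorem mt_main {T : Type} [Monoid T] {τ : List A → T} (hτ : IsHom τ) (hη : IsHom η)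
    {R k : ℕ} (hO : OSp α η R k) (hτe : ∀ x y, τ x = τ y ↔ Eqv (Th η R) k x y) {s s' : M × T}
    (h : Chain (fun x : List A => ((α x, τ x) : M × T)) η s s') :
    ∀ x y, (α x, τ x) = s → (α y, τ y) = s' → Dom (Th η R) k y x → s.1 = s'.1 := by
  have hc := th_cg hη R
  induction h using Relation.ReflTransGen.head_induction_on with
  | refl =>
    intro x y _ _ _
    rfl
  | head h1 h2 ih =>
    obtain ⟨G, E, Y, H, hE, -, hY, hs, hs'⟩ := h1
    intro x y hx hy hyx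
    have hE1 : α E * α E = α E := congrArg Prod.fst hE
    have hE2 : τ E * τ E = τ E := congrArg Prod.snd hE
    have hx2 : τ x = τ (G ++ E ++ H) := (congrArg Prod.snd hx).trans (congrArg Prod.snd hs)
    obtain ⟨a0, a1, a2, -⟩ := mt_step hτ hη hτe (y := G ++ E ++ Y ++ E ++ H) hE2 hY hx2 rfl
    have h3 : Dom (Th η R) k (G ++ E ++ Y ++ E ++ H) y := mt_chain hτ hη hτe h2 _ y hs'.symm hy
    have h4 : Dom (Th η R) k y (G ++ E ++ H) := dom_trans hc hyx a1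
    have h5 := hO G E Y H hE1 a0 hY (dom_trans hc h3 h4)
    have h6 := ih _ y hs'.symm hy (dom_trans hc h4 a2)
    rw [← h6, hs, hs']
    exact h5.symm

theorem mt [Finite M] [Finite N] (hS : Setup α η K) :
    ∃ R k, ∀ u v, Eqv (Th η R) k u v → α u = α v := by
  obtain ⟨R, k', hO⟩ := exists_os hS
  have hc := th_cg hS.ηh R
  obtain ⟨T, instT, finT, τ, hτ, hτs, hτe⟩ :=
    exists_quot (eqv_cg hc k') (eqv_fin hc (th_fin hS.ηh R) k')
  obtain ⟨K1, hK1⟩ := th_ap hS.ηh hS.aN R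
  obtain ⟨K2, hK2⟩ := eqv_ap hc hK1 k'
  have aT : Aper T K2 := aper_of_quot hτ hτs (fun x y h => (hτe x y).2 h) hK2
  have hσ : IsHom (fun x : List A => ((α x, τ x) : M × T)) :=
    ⟨Prod.ext hS.αh.one hτ.one, fun x y => Prod.ext (hS.αh.mul x y) (hτ.mul x y)⟩
  have aMT : Aper (M × T) (max K K2) := fun s =>
    Prod.ext ((hS.aM.of_le (le_max_left _ _)) s.1) ((aT.of_le (le_max_right _ _)) s.2)
  obtain ⟨k, hk⟩ := pt hσ hS.ηh aMT (hS.aN.of_le (le_max_left _ _)) hS.one hS.sgl hc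
    fun x y h => h.1
  refine ⟨R, max k k', fun u v huv => ?_⟩
  have h1 := hk u v (dom_mono hc (le_max_left _ _) huv.1)
  exact mt_main hτ hS.ηh hO hτe h1 u v rfl rfl (dom_mono hc (le_max_right _ _) huv.2)

end Pool.Agent.MSL
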