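import Pool.Agent.MSL.Tha
import Pool.Agent.HLV.PolB
import Pool.Agent.HLV.Cut
import Pool.Agent.HLV.Inv

/-!
# Project MSL: the classes of `θ` are in `Pol (B A n)` (T3)

Every union of `η`-classes is in `B A n` (`N` finite; `HLV.B_list_union`, or `B_union` over a finite set; the set
`{v | η v ∈ T}`).  Call this `sat`.
`{x | Bl η m r x} ∈ Pol`: induction: `univ` for `r = 0`, and `cat {x | InL η m x} {x | Bl η m r x}`.
`{x | ¬ Bl η m r x} ∈ Pol`: `r = 0`: empty.  `r + 1`: `¬ Bl (r+1) x` iff `¬ InL m x`, or `x = (w ++ [c]) ++ z` with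
`¬ InL m w`, `InL m (w ++ [c])`, `¬ Bl r z` (the shortest prefix in `L_m`; if `[] ∈ L_m`, that is `InL m []`, then
everything is in `L_m` and `Bl` is always true: treat this case first, the complement is empty).  So it is the
union of `{x | ¬ InL m x}` and, over the letters `c`, of
`cat (cat {w | ¬ InL m w ∧ InL m (w ++ [c])} {[c]}) {z | ¬ Bl r z}`; the first factor depends only on `η w`.
Then the class of `u`: let `reps` be a finite list of representatives for the congruence `Th η R` (`th_fin`).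
`Th η R u v` iff `η u = η v` and for all `m`, `r ≤ R`, `a b ∈ reps`: `Bl m r (a ++ u ++ b) ↔ Bl m r (a ++ v ++ b)`
(replace arbitrary `a`, `b` by representatives, `th_cg`, `th_bl`).  Each condition is, according to the truth
value for `u`, `v ∈ {v | a ++ v ++ b ∈ {x | Bl m r x}}` or the same with the complement: in `Pol` by `HLV.quo_pol`.
Finite intersection: `HLV.pol_list_inter` (several times, `List.range (R+1)`, a list of all elements of `N`).
-/

namespace Pool.Agent.MSL

open Pool.Agent.DD Pool.Agent.HLV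

variable {A M N S : Type}

private theorem tcl_sat [Finite N] {η : List A → N} {n : ℕ}
    (hc : ∀ u, {v | η v = η u} ∈ B A n) (T : N → Prop) : {v | T (η v)} ∈ B A n := by
  classical
  have := Fintype.ofFinite N
  have hF : ∀ s : N, ({v | η v = s} : Lang A) ∈ B A n := by
    intro s
    by_cases h : ∃ u, η u = s
    · obtain ⟨u, rfl⟩ := h
      exact hc u
    · have e : ({v | η v = s} : Lang A) = ∅ :=
        Set.eq_empty_iff_forall_notMem.2 fun v hv => h ⟨v, hv⟩
      rw [e]
      exact empty_mem_B n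
  have h1 := B_list_union (A := A) (i := n) ((Finset.univ : Finset N).filter T).toList
    (fun s => {v | η v = s}) fun s _ => hF s
  have e : {v | T (η v)} = {w : List A | ∃ s ∈ ((Finset.univ : Finset N).filter T).toList,
      w ∈ {v | η v = s}} := by
    ext v
    constructor
    · intro hv
      exact ⟨η v, by simpa using hv, rfl⟩
    · rintro ⟨s, hs, hv⟩
      have hs' : T s := by simpa using hs
      have hv' : η v = s := hv
      show T (η v)
      rw [hv']
      exact hs'
  rw [e]
  exact h1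

private theorem tcl_inL_right [Monoid N] {η : List A → N} (hη : IsHom η) {m : N} {x : List A}
    (h : InL η m x) (y : List A) : InL η m (x ++ y) := by
  obtain ⟨a, b, e⟩ := h
  exact ⟨a, b * η y, by rw [hη.mul, e, mul_assoc]⟩

private theorem tcl_inL_left [Monoid N] {η : List A → N} (hη : IsHom η) {m : N} {x : List A}
    (h : InL η m x) (y : List A) : InL η m (y ++ x) := by
  obtain ⟨a, b, e⟩ := h
  exact ⟨η y * a, b, by rw [hη.mul, e, mul_assoc, mul_assoc, mul_assoc]⟩

private theorem tcl_bl_left [Monoid N] {η : List A → N} (hη : IsHom η) {m : N} {r : ℕ} {x : List A}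
    (h : Bl η m r x) (y : List A) : Bl η m r (y ++ x) := by
  cases r with
  | zero => trivial
  | succ r =>
    obtain ⟨y', z, e, h1, h2⟩ := h
    exact ⟨y ++ y', z, by rw [e, List.append_assoc], tcl_inL_left hη h1 y, h2⟩

private theorem tcl_bl_nil [Monoid N] {η : List A → N} {m : N}
    (h : InL η m []) (r : ℕ) (x : List A) : Bl η m r x := by
  induction r generalizing x with
  | zero => trivial
  | succ r ih => exact ⟨[], x, rfl, h, ih x⟩

private theorem tcl_pos [Finite A] [Monoid N] [Finite N] {η : List A → N} {n : ℕ}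
    (hc : ∀ u, {v | η v = η u} ∈ B A n) (m : N) (r : ℕ) :
    Pol (B A n) {x | Bl η m r x} := by
  induction r with
  | zero =>
    have e : ({x | Bl η m 0 x} : Lang A) = Set.univ := Set.eq_univ_of_forall fun x => trivial
    rw [e]
    exact Pol.base (univ_mem_B n)
  | succ r ih =>
    have e : ({x | Bl η m (r + 1) x} : Lang A) = cat {x | InL η m x} {x | Bl η m r x} := by
      ext x
      constructor
      · rintro ⟨y, z, e, h1, h2⟩
        exact ⟨y, h1, z, h2, e⟩
      · rintro ⟨y, h1, z, h2, e⟩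
        exact ⟨y, z, e, h1, h2⟩
    rw [e]
    exact Pol.cat (Pol.base (tcl_sat hc fun s => ∃ a b, s = a * m * b)) ih

/-- The shortest prefix in `L_m`. -/
private theorem tcl_short [Monoid N] {η : List A → N} {m : N} (h0 : ¬ InL η m []) {x : List A}
    (h : InL η m x) : ∃ w c z, x = (w ++ [c]) ++ z ∧ ¬ InL η m w ∧ InL η m (w ++ [c]) := by
  classical
  have hex : ∃ k, InL η m (x.take k) := ⟨x.length, by rw [List.take_length]; exact h⟩
  have h1 := Nat.find_spec hex
  have hmin : ∀ k < Nat.find hex, ¬ InL η m (x.take k) := fun k hk => Nat.find_min hex hk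
  generalize Nat.find hex = k at h1 hmin
  cases k with
  | zero => exact absurd (by simpa using h1) h0
  | succ k =>
    have h2 := hmin k (Nat.lt_succ_self k)
    have hk : k < x.length := by
      by_contra hcon
      have e1 : x.take k = x := List.take_of_length_le (by omega)
      rw [e1] at h2
      exact h2 h
    refine ⟨x.take k, x[k], x.drop (k + 1), ?_, h2, ?_⟩
    · rw [List.take_append_getElem, List.take_append_drop]
    · rw [List.take_append_getElem]
      exact h1

private theorem tcl_iff [Monoid N] {η : List A → N} (hη : IsHom η) {m : N} (h0 : ¬ InL η m [])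
    (r : ℕ) (x : List A) : ¬ Bl η m (r + 1) x ↔ (¬ InL η m x ∨
      ∃ c w z, x = (w ++ [c]) ++ z ∧ (¬ InL η m w ∧ InL η m (w ++ [c])) ∧ ¬ Bl η m r z) := by
  constructor
  · intro h
    by_cases hx : InL η m x
    · right
      obtain ⟨w, c, z, e, h1, h2⟩ := tcl_short h0 hx
      exact ⟨c, w, z, e, ⟨h1, h2⟩, fun h3 => h ⟨w ++ [c], z, e, h2, h3⟩⟩
    · exact Or.inl hx
  · rintro (h | ⟨c, w, z, e, ⟨h1, h2⟩, h3⟩) ⟨y', z', e', h4, h5⟩
    · rw [e'] at h
      exact h (tcl_inL_right hη h4 z')
    · rw [e] at e'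
      rcases List.append_eq_append_iff.1 e' with ⟨p, e1, e2⟩ | ⟨p, e1, e2⟩
      · -- `y' = w ++ [c] ++ p`, `z = p ++ z'`
        rw [e2] at h3
        exact h3 (tcl_bl_left hη h5 p)
      · -- `w ++ [c] = y' ++ p`, `z' = p ++ z`
        rcases List.eq_nil_or_concat p with hp | ⟨q, d, hp⟩
        · rw [hp, List.nil_append] at e2
          rw [e2] at h5
          exact h3 h5
        · rw [hp, List.concat_eq_append, ← List.append_assoc] at e1
          have e3 : w = y' ++ q := (List.append_inj' e1 rfl).1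
          rw [e3] at h1
          exact h1 (tcl_inL_right hη h4 q)

private theorem tcl_neg [Finite A] [Monoid N] [Finite N] {η : List A → N} (hη : IsHom η) {n : ℕ}
    (hc : ∀ u, {v | η v = η u} ∈ B A n) (m : N) (r : ℕ) :
    Pol (B A n) {x | ¬ Bl η m r x} := by
  by_cases h0 : InL η m []
  · have e : ({x | ¬ Bl η m r x} : Lang A) = ∅ :=
      Set.eq_empty_iff_forall_notMem.2 fun x hx => hx (tcl_bl_nil h0 r x)
    rw [e]
    exact Pol.base (empty_mem_B n)
  induction r with
  | zero =>
    have e : ({x | ¬ Bl η m 0 x} : Lang A) = ∅ :=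
      Set.eq_empty_iff_forall_notMem.2 fun x hx => hx trivial
    rw [e]
    exact Pol.base (empty_mem_B n)
  | succ r ih =>
    have e : ({x | ¬ Bl η m (r + 1) x} : Lang A) = {x | ¬ InL η m x} ∪
        {x | ∃ c, x ∈ cat (cat {w | ¬ InL η m w ∧ InL η m (w ++ [c])} {[c]}) {z | ¬ Bl η m r z}} := by
      ext x
      constructor
      · intro hx
        rcases (tcl_iff hη h0 r x).1 hx with h | ⟨c, w, z, e, h1, h2⟩
        · exact Or.inl h
        · exact Or.inr ⟨c, w ++ [c], ⟨w, h1, [c], rfl, rfl⟩, z, h2, e⟩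
      · rintro (h | ⟨c, v, ⟨w, h1, d, hd, e1⟩, z, h2, e⟩)
        · exact (tcl_iff hη h0 r x).2 (Or.inl h)
        · have hd' : d = [c] := hd
          rw [e1, hd'] at e
          exact (tcl_iff hη h0 r x).2 (Or.inr ⟨c, w, z, e, h1, h2⟩)
    rw [e]
    refine Pol.union (Pol.base (tcl_sat hc fun s => ¬ ∃ a b, s = a * m * b)) ?_
    refine pol_finite_union (fun c => cat (cat {w | ¬ InL η m w ∧ InL η m (w ++ [c])} {[c]})
      {z | ¬ Bl η m r z}) fun c => ?_
    refine Pol.cat (Pol.cat (Pol.base ?_) (Pol.base (finite_mem_B (Set.finite_singleton _) n))) ih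
    have h1 := tcl_sat hc fun s => (¬ ∃ a b, s = a * m * b) ∧ ∃ a b, s * η [c] = a * m * b
    have e2 : ({w | ¬ InL η m w ∧ InL η m (w ++ [c])} : Lang A) =
        {v | (fun s => (¬ ∃ a b, s = a * m * b) ∧ ∃ a b, s * η [c] = a * m * b) (η v)} := by
      ext w
      show (¬ InL η m w ∧ InL η m (w ++ [c])) ↔
        ((¬ ∃ a b, η w = a * m * b) ∧ ∃ a b, η w * η [c] = a * m * b)
      unfold InL
      rw [hη.mul]
    rw [e2]
    exact h1

theorem th_cls [Finite A] [Monoid N] [Finite N] {η : List A → N} (hη : IsHom η) {n : ℕ}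
    (hc : ∀ u, {v | η v = η u} ∈ B A n) (R : ℕ) (u : List A) :
    Pol (B A n) {v | Th η R u v} := by
  classical
  obtain ⟨k, c, hk⟩ := th_fin hη R
  have cg := th_cg hη R
  let rep : Fin k → List A := fun i => if h : ∃ x, c x = i then h.choose else []
  have hrep : ∀ a, Th η R a (rep (c a)) := by
    intro a
    have hex : ∃ x, c x = c a := ⟨a, rfl⟩
    have e : rep (c a) = hex.choose := dif_pos hex
    rw [e]
    exact hk _ _ hex.choose_spec.symm
  have hfin : Finite (N × Fin (R + 1) × Fin k × Fin k) := inferInstance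
  have := Fintype.ofFinite (N × Fin (R + 1) × Fin k × Fin k)
  let F : N × Fin (R + 1) × Fin k × Fin k → Lang A := fun q =>
    {v | Bl η q.1 q.2.1 (rep q.2.2.1 ++ u ++ rep q.2.2.2) ↔
      Bl η q.1 q.2.1 (rep q.2.2.1 ++ v ++ rep q.2.2.2)}
  have hF : ∀ q, Pol (B A n) (F q) := by
    intro q
    by_cases hq : Bl η q.1 q.2.1 (rep q.2.2.1 ++ u ++ rep q.2.2.2)
    · have e : F q = {v | rep q.2.2.1 ++ v ++ rep q.2.2.2 ∈ {x | Bl η q.1 q.2.1 x}} := by
        ext v
        exact ⟨fun h => h.1 hq, fun h => ⟨fun _ => h, fun _ => hq⟩⟩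
      rw [e]
      exact quo_pol (tcl_pos hc q.1 q.2.1) _ _
    · have e : F q = {v | rep q.2.2.1 ++ v ++ rep q.2.2.2 ∈ {x | ¬ Bl η q.1 q.2.1 x}} := by
        ext v
        exact ⟨fun h h' => hq (h.2 h'), fun h => ⟨fun h' => absurd h' hq, fun h' => absurd h' h⟩⟩
      rw [e]
      exact quo_pol (tcl_neg hη hc q.1 q.2.1) _ _
  have h1 := inter_pol (Pol.base (hc u))
    (pol_list_inter (Finset.univ : Finset (N × Fin (R + 1) × Fin k × Fin k)).toList F
      fun q _ => hF q)
  have e : ({v | Th η R u v} : Lang A) = {v | η v = η u} ∩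
      {w | ∀ q ∈ (Finset.univ : Finset (N × Fin (R + 1) × Fin k × Fin k)).toList, w ∈ F q} := by
    ext v
    constructor
    · intro h
      refine ⟨h.1.symm, fun q _ => ?_⟩
      exact h.2 q.1 q.2.1 (Nat.lt_succ_iff.1 q.2.1.2) _ _
    · rintro ⟨h2, h3⟩
      have h2' : η v = η u := h2
      refine ⟨h2'.symm, fun m r hr a b => ?_⟩
      have h4 : Bl η m r (rep (c a) ++ u ++ rep (c b)) ↔ Bl η m r (rep (c a) ++ v ++ rep (c b)) :=
        h3 (m, ⟨r, Nat.lt_succ_iff.2 hr⟩, c a, c b) (Finset.mem_toList.2 (Finset.mem_univ _))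
      have h5 : ∀ w : List A, Bl η m r (a ++ w ++ b) ↔ Bl η m r (rep (c a) ++ w ++ rep (c b)) :=
        fun w => th_bl (cg.app (cg.app (hrep a) (cg.refl w)) (hrep b)) hr
      rw [h5 u, h5 v]
      exact h4
  rw [e]
  exact h1

end Pool.Agent.MSL
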