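import Pool.Agent.MSL.Cma
import Pool.Agent.MSL.Cmb
import Pool.Agent.MSL.Mt
import Pool.Agent.MSL.Tcl
import Pool.Agent.MSL.Dpo
import Pool.Agent.MSL.Quo
import Pool.Agent.MSL.Dap

/-!
# Project MSL: the criterion is sufficient

(1) `M'` = quotient of `List A` by `SynEq L` (`exists_quot`; finite index because `α` has finite range and `hr`), `β`, onto,
`β x = β y ↔ SynEq L x y`; `Aper M' K` (`aper_of_quot`, `h.1`).
(2) `cm_h1`, `cm_h2`: `(δ₁, k₁)`, `(δ₂, k₂)`; `exists_common` with `ι = Bool` (or `Fin 2`): `Base n δ`, `k` with `Dom δ k → Dom δᵢ kᵢ`.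
(3) `N` = quotient of `Eqv δ (k+1)` (`eqv_cg`, `eqv_fin`), `η`, onto; aperiodic with some exponent (`eqv_ap`, `aper_of_quot`); `K'` = a
common exponent, `K' ≥ K`, `K' ≥ 1`.  `Setup β η K'`: `one`: `η x = 1 = η []`, so `Eqv δ (k+1) x []`, `δ x []` (`dom_base`), `x = []`
(`Base.eps`); `sgl` similarly; `h1`: `cm_h1` with `δ' := δ`, `k' := k` (`Eqv δ (k+1)` implies `Eqv δ k`), `z = β Z` by surjectivity,
exponent `K` replaced by `K'` (`Aper.mono`); `h2`: `cm_h2`.
(4) `mt`: `R`, `kk` with `Eqv (Th η R) kk u v → β u = β v`, so `SynEq L u v`, so `u ∈ L ↔ v ∈ L` (`SynEq.mem`).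
(5) The classes of `η` are in `B A (n+1)`: `union_B` for `δ`, `j = n` (`Pol.base (hδ.cls u)`), the set `{v | η v = η u}` is invariant under
`Eqv δ (k+1)`.  `th_cls` (level `n + 1`): the classes of `Th η R` are in `Pol (B A (n+1))`; `union_B` for `Th η R`, `j = n + 1`:
`L ∈ B A (n+2)`.
-/

namespace Pool.Agent.MSL

open Pool.Agent.DD Pool.Agent.HLV

variable {A M : Type} [Monoid M] {α : List A → M}

private theorem cmc_cg (L : Lang A) : Cg (SynEq L) where
  refl x := SynEq.refl L x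
  symm h := h.symm
  trans h h' := h.trans h'
  app h h' := h.app h'

theorem mem_of_crit [Finite A] {n : ℕ} {K₀ : Lang (Fin 2)} (h0 : K₀ᶜ ∉ Half (B (Fin 2) n))
    [Finite M] (hα : IsHom α) {L : Lang A} (hr : ∀ x y, α x = α y → SynEq L x y)
    {K : ℕ} (hK : 1 ≤ K) (h : Crit n K₀ α L K) : L ∈ B A (n + 2) := by
  obtain ⟨hA, hI1, hI2⟩ := h
  have hfin : FinIdx (SynEq L) :=
    ⟨Nat.card M, fun x => Finite.equivFin M (α x),
      fun x y e => hr x y ((Finite.equivFin M).injective e)⟩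
  obtain ⟨M', instM', finM', β, hβ, hβs, hβL⟩ := exists_quot (cmc_cg L) hfin
  have aM : Aper M' K := aper_of_quot hβ hβs (fun x y h => (hβL x y).2 h) hA
  obtain ⟨δ₁, k₁, hb1, H1⟩ := cm_h1 hα hβ hβL hI1
  obtain ⟨δ₂, k₂, hb2, H2⟩ := cm_h2 h0 hα hβ hr hβL hK hI2
  obtain ⟨δ, k, hδ, hd⟩ := exists_common (n := n) (ι := Bool) (fun b => cond b δ₁ δ₂)
    (fun b => cond b k₁ k₂) (by rintro (_ | _) <;> assumption)
  have H1' := H1 δ k hδ (fun x y hxy => hd true x y hxy)
  have H2' := H2 δ k hδ (fun x y hxy => hd false x y hxy)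
  have hcg := hδ.cg
  obtain ⟨N, instN, finN, η, hη, hηs, hηe⟩ :=
    exists_quot (eqv_cg hcg (k + 1)) (eqv_fin hcg hδ.fin (k + 1))
  obtain ⟨Kd, hKd⟩ := hδ.ap
  obtain ⟨K1, hK1⟩ := eqv_ap hcg hKd (k + 1)
  have aN : Aper N K1 := aper_of_quot hη hηs (fun x y h => (hηe x y).2 h) hK1
  have hle : K ≤ max K K1 := le_max_left _ _
  have hdown : ∀ {x y : List A}, Eqv δ (k + 1) x y → Eqv δ k x y := fun h1 =>
    eqv_mono hcg (Nat.le_succ k) h1
  have hS : Setup β η (max K K1) :=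
    { pos := hK.trans hle
      αh := hβ
      ηh := hη
      sur := hβs
      aM := aM.of_le hle
      aN := aN.of_le (le_max_right _ _)
      one := by
        intro x hx
        rw [← hη.one] at hx
        exact hδ.eps x (dom_base hcg ((hηe _ _).1 hx).1)
      sgl := fun x a hx => hδ.sgl x a (dom_base hcg ((hηe _ _).1 hx).1)
      h1 := by
        intro E Y z hE hE' hY
        obtain ⟨Z, rfl⟩ := hβs z
        have e1 : Eqv δ k E (E ++ E) :=
          hdown ((hηe _ _).1 (by rw [hη.mul, hE']))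
        have e2 : Eqv δ k E Y := hdown ((hηe _ _).1 hY.symm)
        have h3 := H1' E Y Z hE e1 e2
        simp only [hβ.mul] at h3
        rw [aM.mono hle]
        exact h3
      h2 := by
        intro E F q r s t hE hF hE' hF' h1 h2
        have e1 : Eqv δ (k + 1) (E ++ E) E := (hηe _ _).1 (by rw [hη.mul, hE'])
        have e2 : Eqv δ (k + 1) (F ++ F) F := (hηe _ _).1 (by rw [hη.mul, hF'])
        have e3 := (hηe _ _).1 h1
        have e4 := (hηe _ _).1 h2
        have h3 := H2' E F q r s t hE hF e1 e2 e3 e4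
        rw [aM.mono hle, aM.mono hle]
        exact h3 }
  obtain ⟨R, kk, hR⟩ := mt hS
  have hc : ∀ u, {v | η v = η u} ∈ B A (n + 1) := by
    intro u
    refine union_B hcg hδ.fin (fun u => Pol.base (hδ.cls u)) (k + 1) fun x y hxy => ?_
    have h1 : η x = η y := (hηe _ _).2 hxy
    show η x = η u ↔ η y = η u
    rw [h1]
  exact union_B (th_cg hη R) (th_fin hη R) (th_cls hη hc R) kk fun x y hxy =>
    ((hβL x y).1 (hR x y hxy)).mem

end Pool.Agent.MSL
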