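import Pool.Agent.MSL.Bse

/-!
# Project MSL: common refinement of finitely many relations
-/

namespace Pool.Agent.MSL

open Pool.Agent.DD Pool.Agent.HLV

variable {A M N S : Type}

theorem base_and [Finite A] {n : ℕ} {δ δ' : List A → List A → Prop} (h : Base n δ) (h' : Base n δ') :
    Base n (fun x y => δ x y ∧ δ' x y) where
  cg :=
    { refl := fun x => ⟨h.cg.refl x, h'.cg.refl x⟩
      symm := fun h1 => ⟨h.cg.symm h1.1, h'.cg.symm h1.2⟩
      trans := fun h1 h2 => ⟨h.cg.trans h1.1 h2.1, h'.cg.trans h1.2 h2.2⟩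
      app := fun h1 h2 => ⟨h.cg.app h1.1 h2.1, h'.cg.app h1.2 h2.2⟩ }
  fin := by
    obtain ⟨m, c, hc⟩ := h.fin
    obtain ⟨m', c', hc'⟩ := h'.fin
    refine ⟨m * m', fun x => finProdFinEquiv (c x, c' x), fun x y hxy => ?_⟩
    have h1 := finProdFinEquiv.injective hxy
    rw [Prod.mk.injEq] at h1
    exact ⟨hc x y h1.1, hc' x y h1.2⟩
  ap := by
    obtain ⟨K, hK⟩ := h.ap
    obtain ⟨K', hK'⟩ := h'.ap
    exact ⟨max K K', fun x => ⟨(ApR.mono h.cg hK (le_max_left _ _)) x,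
      (ApR.mono h'.cg hK' (le_max_right _ _)) x⟩⟩
  cls := fun u => B_inter (h.cls u) (h'.cls u)
  eps := fun x hx => h.eps x hx.1
  sgl := fun x a hx => h.sgl x a hx.1

private theorem com_fin [Finite A] {n : ℕ} (m : ℕ) (δ : Fin m → List A → List A → Prop)
    (h : ∀ i, Base n (δ i)) :
    ∃ δ' : List A → List A → Prop, Base n δ' ∧ ∀ i x y, δ' x y → δ i x y := by
  induction m with
  | zero =>
      obtain ⟨δ', h1, -⟩ := exists_base0 (A := A) n [] (fun Q hQ => absurd hQ (List.not_mem_nil))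
      exact ⟨δ', h1, fun i => i.elim0⟩
  | succ m ih =>
      obtain ⟨δ', h1, h2⟩ := ih (fun i => δ i.succ) (fun i => h i.succ)
      refine ⟨fun x y => δ 0 x y ∧ δ' x y, base_and (h 0) h1, fun i => ?_⟩
      refine Fin.cases ?_ (fun i => ?_) i
      · exact fun x y hxy => hxy.1
      · exact fun x y hxy => h2 i x y hxy.2

theorem exists_common [Finite A] {n : ℕ} {ι : Type} [Finite ι]
    (δ : ι → List A → List A → Prop) (k : ι → ℕ) (h : ∀ i, Base n (δ i)) :
    ∃ (δ' : List A → List A → Prop) (k' : ℕ), Base n δ' ∧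
      ∀ i x y, Dom δ' k' x y → Dom (δ i) (k i) x y := by
  obtain ⟨m, ⟨e⟩⟩ := Finite.exists_equiv_fin ι
  obtain ⟨δ', h1, h2⟩ := com_fin m (fun j => δ (e.symm j)) (fun j => h (e.symm j))
  obtain ⟨k', hk'⟩ := (Set.finite_range k).bddAbove
  refine ⟨δ', k', h1, fun i x y hxy => ?_⟩
  have h3 : ∀ x y, δ' x y → δ i x y := by
    intro x y h4
    have h5 := h2 (e i) x y h4
    rwa [e.symm_apply_apply] at h5
  exact dom_mono (h i).cg (hk' ⟨i, rfl⟩) (dom_rel h3 hxy)

end Pool.Agent.MSL
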