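import Pool.Agent.MSL.Tgi

/-!
# Project MSL: a dominated block

A word which dominates a word with a block `y # b $` contains a block of the same kind, whose parts dominate the
parts of the given block.
-/

namespace Pool.Agent.MSL

open Pool.Agent.DD Pool.Agent.HLV

variable {A : Type}

theorem blk_dom {n : ℕ} {δ' : List (Tg A) → List (Tg A) → Prop} (hδ : Base n δ')
    (h2 : ∀ (x : List A) (z : List (Tg A)), δ' (x.map Tg.lt) z → ∃ y : List A, z = y.map Tg.lt)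
    (h3 : ∀ (b : List (Fin 2)) (z : List (Tg A)), δ' (b.map Tg.mk) z →
      ∃ b' : List (Fin 2), z = b'.map Tg.mk)
    (h5 : ∀ x z : List (Tg A), δ' (x ++ [Tg.dl]) z → ∃ z', z = z' ++ [Tg.dl])
    {k : ℕ} {v₁ v₂ u : List (Tg A)} {y : List A} {b : List (Fin 2)}
    (hd : Dom δ' (k + 5) (v₁ ++ blk y b ++ v₂) u) (hv : v₁ = [] ∨ ∃ v', v₁ = v' ++ [Tg.dl]) :
    ∃ u₁ y' b' u₂, u = u₁ ++ blk y' b' ++ u₂ ∧ (u₁ = [] ∨ ∃ u', u₁ = u' ++ [Tg.dl]) ∧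
      Dom δ' k (y.map Tg.lt) (y'.map Tg.lt) ∧ Dom δ' k (b.map Tg.mk) (b'.map Tg.mk) := by
  obtain ⟨u₁, w, u₂, hu, a1, a2, -⟩ := dom_three hδ.cg (k := k + 3) hd
  obtain ⟨w', w₄, hw, b1, b2⟩ := dom_two (k := k + 2) (u₁ := y.map Tg.lt ++ [Tg.hs] ++ b.map Tg.mk)
    (u₂ := [Tg.dl]) a2
  obtain ⟨w₁, w₂, w₃, hw', c1, c2, c3⟩ := dom_three hδ.cg (k := k) b1
  obtain ⟨y', hy'⟩ := h2 y w₁ (dom_base hδ.cg c1)
  obtain ⟨b', hb'⟩ := h3 b w₃ (dom_base hδ.cg c3)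
  have e2 : w₂ = [Tg.hs] := hδ.sgl _ _ (hδ.cg.symm (dom_base hδ.cg c2))
  have e4 : w₄ = [Tg.dl] := hδ.sgl _ _ (hδ.cg.symm (dom_base hδ.cg b2))
  refine ⟨u₁, y', b', u₂, ?_, ?_, ?_, ?_⟩
  · rw [hu, hw, hw', hy', hb', e2, e4]
    rfl
  · rcases hv with hv | ⟨v', hv⟩
    · left
      rw [hv] at a1
      exact hδ.eps _ (hδ.cg.symm (dom_base hδ.cg a1))
    · right
      rw [hv] at a1
      exact h5 _ _ (dom_base hδ.cg a1)
  · rw [← hy']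
    exact c1
  · rw [← hb']
    exact c3

end Pool.Agent.MSL
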