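import Pool.Agent.MSL.Tgi

/-!
# Project MSL: blocks in products of blocks

`blk_inj`: `x` and `b` are recovered from `blk x b` by `filterMap`.  `blk_mem`: every block is `v ++ [dl]` with `dl` not
in `v`, and such a decomposition is unique (`mxd_uniq`); induction on the list of the blocks.
-/

namespace Pool.Agent.MSL

open Pool.Agent.DD Pool.Agent.HLV

variable {A : Type}

private def mxdL : Tg A → Option A
  | Tg.lt a => some a
  | _ => none

private def mxdM : Tg A → Option (Fin 2)
  | Tg.mk i => some i
  | _ => none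

private theorem mxd_LL (x : List A) : (x.map Tg.lt).filterMap mxdL = x := by
  induction x with
  | nil => rfl
  | cons a x ih =>
      have e : ((a :: x).map Tg.lt).filterMap mxdL = a :: (x.map Tg.lt).filterMap mxdL := rfl
      rw [e, ih]

private theorem mxd_LM (b : List (Fin 2)) : (b.map (Tg.mk : Fin 2 → Tg A)).filterMap mxdL = [] := by
  induction b with
  | nil => rfl
  | cons a x ih =>
      have e : ((a :: x).map (Tg.mk : Fin 2 → Tg A)).filterMap mxdL =
        (x.map (Tg.mk : Fin 2 → Tg A)).filterMap mxdL := rfl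
      rw [e, ih]

private theorem mxd_ML (x : List A) : (x.map Tg.lt).filterMap mxdM = [] := by
  induction x with
  | nil => rfl
  | cons a x ih =>
      have e : ((a :: x).map Tg.lt).filterMap mxdM = (x.map Tg.lt).filterMap mxdM := rfl
      rw [e, ih]

private theorem mxd_MM (b : List (Fin 2)) : (b.map (Tg.mk : Fin 2 → Tg A)).filterMap mxdM = b := by
  induction b with
  | nil => rfl
  | cons a x ih =>
      have e : ((a :: x).map (Tg.mk : Fin 2 → Tg A)).filterMap mxdM =
        a :: (x.map (Tg.mk : Fin 2 → Tg A)).filterMap mxdM := rfl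
      rw [e, ih]

private theorem mxd_L (x : List A) (b : List (Fin 2)) : (blk x b).filterMap mxdL = x := by
  unfold blk
  rw [List.filterMap_append, List.filterMap_append, List.filterMap_append, mxd_LL, mxd_LM]
  have e1 : List.filterMap (mxdL (A := A)) [Tg.hs] = [] := rfl
  have e2 : List.filterMap (mxdL (A := A)) [Tg.dl] = [] := rfl
  rw [e1, e2, List.append_nil, List.append_nil, List.append_nil]

private theorem mxd_M (x : List A) (b : List (Fin 2)) : (blk x b).filterMap mxdM = b := by
  unfold blk
  rw [List.filterMap_append, List.filterMap_append, List.filterMap_append, mxd_ML, mxd_MM]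
  have e1 : List.filterMap (mxdM (A := A)) [Tg.hs] = [] := rfl
  have e2 : List.filterMap (mxdM (A := A)) [Tg.dl] = [] := rfl
  rw [e1, e2, List.append_nil, List.append_nil, List.nil_append]

theorem blk_inj {x x' : List A} {b b' : List (Fin 2)} (h : blk x b = blk x' b') :
    x = x' ∧ b = b' := by
  refine ⟨?_, ?_⟩
  · rw [← mxd_L x b, h, mxd_L]
  · rw [← mxd_M x b, h, mxd_M]

private theorem mxd_form (x : List A) (b : List (Fin 2)) :
    ∃ v, blk x b = v ++ [Tg.dl] ∧ Tg.dl ∉ v := by
  refine ⟨x.map Tg.lt ++ [Tg.hs] ++ b.map Tg.mk, rfl, ?_⟩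
  intro h
  rcases List.mem_append.1 h with h | h
  · rcases List.mem_append.1 h with h | h
    · obtain ⟨a, -, ha⟩ := List.mem_map.1 h
      cases ha
    · cases List.mem_singleton.1 h
  · obtain ⟨a, -, ha⟩ := List.mem_map.1 h
    cases ha

private theorem mxd_uniq {v v' s s' : List (Tg A)} (hv : Tg.dl ∉ v) (hv' : Tg.dl ∉ v')
    (h : v ++ [Tg.dl] ++ s = v' ++ [Tg.dl] ++ s') : v = v' ∧ s = s' := by
  induction v generalizing v' with
  | nil =>
      cases v' with
      | nil => exact ⟨rfl, (List.cons.inj h).2⟩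
      | cons c v' =>
          have h1 := (List.cons.inj h).1
          exact absurd (h1 ▸ List.mem_cons_self) hv'
  | cons c v ih =>
      cases v' with
      | nil =>
          have h1 := (List.cons.inj h).1
          exact absurd (h1 ▸ List.mem_cons_self) hv
      | cons c' v' =>
          have h1 := List.cons.inj h
          obtain ⟨h2, h3⟩ := ih (fun h => hv (List.mem_cons_of_mem _ h))
            (fun h => hv' (List.mem_cons_of_mem _ h)) h1.2
          exact ⟨by rw [h1.1, h2], h3⟩

private theorem mxd_first (u : List (Tg A)) : ∃ v s, u ++ [Tg.dl] = v ++ [Tg.dl] ++ s ∧ Tg.dl ∉ v ∧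
    (s = [] ∨ ∃ s', s = s' ++ [Tg.dl]) := by
  induction u with
  | nil => exact ⟨[], [], rfl, List.not_mem_nil, Or.inl rfl⟩
  | cons c u ih =>
      by_cases hc : c = Tg.dl
      · exact ⟨[], u ++ [Tg.dl], by rw [hc]; rfl, List.not_mem_nil, Or.inr ⟨u, rfl⟩⟩
      · obtain ⟨v, s, h1, h2, h3⟩ := ih
        refine ⟨c :: v, s, ?_, ?_, h3⟩
        · rw [List.cons_append, h1]
          rfl
        · intro h
          rcases List.mem_cons.1 h with h | h
          · exact hc h.symm
          · exact h2 h

theorem blk_mem {ws : List (List (Tg A))} (hws : ∀ w ∈ ws, ∃ x b, w = blk x b)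
    {u₁ u₂ : List (Tg A)} {y : List A} {b : List (Fin 2)}
    (h : ws.flatten = u₁ ++ blk y b ++ u₂) (hu : u₁ = [] ∨ ∃ u', u₁ = u' ++ [Tg.dl]) :
    ∃ ws₁ ws₂, ws = ws₁ ++ [blk y b] ++ ws₂ := by
  obtain ⟨v', hv', hn'⟩ := mxd_form y b
  induction ws generalizing u₁ with
  | nil =>
      rw [List.flatten_nil, hv'] at h
      have h1 := congrArg List.length h
      simp only [List.length_nil, List.length_append, List.length_singleton] at h1
      omega
  | cons w ws ih =>
      obtain ⟨x, c, hw⟩ := hws w List.mem_cons_self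
      obtain ⟨v, hv, hn⟩ := mxd_form x c
      have hwv : w = v ++ [Tg.dl] := by rw [hw, hv]
      rw [List.flatten_cons] at h
      rcases hu with hu | ⟨u', hu⟩
      · rw [hu, List.nil_append, hwv, hv'] at h
        obtain ⟨e1, -⟩ := mxd_uniq hn hn' h
        refine ⟨[], ws, ?_⟩
        rw [List.nil_append, List.singleton_append, hwv, hv', e1]
      · obtain ⟨v₁, s, g1, g2, g3⟩ := mxd_first u'
        have e3 : u₁ ++ blk y b ++ u₂ = v₁ ++ [Tg.dl] ++ (s ++ blk y b ++ u₂) := by
          rw [hu, g1]
          simp only [List.append_assoc]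
        rw [e3, hwv] at h
        obtain ⟨-, e2⟩ := mxd_uniq hn g2 h
        obtain ⟨ws₁, ws₂, hh⟩ := ih (fun w hw => hws w (List.mem_cons_of_mem _ hw)) e2 g3
        exact ⟨w :: ws₁, ws₂, by rw [hh]; rfl⟩

end Pool.Agent.MSL
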