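import Pool.Agent.MSL.Mxb
import Pool.Agent.MSL.Mxc
import Pool.Agent.MSL.Mxd
import Pool.Agent.MSL.Dpo

/-!
# Project MSL: words over `A` from the side condition (M2)

The words equivalent (for the relation of `exists_big`) to a word of `plus (BX W K₀)` form a language of `B (Tg A) (n+1)`, so by `Mix`
it contains a word `v` of `Ve V G K₀`. Going back and forth between the blocks of the two words gives an ascending chain of
words in `W` and `V` (in turn), which stabilizes (`chain_stab`).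
-/

namespace Pool.Agent.MSL

open Pool.Agent.DD Pool.Agent.HLV

variable {A : Type}

private theorem mxe_chain {P Q : List A → Prop} {D : List A → List A → Prop}
    (h1 : ∀ x, P x → ∃ y, Q y ∧ D x y) (h2 : ∀ y, Q y → ∃ x, P x ∧ D y x) {x₀ : List A} (h0 : P x₀) :
    ∃ s : ℕ → List A, s 0 = x₀ ∧ (∀ i, P (s (2 * i)) ∧ Q (s (2 * i + 1))) ∧ ∀ i, D (s i) (s (i + 1)) := by
  classical
  choose! f hf using h1
  choose! f' hf' using h2
  have ht : ∀ i : ℕ, P ((f' ∘ f)^[i] x₀) := by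
    intro i
    induction i with
    | zero => exact h0
    | succ i ih =>
      rw [Function.iterate_succ_apply']
      exact (hf' _ (hf _ ih).1).1
  have ev : ∀ i : ℕ, 2 * i % 2 = 0 ∧ 2 * i / 2 = i ∧ (2 * i + 1) % 2 ≠ 0 ∧ (2 * i + 1) / 2 = i := fun i =>
    ⟨by omega, by omega, by omega, by omega⟩
  have hs1 : ∀ i : ℕ, (if 2 * i % 2 = 0 then (f' ∘ f)^[2 * i / 2] x₀ else f ((f' ∘ f)^[2 * i / 2] x₀)) =
      (f' ∘ f)^[i] x₀ := by
    intro i
    rw [if_pos (ev i).1, (ev i).2.1]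
  have hs2 : ∀ i : ℕ, (if (2 * i + 1) % 2 = 0 then (f' ∘ f)^[(2 * i + 1) / 2] x₀ else
      f ((f' ∘ f)^[(2 * i + 1) / 2] x₀)) = f ((f' ∘ f)^[i] x₀) := by
    intro i
    rw [if_neg (ev i).2.2.1, (ev i).2.2.2]
  refine ⟨fun i => if i % 2 = 0 then (f' ∘ f)^[i / 2] x₀ else f ((f' ∘ f)^[i / 2] x₀), ?_, ?_, ?_⟩
  · exact hs1 0
  · intro i
    refine ⟨?_, ?_⟩
    · beta_reduce
      rw [hs1 i]
      exact ht i
    · beta_reduce
      rw [hs2 i]
      exact (hf _ (ht i)).1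
  · intro i
    beta_reduce
    rcases Nat.even_or_odd' i with ⟨j, hj | hj⟩
    · rw [hj, hs1 j, hs2 j]
      exact (hf _ (ht j)).2
    · have e : i + 1 = 2 * (j + 1) := by omega
      rw [e, hs1 (j + 1), hj, hs2 j, Function.iterate_succ_apply']
      exact (hf' _ (hf _ (ht j)).1).2

private theorem mxe_end {ws : List (List (Tg A))} (hws : ∀ w ∈ ws, ∃ x b, w = blk x b) :
    ws.flatten = [] ∨ ∃ v', ws.flatten = v' ++ [Tg.dl] := by
  induction ws with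
  | nil => exact Or.inl rfl
  | cons w ws ih =>
    right
    obtain ⟨x, b, hw⟩ := hws w List.mem_cons_self
    rcases ih fun z hz => hws z (List.mem_cons_of_mem _ hz) with h | ⟨v', h⟩
    · exact ⟨x.map Tg.lt ++ [Tg.hs] ++ b.map Tg.mk, by rw [List.flatten_cons, h, List.append_nil, hw]; rfl⟩
    · exact ⟨w ++ v', by rw [List.flatten_cons, h, List.append_assoc]⟩

/-- from a block of one word to a block of an equivalent word -/
private theorem mxe_step {n : ℕ} {δ' : List (Tg A) → List (Tg A) → Prop} (hδ : Base n δ')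
    (h2 : ∀ (x : List A) (z : List (Tg A)), δ' (x.map Tg.lt) z → ∃ y : List A, z = y.map Tg.lt)
    (h3 : ∀ (b : List (Fin 2)) (z : List (Tg A)), δ' (b.map Tg.mk) z →
      ∃ b' : List (Fin 2), z = b'.map Tg.mk)
    (h5 : ∀ x z : List (Tg A), δ' (x ++ [Tg.dl]) z → ∃ z', z = z' ++ [Tg.dl])
    {κ : ℕ} {ws zs : List (List (Tg A))} (hws : ∀ w ∈ ws, ∃ x b, w = blk x b)
    (hzs : ∀ w ∈ zs, ∃ x b, w = blk x b) (hd : Dom δ' (κ + 5) ws.flatten zs.flatten)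
    {y : List A} {b : List (Fin 2)} (hy : blk y b ∈ ws) :
    ∃ y' b', blk y' b' ∈ zs ∧ Dom δ' κ (y.map Tg.lt) (y'.map Tg.lt) ∧
      Dom δ' κ (b.map Tg.mk) (b'.map Tg.mk) := by
  obtain ⟨ws₁, ws₂, hw⟩ := List.append_of_mem hy
  have e : ws.flatten = ws₁.flatten ++ blk y b ++ ws₂.flatten := by
    rw [hw, List.flatten_append, List.flatten_cons, List.append_assoc]
  rw [e] at hd
  obtain ⟨u₁, y', b', u₂, hu, hu₁, hy', hb'⟩ := blk_dom hδ h2 h3 h5 hd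
    (mxe_end fun w hw' => hws w (by rw [hw]; exact List.mem_append_left _ hw'))
  obtain ⟨zs₁, zs₂, hz⟩ := blk_mem hzs hu hu₁
  refine ⟨y', b', ?_, hy', hb'⟩
  rw [hz]
  exact List.mem_append_left _ (List.mem_append_right _ (List.mem_singleton.2 rfl))

private theorem mxe_dom_chain {r : List A → List A → Prop} (h : Cg r) {k : ℕ} {s : ℕ → List A}
    (hs : ∀ i, Dom r k (s i) (s (i + 1))) (i : ℕ) : Dom r k (s 0) (s i) := by
  induction i with
  | zero => exact dom_refl h k _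
  | succ i ih => exact dom_trans h ih (hs i)

theorem of_mix [Finite A] [Nonempty A] {n : ℕ} (hn : 1 ≤ n) {K₀ : Lang (Fin 2)}
    (h0 : K₀ ∈ Half (B (Fin 2) n)) {V W G : Lang A} (h : Mix n K₀ V W G)
    {δ : List A → List A → Prop} (hδ : Base n δ) (k : ℕ) :
    ∃ x ∈ W, ∃ x' ∈ V, ∃ y ∈ G, Eqv δ k x x' ∧ Dom δ k y x := by
  obtain ⟨δ', k', hδ', p1, p2, p3, p4, p5⟩ := exists_big hn hδ h0
  have hk : k ≤ max k k' := le_max_left _ _
  have hk' : k' ≤ max k k' := le_max_right _ _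
  generalize max k k' = κ at hk hk'
  have hS : ({w | ∃ u ∈ plus (BX W K₀), Eqv δ' (κ + 5) u w} : Lang (Tg A)) ∈ B (Tg A) (n + 1) := by
    refine union_B hδ'.cg hδ'.fin (fun u => Pol.base (hδ'.cls u)) (κ + 5) ?_
    intro x y hxy
    have hc := eqv_cg hδ'.cg (κ + 5)
    constructor
    · rintro ⟨u, hu, hux⟩
      exact ⟨u, hu, hc.trans hux hxy⟩
    · rintro ⟨u, hu, huy⟩
      exact ⟨u, hu, hc.trans huy (hc.symm hxy)⟩
  have hex : ∃ w, (∃ u ∈ plus (BX W K₀), Eqv δ' (κ + 5) u w) ∧ w ∈ Ve V G K₀ := by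
    by_contra hno
    refine h ⟨_, hS, fun w hw => ⟨w, hw, (eqv_cg hδ'.cg (κ + 5)).refl w⟩, fun w hw hw' => ?_⟩
    exact hno ⟨w, hw, hw'⟩
  obtain ⟨v, ⟨u, ⟨us, _, hus, rfl⟩, huv⟩, xx, ⟨xs, _, hxs, rfl⟩, yy, ⟨g, hg, b₀, hb₀, rfl⟩,
    zz, ⟨zs, _, hzs, rfl⟩, rfl⟩ := hex
  have hvs : xs.flatten ++ blk g b₀ ++ zs.flatten = (xs ++ [blk g b₀] ++ zs).flatten := by
    rw [List.flatten_append, List.flatten_append, List.flatten_singleton]
  rw [hvs] at huv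
  have bus : ∀ w ∈ us, ∃ x b, w = blk x b := by
    intro w hw
    obtain ⟨x, _, b, _, e⟩ := hus w hw
    exact ⟨x, b, e⟩
  have bvs : ∀ w ∈ xs ++ [blk g b₀] ++ zs, ∃ x b, w = blk x b := by
    intro w hw
    rcases List.mem_append.1 hw with hw | hw
    · rcases List.mem_append.1 hw with hw | hw
      · obtain ⟨x, _, b, _, e⟩ := hxs w hw
        exact ⟨x, b, e⟩
      · exact ⟨g, b₀, List.mem_singleton.1 hw⟩
    · obtain ⟨x, _, b, _, e⟩ := hzs w hw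
      exact ⟨x, b, e⟩
  have inW : ∀ x b, blk x b ∈ us → x ∈ W ∧ b ∈ K₀ := by
    intro x b hx
    obtain ⟨x', hx', b', hb', e⟩ := hus _ hx
    obtain ⟨e1, e2⟩ := blk_inj e
    rw [e1, e2]
    exact ⟨hx', hb'⟩
  have inV : ∀ x b, b ∈ K₀ → blk x b ∈ xs ++ [blk g b₀] ++ zs → x ∈ V := by
    intro x b hb hx
    rcases List.mem_append.1 hx with hx | hx
    · rcases List.mem_append.1 hx with hx | hx
      · obtain ⟨x', hx', b', _, e⟩ := hxs _ hx
        rw [(blk_inj e).1]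
        exact hx'
      · have e := (blk_inj (List.mem_singleton.1 hx)).2
        rw [e] at hb
        exact absurd hb hb₀
    · obtain ⟨x', hx', b', _, e⟩ := hzs _ hx
      rw [(blk_inj e).1]
      exact hx'
  have stepA : ∀ y b, blk y b ∈ xs ++ [blk g b₀] ++ zs →
      ∃ x, (∃ a, a ∈ K₀ ∧ blk x a ∈ us) ∧ Dom δ κ y x := by
    intro y b hy
    obtain ⟨y', b', h1, h2, _⟩ := mxe_step hδ' p2 p3 p5 bvs bus huv.2 hy
    exact ⟨y', ⟨b', (inW _ _ h1).2, h1⟩, p1 κ _ _ h2⟩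
  have stepB : ∀ x, (∃ a, a ∈ K₀ ∧ blk x a ∈ us) →
      ∃ x', (∃ a, a ∈ K₀ ∧ blk x' a ∈ xs ++ [blk g b₀] ++ zs) ∧ Dom δ κ x x' := by
    rintro x ⟨a, ha, hx⟩
    obtain ⟨y', b', h1, h2, h3⟩ := mxe_step hδ' p2 p3 p5 bus bvs huv.1 hx
    exact ⟨y', ⟨b', p4 _ _ (dom_mono hδ'.cg hk' h3) ha, h1⟩, p1 κ _ _ h2⟩
  obtain ⟨x₀, hx₀, hgx⟩ := stepA g b₀ (List.mem_append_left _ (List.mem_append_right _ (List.mem_singleton.2 rfl)))
  obtain ⟨s, hs0, hs1, hs2⟩ := mxe_chain (D := Dom δ κ) stepB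
    (fun y (hy : ∃ a, a ∈ K₀ ∧ blk y a ∈ xs ++ [blk g b₀] ++ zs) => stepA y hy.choose hy.choose_spec.2) hx₀
  have hs3 : ∀ i, Dom δ k (s i) (s (i + 1)) := fun i => dom_mono hδ.cg hk (hs2 i)
  obtain ⟨i, hi⟩ := chain_stab hδ.cg hδ.fin k s hs3
  obtain ⟨a, _, hPa⟩ := (hs1 i).1
  obtain ⟨a', ha', hQa⟩ := (hs1 i).2
  refine ⟨s (2 * i), (inW _ _ hPa).1, s (2 * i + 1), inV _ _ ha' hQa, g, hg, hi, ?_⟩
  refine dom_trans hδ.cg (dom_mono hδ.cg hk hgx) ?_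
  rw [← hs0]
  exact mxe_dom_chain hδ.cg hs3 (2 * i)

end Pool.Agent.MSL
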