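import Pool.Agent.MSL.Ins
import Pool.Agent.MSL.Dap

/-!
# Project MSL: words for the second condition

With `x₁, ..., x₄ ∈ [f]`, `x₁', ..., x₄' ∈ [e]`, `xᵢ =_k xᵢ'`, `g₁ ∈ [a], ..., g₄ ∈ [d]`, `gᵢ ≤_k xᵢ`, put `π = x₁x₂x₃x₄`,
`π' = x₁'x₂'x₃'x₄'`, `F = π^N`, `E = π'^N` for a large `N` (`eqv_ap`), and `a' = g₁x₂x₃x₄`, `b' = x₁g₂x₃'x₄'`,
`c' = x₁'x₂'g₃x₄`, `d' = x₁x₂x₃g₄`, which are all `≤_k π`.  Then `E (a' F d') E ≤_k E π F π E =_k E`, and the other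
direction is `dom_ins`.
-/

namespace Pool.Agent.MSL

open Pool.Agent.DD Pool.Agent.HLV

variable {A M : Type}

private theorem Snw_pw {r : List A → List A → Prop} (h : Cg r) {K j : ℕ} (hr : ApR r K)
    (hj : K ≤ j) (x : List A) : r (pw x K) (pw x j) := by
  induction hj with
  | refl => exact h.refl _
  | step hm ih => exact h.trans ih (h.symm (ApR.mono h hr hm x))

private theorem Snw_one {δ : List A → List A → Prop} (h : Cg δ) {k N : ℕ}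
    (hN : ApR (Eqv δ k) N) {π E F u v : List A} (hE : Eqv δ k E (E ++ E))
    (hEF : Eqv δ k E F) (hF : F = pw π N) (hu : Dom δ k u π) (hv : Dom δ k v π) :
    Eqv δ k E (E ++ (u ++ F ++ v) ++ E) := by
  have hc := eqv_cg h k
  have h1 : Eqv δ k (E ++ (π ++ F ++ π) ++ E) (F ++ (π ++ F ++ π) ++ F) :=
    hc.app (hc.app hEF (hc.refl _)) hEF
  have h2 : F ++ (π ++ F ++ π) ++ F = pw π (N + 1 + N + 1 + N) := by
    rw [pw_add, pw_succ', pw_add, pw_succ', hF]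
    simp only [List.append_assoc]
  have h3 : Eqv δ k (E ++ (π ++ F ++ π) ++ E) E := by
    refine hc.trans h1 ?_
    rw [h2]
    refine hc.trans (hc.symm (Snw_pw hc hN (by omega) π)) ?_
    rw [← hF]
    exact hc.symm hEF
  have h4 : Dom δ k (E ++ (u ++ F ++ v) ++ E) E := by
    refine dom_trans h ?_ h3.1
    exact dom_app h (dom_app h (dom_refl h k E) (dom_app h (dom_app h hu (dom_refl h k F)) hv))
      (dom_refl h k E)
  exact ⟨dom_ins h hE (dom_base h h4), h4⟩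

theorem snd_words {δ : List A → List A → Prop} (h : Cg δ) {K' : ℕ} (hap : ApR δ K') (k : ℕ)
    [Monoid M] {α : List A → M} (hα : IsHom α) {e f a b c d : List A} (he : α (e ++ e) = α e)
    (hf : α (f ++ f) = α f)
    (hm : ∀ g ∈ [a, b, c, d], ∃ x ∈ cls α f, ∃ x' ∈ cls α e, ∃ y ∈ cls α g,
      Eqv δ k x x' ∧ Dom δ k y x) :
    ∃ E F a' b' c' d' : List A, α E = α e ∧ α F = α f ∧
      α (E ++ a' ++ F) = α (e ++ a ++ f) ∧ α (F ++ b' ++ E) = α (f ++ b ++ e) ∧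
      α (E ++ c' ++ F) = α (e ++ c ++ f) ∧ α (F ++ d' ++ E) = α (f ++ d ++ e) ∧
      Eqv δ k E (E ++ E) ∧ Eqv δ k F (F ++ F) ∧ Eqv δ k E (E ++ (a' ++ F ++ d') ++ E) ∧
      Eqv δ k F (F ++ (b' ++ E ++ c') ++ F) := by
  obtain ⟨x₁, hx₁, y₁, hy₁, g₁, hg₁, q₁, s₁⟩ := hm a (by simp)
  obtain ⟨x₂, hx₂, y₂, hy₂, g₂, hg₂, q₂, s₂⟩ := hm b (by simp)
  obtain ⟨x₃, hx₃, y₃, hy₃, g₃, hg₃, q₃, s₃⟩ := hm c (by simp)
  obtain ⟨x₄, hx₄, y₄, hy₄, g₄, hg₄, q₄, s₄⟩ := hm d (by simp)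
  have hx₁ : α x₁ = α f := hx₁
  have hx₂ : α x₂ = α f := hx₂
  have hx₃ : α x₃ = α f := hx₃
  have hx₄ : α x₄ = α f := hx₄
  have hy₁ : α y₁ = α e := hy₁
  have hy₂ : α y₂ = α e := hy₂
  have hy₃ : α y₃ = α e := hy₃
  have hy₄ : α y₄ = α e := hy₄
  have hg₁ : α g₁ = α a := hg₁
  have hg₂ : α g₂ = α b := hg₂
  have hg₃ : α g₃ = α c := hg₃
  have hg₄ : α g₄ = α d := hg₄
  rw [hα.mul] at he hf
  have he' : ∀ z, α e * (α e * z) = α e * z := fun z => by rw [← mul_assoc, he]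
  have hf' : ∀ z, α f * (α f * z) = α f * z := fun z => by rw [← mul_assoc, hf]
  have hc := eqv_cg h k
  obtain ⟨N₀, hN₀⟩ := eqv_ap h hap k
  obtain ⟨N, hN1, hN⟩ : ∃ N, 1 ≤ N ∧ ApR (Eqv δ k) N :=
    ⟨N₀ + 1, by omega, ApR.mono hc hN₀ (by omega)⟩
  obtain ⟨π, hπ⟩ : ∃ π, π = x₁ ++ x₂ ++ x₃ ++ x₄ := ⟨_, rfl⟩
  obtain ⟨π', hπ'⟩ : ∃ π', π' = y₁ ++ y₂ ++ y₃ ++ y₄ := ⟨_, rfl⟩
  have hππ : Eqv δ k π' π := by
    rw [hπ, hπ']
    exact hc.symm (hc.app (hc.app (hc.app q₁ q₂) q₃) q₄)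
  have hαπ : α π = α f := by
    rw [hπ, hα.mul, hα.mul, hα.mul, hx₁, hx₂, hx₃, hx₄, hf, hf, hf]
  have hαπ' : α π' = α e := by
    rw [hπ', hα.mul, hα.mul, hα.mul, hy₁, hy₂, hy₃, hy₄, he, he, he]
  have hidem : ∀ x : List A, Eqv δ k (pw x N) (pw x N ++ pw x N) := fun x => by
    rw [← pw_add]
    exact Snw_pw hc hN (by omega) x
  have hEF : Eqv δ k (pw π' N) (pw π N) := hc.pw hππ N
  have hαE : α (pw π' N) = α e := by rw [hα.pw, hαπ', idem_pow he hN1]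
  have hαF : α (pw π N) = α f := by rw [hα.pw, hαπ, idem_pow hf hN1]
  refine ⟨pw π' N, pw π N, g₁ ++ x₂ ++ x₃ ++ x₄, x₁ ++ g₂ ++ y₃ ++ y₄, y₁ ++ y₂ ++ g₃ ++ x₄,
    x₁ ++ x₂ ++ x₃ ++ g₄, hαE, hαF, ?_, ?_, ?_, ?_, hidem π', hidem π, ?_, ?_⟩
  · simp only [hα.mul, hαE, hαF, hx₂, hx₃, hx₄, hg₁, mul_assoc, hf]
  · simp only [hα.mul, hαE, hαF, hx₁, hy₃, hy₄, hg₂, mul_assoc, he, hf']
  · simp only [hα.mul, hαE, hαF, hy₁, hy₂, hx₄, hg₃, mul_assoc, hf, he']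
  · simp only [hα.mul, hαE, hαF, hx₁, hx₂, hx₃, hg₄, mul_assoc, hf']
  · refine Snw_one h hN (π := π) (hidem π') hEF rfl ?_ ?_
    · rw [hπ]
      exact dom_app h (dom_app h (dom_app h s₁ (dom_refl h k _)) (dom_refl h k _)) (dom_refl h k _)
    · rw [hπ]
      exact dom_app h (dom_refl h k _) s₄
  · have h5 : Dom δ k (x₁ ++ g₂ ++ y₃ ++ y₄) π' := by
      rw [hπ']
      exact dom_app h (dom_app h (dom_app h q₁.1 (dom_trans h s₂ q₂.1)) (dom_refl h k _))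
        (dom_refl h k _)
    have h6 : Dom δ k (y₁ ++ y₂ ++ g₃ ++ x₄) π' := by
      rw [hπ']
      exact dom_app h (dom_app h (dom_refl h k _) (dom_trans h s₃ q₃.1)) q₄.1
    exact Snw_one h hN (π := π') (hidem π) (hc.symm hEF) rfl h5 h6

end Pool.Agent.MSL
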