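import Pool.Agent.MSL.Jmb
import Pool.Agent.MSL.Snw
import Pool.Agent.MSL.Mxe
import Pool.Agent.MSL.Bse

/-!
# Project MSL: the second condition is necessary

The words of `snd_words`, for the relation `δ` of the list `Qs` of `jump_two`, satisfy the second
identity, and this identity depends only on the values of the words.
-/

namespace Pool.Agent.MSL

open Pool.Agent.DD Pool.Agent.HLV

variable {A M : Type}

private theorem snc_split [Monoid M] {e f a b a' b' : M} (hf : f * f = f)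
    (h1 : e * a' * f = e * a * f) (h2 : f * b' * e = f * b * e) :
    e * a' * f * b' * e = e * a * f * b * e := by
  have h3 : ∀ x y : M, e * x * f * y * e = e * x * f * (f * y * e) := by
    intro x y
    calc e * x * f * y * e = e * x * (f * f) * y * e := by rw [hf]
      _ = e * x * f * (f * y * e) := by simp only [mul_assoc]
  rw [h3, h1, h2, ← h3]

private theorem snc_powr [Monoid M] {e x : M} (h : x * e = x) {K : ℕ} (hK : 1 ≤ K) :
    x ^ K * e = x ^ K := by
  obtain ⟨k, rfl⟩ := Nat.exists_eq_add_of_le' hK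
  rw [pow_succ, mul_assoc, h]

private theorem snc_powl [Monoid M] {e x : M} (h : e * x = x) {K : ℕ} (hK : 1 ≤ K) :
    e * x ^ K = x ^ K := by
  obtain ⟨k, rfl⟩ := Nat.exists_eq_add_of_le' hK
  rw [pow_succ', ← mul_assoc, h]

private theorem snc_mid [Monoid M] {e x y z : M} (he : e * e = e) (u v w : M)
    (hx : x = u * e) (hy : y = e * v) {K : ℕ} (hK : 1 ≤ K) (hw : e * z * e = w) :
    x ^ K * z * y ^ K = x ^ K * w * y ^ K := by
  have h1 : x ^ K * e = x ^ K := snc_powr (by rw [hx, mul_assoc, he]) hK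
  have h2 : e * y ^ K = y ^ K := snc_powl (by rw [hy, ← mul_assoc, he]) hK
  calc x ^ K * z * y ^ K = (x ^ K * e) * z * (e * y ^ K) := by rw [h1, h2]
    _ = x ^ K * (e * z * e) * y ^ K := by simp only [mul_assoc]
    _ = x ^ K * w * y ^ K := by rw [hw]

theorem snd2 [Finite A] [Nonempty A] {n : ℕ} (hn : 1 ≤ n) {K₀ : Lang (Fin 2)}
    (h0 : K₀ ∈ Half (B (Fin 2) n)) {L : Lang A} (hL : L ∈ B A (n + 2)) [Monoid M]
    {α : List A → M} (hα : IsHom α) (hr : ∀ x y, α x = α y → SynEq L x y) {K : ℕ}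
    (hap : ∀ x, SynEq L (pw x (K + 1)) (pw x K)) {e f a b c d : List A}
    (he : α (e ++ e) = α e) (hf : α (f ++ f) = α f)
    (ha : Mix n K₀ (cls α e) (cls α f) (cls α a)) (hb : Mix n K₀ (cls α e) (cls α f) (cls α b))
    (hc : Mix n K₀ (cls α e) (cls α f) (cls α c)) (hd : Mix n K₀ (cls α e) (cls α f) (cls α d)) :
    I2 L K e f a b c d := by
  rcases Nat.eq_zero_or_pos K with h00 | hK
  · subst h00
    have h1 : ∀ x, SynEq L x [] := by
      intro x
      have h2 := hap x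
      rw [pw_succ, pw_zero, List.append_nil] at h2
      exact h2
    show SynEq L _ _
    exact (h1 _).trans (h1 _).symm
  obtain ⟨Qs, hQs, hJ⟩ := jump_two hL hap
  obtain ⟨δ, k, hδ, hE⟩ := exists_base n Qs hQs
  obtain ⟨K', hK'⟩ := hδ.ap
  have hm : ∀ g ∈ [a, b, c, d], ∃ x ∈ cls α f, ∃ x' ∈ cls α e, ∃ y ∈ cls α g,
      Eqv δ k x x' ∧ Dom δ k y x := by
    intro g hg
    simp only [List.mem_cons, List.not_mem_nil, or_false] at hg
    rcases hg with rfl | rfl | rfl | rfl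
    · exact of_mix hn h0 ha hδ k
    · exact of_mix hn h0 hb hδ k
    · exact of_mix hn h0 hc hδ k
    · exact of_mix hn h0 hd hδ k
  obtain ⟨E, F, a', b', c', d', q1, q2, q3, q4, q5, q6, w1, w2, w3, w4⟩ :=
    snd_words hδ.cg hK' k hα he hf hm
  have hee : α e * α e = α e := by rw [← hα.mul, he]
  have hff : α f * α f = α f := by rw [← hα.mul, hf]
  have key : I2 L K E F a' b' c' d' := by
    refine hJ E F a' b' c' d' (fun Q hQ => ⟨hE _ _ w1 Q hQ, hE _ _ w2 Q hQ, hE _ _ w3 Q hQ,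
      hE _ _ w4 Q hQ⟩) (hr _ _ ?_) (hr _ _ ?_)
    · rw [hα.mul, q1, hee]
    · rw [hα.mul, q2, hff]
  rw [hα.mul, hα.mul, hα.mul, hα.mul, q1, q2] at q3 q4 q5 q6
  have x1 : α (E ++ a' ++ F ++ b' ++ E) = α (e ++ a ++ f ++ b ++ e) := by
    simp only [hα.mul, q1, q2]
    exact snc_split hff q3 q4
  have x2 : α (E ++ c' ++ F ++ d' ++ E) = α (e ++ c ++ f ++ d ++ e) := by
    simp only [hα.mul, q1, q2]
    exact snc_split hff q5 q6
  have y1 : α (pw (E ++ a' ++ F ++ b' ++ E) K ++ pw (E ++ c' ++ F ++ d' ++ E) K) =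
      α (pw (e ++ a ++ f ++ b ++ e) K ++ pw (e ++ c ++ f ++ d ++ e) K) := by
    rw [hα.mul, hα.mul, hα.pw, hα.pw, hα.pw, hα.pw, x1, x2]
  have y2 : α (pw (E ++ a' ++ F ++ b' ++ E) K ++ (a' ++ F ++ d') ++
      pw (E ++ c' ++ F ++ d' ++ E) K) =
      α (pw (e ++ a ++ f ++ b ++ e) K ++ (a ++ f ++ d) ++ pw (e ++ c ++ f ++ d ++ e) K) := by
    rw [hα.mul3 (pw _ K) (a' ++ F ++ d'), hα.mul3 (pw _ K) (a ++ f ++ d), hα.pw, hα.pw, hα.pw,
      hα.pw, x1, x2]
    have z1 : α (e ++ a ++ f ++ b ++ e) = α (e ++ a ++ f ++ b) * α e := hα.mul _ _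
    have z2 : α (e ++ c ++ f ++ d ++ e) = α e * α (c ++ f ++ d ++ e) := by
      rw [← hα.mul]
      simp only [List.append_assoc]
    rw [snc_mid hee _ _ (α e * α a * α f * α d * α e) z1 z2 hK (z := α (a' ++ F ++ d')),
      snc_mid hee _ _ (α e * α a * α f * α d * α e) z1 z2 hK (z := α (a ++ f ++ d))]
    · simp only [hα.mul, mul_assoc]
    · simp only [hα.mul, q2]
      rw [← snc_split hff q3 q6]
      simp only [mul_assoc]
  exact ((hr _ _ y1).symm.trans key).trans (hr _ _ y2)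

end Pool.Agent.MSL
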