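import Pool.Agent.MSL.Cmc
import Pool.Agent.MSL.Snb
import Pool.Agent.MSL.Snc

/-!
# Project MSL: the criterion

Assembly.
-/

namespace Pool.Agent.MSL

open Pool.Agent.DD Pool.Agent.HLV

variable {A M : Type} [Monoid M] {α : List A → M}

theorem criterion [Finite A] [Nonempty A] {n : ℕ} (hn : 1 ≤ n) {K₀ : Lang (Fin 2)}
    (h0 : K₀ ∈ Half (B (Fin 2) n)) (h0' : K₀ᶜ ∉ Half (B (Fin 2) n)) [Finite M] (hα : IsHom α)
    {L : Lang A} (hr : ∀ x y, α x = α y → SynEq L x y) {K : ℕ} (hK : Nat.card M ≤ K) :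
    L ∈ B A (n + 2) ↔ Crit n K₀ α L K := by
  have hK1 : 1 ≤ K := le_trans (Nat.one_le_iff_ne_zero.2 (Nat.card_ne_zero.2 ⟨⟨1⟩, inferInstance⟩)) hK
  refine ⟨fun hL => ?_, fun h => mem_of_crit h0' hα hr hK1 h⟩
  have hap := snd_aper hL hα hr hK
  exact ⟨hap, fun e y z he hs => snd1 hL hα hr hap he hs,
    fun e f a b c d he hf ha hb hc hd => snd2 hn h0 hL hα hr hap he hf ha hb hc hd⟩

end Pool.Agent.MSL
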