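import Pool.Agent.MSL.Nde
import Pool.Agent.HSP.EPrT

/-!
# Project MSL: the machine is primitive recursive

`stepC` is primitive recursive (see the proofs in `Pool.Agent.HSP.EPrT`, `pr_dlN`): `Primrec.list_getD`, `Primrec.list_foldl`,
`Primrec.list_map`, `Primrec.ite`, `Primrec.and`, membership in a list of numbers (`Primrec` of `fun (l, a) => decide (a ∈ l)`: see `pr_FN`).
`bnd c = c.1.flatten.sum + 1`.
-/

namespace Pool.Agent.MSL

open Pool.Agent.DD Pool.Agent.HLV Pool.Agent.HSP

theorem pr_stepC : Primrec fun x : Code × (ℕ × ℕ) => stepC x.1 x.2.1 x.2.2 :=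
  (Primrec.list_getD 0).comp
    ((Primrec.list_getD []).comp (Primrec.fst.comp Primrec.fst) (Primrec.fst.comp Primrec.snd))
    (Primrec.snd.comp Primrec.snd)

private theorem mpr_mem : Primrec₂ fun (q : ℕ) (l : List ℕ) => decide (q ∈ l) := by
  have h : Primrec₂ fun (q : ℕ) (l : List ℕ) => decide (l.idxOf q < l.length) := by
    have h1 : PrimrecRel fun (q : ℕ) (l : List ℕ) => l.idxOf q < l.length :=
      Primrec.nat_lt.comp₂ (Primrec.list_idxOf.comp₂ Primrec₂.left Primrec₂.right)
        (Primrec.list_length.comp₂ Primrec₂.right)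
    exact h1.decide
  refine h.of_eq fun q l => ?_
  rw [decide_eq_decide]
  exact List.idxOf_lt_length_iff

private theorem mpr_sum (l : List ℕ) : l.sum = l.foldr (fun a b => a + b) 0 := by
  induction l with
  | nil => rfl
  | cons a l ih => rw [List.sum_cons, List.foldr_cons, ih]

theorem pr_bnd : Primrec bnd := by
  have h : Primrec fun c : Code => (c.1.flatten).foldr (fun a b => a + b) 0 + 1 := by
    have hh : Primrec₂ fun (_ : Code) (s : ℕ × ℕ) => s.1 + s.2 :=
      Primrec.nat_add.comp (Primrec.fst.comp Primrec.snd) (Primrec.snd.comp Primrec.snd)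
    have hf : Primrec fun c : Code => c.1.flatten := Primrec.list_flatten.comp Primrec.fst
    exact Primrec.succ.comp (Primrec.list_foldr hf (Primrec.const 0) hh)
  refine h.of_eq fun c => ?_
  rw [bnd, mpr_sum]

private theorem mpr_map {β : Type} [Primcodable β] {c : β → Code} {v : β → List ℕ} {a : β → ℕ}
    (hc : Primrec c) (hv : Primrec v) (ha : Primrec a) :
    Primrec fun x : β => (v x).map fun q => stepC (c x) q (a x) := by
  refine Primrec.list_map hv ?_
  exact pr_stepC.comp ((hc.comp Primrec.fst).pair (Primrec.snd.pair (ha.comp Primrec.fst)))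

private theorem mpr_ini {β : Type} [Primcodable β] {c : β → Code} (hc : Primrec c) :
    Primrec fun x : β => List.range (bnd (c x)) := Primrec.list_range.comp (pr_bnd.comp hc)

theorem pr_tr : Primrec fun x : Code × List ℕ => tr x.1 x.2 := by
  have h : Primrec₂ fun (x : Code × List ℕ) (s : List ℕ × ℕ) =>
      s.1.map fun q => stepC x.1 q s.2 :=
    mpr_map (β := (Code × List ℕ) × (List ℕ × ℕ)) (c := fun y => y.1.1) (v := fun y => y.2.1)
      (a := fun y => y.2.2)
      (Primrec.fst.comp Primrec.fst) (Primrec.fst.comp Primrec.snd) (Primrec.snd.comp Primrec.snd)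
  exact Primrec.list_foldl (Primrec.snd (α := Code) (β := List ℕ)) (mpr_ini Primrec.fst) h

theorem pr_mstep (m : ℕ) (V₀ : Code) :
    Primrec fun x : MP × (MS × ℕ) => mstep m V₀ x.1 x.2.1 x.2.2 := by
  have hc : Primrec fun x : MP × (MS × ℕ) => x.1.1 := Primrec.fst.comp Primrec.fst
  have he : Primrec fun x : MP × (MS × ℕ) => x.1.2.1 :=
    Primrec.fst.comp (Primrec.snd.comp Primrec.fst)
  have hg : Primrec fun x : MP × (MS × ℕ) => x.1.2.2 :=
    Primrec.snd.comp (Primrec.snd.comp Primrec.fst)
  have h1 : Primrec fun x : MP × (MS × ℕ) => x.2.1.1 :=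
    Primrec.fst.comp (Primrec.fst.comp Primrec.snd)
  have h2 : Primrec fun x : MP × (MS × ℕ) => x.2.1.2.1 :=
    Primrec.fst.comp (Primrec.snd.comp (Primrec.fst.comp Primrec.snd))
  have hv : Primrec fun x : MP × (MS × ℕ) => x.2.1.2.2.1 :=
    Primrec.fst.comp (Primrec.snd.comp (Primrec.snd.comp (Primrec.fst.comp Primrec.snd)))
  have hm : Primrec fun x : MP × (MS × ℕ) => x.2.1.2.2.2 :=
    Primrec.snd.comp (Primrec.snd.comp (Primrec.snd.comp (Primrec.fst.comp Primrec.snd)))
  have ha : Primrec fun x : MP × (MS × ℕ) => x.2.2 := Primrec.snd.comp Primrec.snd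
  have hr : Primrec fun x : MP × (MS × ℕ) => List.range (bnd x.1.1) := mpr_ini hc
  have hd : Primrec fun _ : MP × (MS × ℕ) => mdead := Primrec.const mdead
  have hle : PrimrecPred fun x : MP × (MS × ℕ) => x.2.1.2.1 ≤ 1 :=
    Primrec.nat_le.comp h2 (Primrec.const 1)
  have heq : PrimrecPred fun x : MP × (MS × ℕ) => x.2.1.2.1 = 2 :=
    Primrec.eq.comp h2 (Primrec.const 2)
  have hmem : PrimrecPred fun x : MP × (MS × ℕ) => x.2.1.2.2.2 ∈ V₀.2 :=
    Primrec.primrecPred (mpr_mem.comp hm (Primrec.const V₀.2))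
  have hte : PrimrecPred fun x : MP × (MS × ℕ) => x.2.1.2.2.1 = tr x.1.1 x.1.2.1 :=
    Primrec.eq.comp hv (pr_tr.comp (hc.pair he))
  have htg : PrimrecPred fun x : MP × (MS × ℕ) => x.2.1.2.2.1 = tr x.1.1 x.1.2.2 :=
    Primrec.eq.comp hv (pr_tr.comp (hc.pair hg))
  unfold mstep
  refine Primrec.ite (Primrec.nat_lt.comp ha (Primrec.const m)) ?_ ?_
  · refine Primrec.ite hle ?_ hd
    exact h1.pair ((Primrec.const 1).pair ((mpr_map hc hv ha).pair (Primrec.const 0)))
  · refine Primrec.ite (Primrec.nat_lt.comp ha (Primrec.const (m + 2))) ?_ ?_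
    · refine Primrec.ite heq ?_ hd
      exact h1.pair ((Primrec.const 2).pair (hv.pair (pr_stepC.comp ((Primrec.const V₀).pair
        (hm.pair (Primrec.nat_sub.comp ha (Primrec.const m)))))))
    · refine Primrec.ite (Primrec.eq.comp ha (Primrec.const (m + 2))) ?_ ?_
      · refine Primrec.ite hle ?_ hd
        exact h1.pair ((Primrec.const 2).pair (hv.pair (Primrec.const 0)))
      · refine Primrec.ite (heq.and (hmem.and hte)) ?_ ?_
        · refine Primrec.pair ?_ ((Primrec.const 0).pair (hr.pair (Primrec.const 0)))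
          exact Primrec.ite (Primrec.nat_le.comp h1 (Primrec.const 1)) (Primrec.const 1)
            (Primrec.const 3)
        · refine Primrec.ite (heq.and (hmem.not.and (htg.and
            (Primrec.eq.comp h1 (Primrec.const 1))))) ?_ hd
          exact (Primrec.const 2).pair ((Primrec.const 0).pair (hr.pair (Primrec.const 0)))

end Pool.Agent.MSL
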