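import Pool.Agent.MSL.Nde
import Pool.Agent.HSP.EPrT

/-!
# Project MSL: words are primitive recursive

Powers of words, the bound `kN`, the list `W` of the short words and acceptance `acN` are primitive recursive.
-/

namespace Pool.Agent.MSL

open Pool.Agent.DD Pool.Agent.HLV Pool.Agent.HSP

private theorem Prw_step : Primrec fun p : Code × (ℕ × ℕ) => stepC p.1 p.2.1 p.2.2 :=
  (Primrec.list_getD 0).comp
    ((Primrec.list_getD []).comp (Primrec.fst.comp Primrec.fst) (Primrec.fst.comp Primrec.snd))
    (Primrec.snd.comp Primrec.snd)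

private theorem Prw_mem : Primrec₂ fun (q : ℕ) (l : List ℕ) => decide (q ∈ l) := by
  have h : Primrec₂ fun (q : ℕ) (l : List ℕ) => decide (l.idxOf q < l.length) := by
    have h1 : PrimrecRel fun (q : ℕ) (l : List ℕ) => l.idxOf q < l.length :=
      Primrec.nat_lt.comp₂ (Primrec.list_idxOf.comp₂ Primrec₂.left Primrec₂.right)
        (Primrec.list_length.comp₂ Primrec₂.right)
    exact h1.decide
  refine h.of_eq fun q l => ?_
  rw [decide_eq_decide]
  exact List.idxOf_lt_length_iff

private theorem Prw_sum (l : List ℕ) : l.sum = l.foldr (fun a b => a + b) 0 := by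
  induction l with
  | nil => rfl
  | cons a l ih => rw [List.sum_cons, List.foldr_cons, ih]

private theorem Prw_bnd : Primrec bnd := by
  have h : Primrec fun c : Code => (c.1.flatten).foldr (fun a b => a + b) 0 + 1 := by
    have hh : Primrec₂ fun (_ : Code) (s : ℕ × ℕ) => s.1 + s.2 :=
      Primrec.nat_add.comp (Primrec.fst.comp Primrec.snd) (Primrec.snd.comp Primrec.snd)
    have hf : Primrec fun c : Code => c.1.flatten := Primrec.list_flatten.comp Primrec.fst
    exact Primrec.succ.comp (Primrec.list_foldr hf (Primrec.const 0) hh)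
  refine h.of_eq fun c => ?_
  rw [bnd, Prw_sum]

private theorem Prw_pow : Primrec₂ fun a b : ℕ => a ^ b := by
  have hm : Primrec₂ fun (a : ℕ) (p : ℕ × ℕ) => p.2 * a := by
    have h1 : Primrec fun q : ℕ × (ℕ × ℕ) => q.2.2 * q.1 :=
      Primrec.nat_mul.comp (Primrec.snd.comp Primrec.snd) Primrec.fst
    exact h1
  refine (Primrec.nat_rec (Primrec.const 1) hm).of_eq fun a b => ?_
  induction b with
  | zero => rfl
  | succ b ih => rw [pow_succ, ← ih]

private theorem Prw_wds (M : ℕ) : Primrec (wds M) := by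
  have h1 : Primrec₂ fun (_ : ℕ) (l : List (List ℕ)) =>
      l.flatMap fun w => (List.range M).map fun a => a :: w := by
    refine Primrec.list_flatMap Primrec.snd ?_
    refine Primrec.list_map (Primrec.const (List.range M)) ?_
    exact Primrec.list_cons.comp Primrec.snd (Primrec.snd.comp Primrec.fst)
  refine (Primrec.nat_rec₁ [[]] h1).of_eq fun i => ?_
  induction i with
  | zero => rfl
  | succ i ih => rw [wds, ← ih]

theorem pr_pw : Primrec fun x : List ℕ × ℕ => pw x.1 x.2 := by
  have hh : Primrec fun y : (List ℕ × ℕ) × (ℕ × List ℕ) => y.1.1 ++ y.2.2 :=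
    Primrec.list_append.comp (Primrec.fst.comp Primrec.fst) (Primrec.snd.comp Primrec.snd)
  have h := Primrec.nat_rec' (f := fun p : List ℕ × ℕ => p.2) (g := fun _ : List ℕ × ℕ => ([] : List ℕ))
    (h := fun (p : List ℕ × ℕ) (q : ℕ × List ℕ) => p.1 ++ q.2) Primrec.snd (Primrec.const _) hh
  refine h.of_eq fun p => ?_
  obtain ⟨x, n⟩ := p
  show (Nat.rec ([] : List ℕ) (fun _ l => x ++ l) n : List ℕ) = pw x n
  induction n with
  | zero => rfl
  | succ n ih => rw [pw_succ, ← ih]

theorem pr_kN : Primrec kN := Prw_pow.comp Prw_bnd Prw_bnd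

theorem pr_W (m : ℕ) : Primrec (W m) := by
  have h : Primrec fun c : Code => (List.range (kN c)).flatMap (wds m) := by
    refine Primrec.list_flatMap (Primrec.list_range.comp pr_kN) ?_
    exact (Prw_wds m).comp Primrec.snd
  exact h

theorem pr_acN : Primrec fun x : Code × List ℕ => acN x.1 x.2 := by
  have hh : Primrec₂ fun (p : Code × List ℕ) (s : ℕ × ℕ) => stepC p.1 s.1 s.2 :=
    Prw_step.comp ((Primrec.fst.comp Primrec.fst).pair Primrec.snd)
  have h1 : Primrec fun p : Code × List ℕ => p.2.foldl (fun q a => stepC p.1 q a) 0 :=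
    Primrec.list_foldl (f := fun p : Code × List ℕ => p.2) (g := fun _ => 0)
      Primrec.snd (Primrec.const 0) hh
  exact Prw_mem.comp h1 (Primrec.snd.comp Primrec.fst)

end Pool.Agent.MSL
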