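import Pool.Agent.MSL.Cpf
import Pool.Agent.MSL.Prw
import Pool.Agent.MSL.Mpr

/-!
# Project MSL: decidability: syntactic equivalence, first and simple conditions

`dec_synN`: `cp_forall` twice (`pr_W`, `Primrec.to_comp`), with the predicate `acN c (s ++ x ++ t) = acN c (s ++ y ++ t)` (computable:
`pr_acN`, `Primrec.list_append`, equality of Booleans).  `dec_ap`: `cp_forall` and `cp_comp` of `dec_synN` with the computable map
`(c, x) ↦ (c, (pw x (kN c + 1), pw x (kN c)))`.  `dec_idem`: `pr_tr`, equality of lists is decidable and primitive recursive (`Primrec.eq`).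
-/

namespace Pool.Agent.MSL

open Pool.Agent.DD Pool.Agent.HLV Pool.Agent.HSP

private theorem dea_eq {α β : Type} [Primcodable α] [Primcodable β] [DecidableEq β] {f g : α → β}
    (hf : Primrec f) (hg : Primrec g) : ComputablePred fun a => f a = g a := by
  obtain ⟨h, hp⟩ := Primrec.eq.comp hf hg
  exact ⟨h, hp.to_comp⟩

theorem dec_synN (m : ℕ) :
    ComputablePred fun x : Code × (List ℕ × List ℕ) => synN m x.1 x.2.1 x.2.2 := by
  have h1 : Primrec fun q : ((Code × (List ℕ × List ℕ)) × List ℕ) × List ℕ =>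
      acN q.1.1.1 (q.1.2 ++ q.1.1.2.1 ++ q.2) := by
    refine pr_acN.comp ((Primrec.fst.comp (Primrec.fst.comp Primrec.fst)).pair ?_)
    exact Primrec.list_append.comp
      (Primrec.list_append.comp (Primrec.snd.comp Primrec.fst)
        (Primrec.fst.comp (Primrec.snd.comp (Primrec.fst.comp Primrec.fst)))) Primrec.snd
  have h2 : Primrec fun q : ((Code × (List ℕ × List ℕ)) × List ℕ) × List ℕ =>
      acN q.1.1.1 (q.1.2 ++ q.1.1.2.2 ++ q.2) := by
    refine pr_acN.comp ((Primrec.fst.comp (Primrec.fst.comp Primrec.fst)).pair ?_)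
    exact Primrec.list_append.comp
      (Primrec.list_append.comp (Primrec.snd.comp Primrec.fst)
        (Primrec.snd.comp (Primrec.snd.comp (Primrec.fst.comp Primrec.fst)))) Primrec.snd
  have h3 := cp_forall (dea_eq h1 h2) (l := fun q : (Code × (List ℕ × List ℕ)) × List ℕ => W m q.1.1)
    ((pr_W m).comp (Primrec.fst.comp Primrec.fst)).to_comp
  exact cp_forall h3 (l := fun q : Code × (List ℕ × List ℕ) => W m q.1)
    ((pr_W m).comp Primrec.fst).to_comp

theorem dec_ap (m : ℕ) :
    ComputablePred fun c : Code => ∀ x ∈ W m c, synN m c (pw x (kN c + 1)) (pw x (kN c)) := by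
  have h1 : Primrec fun q : Code × List ℕ => (q.1, (pw q.2 (kN q.1 + 1), pw q.2 (kN q.1))) := by
    refine Primrec.fst.pair (Primrec.pair ?_ ?_)
    · exact pr_pw.comp (Primrec.snd.pair (Primrec.succ.comp (pr_kN.comp Primrec.fst)))
    · exact pr_pw.comp (Primrec.snd.pair (pr_kN.comp Primrec.fst))
  have h2 := cp_comp (dec_synN m) h1.to_comp
  exact cp_forall h2 (l := fun c : Code => W m c) (pr_W m).to_comp

theorem dec_idem : ComputablePred fun x : Code × List ℕ => tr x.1 (x.2 ++ x.2) = tr x.1 x.2 := by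
  have h1 : Primrec fun x : Code × List ℕ => tr x.1 (x.2 ++ x.2) :=
    pr_tr.comp (Primrec.fst.pair (Primrec.list_append.comp Primrec.snd Primrec.snd))
  have h2 : Primrec fun x : Code × List ℕ => tr x.1 x.2 := pr_tr
  exact dea_eq h1 h2

end Pool.Agent.MSL
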