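import Pool.Agent.MSL.Nde
import Pool.Agent.MSL.Mxd

/-!
# Project MSL: the machine, forward direction

`N x` = `(x.map (tg m)).map Fin.val`.  For `e = p.2.1`, `g = p.2.2`, `E = clN m p.1 e`, `G = clN m p.1 g`, `K₀ = langC 2 V₀`.
(1) From a state `(s, (0, (List.range (bnd p.1), 0)))`, reading `N (blk x b)`: after `x` the state is `(s, (ph, (tr p.1 (x.map Fin.val), 0)))`
with `ph ≤ 1` (induction on `x` from the right); after `#`: phase `2`, after the marks `(s, (2, (tr .., q)))`, `q = runC V₀ b`; at `$`: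
if `b ∈ K₀`, `x ∈ E`: stage `1` (if `s ≤ 1`) or `3`, phase `0`, vector `List.range ..`; if `b ∉ K₀`, `x ∈ G`, `s = 1`: stage `2`.
(2) So a nonempty sequence of blocks of `BX E K₀` leads from stage `0` or `1` to stage `1`, and from stage `2` or `3` to stage `3`.
-/

namespace Pool.Agent.MSL

open Pool.Agent.DD Pool.Agent.HLV Pool.Agent.HSP

private theorem mca_lt {m : ℕ} {V₀ : Code} {p : MP} (s : MS) (hs : s.2.1 ≤ 1) (a : Fin m) :
    mstep m V₀ p s ((tg m (Tg.lt a)).val) =
      (s.1, (1, (s.2.2.1.map (fun q => stepC p.1 q a.val), 0))) := by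
  have e : (tg m (Tg.lt a)).val = a.val := rfl
  unfold mstep
  rw [e, if_pos a.isLt, if_pos hs]

private theorem mca_mk {m : ℕ} {V₀ : Code} {p : MP} (s : MS) (hs : s.2.1 = 2) (i : Fin 2) :
    mstep m V₀ p s ((tg m (Tg.mk i)).val) = (s.1, (2, (s.2.2.1, stepC V₀ s.2.2.2 i.val))) := by
  have e : (tg m (Tg.mk i)).val = m + i.val := rfl
  have hi := i.isLt
  unfold mstep
  rw [e, if_neg (by omega), if_pos (by omega), if_pos hs, Nat.add_sub_cancel_left]

private theorem mca_hs {m : ℕ} {V₀ : Code} {p : MP} (s : MS) (hs : s.2.1 ≤ 1) :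
    mstep m V₀ p s ((tg m Tg.hs).val) = (s.1, (2, (s.2.2.1, 0))) := by
  have e : (tg m Tg.hs).val = m + 2 := rfl
  unfold mstep
  rw [e, if_neg (by omega), if_neg (by omega), if_pos rfl, if_pos hs]

private theorem mca_dl1 {m : ℕ} {V₀ : Code} {p : MP} (s : MS) (hs : s.2.1 = 2)
    (h1 : s.2.2.2 ∈ V₀.2) (h2 : s.2.2.1 = tr p.1 p.2.1) :
    mstep m V₀ p s ((tg m Tg.dl).val) =
      ((if s.1 ≤ 1 then 1 else 3), (0, (List.range (bnd p.1), 0))) := by
  have e : (tg m Tg.dl).val = m + 3 := rfl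
  unfold mstep
  rw [e, if_neg (by omega), if_neg (by omega), if_neg (by omega), if_pos ⟨hs, h1, h2⟩]

private theorem mca_dl2 {m : ℕ} {V₀ : Code} {p : MP} (s : MS) (hs : s.2.1 = 2)
    (h1 : s.2.2.2 ∉ V₀.2) (h2 : s.2.2.1 = tr p.1 p.2.2) (h3 : s.1 = 1) :
    mstep m V₀ p s ((tg m Tg.dl).val) = (2, (0, (List.range (bnd p.1), 0))) := by
  have e : (tg m Tg.dl).val = m + 3 := rfl
  unfold mstep
  rw [e, if_neg (by omega), if_neg (by omega), if_neg (by omega), if_neg (fun h => h1 h.2.1),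
    if_pos ⟨hs, h1, h2, h3⟩]

private theorem mca_word {m : ℕ} {V₀ : Code} {p : MP} (x : List (Fin m)) (s : MS)
    (hs : s.2.1 ≤ 1) : ∃ ph q, ph ≤ 1 ∧
      (((x.map Tg.lt).map (tg m)).map Fin.val).foldl (mstep m V₀ p) s =
        (s.1, (ph, ((x.map Fin.val).foldl (fun v a => v.map fun q => stepC p.1 q a) s.2.2.1, q))) := by
  induction x generalizing s with
  | nil => exact ⟨s.2.1, s.2.2.2, hs, rfl⟩
  | cons a x ih =>
      obtain ⟨ph, q, h1, h2⟩ := ih (s.1, (1, (s.2.2.1.map (fun q => stepC p.1 q a.val), 0)))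
        le_rfl
      refine ⟨ph, q, h1, ?_⟩
      rw [List.map_cons, List.map_cons, List.map_cons, List.foldl_cons, mca_lt s hs a, h2]
      rfl

private theorem mca_marks {m : ℕ} {V₀ : Code} {p : MP} (b : List (Fin 2)) (s : MS)
    (hs : s.2.1 = 2) :
      (((b.map Tg.mk).map (tg m)).map Fin.val).foldl (mstep m V₀ p) s =
        (s.1, (2, (s.2.2.1, b.foldl (fun (q : ℕ) (a : Fin 2) => stepC V₀ q a.val) s.2.2.2))) := by
  induction b generalizing s with
  | nil =>
      obtain ⟨s1, s2, s3, s4⟩ := s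
      have hs' : s2 = 2 := hs
      rw [hs']
      rfl
  | cons a x ih =>
      rw [List.map_cons, List.map_cons, List.map_cons, List.foldl_cons, mca_mk s hs a,
        ih _ rfl]
      rfl

private theorem mca_blk {m : ℕ} {V₀ : Code} {p : MP} (x : List (Fin m)) (b : List (Fin 2))
    (st : ℕ) :
      (((blk x b).map (tg m)).map Fin.val).foldl (mstep m V₀ p)
        (st, (0, (List.range (bnd p.1), 0))) =
      mstep m V₀ p (st, (2, (tr p.1 (x.map Fin.val), runC V₀ b))) ((tg m Tg.dl).val) := by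
  obtain ⟨ph, q, h1, h2⟩ := mca_word (V₀ := V₀) (p := p) x (st, (0, (List.range (bnd p.1), 0)))
    (Nat.zero_le 1)
  unfold blk
  rw [List.map_append, List.map_append, List.map_append, List.map_append, List.map_append,
    List.map_append, List.foldl_append, List.foldl_append, List.foldl_append, h2]
  have e1 : (([Tg.hs].map (tg m)).map Fin.val) = [(tg m Tg.hs).val] := rfl
  have e2 : (([Tg.dl].map (tg m)).map Fin.val) = [(tg m Tg.dl).val] := rfl
  rw [e1, e2, List.foldl_cons, List.foldl_nil, List.foldl_cons, List.foldl_nil, mca_hs _ h1,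
    mca_marks b _ rfl]
  rfl

private theorem mca_E {m : ℕ} {V₀ : Code} {p : MP} {w : List (Tg (Fin m))}
    (h : w ∈ BX (clN m p.1 p.2.1) (langC 2 V₀)) (st : ℕ) :
      ((w.map (tg m)).map Fin.val).foldl (mstep m V₀ p) (st, (0, (List.range (bnd p.1), 0))) =
      ((if st ≤ 1 then 1 else 3), (0, (List.range (bnd p.1), 0))) := by
  obtain ⟨x, hx, b, hb, rfl⟩ := h
  have h1 : runC V₀ b ∈ V₀.2 := hb
  have h2 : tr p.1 (x.map Fin.val) = tr p.1 p.2.1 := hx
  rw [mca_blk]
  exact mca_dl1 (st, (2, (tr p.1 (x.map Fin.val), runC V₀ b))) rfl h1 h2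

private theorem mca_G {m : ℕ} {V₀ : Code} {p : MP} {w : List (Tg (Fin m))}
    (h : w ∈ BX (clN m p.1 p.2.2) (langC 2 V₀)ᶜ) :
      ((w.map (tg m)).map Fin.val).foldl (mstep m V₀ p) (1, (0, (List.range (bnd p.1), 0))) =
      (2, (0, (List.range (bnd p.1), 0))) := by
  obtain ⟨x, hx, b, hb, rfl⟩ := h
  have h1 : runC V₀ b ∉ V₀.2 := hb
  have h2 : tr p.1 (x.map Fin.val) = tr p.1 p.2.2 := hx
  rw [mca_blk]
  exact mca_dl2 (1, (2, (tr p.1 (x.map Fin.val), runC V₀ b))) rfl h1 h2 rfl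

private theorem mca_plus {m : ℕ} {V₀ : Code} {p : MP} {w : List (Tg (Fin m))}
    (h : w ∈ plus (BX (clN m p.1 p.2.1) (langC 2 V₀))) (st : ℕ) :
      ((w.map (tg m)).map Fin.val).foldl (mstep m V₀ p) (st, (0, (List.range (bnd p.1), 0))) =
      ((if st ≤ 1 then 1 else 3), (0, (List.range (bnd p.1), 0))) := by
  obtain ⟨ws, hne, hws, rfl⟩ := h
  induction ws generalizing st with
  | nil => exact absurd rfl hne
  | cons u ws ih =>
      rw [List.flatten_cons, List.map_append, List.map_append, List.foldl_append,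
        mca_E (hws u List.mem_cons_self) st]
      by_cases hn : ws = []
      · rw [hn]
        rfl
      · rw [ih _ hn (fun x hx => hws x (List.mem_cons_of_mem _ hx))]
        by_cases h1 : st ≤ 1
        · rw [if_pos h1, if_pos le_rfl]
        · rw [if_neg h1, if_neg (by omega)]

theorem mrun_of_plus {m : ℕ} {V₀ : Code} {p : MP} {w : List (Tg (Fin m))}
    (h : w ∈ plus (BX (clN m p.1 p.2.1) (langC 2 V₀))) :
    macc 1 (mrun m V₀ p ((w.map (tg m)).map Fin.val)) = true := by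
  unfold mrun minit
  rw [mca_plus h 0]
  rfl

theorem mrun_of_ve {m : ℕ} {V₀ : Code} {p : MP} {w : List (Tg (Fin m))}
    (h : w ∈ Ve (clN m p.1 p.2.1) (clN m p.1 p.2.2) (langC 2 V₀)) :
    macc 3 (mrun m V₀ p ((w.map (tg m)).map Fin.val)) = true := by
  obtain ⟨x, hx, y, hy, z, hz, rfl⟩ := h
  unfold mrun minit
  rw [List.map_append, List.map_append, List.map_append, List.map_append, List.foldl_append,
    List.foldl_append, mca_plus hx 0, if_pos (Nat.zero_le 1), mca_G hy, mca_plus hz 2]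
  rfl

end Pool.Agent.MSL
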