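import Pool.Agent.MSL.Nde
import Pool.Agent.MSL.Mxd

/-!
# Project MSL: the machine, invariant

Induction on `w` from the right.  In phase `0`, `1` the word is `w' ++ x.map Tg.lt` with `w'` in the language of the
stage and the vector of `x`; in phase `2` it is `w' ++ x.map Tg.lt ++ [Tg.hs] ++ b.map Tg.mk`, with the vector of `x` and the
state of the automaton of the marks reached by `b`.  At `$` the block `blk x b` is complete.
-/

namespace Pool.Agent.MSL

open Pool.Agent.DD Pool.Agent.HLV Pool.Agent.HSP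

private def McbInv (m : ℕ) (V₀ : Code) (p : MP) (w : List (Tg (Fin m))) (s : MS) : Prop :=
  (s.2.1 ≤ 1 ∧ ∃ (w' : List (Tg (Fin m))) (x : List (Fin m)), w = w' ++ x.map Tg.lt ∧
    w' ∈ StL (clN m p.1 p.2.1) (clN m p.1 p.2.2) (langC 2 V₀) s.1 ∧
    s.2.2.1 = tr p.1 (x.map Fin.val) ∧ (s.2.1 = 0 → x = [])) ∨
  (s.2.1 = 2 ∧ ∃ (w' : List (Tg (Fin m))) (x : List (Fin m)) (b : List (Fin 2)),
    w = w' ++ x.map Tg.lt ++ [Tg.hs] ++ b.map Tg.mk ∧
    w' ∈ StL (clN m p.1 p.2.1) (clN m p.1 p.2.2) (langC 2 V₀) s.1 ∧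
    s.2.2.1 = tr p.1 (x.map Fin.val) ∧ s.2.2.2 = runC V₀ b) ∨
  s.2.1 = 3

private theorem Mcb_dead {m : ℕ} {V₀ : Code} {p : MP} (w : List (Tg (Fin m))) :
    McbInv m V₀ p w mdead := Or.inr (Or.inr rfl)

private theorem Mcb_plus {A : Type} {X : Lang A} {w v : List A} (h : w ∈ plus X) (hv : v ∈ X) :
    w ++ v ∈ plus X := by
  obtain ⟨ws, h1, h2, rfl⟩ := h
  refine ⟨ws ++ [v], by simp, ?_, by simp⟩
  intro x hx
  rcases List.mem_append.1 hx with hx | hx
  · exact h2 x hx
  · rw [List.mem_singleton.1 hx]; exact hv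

private theorem Mcb_one {A : Type} {X : Lang A} {v : List A} (hv : v ∈ X) : v ∈ plus X := by
  refine ⟨[v], by simp, ?_, by simp⟩
  intro x hx
  rw [List.mem_singleton.1 hx]; exact hv

private theorem Mcb_next {A : Type} {E G : Lang A} {K₀ : Lang (Fin 2)} (st : ℕ)
    {w v : List (Tg A)} (h : w ∈ StL E G K₀ st) (hv : v ∈ BX E K₀) :
    w ++ v ∈ StL E G K₀ (if st ≤ 1 then 1 else 3) := by
  match st, h with
  | 0, h =>
      have h1 : w = [] := h
      rw [h1]
      exact Mcb_one hv
  | 1, h => exact Mcb_plus h hv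
  | 2, h =>
      obtain ⟨x, hx, y, hy, rfl⟩ := h
      exact ⟨x, hx, y, hy, v, Mcb_one hv, rfl⟩
  | (n + 3), h =>
      rw [if_neg (by omega)]
      obtain ⟨x, hx, y, hy, z, hz, rfl⟩ := h
      exact ⟨x, hx, y, hy, z ++ v, Mcb_plus hz hv, by simp only [List.append_assoc]⟩

private theorem Mcb_blk {A : Type} (w : List (Tg A)) (x : List A) (b : List (Fin 2)) :
    w ++ x.map Tg.lt ++ [Tg.hs] ++ b.map Tg.mk ++ [Tg.dl] = w ++ blk x b := by
  unfold blk
  simp only [List.append_assoc]

private theorem Mcb_step {m : ℕ} {V₀ : Code} {p : MP} {w : List (Tg (Fin m))} {s : MS}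
    (h : McbInv m V₀ p w s) (a : Tg (Fin m)) :
    McbInv m V₀ p (w ++ [a]) (mstep m V₀ p s (tg m a).val) := by
  cases a with
  | lt a =>
      have e : (tg m (Tg.lt a)).val = a.val := rfl
      unfold mstep
      rw [e, if_pos a.isLt]
      by_cases hs : s.2.1 ≤ 1
      · rw [if_pos hs]
        rcases h with ⟨-, w', x, h1, h2, h3, -⟩ | ⟨h0, -⟩ | h0
        · refine Or.inl ⟨le_rfl, w', x ++ [a], ?_, h2, ?_, fun h => absurd h (by simp)⟩
          · rw [h1, List.map_append, List.append_assoc]
            rfl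
          · rw [List.map_append]
            show s.2.2.1.map (fun q => stepC p.1 q a.val) = tr p.1 (x.map Fin.val ++ [a.val])
            unfold tr
            rw [List.foldl_append, h3]
            rfl
        · omega
        · omega
      · rw [if_neg hs]
        exact Mcb_dead _
  | mk i =>
      have e : (tg m (Tg.mk i)).val = m + i.val := rfl
      have hi := i.isLt
      unfold mstep
      rw [e, if_neg (by omega), if_pos (by omega)]
      by_cases hs : s.2.1 = 2
      · rw [if_pos hs, Nat.add_sub_cancel_left]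
        rcases h with ⟨h0, -⟩ | ⟨-, w', x, b, h1, h2, h3, h4⟩ | h0
        · omega
        · refine Or.inr (Or.inl ⟨rfl, w', x, b ++ [i], ?_, h2, h3, ?_⟩)
          · rw [h1, List.map_append]
            simp only [List.append_assoc]
            rfl
          · show stepC V₀ s.2.2.2 i.val = runC V₀ (b ++ [i])
            unfold runC
            rw [List.foldl_append, h4]
            rfl
        · omega
      · rw [if_neg hs]
        exact Mcb_dead _
  | hs =>
      have e : (tg m Tg.hs).val = m + 2 := rfl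
      unfold mstep
      rw [e, if_neg (by omega), if_neg (by omega), if_pos rfl]
      by_cases hs : s.2.1 ≤ 1
      · rw [if_pos hs]
        rcases h with ⟨-, w', x, h1, h2, h3, -⟩ | ⟨h0, -⟩ | h0
        · refine Or.inr (Or.inl ⟨rfl, w', x, [], ?_, h2, h3, rfl⟩)
          rw [h1, List.map_nil, List.append_nil]
        · omega
        · omega
      · rw [if_neg hs]
        exact Mcb_dead _
  | dl =>
      have e : (tg m Tg.dl).val = m + 3 := rfl
      unfold mstep
      rw [e, if_neg (by omega), if_neg (by omega), if_neg (by omega)]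
      by_cases h1 : s.2.1 = 2 ∧ s.2.2.2 ∈ V₀.2 ∧ s.2.2.1 = tr p.1 p.2.1
      · rw [if_pos h1]
        obtain ⟨k1, k2, k3⟩ := h1
        rcases h with ⟨h0, -⟩ | ⟨-, w', x, b, h1, h2, h3, h4⟩ | h0
        · omega
        · have hv : blk x b ∈ BX (clN m p.1 p.2.1) (langC 2 V₀) := by
            refine ⟨x, ?_, b, ?_, rfl⟩
            · show tr p.1 (x.map Fin.val) = tr p.1 p.2.1
              rw [← h3, k3]
            · show runC V₀ b ∈ V₀.2
              rw [← h4]; exact k2
          refine Or.inl ⟨Nat.zero_le 1, w' ++ blk x b, [], ?_, Mcb_next s.1 h2 hv, rfl,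
            fun _ => rfl⟩
          rw [h1, Mcb_blk, List.map_nil, List.append_nil]
        · omega
      · rw [if_neg h1]
        by_cases h2 : s.2.1 = 2 ∧ s.2.2.2 ∉ V₀.2 ∧ s.2.2.1 = tr p.1 p.2.2 ∧ s.1 = 1
        · rw [if_pos h2]
          obtain ⟨k1, k2, k3, k4⟩ := h2
          rcases h with ⟨h0, -⟩ | ⟨-, w', x, b, h1, h2, h3, h4⟩ | h0
          · omega
          · rw [k4] at h2
            refine Or.inl ⟨Nat.zero_le 1, w' ++ blk x b, [], ?_, ?_, rfl, fun _ => rfl⟩
            · rw [h1, Mcb_blk, List.map_nil, List.append_nil]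
            · refine ⟨w', h2, blk x b, ⟨x, ?_, b, ?_, rfl⟩, rfl⟩
              · show tr p.1 (x.map Fin.val) = tr p.1 p.2.2
                rw [← h3, k3]
              · show ¬ runC V₀ b ∈ V₀.2
                rw [← h4]; exact k2
          · omega
        · rw [if_neg h2]
          exact Mcb_dead _

theorem mrun_inv {m : ℕ} {V₀ : Code} {p : MP} {w : List (Tg (Fin m))} {t : ℕ}
    (h : macc t (mrun m V₀ p ((w.map (tg m)).map Fin.val)) = true) :
    w ∈ StL (clN m p.1 p.2.1) (clN m p.1 p.2.2) (langC 2 V₀) t := by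
  have key : McbInv m V₀ p w (mrun m V₀ p ((w.map (tg m)).map Fin.val)) := by
    clear h
    induction w using List.reverseRecOn with
    | nil =>
        refine Or.inl ⟨Nat.zero_le 1, [], [], rfl, ?_, rfl, fun _ => rfl⟩
        show ([] : List (Tg (Fin m))) ∈ ({[]} : Lang (Tg (Fin m)))
        rfl
    | append_singleton w a ih =>
        have e : mrun m V₀ p (((w ++ [a]).map (tg m)).map Fin.val) =
            mstep m V₀ p (mrun m V₀ p ((w.map (tg m)).map Fin.val)) (tg m a).val := by
          unfold mrun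
          rw [List.map_append, List.map_append, List.foldl_append]
          rfl
        rw [e]
        exact Mcb_step ih a
  have h1 := of_decide_eq_true h
  rcases key with ⟨-, w', x, k1, k2, -, k4⟩ | ⟨h0, -⟩ | h0
  · rw [k1, k4 h1.2, List.map_nil, List.append_nil, ← h1.1]
    exact k2
  · have := h1.2; omega
  · have := h1.2; omega

end Pool.Agent.MSL
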