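import Pool.Agent.MSL.Nde

/-!
# Project MSL: the machine has finitely many reachable states

All reachable states of the machine are triples of bounded numbers and bounded lists of bounded numbers. The same for the vectors.
-/

namespace Pool.Agent.MSL

open Pool.Agent.DD Pool.Agent.HLV Pool.Agent.HSP

private theorem Mfi_lists (n b : ℕ) : Set.Finite {v : List ℕ | v.length ≤ n ∧ ∀ q ∈ v, q < b} := by
  refine ((List.finite_length_le (Fin b) n).image (List.map Fin.val)).subset ?_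
  rintro v ⟨h1, h2⟩
  refine ⟨v.pmap (fun q h => (⟨q, h⟩ : Fin b)) h2, ?_, ?_⟩
  · show List.length _ ≤ n
    rw [List.length_pmap]
    exact h1
  · rw [List.map_pmap]
    simp

private theorem Mfi_map (c : Code) (a n : ℕ) (v : List ℕ) (h : v.length ≤ n ∧ ∀ q ∈ v, q < bnd c) :
    (v.map fun q => stepC c q a).length ≤ n ∧ ∀ q ∈ v.map fun q => stepC c q a, q < bnd c := by
  refine ⟨by rw [List.length_map]; exact h.1, ?_⟩
  intro q hq
  obtain ⟨r, _, hr⟩ := List.mem_map.1 hq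
  rw [← hr]
  exact stepC_lt c r a

private theorem Mfi_range (c : Code) : (List.range (bnd c)).length ≤ bnd c ∧ ∀ q ∈ List.range (bnd c), q < bnd c :=
  ⟨by rw [List.length_range], fun _ hq => List.mem_range.1 hq⟩

private def Mfi_P (V₀ : Code) (p : MP) (x : MS) : Prop :=
  x.1 ≤ 3 ∧ x.2.1 ≤ 3 ∧ (x.2.2.1.length ≤ bnd p.1 ∧ ∀ q ∈ x.2.2.1, q < bnd p.1) ∧ x.2.2.2 < bnd V₀

private theorem Mfi_dead (V₀ : Code) (p : MP) : Mfi_P V₀ p mdead :=
  ⟨by decide, by decide, ⟨Nat.zero_le _, fun q hq => absurd hq (by simp [mdead])⟩, bnd_pos V₀⟩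

private theorem Mfi_step (m : ℕ) (V₀ : Code) (p : MP) (x : MS) (a : ℕ) (h : Mfi_P V₀ p x) :
    Mfi_P V₀ p (mstep m V₀ p x a) := by
  obtain ⟨h1, h2, h3, h4⟩ := h
  unfold mstep
  split_ifs
  · exact ⟨h1, by simp, Mfi_map p.1 a _ _ h3, bnd_pos V₀⟩
  · exact Mfi_dead V₀ p
  · exact ⟨h1, by simp, h3, stepC_lt V₀ _ _⟩
  · exact Mfi_dead V₀ p
  · exact ⟨h1, by simp, h3, bnd_pos V₀⟩
  · exact Mfi_dead V₀ p
  · exact ⟨by simp, by simp, Mfi_range p.1, bnd_pos V₀⟩
  · exact ⟨by simp, by simp, Mfi_range p.1, bnd_pos V₀⟩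
  · exact ⟨by simp, by simp, Mfi_range p.1, bnd_pos V₀⟩
  · exact Mfi_dead V₀ p

private theorem Mfi_run (m : ℕ) (V₀ : Code) (p : MP) (w : List ℕ) (x : MS) (h : Mfi_P V₀ p x) :
    Mfi_P V₀ p (w.foldl (mstep m V₀ p) x) := by
  induction w generalizing x with
  | nil => exact h
  | cons a w ih => exact ih _ (Mfi_step m V₀ p x a h)

theorem fin_mrun (m : ℕ) (V₀ : Code) (p : MP) :
    Set.Finite {x | ∃ w : List ℕ, x = w.foldl (mstep m V₀ p) (minit p)} := by
  refine ((Set.finite_Iic 3).prod ((Set.finite_Iic 3).prod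
    ((Mfi_lists (bnd p.1) (bnd p.1)).prod (Set.finite_Iio (bnd V₀))))).subset ?_
  rintro x ⟨w, rfl⟩
  obtain ⟨h1, h2, h3, h4⟩ := Mfi_run m V₀ p w (minit p)
    ⟨by simp [minit], by simp [minit], Mfi_range p.1, bnd_pos V₀⟩
  exact ⟨h1, h2, h3, h4⟩

theorem fin_vec (c : Code) :
    Set.Finite {x | ∃ w : List ℕ, x = w.foldl (fun v a => v.map fun q => stepC c q a)
      (List.range (bnd c))} := by
  refine (Mfi_lists (bnd c) (bnd c)).subset ?_
  rintro x ⟨w, rfl⟩
  have h : ∀ (w v : List ℕ), (v.length ≤ bnd c ∧ ∀ q ∈ v, q < bnd c) →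
      ((w.foldl (fun v a => v.map fun q => stepC c q a) v).length ≤ bnd c ∧
        ∀ q ∈ w.foldl (fun v a => v.map fun q => stepC c q a) v, q < bnd c) := by
    intro w
    induction w with
    | nil => exact fun v hv => hv
    | cons a w ih => exact fun v hv => ih _ (Mfi_map c a _ v hv)
  exact h w _ (Mfi_range c)

end Pool.Agent.MSL
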