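import Pool.Agent.MSL.Nde
import Pool.Agent.HLV.Inv

/-!
# Project MSL: transport of separability from `Tg (Fin m)` to `Fin (m + 4)`

`tg m` is a bijection.  For `S ∈ B (Tg (Fin m)) i` the language `{w | w.map g ∈ S}`, `g` the inverse, is in
`B (Fin (m+4)) i` (`HLV.iq_B`), and conversely `{x | x.map (tg m) ∈ S}`.
-/

namespace Pool.Agent.MSL

open Pool.Agent.DD Pool.Agent.HLV Pool.Agent.HSP

theorem tg_bij (m : ℕ) : Function.Bijective (tg m) := by
  constructor
  · intro a b h
    rcases a with a | i | _ | _ <;> rcases b with b | j | _ | _ <;>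
      simp only [tg, Fin.mk.injEq] at h
    · rw [Fin.ext h]
    · have := a.isLt; omega
    · have := a.isLt; omega
    · have := a.isLt; omega
    · have := b.isLt; omega
    · have h' : i.val = j.val := by omega
      rw [Fin.ext h']
    · have := i.isLt; omega
    · have := i.isLt; omega
    · have := b.isLt; omega
    · have := j.isLt; omega
    · rfl
    · omega
    · have := b.isLt; omega
    · have := j.isLt; omega
    · omega
    · rfl
  · intro c
    by_cases h1 : c.val < m
    · exact ⟨.lt ⟨c.val, h1⟩, Fin.ext rfl⟩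
    · by_cases h2 : c.val < m + 2
      · refine ⟨.mk ⟨c.val - m, by omega⟩, Fin.ext ?_⟩
        change m + (c.val - m) = c.val
        omega
      · by_cases h3 : c.val = m + 2
        · exact ⟨.hs, Fin.ext h3.symm⟩
        · refine ⟨.dl, Fin.ext ?_⟩
          change m + 3 = c.val
          have := c.isLt
          omega

private theorem Tgt_ext {A' A : Type} (g : A' → A) (w : List A') : ext (fun a => [g a]) w = w.map g := by
  unfold ext
  induction w with
  | nil => rfl
  | cons a w ih =>
    rw [List.map_cons, List.flatten_cons, ih, List.map_cons]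
    rfl

private theorem Tgt_map {A' A : Type} [Finite A'] (g : A' → A) {i : ℕ} {S : Lang A} (hS : S ∈ B A i) :
    {w : List A' | w.map g ∈ S} ∈ B A' i := by
  have h := iq_B (ψ := fun a => [g a]) (fun a => List.cons_ne_nil _ _) hS [] []
  have e : iq (fun a => [g a]) [] [] S = {w : List A' | w.map g ∈ S} := by
    ext w
    change [] ++ ext (fun a => [g a]) w ++ [] ∈ S ↔ w.map g ∈ S
    rw [Tgt_ext, List.nil_append, List.append_nil]
  rwa [e] at h

private theorem Tgt_fin (m : ℕ) : Finite (Tg (Fin m)) := Finite.of_injective _ (tg_bij m).1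

theorem sep_tg (m i : ℕ) (X Y : Lang (Tg (Fin m))) :
    Separable (B (Tg (Fin m)) i) X Y ↔ Separable (B (Fin (m + 4)) i)
      {w | ∃ x ∈ X, w = x.map (tg m)} {w | ∃ y ∈ Y, w = y.map (tg m)} := by
  have := Tgt_fin m
  constructor
  · rintro ⟨S, hS, hX, hY⟩
    obtain ⟨g, hg, hg'⟩ := Function.bijective_iff_has_inverse.1 (tg_bij m)
    have hm : ∀ x : List (Tg (Fin m)), (x.map (tg m)).map g = x := by
      intro x
      rw [List.map_map, hg.comp_eq_id, List.map_id]
    refine ⟨{w | w.map g ∈ S}, Tgt_map g hS, ?_, ?_⟩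
    · rintro w ⟨x, hx, rfl⟩
      change (x.map (tg m)).map g ∈ S
      rw [hm]
      exact hX hx
    · rintro w hw ⟨y, hy, rfl⟩
      change (y.map (tg m)).map g ∈ S at hw
      rw [hm] at hw
      exact hY y hw hy
  · rintro ⟨S, hS, hX, hY⟩
    refine ⟨{x | x.map (tg m) ∈ S}, Tgt_map (tg m) hS, ?_, ?_⟩
    · intro x hx
      exact hX ⟨x, hx, rfl⟩
    · intro x hx hx'
      exact hY _ hx ⟨x, hx', rfl⟩

end Pool.Agent.MSL
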