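import Pool.Agent.MSL.Mpr
import Pool.Agent.MSL.Mfi
import Pool.Agent.MSL.Mca
import Pool.Agent.MSL.Mcb
import Pool.Agent.MSL.Tgt
import Pool.Agent.HSP.Gen

/-!
# Project MSL: codes for the languages of the criterion

`exists_ccode` and `exists_mcode` are instances of `HSP.gen` (the vectors of states, the machine `mstep`).
`exists_pcode` and `exists_vcode` are `exists_mcode` for the stages `1` and `3`, with `mrun_of_plus`, `mrun_of_ve`,
`mrun_inv`.
-/

namespace Pool.Agent.MSL

open Pool.Agent.DD Pool.Agent.HLV Pool.Agent.HSP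

private theorem Mcd_init : Primrec fun p : Code × List ℕ => List.range (bnd p.1) :=
  Primrec.list_range.comp (pr_bnd.comp Primrec.fst)

private theorem Mcd_st : Primrec fun x : (Code × List ℕ) × (List ℕ × ℕ) =>
    x.2.1.map fun q => stepC x.1.1 q x.2.2 := by
  refine Primrec.list_map (f := fun x : (Code × List ℕ) × (List ℕ × ℕ) => x.2.1)
    (g := fun x q => stepC x.1.1 q x.2.2) (Primrec.fst.comp Primrec.snd) ?_
  have h : Primrec fun y : ((Code × List ℕ) × (List ℕ × ℕ)) × ℕ =>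
      stepC y.1.1.1 y.2 y.1.2.2 :=
    pr_stepC.comp ((Primrec.fst.comp (Primrec.fst.comp Primrec.fst)).pair
      (Primrec.snd.pair (Primrec.snd.comp (Primrec.snd.comp Primrec.fst))))
  exact h

private theorem Mcd_acc : Primrec fun x : (Code × List ℕ) × List ℕ =>
    decide (x.2 = tr x.1.1 x.1.2) := by
  have h : PrimrecPred fun x : (Code × List ℕ) × List ℕ => x.2 = tr x.1.1 x.1.2 :=
    Primrec.eq.comp Primrec.snd (pr_tr.comp Primrec.fst)
  exact h.decide

theorem exists_ccode (m : ℕ) : ∃ f : Code × List ℕ → Code, Computable f ∧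
    ∀ p, langC m (f p) = clN m p.1 p.2 := by
  obtain ⟨f, hf1, hf2⟩ := gen (C := Code × List ℕ) (σ := List ℕ) (fun _ => m)
    (fun p => List.range (bnd p.1)) (fun p v a => v.map fun q => stepC p.1 q a)
    (fun p v => decide (v = tr p.1 p.2)) (Primrec.const m) Mcd_init Mcd_st Mcd_acc
    (fun p => fin_vec p.1)
  refine ⟨f, hf1, fun p => ?_⟩
  ext w
  rw [hf2 p w, decide_eq_true_iff]
  rfl

private theorem Mcd_macc (t : ℕ) : Primrec fun x : MP × MS => macc t x.2 := by
  have h1 : PrimrecPred fun x : MP × MS => x.2.1 = t :=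
    Primrec.eq.comp (Primrec.fst.comp Primrec.snd) (Primrec.const t)
  have h2 : PrimrecPred fun x : MP × MS => x.2.2.1 = 0 :=
    Primrec.eq.comp (Primrec.fst.comp (Primrec.snd.comp Primrec.snd)) (Primrec.const 0)
  have h3 : Primrec fun x : MP × MS => decide (x.2.1 = t) && decide (x.2.2.1 = 0) :=
    Primrec.and.comp h1.decide h2.decide
  refine h3.of_eq fun x => ?_
  unfold macc
  rw [Bool.decide_and]

private theorem Mcd_minit : Primrec minit := by
  have h : Primrec fun p : MP => ((0, (0, (List.range (bnd p.1), 0))) : MS) :=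
    (Primrec.const 0).pair ((Primrec.const 0).pair
      ((Primrec.list_range.comp (pr_bnd.comp Primrec.fst)).pair (Primrec.const 0)))
  exact h

theorem exists_mcode (m : ℕ) (V₀ : Code) (t : ℕ) : ∃ f : MP → Code, Computable f ∧
    ∀ p (w : List (Fin (m + 4))), w ∈ langC (m + 4) (f p) ↔
      macc t (mrun m V₀ p (w.map Fin.val)) = true := by
  obtain ⟨f, hf1, hf2⟩ := gen (C := MP) (σ := MS) (fun _ => m + 4) minit
    (fun p s a => mstep m V₀ p s a) (fun _ s => macc t s) (Primrec.const (m + 4)) Mcd_minit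
    (pr_mstep m V₀) (Mcd_macc t) (fun p => fin_mrun m V₀ p)
  exact ⟨f, hf1, fun p w => hf2 p w⟩

private theorem Mcd_lift (m : ℕ) (w : List (Fin (m + 4))) : ∃ x : List (Tg (Fin m)), w = x.map (tg m) := by
  induction w with
  | nil => exact ⟨[], rfl⟩
  | cons a w ih =>
      obtain ⟨x, hx⟩ := ih
      obtain ⟨b, hb⟩ := (tg_bij m).2 a
      exact ⟨b :: x, by rw [List.map_cons, hb, ← hx]⟩

theorem exists_pcode (m : ℕ) (V₀ : Code) : ∃ f : Code × List ℕ → Code, Computable f ∧
    ∀ p, langC (m + 4) (f p) =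
      {w | ∃ x ∈ plus (BX (clN m p.1 p.2) (langC 2 V₀)), w = x.map (tg m)} := by
  obtain ⟨f, hf1, hf2⟩ := exists_mcode m V₀ 1
  have h : Primrec fun p : Code × List ℕ => ((p.1, (p.2, p.2)) : MP) :=
    Primrec.fst.pair (Primrec.snd.pair Primrec.snd)
  refine ⟨fun p => f (p.1, (p.2, p.2)), hf1.comp h.to_comp, fun p => ?_⟩
  ext w
  rw [hf2]
  constructor
  · intro h1
    obtain ⟨x, rfl⟩ := Mcd_lift m w
    exact ⟨x, mrun_inv h1, rfl⟩
  · rintro ⟨x, hx, rfl⟩
    exact mrun_of_plus (p := (p.1, (p.2, p.2))) hx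

theorem exists_vcode (m : ℕ) (V₀ : Code) : ∃ f : MP → Code, Computable f ∧
    ∀ p, langC (m + 4) (f p) =
      {w | ∃ x ∈ Ve (clN m p.1 p.2.1) (clN m p.1 p.2.2) (langC 2 V₀), w = x.map (tg m)} := by
  obtain ⟨f, hf1, hf2⟩ := exists_mcode m V₀ 3
  refine ⟨f, hf1, fun p => ?_⟩
  ext w
  rw [hf2]
  constructor
  · intro h1
    obtain ⟨x, rfl⟩ := Mcd_lift m w
    exact ⟨x, mrun_inv h1, rfl⟩
  · rintro ⟨x, hx, rfl⟩
    exact mrun_of_ve hx

end Pool.Agent.MSL
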