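import Pool.Agent.MSL.Dea
import Pool.Agent.MSL.Mcd

/-!
# Project MSL: decidability: the conditions on pairs

`dec_sep`: composition of `DecSepB` with the codes of `exists_ccode`.  `dec_mix`: `Mix` is `¬ Separable`, with `sep_tg` and the
codes of `exists_pcode`, `exists_vcode`.  `dec_c1`: three bounded quantifiers (`cp_forall`) over tuples `(((c, e), y), z)`.
-/

namespace Pool.Agent.MSL

open Pool.Agent.DD Pool.Agent.HLV Pool.Agent.HSP

theorem dec_sep (m n : ℕ) (h : DecSepB m (n + 1)) :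
    ComputablePred fun x : Code × (List ℕ × List ℕ) =>
      ¬ Separable (B (Fin m) (n + 1)) (clN m x.1 x.2.1) (clN m x.1 x.2.2) := by
  obtain ⟨f, hf, hfl⟩ := exists_ccode m
  have h1 : Computable fun x : Code × (List ℕ × List ℕ) =>
      ((f (x.1, x.2.1), f (x.1, x.2.2)) : Code × Code) :=
    (hf.comp (Computable.fst.pair (Computable.fst.comp Computable.snd))).pair
      (hf.comp (Computable.fst.pair (Computable.snd.comp Computable.snd)))
  refine (cp_not (cp_comp h h1)).of_eq fun x => ?_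
  rw [hfl, hfl]

theorem dec_mix (m n : ℕ) (V₀ : Code) (h : DecSepB (m + 4) (n + 1)) :
    ComputablePred fun x : Code × (List ℕ × (List ℕ × List ℕ)) =>
      Mix n (langC 2 V₀) (clN m x.1 x.2.1) (clN m x.1 x.2.2.1) (clN m x.1 x.2.2.2) := by
  obtain ⟨fp, hp, hpl⟩ := exists_pcode m V₀
  obtain ⟨fv, hv, hvl⟩ := exists_vcode m V₀
  have h1 : Computable fun x : Code × (List ℕ × (List ℕ × List ℕ)) => (x.1, x.2.2.1) :=
    Computable.fst.pair (Computable.fst.comp (Computable.snd.comp Computable.snd))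
  have h2 : Computable fun x : Code × (List ℕ × (List ℕ × List ℕ)) => ((x.1, (x.2.1, x.2.2.2)) : MP) :=
    Computable.fst.pair ((Computable.fst.comp Computable.snd).pair
      (Computable.snd.comp (Computable.snd.comp Computable.snd)))
  refine (cp_not (cp_comp h ((hp.comp h1).pair (hv.comp h2)))).of_eq fun x => ?_
  rw [hpl, hvl]
  unfold Mix
  rw [sep_tg]

private theorem deb_pw {f : (((Code × List ℕ) × List ℕ) × List ℕ) → List ℕ} (hf : Primrec f) :
    Primrec fun q => pw (f q) (kN q.1.1.1) :=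
  pr_pw.comp (hf.pair (pr_kN.comp (Primrec.fst.comp (Primrec.fst.comp Primrec.fst))))

theorem dec_c1 (m n : ℕ) (h : DecSepB m (n + 1)) :
    ComputablePred fun c : Code => ∀ e ∈ W m c, ∀ y ∈ W m c, ∀ z ∈ W m c,
      tr c (e ++ e) = tr c e →
      ¬ Separable (B (Fin m) (n + 1)) (clN m c e) (clN m c y) →
      synN m c (pw (z ++ e ++ y ++ e) (kN c) ++ (z ++ e) ++ pw (z ++ e ++ y ++ e) (kN c))
        (pw (z ++ e ++ y ++ e) (kN c)) := by
  have pc : Primrec fun q : ((Code × List ℕ) × List ℕ) × List ℕ => q.1.1.1 :=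
    Primrec.fst.comp (Primrec.fst.comp Primrec.fst)
  have pe : Primrec fun q : ((Code × List ℕ) × List ℕ) × List ℕ => q.1.1.2 :=
    Primrec.snd.comp (Primrec.fst.comp Primrec.fst)
  have py : Primrec fun q : ((Code × List ℕ) × List ℕ) × List ℕ => q.1.2 :=
    Primrec.snd.comp Primrec.fst
  have pz : Primrec fun q : ((Code × List ℕ) × List ℕ) × List ℕ => q.2 := Primrec.snd
  have pze : Primrec fun q : ((Code × List ℕ) × List ℕ) × List ℕ => q.2 ++ q.1.1.2 :=
    Primrec.list_append.comp pz pe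
  have pw0 : Primrec fun q : ((Code × List ℕ) × List ℕ) × List ℕ => q.2 ++ q.1.1.2 ++ q.1.2 ++ q.1.1.2 :=
    Primrec.list_append.comp (Primrec.list_append.comp pze py) pe
  have pw1 := deb_pw pw0
  have pw2 : Primrec fun q : ((Code × List ℕ) × List ℕ) × List ℕ =>
      pw (q.2 ++ q.1.1.2 ++ q.1.2 ++ q.1.1.2) (kN q.1.1.1) ++ (q.2 ++ q.1.1.2) ++
        pw (q.2 ++ q.1.1.2 ++ q.1.2 ++ q.1.1.2) (kN q.1.1.1) :=
    Primrec.list_append.comp (Primrec.list_append.comp pw1 pze) pw1
  have hI := cp_comp dec_idem (pc.pair pe).to_comp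
  have hS := cp_comp (dec_sep m n h) (pc.pair (pe.pair py)).to_comp
  have hN := cp_comp (dec_synN m) (pc.pair (pw2.pair pw1)).to_comp
  have h0 := cp_imp hI (cp_imp hS hN)
  have h1 := cp_forall h0 (l := fun q : (Code × List ℕ) × List ℕ => W m q.1.1)
    ((pr_W m).comp (Primrec.fst.comp Primrec.fst)).to_comp
  have h2 := cp_forall h1 (l := fun q : Code × List ℕ => W m q.1)
    ((pr_W m).comp Primrec.fst).to_comp
  exact cp_forall h2 (l := fun c : Code => W m c) (pr_W m).to_comp

end Pool.Agent.MSL
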