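import Pool.Agent.MSL.Dea
import Pool.Agent.MSL.Deb

/-!
# Project MSL: decidability: the condition on tuples

The condition on the words `e, f, a, b, g, d` is a computable predicate of the tuple `((((((c, e), f), a), b), g), d)`
(`Dec_body`): `dec_idem` twice, `dec_mix` four times, `dec_synN`; the quantifiers are added by `cp_forall`.
-/

namespace Pool.Agent.MSL

open Pool.Agent.DD Pool.Agent.HLV Pool.Agent.HSP

private abbrev DecT : Type :=
  (((((Code × List ℕ) × List ℕ) × List ℕ) × List ℕ) × List ℕ) × List ℕ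

private theorem Dec_c : Primrec fun u : DecT => u.1.1.1.1.1.1 :=
  Primrec.fst.comp (Primrec.fst.comp (Primrec.fst.comp (Primrec.fst.comp (Primrec.fst.comp Primrec.fst))))

private theorem Dec_e : Primrec fun u : DecT => u.1.1.1.1.1.2 :=
  Primrec.snd.comp (Primrec.fst.comp (Primrec.fst.comp (Primrec.fst.comp (Primrec.fst.comp Primrec.fst))))

private theorem Dec_f : Primrec fun u : DecT => u.1.1.1.1.2 :=
  Primrec.snd.comp (Primrec.fst.comp (Primrec.fst.comp (Primrec.fst.comp Primrec.fst)))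

private theorem Dec_a : Primrec fun u : DecT => u.1.1.1.2 :=
  Primrec.snd.comp (Primrec.fst.comp (Primrec.fst.comp Primrec.fst))

private theorem Dec_b : Primrec fun u : DecT => u.1.1.2 :=
  Primrec.snd.comp (Primrec.fst.comp Primrec.fst)

private theorem Dec_g : Primrec fun u : DecT => u.1.2 := Primrec.snd.comp Primrec.fst

private theorem Dec_d : Primrec fun u : DecT => u.2 := Primrec.snd

private theorem Dec_app {x y : DecT → List ℕ} (hx : Primrec x) (hy : Primrec y) :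
    Primrec fun u => x u ++ y u := Primrec.list_append.comp hx hy

private theorem Dec_pw {x : DecT → List ℕ} (hx : Primrec x) :
    Primrec fun u => pw (x u) (kN u.1.1.1.1.1.1) := by
  have h1 : Primrec fun u : DecT => kN u.1.1.1.1.1.1 := Primrec.comp (f := kN) pr_kN Dec_c
  have h2 : Primrec fun u : DecT => (x u, kN u.1.1.1.1.1.1) := Primrec.pair hx h1
  exact Primrec.comp (f := fun x : List ℕ × ℕ => pw x.1 x.2)
    (g := fun u : DecT => (x u, kN u.1.1.1.1.1.1)) pr_pw h2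

private theorem Dec_mixc (m n : ℕ) (V₀ : Code) (h : DecSepB (m + 4) (n + 1)) {x : DecT → List ℕ}
    (hx : Primrec x) : ComputablePred fun u : DecT =>
      Mix n (langC 2 V₀) (clN m u.1.1.1.1.1.1 u.1.1.1.1.1.2) (clN m u.1.1.1.1.1.1 u.1.1.1.1.2)
        (clN m u.1.1.1.1.1.1 (x u)) :=
  cp_comp (dec_mix m n V₀ h)
    (f := fun u : DecT => (u.1.1.1.1.1.1, (u.1.1.1.1.1.2, (u.1.1.1.1.2, x u))))
    (Dec_c.pair (Dec_e.pair (Dec_f.pair hx))).to_comp

private theorem Dec_body (m n : ℕ) (V₀ : Code) (h : DecSepB (m + 4) (n + 1)) :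
    ComputablePred fun u : DecT =>
      tr u.1.1.1.1.1.1 (u.1.1.1.1.1.2 ++ u.1.1.1.1.1.2) = tr u.1.1.1.1.1.1 u.1.1.1.1.1.2 →
      tr u.1.1.1.1.1.1 (u.1.1.1.1.2 ++ u.1.1.1.1.2) = tr u.1.1.1.1.1.1 u.1.1.1.1.2 →
      Mix n (langC 2 V₀) (clN m u.1.1.1.1.1.1 u.1.1.1.1.1.2) (clN m u.1.1.1.1.1.1 u.1.1.1.1.2)
        (clN m u.1.1.1.1.1.1 u.1.1.1.2) →
      Mix n (langC 2 V₀) (clN m u.1.1.1.1.1.1 u.1.1.1.1.1.2) (clN m u.1.1.1.1.1.1 u.1.1.1.1.2)
        (clN m u.1.1.1.1.1.1 u.1.1.2) →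
      Mix n (langC 2 V₀) (clN m u.1.1.1.1.1.1 u.1.1.1.1.1.2) (clN m u.1.1.1.1.1.1 u.1.1.1.1.2)
        (clN m u.1.1.1.1.1.1 u.1.2) →
      Mix n (langC 2 V₀) (clN m u.1.1.1.1.1.1 u.1.1.1.1.1.2) (clN m u.1.1.1.1.1.1 u.1.1.1.1.2)
        (clN m u.1.1.1.1.1.1 u.2) →
      synN m u.1.1.1.1.1.1
        (pw (u.1.1.1.1.1.2 ++ u.1.1.1.2 ++ u.1.1.1.1.2 ++ u.1.1.2 ++ u.1.1.1.1.1.2) (kN u.1.1.1.1.1.1) ++
          pw (u.1.1.1.1.1.2 ++ u.1.2 ++ u.1.1.1.1.2 ++ u.2 ++ u.1.1.1.1.1.2) (kN u.1.1.1.1.1.1))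
        (pw (u.1.1.1.1.1.2 ++ u.1.1.1.2 ++ u.1.1.1.1.2 ++ u.1.1.2 ++ u.1.1.1.1.1.2) (kN u.1.1.1.1.1.1) ++
          (u.1.1.1.2 ++ u.1.1.1.1.2 ++ u.2) ++
          pw (u.1.1.1.1.1.2 ++ u.1.2 ++ u.1.1.1.1.2 ++ u.2 ++ u.1.1.1.1.1.2) (kN u.1.1.1.1.1.1)) := by
  have h1 := cp_comp dec_idem (f := fun u : DecT => (u.1.1.1.1.1.1, u.1.1.1.1.1.2))
    (Dec_c.pair Dec_e).to_comp
  have h2 := cp_comp dec_idem (f := fun u : DecT => (u.1.1.1.1.1.1, u.1.1.1.1.2))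
    (Dec_c.pair Dec_f).to_comp
  have hp := Dec_pw (Dec_app (Dec_app (Dec_app (Dec_app Dec_e Dec_a) Dec_f) Dec_b) Dec_e)
  have hq := Dec_pw (Dec_app (Dec_app (Dec_app (Dec_app Dec_e Dec_g) Dec_f) Dec_d) Dec_e)
  have h3 := cp_comp (dec_synN m) (Dec_c.pair ((Dec_app hp hq).pair
    (Dec_app (Dec_app hp (Dec_app (Dec_app Dec_a Dec_f) Dec_d)) hq))).to_comp
  exact cp_imp h1 (cp_imp h2 (cp_imp (Dec_mixc m n V₀ h Dec_a) (cp_imp (Dec_mixc m n V₀ h Dec_b)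
    (cp_imp (Dec_mixc m n V₀ h Dec_g) (cp_imp (Dec_mixc m n V₀ h Dec_d) h3)))))

theorem dec_c2 (m n : ℕ) (V₀ : Code) (h : DecSepB (m + 4) (n + 1)) :
    ComputablePred fun c : Code => ∀ e ∈ W m c, ∀ f ∈ W m c, ∀ a ∈ W m c, ∀ b ∈ W m c,
      ∀ g ∈ W m c, ∀ d ∈ W m c, tr c (e ++ e) = tr c e → tr c (f ++ f) = tr c f →
      Mix n (langC 2 V₀) (clN m c e) (clN m c f) (clN m c a) →
      Mix n (langC 2 V₀) (clN m c e) (clN m c f) (clN m c b) →
      Mix n (langC 2 V₀) (clN m c e) (clN m c f) (clN m c g) →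
      Mix n (langC 2 V₀) (clN m c e) (clN m c f) (clN m c d) →
      synN m c (pw (e ++ a ++ f ++ b ++ e) (kN c) ++ pw (e ++ g ++ f ++ d ++ e) (kN c))
        (pw (e ++ a ++ f ++ b ++ e) (kN c) ++ (a ++ f ++ d) ++
          pw (e ++ g ++ f ++ d ++ e) (kN c)) := by
  have h6 := Dec_body m n V₀ h
  have h5 := cp_forall h6 (l := fun x => W m x.1.1.1.1.1)
    ((pr_W m).comp (Primrec.fst.comp (Primrec.fst.comp (Primrec.fst.comp (Primrec.fst.comp
      Primrec.fst))))).to_comp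
  have h4 := cp_forall h5 (l := fun x => W m x.1.1.1.1)
    ((pr_W m).comp (Primrec.fst.comp (Primrec.fst.comp (Primrec.fst.comp Primrec.fst)))).to_comp
  have h3 := cp_forall h4 (l := fun x => W m x.1.1.1)
    ((pr_W m).comp (Primrec.fst.comp (Primrec.fst.comp Primrec.fst))).to_comp
  have h2 := cp_forall h3 (l := fun x => W m x.1.1)
    ((pr_W m).comp (Primrec.fst.comp Primrec.fst)).to_comp
  have h1 := cp_forall h2 (l := fun x => W m x.1) ((pr_W m).comp Primrec.fst).to_comp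
  exact cp_forall h1 (l := fun x => W m x) (pr_W m).to_comp

end Pool.Agent.MSL
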