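import Pool.Agent.HLV.Defs

/-!
# Project MSL (MP_21f263_lc): membership in `B (n+2)` is equivalent to separation by `B (n+1)`

Definitions.  Paper proof: /team-store/msl_proof.md (sections 0 - 9).

`B A i` is the dot-depth hierarchy, `Pol (B A i)` the half level above it (Pool.Agent.DD.Defs,
Pool.Agent.HLV.Defs).  `pw x n` is the `n`-th power of the word `x`.
-/

namespace Pool.Agent.MSL

open Pool.Agent.DD Pool.Agent.HLV

variable {A M N S : Type}

/-- Homomorphisms from words to a monoid. -/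
structure IsHom [Monoid S] (φ : List A → S) : Prop where
  one : φ [] = 1
  mul : ∀ x y, φ (x ++ y) = φ x * φ y

/-- Aperiodicity with exponent `K`. -/
def Aper (S : Type) [Monoid S] (K : ℕ) : Prop := ∀ s : S, s ^ (K + 1) = s ^ K

/-- Congruences on words. -/
structure Cg (r : List A → List A → Prop) : Prop where
  refl : ∀ x, r x x
  symm : ∀ {x y}, r x y → r y x
  trans : ∀ {x y z}, r x y → r y z → r x z
  app : ∀ {x x' y y'}, r x x' → r y y' → r (x ++ y) (x' ++ y')

/-- Finite index. -/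
def FinIdx (r : List A → List A → Prop) : Prop :=
  ∃ (n : ℕ) (c : List A → Fin n), ∀ x y, c x = c y → r x y

/-- Aperiodicity of a relation with exponent `K`. -/
def ApR (r : List A → List A → Prop) (K : ℕ) : Prop := ∀ x, r (pw x (K + 1)) (pw x K)

/-- Domination with `k` rounds over the relation `r` (paper: `u ≤_k v`). -/
def Dom (r : List A → List A → Prop) : ℕ → List A → List A → Prop
  | 0, u, v => r u v
  | k + 1, u, v => ∀ u₁ u₂, u = u₁ ++ u₂ →
      ∃ v₁ v₂, v = v₁ ++ v₂ ∧ Dom r k u₁ v₁ ∧ Dom r k u₂ v₂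

/-- Equivalence with `k` rounds (paper: `u =_k v`). -/
def Eqv (r : List A → List A → Prop) (k : ℕ) (u v : List A) : Prop := Dom r k u v ∧ Dom r k v u

/-- `x` is in `L_m`: the value of `x` is in the ideal of `m`. -/
def InL [Monoid N] (η : List A → N) (m : N) (x : List A) : Prop := ∃ a b : N, η x = a * m * b

/-- `x` has `r` consecutive disjoint factors (blocks) in `L_m`. -/
def Bl [Monoid N] (η : List A → N) (m : N) : ℕ → List A → Prop
  | 0, _ => True
  | r + 1, x => ∃ y z, x = y ++ z ∧ InL η m y ∧ Bl η m r z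

/-- The relation `θ` (Section 4 of the paper proof). -/
def Th [Monoid N] (η : List A → N) (R : ℕ) (x y : List A) : Prop :=
  η x = η y ∧ ∀ (m : N) (r : ℕ), r ≤ R → ∀ a b : List A,
    (Bl η m r (a ++ x ++ b) ↔ Bl η m r (a ++ y ++ b))

/-- One step (Section 2): `σ (GEH) → σ (GEYEH)`, with `σ E` idempotent, `η E = η Y` idempotent. -/
def Step [Monoid S] [Monoid N] (σ : List A → S) (η : List A → N) (s s' : S) : Prop :=
  ∃ G E Y H : List A, σ E * σ E = σ E ∧ η E * η E = η E ∧ η Y = η E ∧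
    s = σ (G ++ E ++ H) ∧ s' = σ (G ++ E ++ Y ++ E ++ H)

/-- Chains of steps. -/
def Chain [Monoid S] [Monoid N] (σ : List A → S) (η : List A → N) : S → S → Prop :=
  Relation.ReflTransGen (Step σ η)

/-- The standing hypotheses of the main theorem (Section 3). -/
structure Setup [Monoid M] [Monoid N] (α : List A → M) (η : List A → N) (K : ℕ) : Prop where
  pos : 1 ≤ K
  αh : IsHom α
  ηh : IsHom η
  sur : Function.Surjective α
  aM : Aper M K
  aN : Aper N K
  one : ∀ x, η x = 1 → x = []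
  sgl : ∀ x a, η x = η [a] → x = [a]
  h1 : ∀ (E Y : List A) (z : M), α E * α E = α E → η E * η E = η E → η Y = η E →
    (z * α E * α Y * α E) ^ K * (z * α E) * (z * α E * α Y * α E) ^ K =
      (z * α E * α Y * α E) ^ K
  h2 : ∀ E F q r s t : List A, α E * α E = α E → α F * α F = α F → η E * η E = η E →
    η F * η F = η F → η (E ++ q ++ F ++ t ++ E) = η E → η (F ++ r ++ E ++ s ++ F) = η F →
    α (E ++ q ++ F ++ r ++ E) ^ K * α (E ++ s ++ F ++ t ++ E) ^ K =
      α (E ++ q ++ F ++ r ++ E) ^ K * α (q ++ F ++ t) * α (E ++ s ++ F ++ t ++ E) ^ K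

/-- The reversed homomorphism. -/
def rv [Monoid S] (φ : List A → S) (x : List A) : Sᵐᵒᵖ := MulOpposite.op (φ x.reverse)

/-- `R` is a Ramsey number of `S`. -/
def RamC (S : Type) [Monoid S] (R : ℕ) : Prop :=
  ∀ l : List S, R ≤ l.length → ∃ l₁ l₂ l₃, l = l₁ ++ l₂ ++ l₃ ∧ l₂ ≠ [] ∧
    l₂.prod * l₂.prod = l₂.prod

/-- The consequence of (Z) which is used in Sections 5 and 6. -/
def FactZ [Monoid M] [Monoid N] (α : List A → M) (η : List A → N) (K R kM : ℕ) : Prop :=
  ∀ B' B : List A, Dom (Th η R) kM B' B → ∀ ζ : M,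
    (α B * ζ) ^ K * (α B' * ζ) * (α B * ζ) ^ K = (α B * ζ) ^ K

/-- Returns (Section 5): after `x` one can come back to the state `s`, over `m`. -/
def Ret [Monoid M] [Monoid N] (α : List A → M) (η : List A → N) (s : M) (m : N) (x : List A) :
    Prop := ∃ r : List A, s * α (x ++ r) = s ∧ m * η (x ++ r) * m = m

/-- Words with a factorization forest of height `h`. -/
def Ht [Monoid S] (τ : List A → S) : ℕ → List A → Prop
  | 0, u => u.length ≤ 1
  | h + 1, u => Ht τ h u ∨ (∃ x y, u = x ++ y ∧ Ht τ h x ∧ Ht τ h y) ∨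
      ∃ (e : S) (us : List (List A)), e * e = e ∧ u = us.flatten ∧
        ∀ x ∈ us, Ht τ h x ∧ τ x = e

/-- The relations `δ`: congruences of finite index, aperiodic, with classes in `B A n`, which isolate
the empty word and the letters. -/
structure Base (n : ℕ) (δ : List A → List A → Prop) : Prop where
  cg : Cg δ
  fin : FinIdx δ
  ap : ∃ K, ApR δ K
  cls : ∀ u, {v | δ u v} ∈ B A n
  eps : ∀ x, δ x [] → x = []
  sgl : ∀ x a, δ x [a] → x = [a]

/-- The class of a word. -/
def cls {M : Type} (α : List A → M) (x : List A) : Lang A := {w | α w = α x}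

/-! ### The languages of the second condition (Section 8) -/

/-- The alphabet `A` with two marks and two delimiters. -/
inductive Tg (A : Type) : Type
  | lt : A → Tg A
  | mk : Fin 2 → Tg A
  | hs : Tg A
  | dl : Tg A

/-- The block `x # b $`. -/
def blk (x : List A) (b : List (Fin 2)) : List (Tg A) :=
  x.map Tg.lt ++ [Tg.hs] ++ b.map Tg.mk ++ [Tg.dl]

/-- Nonempty products of members of `X`. -/
def plus {C : Type} (X : Lang C) : Lang C :=
  {w | ∃ ws : List (List C), ws ≠ [] ∧ (∀ x ∈ ws, x ∈ X) ∧ w = ws.flatten}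

/-- The blocks with a word in `W` and a mark in `K₀`. -/
def BX (W : Lang A) (K₀ : Lang (Fin 2)) : Lang (Tg A) := {w | ∃ x ∈ W, ∃ b ∈ K₀, w = blk x b}

/-- Sequences of blocks with words in `V` and marks in `K₀`, with one block with a word in `G` and a
mark not in `K₀` in the middle. -/
def Ve (V G : Lang A) (K₀ : Lang (Fin 2)) : Lang (Tg A) :=
  {w | ∃ x ∈ plus (BX V K₀), ∃ y ∈ BX G K₀ᶜ, ∃ z ∈ plus (BX V K₀), w = x ++ y ++ z}

/-- The side condition `Mix`. -/
def Mix (n : ℕ) (K₀ : Lang (Fin 2)) (V W G : Lang A) : Prop :=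
  ¬ Separable (B (Tg A) (n + 1)) (plus (BX W K₀)) (Ve V G K₀)

/-- The first identity: `(zeye)^K ze (zeye)^K = (zeye)^K`. -/
def I1 (L : Lang A) (K : ℕ) (e y z : List A) : Prop :=
  SynEq L (pw (z ++ e ++ y ++ e) K ++ (z ++ e) ++ pw (z ++ e ++ y ++ e) K)
    (pw (z ++ e ++ y ++ e) K)

/-- The second identity: `(eafbe)^K (ecfde)^K = (eafbe)^K afd (ecfde)^K`. -/
def I2 (L : Lang A) (K : ℕ) (e f a b c d : List A) : Prop :=
  SynEq L (pw (e ++ a ++ f ++ b ++ e) K ++ pw (e ++ c ++ f ++ d ++ e) K)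
    (pw (e ++ a ++ f ++ b ++ e) K ++ (a ++ f ++ d) ++ pw (e ++ c ++ f ++ d ++ e) K)

/-- The criterion for membership of `L` in `B A (n+2)`; `α` is a homomorphism which recognizes `L`. -/
def Crit {M : Type} (n : ℕ) (K₀ : Lang (Fin 2)) (α : List A → M) (L : Lang A) (K : ℕ) : Prop :=
  (∀ x, SynEq L (pw x (K + 1)) (pw x K)) ∧
  (∀ e y z, α (e ++ e) = α e → ¬ Separable (B A (n + 1)) (cls α e) (cls α y) → I1 L K e y z) ∧
  (∀ e f a b c d, α (e ++ e) = α e → α (f ++ f) = α f →
    Mix n K₀ (cls α e) (cls α f) (cls α a) → Mix n K₀ (cls α e) (cls α f) (cls α b) →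
    Mix n K₀ (cls α e) (cls α f) (cls α c) → Mix n K₀ (cls α e) (cls α f) (cls α d) →
    I2 L K e f a b c d)

end Pool.Agent.MSL
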