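import Pool.Agent.MSL.Syd
import Pool.Agent.MSL.Cri

/-!
# Project MSL: the criterion in numbers

The criterion for the language of a code is equivalent to the criterion in numbers: words over `Fin m` are replaced by
short words with the same vector of states.
-/

namespace Pool.Agent.MSL

open Pool.Agent.DD Pool.Agent.HLV Pool.Agent.HSP

private theorem Eqc_pw {A C : Type} (f : A → C) (x : List A) (k : ℕ) :
    (pw x k).map f = pw (x.map f) k := by
  unfold pw
  rw [List.map_flatten, List.map_replicate]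

private theorem Eqc_tr {c : Code} {x x' : List ℕ} (h : tr c x = tr c x') (k : ℕ) :
    tr c (pw x k) = tr c (pw x' k) := by
  induction k with
  | zero => rfl
  | succ k ih =>
    rw [pw_succ, pw_succ]
    exact tr_app h ih

private theorem Eqc_cl {m : ℕ} {c : Code} {e e' : List ℕ} (h : tr c e = tr c e') :
    clN m c e = clN m c e' := by
  unfold clN
  rw [h]

theorem critN_iff {m n : ℕ} (hm : 1 ≤ m) (hn : 1 ≤ n) {K₀ : Lang (Fin 2)}
    (h0 : K₀ ∈ Half (B (Fin 2) n)) (h0' : K₀ᶜ ∉ Half (B (Fin 2) n)) (c : Code) :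
    CritN m n K₀ c ↔ langC m c ∈ B (Fin m) (n + 2) := by
  obtain ⟨M, iM, fM, α, hα, hcard, hiff, hsyn⟩ := exists_rec m c
  have : Nonempty (Fin m) := ⟨⟨0, by omega⟩⟩
  rw [criterion hn h0 h0' hα hsyn hcard]
  have hcl : ∀ e : List (Fin m), clN m c (e.map Fin.val) = cls α e := by
    intro e
    ext w
    exact (hiff w e).symm
  have hid : ∀ e : List (Fin m), tr c (e.map Fin.val ++ e.map Fin.val) = tr c (e.map Fin.val) ↔
      α (e ++ e) = α e := by
    intro e
    rw [hiff, List.map_append]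
  unfold CritN Crit
  constructor
  · rintro ⟨c1, c2, c3⟩
    refine ⟨fun x => ?_, fun e y z he hs => ?_, fun e f a b g d he hf ha hb hg hd => ?_⟩
    · obtain ⟨x', hx, tx⟩ := exists_W m c x
      rw [← synN_iff, Eqc_pw, Eqc_pw]
      exact synN_congr (Eqc_tr tx _) (Eqc_tr tx _) (c1 _ hx)
    · obtain ⟨e', he', te⟩ := exists_W m c e
      obtain ⟨y', hy', ty⟩ := exists_W m c y
      obtain ⟨z', hz', tz⟩ := exists_W m c z
      have k1 : tr c (e'.map Fin.val ++ e'.map Fin.val) = tr c (e'.map Fin.val) := by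
        rw [tr_app te te, te, (hid e).2 he]
      have k2 : ¬ Separable (B (Fin m) (n + 1)) (clN m c (e'.map Fin.val)) (clN m c (y'.map Fin.val)) := by
        rw [Eqc_cl te, Eqc_cl ty, hcl, hcl]
        exact hs
      have k3 := c2 _ he' _ hy' _ hz' k1 k2
      unfold I1
      rw [← synN_iff]
      simp only [List.map_append, Eqc_pw]
      have t1 := Eqc_tr (tr_app (tr_app (tr_app tz te) ty) te) (kN c)
      exact synN_congr (tr_app (tr_app t1 (tr_app tz te)) t1) t1 k3
    · obtain ⟨e', he', te⟩ := exists_W m c e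
      obtain ⟨f', hf', tf⟩ := exists_W m c f
      obtain ⟨a', ha', ta⟩ := exists_W m c a
      obtain ⟨b', hb', tb⟩ := exists_W m c b
      obtain ⟨g', hg', tg'⟩ := exists_W m c g
      obtain ⟨d', hd', td⟩ := exists_W m c d
      have k1 : tr c (e'.map Fin.val ++ e'.map Fin.val) = tr c (e'.map Fin.val) := by
        rw [tr_app te te, te, (hid e).2 he]
      have k2 : tr c (f'.map Fin.val ++ f'.map Fin.val) = tr c (f'.map Fin.val) := by
        rw [tr_app tf tf, tf, (hid f).2 hf]
      have mx : ∀ u u' : List (Fin m), tr c (u'.map Fin.val) = tr c (u.map Fin.val) →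
          Mix n K₀ (cls α e) (cls α f) (cls α u) →
          Mix n K₀ (clN m c (e'.map Fin.val)) (clN m c (f'.map Fin.val)) (clN m c (u'.map Fin.val)) := by
        intro u u' hu h
        rw [Eqc_cl te, Eqc_cl tf, Eqc_cl hu, hcl, hcl, hcl]
        exact h
      have k3 := c3 _ he' _ hf' _ ha' _ hb' _ hg' _ hd' k1 k2 (mx a a' ta ha) (mx b b' tb hb) (mx g g' tg' hg)
        (mx d d' td hd)
      unfold I2
      rw [← synN_iff]
      simp only [List.map_append, Eqc_pw]
      have t1 := Eqc_tr (tr_app (tr_app (tr_app (tr_app te ta) tf) tb) te) (kN c)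
      have t2 := Eqc_tr (tr_app (tr_app (tr_app (tr_app te tg') tf) td) te) (kN c)
      exact synN_congr (tr_app t1 t2) (tr_app (tr_app t1 (tr_app (tr_app ta tf) td)) t2) k3
  · rintro ⟨c1, c2, c3⟩
    refine ⟨fun x hx => ?_, fun e he y hy z hz h1 h2 => ?_,
      fun e he f hf a ha b hb g hg d hd h1 h2 h3 h4 h5 h6 => ?_⟩
    · obtain ⟨x, rfl⟩ := of_W hx
      rw [← Eqc_pw, ← Eqc_pw, synN_iff]
      exact c1 x
    · obtain ⟨e, rfl⟩ := of_W he
      obtain ⟨y, rfl⟩ := of_W hy
      obtain ⟨z, rfl⟩ := of_W hz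
      rw [hcl, hcl] at h2
      have k3 := c2 e y z ((hid e).1 h1) h2
      unfold I1 at k3
      rw [← synN_iff] at k3
      simpa only [List.map_append, Eqc_pw] using k3
    · obtain ⟨e, rfl⟩ := of_W he
      obtain ⟨f, rfl⟩ := of_W hf
      obtain ⟨a, rfl⟩ := of_W ha
      obtain ⟨b, rfl⟩ := of_W hb
      obtain ⟨g, rfl⟩ := of_W hg
      obtain ⟨d, rfl⟩ := of_W hd
      rw [hcl, hcl, hcl] at h3 h4 h5 h6
      have k3 := c3 e f a b g d ((hid e).1 h1) ((hid f).1 h2) h3 h4 h5 h6
      unfold I2 at k3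
      rw [← synN_iff] at k3
      simpa only [List.map_append, Eqc_pw] using k3

end Pool.Agent.MSL
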