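import Pool.Agent.MSL.Jj
import Pool.Agent.MSL.Alg

/-!
# Project MSL: Fact 1: the state after an idempotent factor does not depend on the past

In `N` the two pairs `u = m η(x F)`, `v = η(F r) m` and `u'`, `v'` satisfy `v u = v' u' = v u' = v' u = n`, so
`u = u'`; in `M` the two words `F r DD x' F` and `F r' DD x F` move the two states into each other, and `jj_abs` says
that they are equal.
-/

namespace Pool.Agent.MSL

open Pool.Agent.DD Pool.Agent.HLV

variable {A M N : Type} [Monoid M] [Monoid N] {α : List A → M} {η : List A → N} {K : ℕ}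

/-- the calculation in `N` -/
private theorem Fa_abs (hN : Aper N K) {m n u u' v v' a b : N} (hm : m * m = m) (hn : n * n = n)
    (e : n = a * m * b) (mu : m * u = u) (un : u * n = u) (nv : n * v = v) (vm : v * m = v) (uv : u * v = m)
    (mu' : m * u' = u') (un' : u' * n = u') (nv' : n * v' = v') (vm' : v' * m = v') (uv' : u' * v' = m) :
    v * u' = n ∧ v' * u = n ∧ u = u' := by
  have vu := ap_two hN hm hn mu un nv vm uv e
  have vu' := ap_two hN hm hn mu' un' nv' vm' uv' e
  have g1 : n = (v * u') * n * (v' * u) := by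
    calc n = v * u := vu.symm
      _ = (v * m) * u := by rw [vm]
      _ = (v * (u' * v')) * u := by rw [uv']
      _ = (v * (u' * n)) * (v' * u) := by rw [un']; simp only [mul_assoc]
      _ = _ := by simp only [mul_assoc]
  have g2 : n = (v' * u) * n * (v * u') := by
    calc n = v' * u' := vu'.symm
      _ = (v' * m) * u' := by rw [vm']
      _ = (v' * (u * v)) * u' := by rw [uv]
      _ = (v' * (u * n)) * (v * u') := by rw [un]; simp only [mul_assoc]
      _ = _ := by simp only [mul_assoc]
  have r1 : v * u' = n := by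
    have h := (ap_one hN g1).1
    rwa [mul_assoc, un'] at h
  have r2 : v' * u = n := by
    have h := (ap_one hN g2).1
    rwa [mul_assoc, un] at h
  refine ⟨r1, r2, ?_⟩
  calc u = u * n := un.symm
    _ = u * (v * u') := by rw [r1]
    _ = (u * v) * u' := (mul_assoc _ _ _).symm
    _ = u' := by rw [uv, mu']

theorem fact_one (hS : Setup α η K) {DD F x x' : List A} {s : M} (hd : α DD * α DD = α DD)
    (hm : η DD * η DD = η DD) (hs : s * α DD = s) (hF : α F * α F = α F)
    (hF' : η F * η F = η F) (hn : InL η (η DD) F) (h1 : Ret α η s (η DD) (x ++ F))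
    (h2 : Ret α η s (η DD) (x' ++ F)) :
    s * α (x ++ F) = s * α (x' ++ F) ∧ η DD * η (x ++ F) = η DD * η (x' ++ F) := by
  obtain ⟨a, b, hn⟩ := hn
  obtain ⟨r, hr, hr'⟩ := h1
  obtain ⟨r', hs1, hs2⟩ := h2
  simp only [hS.αh.mul] at hr hs1
  simp only [hS.ηh.mul] at hr' hs2
  simp only [hS.αh.mul, hS.ηh.mul]
  have key : ∀ X R : N, η DD * (X * η F * R) * η DD = η DD →
      (η DD * (X * η F)) * (η F * R * η DD) = η DD := by
    intro X R h
    calc (η DD * (X * η F)) * (η F * R * η DD) = η DD * (X * (η F * η F) * R) * η DD := by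
          simp only [mul_assoc]
      _ = η DD := by rw [hF', h]
  have k1 : ∀ X : N, η DD * (η DD * (X * η F)) = η DD * (X * η F) := fun X => by
    rw [← mul_assoc, hm]
  have k2 : ∀ X : N, (η DD * (X * η F)) * η F = η DD * (X * η F) := fun X => by
    rw [mul_assoc, mul_assoc, hF']
  have k3 : ∀ R : N, η F * (η F * R * η DD) = η F * R * η DD := fun R => by
    rw [← mul_assoc, ← mul_assoc, hF']
  have k4 : ∀ R : N, (η F * R * η DD) * η DD = η F * R * η DD := fun R => by
    rw [mul_assoc, hm]
  obtain ⟨c1, c2, c3⟩ := Fa_abs hS.aN hm hF' hn (k1 _) (k2 _) (k3 _) (k4 _) (key _ _ hr') (k1 _) (k2 _) (k3 _)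
    (k4 _) (key _ _ hs2)
  refine ⟨?_, c3⟩
  have e1 : η (F ++ (r ++ DD ++ x') ++ F) = η F := by
    simp only [hS.ηh.mul]
    calc η F * (η r * η DD * η x') * η F = η F * η r * (η DD) * (η x' * η F) := by simp only [mul_assoc]
      _ = η F * η r * (η DD * η DD) * (η x' * η F) := by rw [hm]
      _ = (η F * η r * η DD) * (η DD * (η x' * η F)) := by simp only [mul_assoc]
      _ = _ := c1
  have e2 : η (F ++ (r' ++ DD ++ x) ++ F) = η F := by
    simp only [hS.ηh.mul]
    calc η F * (η r' * η DD * η x) * η F = η F * η r' * (η DD) * (η x * η F) := by simp only [mul_assoc]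
      _ = η F * η r' * (η DD * η DD) * (η x * η F) := by rw [hm]
      _ = (η F * η r' * η DD) * (η DD * (η x * η F)) := by simp only [mul_assoc]
      _ = _ := c2
  have st : ∀ x x' r : List A, s * (α x * α F * α r) = s →
      s * (α x * α F) * α (F ++ (r ++ DD ++ x') ++ F) = s * (α x' * α F) := by
    intro x x' r h
    simp only [hS.αh.mul]
    calc s * (α x * α F) * (α F * (α r * α DD * α x') * α F)
        = s * (α x * (α F * α F) * α r) * α DD * (α x' * α F) := by simp only [mul_assoc]
      _ = s * (α x' * α F) := by rw [hF, h, hs]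
  have s1 := st x x' r hr
  have s2 := st x' x r' hs1
  have hp : s * (α x * α F) * (α (F ++ (r ++ DD ++ x') ++ F) * α (F ++ (r' ++ DD ++ x) ++ F)) =
      s * (α x * α F) := by
    rw [← mul_assoc, s1, s2]
  have hj := jj_abs hS hF hF' e1 e2 hp
  rw [s1] at hj
  exact hj.symm

end Pool.Agent.MSL
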