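import Pool.Agent.MSL.Bas

/-!
# Project MSL: prefixes, suffixes and factors of dominated words
-/

namespace Pool.Agent.MSL

open Pool.Agent.DD Pool.Agent.HLV

variable {A : Type} {r : List A → List A → Prop}

theorem dom_prefix {k : ℕ} {u v w : List A} (h1 : Dom r (k + 1) u v) (hw : w <+: u) :
    ∃ w', w' <+: v ∧ Dom r k w w' := by
  obtain ⟨t, rfl⟩ := hw
  obtain ⟨v₁, v₂, hv, a1, -⟩ := dom_two h1
  exact ⟨v₁, ⟨v₂, hv.symm⟩, a1⟩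

theorem dom_suffix {k : ℕ} {u v w : List A} (h1 : Dom r (k + 1) u v) (hw : w <:+ u) :
    ∃ w', w' <:+ v ∧ Dom r k w w' := by
  obtain ⟨t, rfl⟩ := hw
  obtain ⟨v₁, v₂, hv, -, a2⟩ := dom_two h1
  exact ⟨v₂, ⟨v₁, hv.symm⟩, a2⟩

theorem dom_factor (h : Cg r) {k : ℕ} {u v w : List A} (h1 : Dom r (k + 2) u v) (hw : w <:+: u) :
    ∃ w', w' <:+: v ∧ Dom r k w w' := by
  obtain ⟨s, t, rfl⟩ := hw
  obtain ⟨v₁, v₂, v₃, hv, -, a2, -⟩ := dom_three h h1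
  exact ⟨v₂, ⟨v₁, v₃, hv.symm⟩, a2⟩

end Pool.Agent.MSL
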