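import Pool.Agent.MSL.Tha

/-!
# Project MSL: Fact 2: factors of `DD` may be replaced by smaller words

`b = α B₀`, `b' = α B'`, `ζ = α (B₂ ++ B₁)`, `s₁ = s α B₁`; `s₁ (b ζ)^K = s₁`, so `s₁ b' ζ (b ζ)^K = s₁` by `FactZ`, and the return
word is `B₂ ++ B₁ ++ pw (B₀ ++ B₂ ++ B₁) K ++ B₀ ++ B₂`.
-/

namespace Pool.Agent.MSL

open Pool.Agent.DD Pool.Agent.HLV

variable {A M N : Type} [Monoid M] [Monoid N] {α : List A → M} {η : List A → N} {K : ℕ}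

theorem fact_two (hS : Setup α η K) {R kM : ℕ} (hz : FactZ α η K R kM) {B₁ B₀ B₂ B' : List A}
    {s : M} (hm : η (B₁ ++ B₀ ++ B₂) * η (B₁ ++ B₀ ++ B₂) = η (B₁ ++ B₀ ++ B₂))
    (hs : s * α (B₁ ++ B₀ ++ B₂) = s) (hB : Dom (Th η R) kM B' B₀) :
    Ret α η s (η (B₁ ++ B₀ ++ B₂)) (B₁ ++ B') := by
  have hη : η B' = η B₀ := (dom_base (th_cg hS.ηh R) hB).1
  have hz' := hz B' B₀ hB (α B₂ * α B₁)
  rw [hS.αh.mul3] at hs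
  have hs' : s * α B₁ * (α B₀ * α B₂) = s := by
    calc s * α B₁ * (α B₀ * α B₂) = s * (α B₁ * α B₀ * α B₂) := by simp only [mul_assoc]
      _ = s := hs
  have e1 : s * α B₁ * (α B₀ * (α B₂ * α B₁)) = s * α B₁ := by
    calc s * α B₁ * (α B₀ * (α B₂ * α B₁)) = s * α B₁ * (α B₀ * α B₂) * α B₁ := by simp only [mul_assoc]
      _ = s * α B₁ := by rw [hs']
  have e2 : ∀ k : ℕ, s * α B₁ * (α B₀ * (α B₂ * α B₁)) ^ k = s * α B₁ := by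
    intro k
    induction k with
    | zero => rw [pow_zero, mul_one]
    | succ k ih => rw [pow_succ, ← mul_assoc, ih, e1]
  have e3 : s * α B₁ * (α B' * (α B₂ * α B₁)) * (α B₀ * (α B₂ * α B₁)) ^ K = s * α B₁ := by
    calc s * α B₁ * (α B' * (α B₂ * α B₁)) * (α B₀ * (α B₂ * α B₁)) ^ K
        = s * α B₁ * (α B₀ * (α B₂ * α B₁)) ^ K * (α B' * (α B₂ * α B₁)) *
          (α B₀ * (α B₂ * α B₁)) ^ K := by rw [e2 K]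
      _ = s * α B₁ * ((α B₀ * (α B₂ * α B₁)) ^ K * (α B' * (α B₂ * α B₁)) *
          (α B₀ * (α B₂ * α B₁)) ^ K) := by simp only [mul_assoc]
      _ = s * α B₁ := by rw [hz', e2 K]
  refine ⟨B₂ ++ B₁ ++ pw (B₀ ++ B₂ ++ B₁) K ++ B₀ ++ B₂, ?_, ?_⟩
  · have e4 : α ((B₁ ++ B') ++ (B₂ ++ B₁ ++ pw (B₀ ++ B₂ ++ B₁) K ++ B₀ ++ B₂)) =
        α B₁ * α B' * (α B₂ * α B₁ * (α B₀ * α B₂ * α B₁) ^ K * α B₀ * α B₂) := by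
      rw [hS.αh.mul (B₁ ++ B'), hS.αh.mul B₁ B', hS.αh.mul (B₂ ++ B₁ ++ pw (B₀ ++ B₂ ++ B₁) K ++ B₀),
        hS.αh.mul (B₂ ++ B₁ ++ pw (B₀ ++ B₂ ++ B₁) K), hS.αh.mul (B₂ ++ B₁), hS.αh.mul B₂ B₁, hS.αh.pw,
        hS.αh.mul3]
    rw [e4]
    calc s * (α B₁ * α B' * (α B₂ * α B₁ * (α B₀ * α B₂ * α B₁) ^ K * α B₀ * α B₂))
        = s * α B₁ * (α B' * (α B₂ * α B₁)) * (α B₀ * (α B₂ * α B₁)) ^ K * (α B₀ * α B₂) := by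
          simp only [mul_assoc]
      _ = s := by rw [e3, hs']
  · have hm3 : η (B₁ ++ B₀ ++ B₂) = η B₁ * (η B₀ * η B₂) := by rw [hS.ηh.mul3, mul_assoc]
    have e5 : η ((B₁ ++ B') ++ (B₂ ++ B₁ ++ pw (B₀ ++ B₂ ++ B₁) K ++ B₀ ++ B₂)) =
        η (B₁ ++ B₀ ++ B₂) * (η (B₁ ++ B₀ ++ B₂)) ^ (K + 1) := by
      rw [hS.ηh.mul (B₁ ++ B'), hS.ηh.mul B₁ B', hS.ηh.mul (B₂ ++ B₁ ++ pw (B₀ ++ B₂ ++ B₁) K ++ B₀),
        hS.ηh.mul (B₂ ++ B₁ ++ pw (B₀ ++ B₂ ++ B₁) K), hS.ηh.mul (B₂ ++ B₁), hS.ηh.mul B₂ B₁, hS.ηh.pw,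
        hS.ηh.mul3 B₀ B₂ B₁, hm3, hη, pow_succ (η B₁ * (η B₀ * η B₂)) K]
      have e6 := mul_pow_mul (η B₁) (η B₀ * η B₂) K
      calc η B₁ * η B₀ * (η B₂ * η B₁ * (η B₀ * η B₂ * η B₁) ^ K * η B₀ * η B₂)
          = η B₁ * (η B₀ * η B₂) * (η B₁ * (η B₀ * η B₂ * η B₁) ^ K) * (η B₀ * η B₂) := by
            simp only [mul_assoc]
        _ = η B₁ * (η B₀ * η B₂) * ((η B₁ * (η B₀ * η B₂)) ^ K * η B₁) * (η B₀ * η B₂) := by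
            rw [e6]
        _ = η B₁ * (η B₀ * η B₂) * ((η B₁ * (η B₀ * η B₂)) ^ K * (η B₁ * (η B₀ * η B₂))) := by
            simp only [mul_assoc]
    rw [e5, idem_pow hm (Nat.succ_le_succ (Nat.zero_le K)), hm, hm, hm]

end Pool.Agent.MSL
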