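import Pool.Agent.MSL.Tte
import Pool.Agent.MSL.Hff

/-!
# Project MSL: reduction of the criterion, half levels

`dec_sleN` as in Hff.lean (if it is private there, prove it again).  `tt_forall` twice (tuple `((c, e), y)`); the condition is
`¬ tr c (e ++ e) = tr c e ∨ Separable (Half ..) (clN y) (clN e) ∨ sleN ..`; queries by `exists_ccode` as in `tt_sep` (swapped order).  Then
`tt_and` with `tt_pred (dec_ap m)`, and `critHN_iff`.
-/

namespace Pool.Agent.MSL

open Pool.Agent.DD Pool.Agent.HLV Pool.Agent.HSP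

private theorem Tth_bool {α : Type} [Primcodable α] {f : α → Bool} (hf : Computable f) :
    ComputablePred fun a => f a = true :=
  ComputablePred.computable_iff.2 ⟨f, hf, rfl⟩

private theorem Tth_sle (m : ℕ) :
    ComputablePred fun x : Code × (List ℕ × List ℕ) => sleN m x.1 x.2.1 x.2.2 := by
  have hc : Primrec fun u : ((Code × (List ℕ × List ℕ)) × List ℕ) × List ℕ => u.1.1.1 :=
    Primrec.fst.comp (Primrec.fst.comp Primrec.fst)
  have hp : Primrec fun u : ((Code × (List ℕ × List ℕ)) × List ℕ) × List ℕ => u.1.1.2 :=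
    Primrec.snd.comp (Primrec.fst.comp Primrec.fst)
  have hs : Primrec fun u : ((Code × (List ℕ × List ℕ)) × List ℕ) × List ℕ => u.1.2 :=
    Primrec.snd.comp Primrec.fst
  have ht : Primrec fun u : ((Code × (List ℕ × List ℕ)) × List ℕ) × List ℕ => u.2 := Primrec.snd
  have h1 : Computable fun u : ((Code × (List ℕ × List ℕ)) × List ℕ) × List ℕ =>
      acN u.1.1.1 (u.1.2 ++ u.1.1.2.1 ++ u.2) :=
    (pr_acN.comp (hc.pair (Primrec.list_append.comp
      (Primrec.list_append.comp hs (Primrec.fst.comp hp)) ht))).to_comp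
  have h2 : Computable fun u : ((Code × (List ℕ × List ℕ)) × List ℕ) × List ℕ =>
      acN u.1.1.1 (u.1.2 ++ u.1.1.2.2 ++ u.2) :=
    (pr_acN.comp (hc.pair (Primrec.list_append.comp
      (Primrec.list_append.comp hs (Primrec.snd.comp hp)) ht))).to_comp
  have h3 := cp_imp (Tth_bool h1) (Tth_bool h2)
  have h4 := cp_forall (P := fun u : ((Code × (List ℕ × List ℕ)) × List ℕ) × List ℕ =>
    acN u.1.1.1 (u.1.2 ++ u.1.1.2.1 ++ u.2) = true →
      acN u.1.1.1 (u.1.2 ++ u.1.1.2.2 ++ u.2) = true) h3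
    (l := fun x : (Code × (List ℕ × List ℕ)) × List ℕ => W m x.1.1)
    ((pr_W m).comp (Primrec.fst.comp Primrec.fst)).to_comp
  have h5 := cp_forall (P := fun x : (Code × (List ℕ × List ℕ)) × List ℕ => ∀ t ∈ W m x.1.1,
    acN x.1.1 (x.2 ++ x.1.2.1 ++ t) = true → acN x.1.1 (x.2 ++ x.1.2.2 ++ t) = true) h4
    (l := fun x : Code × (List ℕ × List ℕ) => W m x.1)
    ((pr_W m).comp Primrec.fst).to_comp
  exact h5

theorem tt_half (m n : ℕ) : TT (SepQ m (Half (B (Fin m) n))) fun c : Code =>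
    langC m c ∈ Half (B (Fin m) (n + 1)) := by
  obtain ⟨f, hf, hfe⟩ := exists_ccode m
  have hc : Primrec fun u : (Code × List ℕ) × List ℕ => u.1.1 := Primrec.fst.comp Primrec.fst
  have he : Primrec fun u : (Code × List ℕ) × List ℕ => u.1.2 := Primrec.snd.comp Primrec.fst
  have hy : Primrec fun u : (Code × List ℕ) × List ℕ => u.2 := Primrec.snd
  have h1 : ComputablePred fun u : (Code × List ℕ) × List ℕ =>
      tr u.1.1 (u.1.2 ++ u.1.2) = tr u.1.1 u.1.2 := cp_comp dec_idem Computable.fst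
  have hg : Computable fun u : (Code × List ℕ) × List ℕ => (f (u.1.1, u.2), f u.1) :=
    (hf.comp (hc.pair hy).to_comp).pair (hf.comp Computable.fst)
  have h2 : TT (SepQ m (Half (B (Fin m) n))) fun u : (Code × List ℕ) × List ℕ =>
      Separable (Half (B (Fin m) n)) (clN m u.1.1 u.2) (clN m u.1.1 u.1.2) :=
    tt_congr (tt_query hg) fun u => by
      show Separable _ (langC m (f (u.1.1, u.2))) (langC m (f u.1)) ↔ _
      rw [hfe, hfe]
  have h3 : ComputablePred fun u : (Code × List ℕ) × List ℕ =>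
      sleN m u.1.1 u.1.2 (u.1.2 ++ u.2 ++ u.1.2) :=
    cp_comp (Tth_sle m) (f := fun u : (Code × List ℕ) × List ℕ =>
      (u.1.1, (u.1.2, u.1.2 ++ u.2 ++ u.1.2)))
      (hc.pair (he.pair (Primrec.list_append.comp (Primrec.list_append.comp he hy) he))).to_comp
  have h4 : TT (SepQ m (Half (B (Fin m) n))) fun u : (Code × List ℕ) × List ℕ =>
      tr u.1.1 (u.1.2 ++ u.1.2) = tr u.1.1 u.1.2 →
      ¬ Separable (Half (B (Fin m) n)) (clN m u.1.1 u.2) (clN m u.1.1 u.1.2) →
      sleN m u.1.1 u.1.2 (u.1.2 ++ u.2 ++ u.1.2) :=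
    tt_congr (tt_or (tt_pred (cp_not h1)) (tt_or h2 (tt_pred h3))) fun u => by tauto
  have h5 := tt_forall (P := fun u : (Code × List ℕ) × List ℕ =>
    tr u.1.1 (u.1.2 ++ u.1.2) = tr u.1.1 u.1.2 →
      ¬ Separable (Half (B (Fin m) n)) (clN m u.1.1 u.2) (clN m u.1.1 u.1.2) →
      sleN m u.1.1 u.1.2 (u.1.2 ++ u.2 ++ u.1.2)) h4
    (l := fun x : Code × List ℕ => W m x.1) ((pr_W m).comp Primrec.fst).to_comp
  have h6 := tt_forall (P := fun x : Code × List ℕ => ∀ y ∈ W m x.1,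
    tr x.1 (x.2 ++ x.2) = tr x.1 x.2 →
      ¬ Separable (Half (B (Fin m) n)) (clN m x.1 y) (clN m x.1 x.2) →
      sleN m x.1 x.2 (x.2 ++ y ++ x.2)) h5
    (l := fun c : Code => W m c) (pr_W m).to_comp
  exact tt_congr (tt_and (tt_pred (dec_ap m)) h6) fun c => critHN_iff c

end Pool.Agent.MSL
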