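import Pool.Agent.MSL.Ttf
import Pool.Agent.MSL.Tth
import Pool.Agent.MSL.Eqc
import Pool.Agent.HSP.Kex
import Pool.Agent.HSP.QLvl
import Pool.Agent.HSP.Rcode

/-!
# Project MSL: membership from separation, all levels

`exists_K n`: `K₀`; `K₀ ∈ B (Fin 2) (n+1)` (`half_sub_B`), so `Rec K₀`, `exists_code`: `V₀` with `langC 2 V₀ = K₀`.
`critN_iff` and `dec_ap`, `tt_c1`, `tt_c2`, `tt_and`.
-/

namespace Pool.Agent.MSL

open Pool.Agent.DD Pool.Agent.HLV Pool.Agent.HSP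

theorem tt_full (m n : ℕ) (hn : 1 ≤ n) :
    TT (SepQ (m + 2) (B (Fin (m + 2)) (n + 1))) fun c : Code =>
      langC (m + 2) c ∈ B (Fin (m + 2)) (n + 2) := by
  obtain ⟨K₀, h0, h0'⟩ := exists_K n
  obtain ⟨V₀, rfl⟩ := exists_code (rec_B (half_sub_B h0))
  exact tt_congr (tt_and (tt_pred (dec_ap (m + 2))) (tt_and (tt_c1 (m + 2) n) (tt_c2 m n V₀)))
    fun c => critN_iff (by omega) hn h0 h0' c

/-- Membership in the level `k / 2 + 1` reduces to separation by the level `k / 2`. -/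
theorem tt_lev (m k : ℕ) (hk : 3 ≤ k) :
    TT (SepQ (m + 2) (Lev (Fin (m + 2)) k)) fun c : Code =>
      langC (m + 2) c ∈ Lev (Fin (m + 2)) (k + 2) := by
  rcases Nat.even_or_odd k with he | ho
  · obtain ⟨n, rfl⟩ : ∃ n, k = 2 * (n + 1) := ⟨k / 2 - 1, by obtain ⟨r, hr⟩ := he; omega⟩
    have h3 := tt_full m n (by omega)
    rw [show 2 * (n + 1) + 2 = 2 * (n + 1 + 1) by omega, Lev_even, Lev_even]
    exact h3
  · obtain ⟨n, rfl⟩ : ∃ n, k = 2 * n + 1 := ⟨k / 2, by obtain ⟨r, hr⟩ := ho; omega⟩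
    rw [show 2 * n + 1 + 2 = 2 * (n + 1) + 1 by omega, Lev_odd, Lev_odd]
    exact tt_half (m + 2) n

theorem memL_iff_sepL (m k : ℕ) (hk : 3 ≤ k) :
    DecMemL (m + 2) (k + 2) ↔ DecSepL (m + 2) k := by
  constructor
  · intro h
    obtain ⟨f, hf, hr⟩ := exists_lev (m + 1) m hk
    exact (cp_comp h hf).of_eq fun p => (hr p).symm
  · intro h
    exact tt_dec (tt_lev m k hk) h

end Pool.Agent.MSL
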