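import Pool.Agent.MSL.Ram

/-!
# Project MSL: a long product has a long idempotent part

The list is cut into `RM` consecutive groups of `g` items, Ramsey's theorem is applied to the list of the products of
the groups, and the groups of the idempotent part are concatenated.
-/

namespace Pool.Agent.MSL

open Pool.Agent.DD Pool.Agent.HLV

variable {A M : Type} [Monoid M] {α : List A → M}

private theorem Grp_cut (g : ℕ) : ∀ (n : ℕ) (xs : List (List A)), xs.length = g * n →
    ∃ gs : List (List (List A)), gs.length = n ∧ (∀ c ∈ gs, c.length = g) ∧ gs.flatten = xs := by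
  intro n
  induction n with
  | zero =>
    intro xs hx
    refine ⟨[], rfl, fun c hc => absurd hc List.not_mem_nil, ?_⟩
    rw [Nat.mul_zero] at hx
    rw [List.length_eq_zero_iff.1 hx]
    rfl
  | succ n ih =>
    intro xs hx
    have h1 : g ≤ xs.length := by
      rw [hx]
      exact Nat.le_mul_of_pos_right _ (Nat.succ_pos _)
    obtain ⟨gs, h2, h3, h4⟩ := ih (xs.drop g) (by
      rw [List.length_drop, hx, Nat.mul_succ]
      omega)
    refine ⟨xs.take g :: gs, by rw [List.length_cons, h2], ?_, ?_⟩
    · intro c hc
      rcases List.mem_cons.1 hc with h5 | h5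
      · rw [h5, List.length_take]
        omega
      · exact h3 c h5
    · rw [List.flatten_cons, h4, List.take_append_drop]

private theorem Grp_len (g : ℕ) : ∀ gs : List (List (List A)), (∀ c ∈ gs, c.length = g) →
    gs.flatten.length = g * gs.length := by
  intro gs
  induction gs with
  | nil => intro _; rfl
  | cons a t ih =>
    intro h
    rw [List.flatten_cons, List.length_append, ih fun c hc => h c (List.mem_cons_of_mem _ hc),
      h a List.mem_cons_self, List.length_cons]
    ring

theorem grp (hα : IsHom α) {RM : ℕ} (hR : RamC M RM) (g : ℕ) {xs : List (List A)}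
    (hx : xs.length = g * RM) : ∃ pre mid post, xs = pre ++ mid ++ post ∧ g ≤ mid.length ∧
      α mid.flatten * α mid.flatten = α mid.flatten := by
  obtain ⟨gs, h1, h2, h3⟩ := Grp_cut g RM xs hx
  obtain ⟨x1, x2, x3, h4, h5, h6⟩ := ramsey_words hα hR (xs := gs.map List.flatten)
    (by rw [List.length_map, h1])
  obtain ⟨l1, l2, h7, h8, h9⟩ := List.map_eq_append_iff.1 h4
  obtain ⟨l3, l4, h10, h11, h12⟩ := List.map_eq_append_iff.1 h8
  refine ⟨l3.flatten, l4.flatten, l2.flatten, ?_, ?_, ?_⟩
  · rw [← h3, h7, h10, List.flatten_append, List.flatten_append]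
  · have h13 : ∀ c ∈ l4, c.length = g := by
      intro c hc
      apply h2
      rw [h7, h10]
      exact List.mem_append_left _ (List.mem_append_right _ hc)
    rw [Grp_len g l4 h13]
    have h14 : l4 ≠ [] := by
      rintro rfl
      exact h5 h12.symm
    exact Nat.le_mul_of_pos_right _ (List.length_pos_of_ne_nil h14)
  · have h15 : l4.flatten.flatten = x2.flatten := by
      rw [List.flatten_flatten, h12]
    rw [h15]
    exact h6

end Pool.Agent.MSL
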