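import Pool.Agent.MSL.Nde

/-!
# Project MSL: the half levels (definitions)
-/

namespace Pool.Agent.MSL

open Pool.Agent.DD Pool.Agent.HLV Pool.Agent.HSP

variable {A : Type}

/-- The syntactic order. -/
def SynLe (L : Lang A) (x y : List A) : Prop := ∀ s t, s ++ x ++ t ∈ L → s ++ y ++ t ∈ L

/-- The criterion for membership of `L` in the half level above `B A (n+1)`. -/
def CritH {M : Type} (n : ℕ) (α : List A → M) (L : Lang A) (K : ℕ) : Prop :=
  (∀ x, SynEq L (pw x (K + 1)) (pw x K)) ∧
  ∀ e y, α (e ++ e) = α e → ¬ Separable (Half (B A n)) (cls α y) (cls α e) →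
    SynLe L e (e ++ y ++ e)

/-- The syntactic order, with bounded contexts. -/
def sleN (m : ℕ) (c : Code) (x y : List ℕ) : Prop :=
  ∀ s ∈ W m c, ∀ t ∈ W m c, acN c (s ++ x ++ t) = true → acN c (s ++ y ++ t) = true

/-- The criterion in numbers. -/
def CritHN (m n : ℕ) (c : Code) : Prop :=
  (∀ x ∈ W m c, synN m c (pw x (kN c + 1)) (pw x (kN c))) ∧
  (∀ e ∈ W m c, ∀ y ∈ W m c, tr c (e ++ e) = tr c e →
    ¬ Separable (Half (B (Fin m) n)) (clN m c y) (clN m c e) → sleN m c e (e ++ y ++ e))

/-- Membership in the level `k / 2` is decidable for automata over `Fin m`. -/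
def DecMemL (m k : ℕ) : Prop := ComputablePred fun c : Code => langC m c ∈ Lev (Fin m) k

/-- Separation by the level `k / 2` is decidable for automata over `Fin m`. -/
def DecSepL (m k : ℕ) : Prop :=
  ComputablePred fun p : Code × Code => Separable (Lev (Fin m) k) (langC m p.1) (langC m p.2)

end Pool.Agent.MSL
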