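import Pool.Agent.MSL.Bse
import Pool.Agent.MSL.Dpo
import Pool.Agent.MSL.Dfi

/-!
# Project MSL: half levels: relations and separation by `Half (B A n)`

`exists_baseH`: every `S ∈ Half (B A n)` is a finite union of `{[]}` and of products `catList L₀ Ls` with factors in `B A n` (`MonCl_B`);
`exists_base0` for all factors, `k` = the maximum of the lengths; `Dom δ k x y` and `x ∈ catList L₀ Ls` imply `y ∈ catList L₀ Ls`
(induction on `Ls`, `dom_two`, at level 0 `SynEq.mem`); `{[]}`: `Base.eps`.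
`half_pair`: `S = {w | ∃ x ∈ X, Dom δ k x w}` is in `Half (B A n)`: finitely many different sets `{w | Dom δ k x w}` (`eqv_fin`: words in
the same class of `Eqv δ k` have the same up-set, `dom_trans`), each in `Pol` by `dom_pol` (`j = n`, `Pol.base (hδ.cls u)`);
`HLV.pol_finite_union`, `HLV.half_iff`.  `X ⊆ S` (`dom_refl`); it is not a separator, so it meets `Y`.
-/

namespace Pool.Agent.MSL

open Pool.Agent.DD Pool.Agent.HLV

variable {A : Type}

private theorem hfa_list {n : ℕ} (Ss : List (Lang A)) (hS : ∀ S ∈ Ss, S ∈ Half (B A n)) :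
    ∃ Ps : List (Lang A), (∀ P ∈ Ps, P ∈ MonCl (B A n)) ∧
      ∀ S ∈ Ss, ∃ Qs : List (Lang A), (∀ Q ∈ Qs, Q ∈ Ps) ∧ S = {w | ∃ P ∈ Qs, w ∈ P} := by
  induction Ss with
  | nil => exact ⟨[], by simp, by simp⟩
  | cons S Ss ih =>
      obtain ⟨Ps, h1, h2⟩ := ih fun K hK => hS K (List.mem_cons_of_mem _ hK)
      obtain ⟨Qs, h3, h4⟩ := hS S List.mem_cons_self
      refine ⟨Qs ++ Ps, ?_, ?_⟩
      · intro P hP
        rcases List.mem_append.1 hP with hP | hP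
        · exact h3 P hP
        · exact h1 P hP
      · intro K hK
        rcases List.mem_cons.1 hK with rfl | hK
        · exact ⟨Qs, fun Q hQ => List.mem_append_left _ hQ, h4⟩
        · obtain ⟨Rs, h5, h6⟩ := h2 K hK
          exact ⟨Rs, fun Q hQ => List.mem_append_right _ (h5 Q hQ), h6⟩

private theorem hfa_factors {n : ℕ} (Ps : List (Lang A)) (hPs : ∀ P ∈ Ps, P ∈ MonCl (B A n)) :
    ∃ (Qs : List (Lang A)) (m : ℕ), (∀ Q ∈ Qs, Q ∈ B A n) ∧
      ∀ P ∈ Ps, ∃ L₀ ∈ Qs, ∃ Ls : List (Lang A), (∀ R ∈ Ls, R ∈ Qs) ∧ P = catList L₀ Ls ∧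
        Ls.length ≤ m := by
  induction Ps with
  | nil => exact ⟨[], 0, by simp, by simp⟩
  | cons P Ps ih =>
      obtain ⟨Qs, m, h1, h2⟩ := ih (fun K hK => hPs K (by simp [hK]))
      obtain ⟨L₀, hL₀, Ls, hLs, hP⟩ := MonCl_B (hPs P (by simp))
      refine ⟨L₀ :: (Ls ++ Qs), max m Ls.length, ?_, ?_⟩
      · intro Q hQ
        rcases List.mem_cons.1 hQ with rfl | hQ
        · exact hL₀
        · rcases List.mem_append.1 hQ with hQ | hQ
          · exact hLs Q hQ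
          · exact h1 Q hQ
      · intro K hK
        rcases List.mem_cons.1 hK with rfl | hK
        · exact ⟨L₀, by simp, Ls, fun K hK => by simp [hK], hP, le_max_right _ _⟩
        · obtain ⟨L₁, hL₁, Ks, hKs, hK', hlen⟩ := h2 K hK
          exact ⟨L₁, by simp [hL₁], Ks, fun K hK => by simp [hKs K hK], hK',
            le_trans hlen (le_max_left _ _)⟩

private theorem hfa_cat {δ : List A → List A → Prop} (hc : Cg δ) {Qs : List (Lang A)}
    (hQ : ∀ x y, δ x y → ∀ Q ∈ Qs, SynEq Q x y) (Ls : List (Lang A)) :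
    ∀ (L₀ : Lang A) (k : ℕ) (x y : List A), L₀ ∈ Qs → (∀ R ∈ Ls, R ∈ Qs) → Ls.length ≤ k →
      Dom δ k x y → x ∈ catList L₀ Ls → y ∈ catList L₀ Ls := by
  induction Ls with
  | nil =>
      intro L₀ k x y h0 _ _ hd hx
      exact ((hQ x y (dom_base hc hd) L₀ h0).mem).1 hx
  | cons K Ks ih =>
      intro L₀ k x y h0 hR hk hd hx
      obtain ⟨x₁, hx₁, x₂, hx₂, rfl⟩ := hx
      obtain ⟨k', rfl⟩ : ∃ k', k = k' + 1 := ⟨k - 1, by
        rw [List.length_cons] at hk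
        omega⟩
      obtain ⟨y₁, y₂, rfl, hd1, hd2⟩ := dom_two hd
      refine ⟨y₁, ((hQ _ _ (dom_base hc hd1) L₀ h0).mem).1 hx₁, y₂, ?_, rfl⟩
      refine ih K k' x₂ y₂ (hR K List.mem_cons_self)
        (fun R hR' => hR R (List.mem_cons_of_mem _ hR')) ?_ hd2 hx₂
      rw [List.length_cons] at hk
      omega

theorem exists_baseH [Finite A] (n : ℕ) (Ss : List (Lang A)) (hS : ∀ S ∈ Ss, S ∈ Half (B A n)) :
    ∃ (δ : List A → List A → Prop) (k : ℕ), Base n δ ∧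
      ∀ x y, Dom δ k x y → ∀ S ∈ Ss, x ∈ S → y ∈ S := by
  obtain ⟨Ps, hPs, hSP⟩ := hfa_list Ss hS
  obtain ⟨Qs, m, hQs, hfac⟩ := hfa_factors Ps hPs
  obtain ⟨δ, hδ, hδQ⟩ := exists_base0 n Qs hQs
  refine ⟨δ, m, hδ, fun x y hd S hSm hx => ?_⟩
  obtain ⟨Rs, hRs, rfl⟩ := hSP S hSm
  obtain ⟨P, hP, hxP⟩ := hx
  obtain ⟨L₀, h0, Ls, hLs, hPe, hlen⟩ := hfac P (hRs P hP)
  refine ⟨P, hP, ?_⟩
  rw [hPe] at hxP ⊢
  exact hfa_cat hδ.cg hδQ Ls L₀ m x y h0 hLs hlen hd hxP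

theorem half_pair [Finite A] {n : ℕ} {X Y : Lang A} (h : ¬ Separable (Half (B A n)) X Y)
    {δ : List A → List A → Prop} (hδ : Base n δ) (k : ℕ) :
    ∃ x ∈ X, ∃ y ∈ Y, Dom δ k x y := by
  by_contra hcon
  apply h
  obtain ⟨m, c, hc⟩ := eqv_fin hδ.cg hδ.fin k
  let ι : Type := {p : Fin m // ∃ x ∈ X, c x = p}
  let rp : ι → List A := fun p => p.2.choose
  have hrX : ∀ p : ι, rp p ∈ X := fun p => p.2.choose_spec.1
  have hrc : ∀ p : ι, c (rp p) = p.1 := fun p => p.2.choose_spec.2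
  have hpol : Pol (B A n) {w | ∃ p : ι, w ∈ (fun p : ι => {w | Dom δ k (rp p) w}) p} :=
    pol_finite_union _ fun p => dom_pol hδ.cg (fun u => Pol.base (hδ.cls u)) k (rp p)
  refine ⟨_, half_of_pol hpol, ?_, ?_⟩
  · intro x hx
    refine ⟨⟨c x, x, hx, rfl⟩, ?_⟩
    exact (hc _ _ (hrc ⟨c x, x, hx, rfl⟩)).1
  · rintro w ⟨p, hw⟩ hwY
    exact hcon ⟨rp p, hrX p, w, hwY, hw⟩

end Pool.Agent.MSL
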