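import Pool.Agent.MSL.Com
import Pool.Agent.MSL.Hfa

/-!
# Project MSL: half levels: a relation which separates the bad pairs

For each of the finitely many pairs of classes there is a relation of bounded domination given by a separator; take the common
refinement.
-/

namespace Pool.Agent.MSL

open Pool.Agent.DD Pool.Agent.HLV

variable {A M : Type}

theorem hyp3 [Finite A] {n : ℕ} [Finite M] {α : List A → M} (Bad : M → M → Prop)
    (h : ∀ e y : List A, α (e ++ e) = α e → Bad (α e) (α y) →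
      Separable (Half (B A n)) (cls α y) (cls α e)) :
    ∃ (δ : List A → List A → Prop) (k : ℕ), Base n δ ∧ ∀ E Y, α (E ++ E) = α E →
      Bad (α E) (α Y) → ¬ Dom δ k Y E := by
  have h1 : ∀ i : M × M, ∃ (δ : List A → List A → Prop) (k : ℕ), Base n δ ∧
      ∀ E Y, α E = i.1 → α Y = i.2 → α (E ++ E) = α E → Bad (α E) (α Y) → ¬ Dom δ k Y E := by
    intro i
    by_cases hi : ∃ e y, α e = i.1 ∧ α y = i.2 ∧ α (e ++ e) = α e ∧ Bad (α e) (α y)
    · obtain ⟨e, y, h2, h3, h4, h5⟩ := hi
      obtain ⟨S, hS, h6, h7⟩ := h e y h4 h5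
      obtain ⟨δ, k, h8, h9⟩ := exists_baseH n [S] (fun S' hS' => by
        rw [List.mem_singleton.1 hS']
        exact hS)
      refine ⟨δ, k, h8, fun E Y hE hY _ _ hD => ?_⟩
      have h10 : Y ∈ S := h6 (show α Y = α y by rw [hY, h3])
      have h11 : E ∈ S := h9 Y E hD S (List.mem_singleton.2 rfl) h10
      exact h7 E h11 (show α E = α e by rw [hE, h2])
    · obtain ⟨δ, k, h8, _⟩ := exists_baseH n ([] : List (Lang A)) (fun S' hS' => absurd hS' List.not_mem_nil)
      exact ⟨δ, k, h8, fun E Y hE hY h2 h3 _ => hi ⟨E, Y, hE, hY, h2, h3⟩⟩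
  choose δ k hδ hB using h1
  obtain ⟨δ', k', h2, h3⟩ := exists_common δ k hδ
  exact ⟨δ', k', h2, fun E Y hE hb hD => hB (α E, α Y) E Y rfl rfl hE hb (h3 (α E, α Y) Y E hD)⟩

end Pool.Agent.MSL
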