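import Pool.Agent.MSL.Hfb
import Pool.Agent.MSL.Idm
import Pool.Agent.MSL.Pt
import Pool.Agent.MSL.Quo
import Pool.Agent.MSL.Dpo
import Pool.Agent.MSL.Dap
import Pool.Agent.MSL.Hde

/-!
# Project MSL: half levels: the criterion is sufficient

The relation of `hyp3` separates the bad pairs, so one step of a chain (`pt`) for the quotient by the syntactic congruence and the
quotient by `Eqv δ k` increases the word in the syntactic order.  Hence `L` is a union of up-sets of a domination relation, which are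
in `Pol (B A (n + 1))`.
-/

namespace Pool.Agent.MSL

open Pool.Agent.DD Pool.Agent.HLV

variable {A M : Type}

private theorem hfc_cg (L : Lang A) : Cg (SynEq L) where
  refl x := SynEq.refl L x
  symm h := h.symm
  trans h1 h2 := h1.trans h2
  app h1 h2 := h1.app h2

private theorem hfc_cg_ker {N : Type} [Monoid N] {η : List A → N} (hη : IsHom η) :
    Cg (fun x y : List A => η x = η y) where
  refl _ := rfl
  symm h := h.symm
  trans h1 h2 := h1.trans h2
  app {x x' y y'} h1 h2 := by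
    show η (x ++ y) = η (x' ++ y')
    rw [hη.mul, hη.mul, h1, h2]

private theorem hfc_ctx {L : Lang A} {x y : List A} (h : SynLe L x y) (s t : List A) :
    SynLe L (s ++ x ++ t) (s ++ y ++ t) := by
  intro p q hpq
  have e1 : p ++ (s ++ x ++ t) ++ q = (p ++ s) ++ x ++ (t ++ q) := by simp [List.append_assoc]
  have e2 : p ++ (s ++ y ++ t) ++ q = (p ++ s) ++ y ++ (t ++ q) := by simp [List.append_assoc]
  rw [e1] at hpq
  rw [e2]
  exact h (p ++ s) (t ++ q) hpq

private theorem hfc_of_eq {L : Lang A} {x y : List A} (h : SynEq L x y) : SynLe L x y :=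
  fun s t => (h s t).1

private theorem hfc_trans {L : Lang A} {x y z : List A} (h1 : SynLe L x y) (h2 : SynLe L y z) :
    SynLe L x z := fun s t hx => h2 s t (h1 s t hx)

private theorem hfc_fin [Finite M] (α : List A → M) {r : List A → List A → Prop}
    (hr : ∀ x y, α x = α y → r x y) : FinIdx r :=
  ⟨Nat.card M, fun x => Finite.equivFin M (α x), fun x y e => hr x y ((Finite.equivFin M).injective e)⟩

theorem mem_of_critH [Finite A] {n : ℕ} [Monoid M] [Finite M] {α : List A → M} (hα : IsHom α)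
    {L : Lang A} (hr : ∀ x y, α x = α y → SynEq L x y) {K : ℕ} (h : CritH n α L K) :
    L ∈ Half (B A (n + 1)) := by
  -- bad pairs
  obtain ⟨δ, k, hδ, hB⟩ := hyp3 (n := n) (α := α)
    (fun m m' => ∃ e y, α e = m ∧ α y = m' ∧ ¬ SynLe L e (e ++ y ++ e)) (by
      rintro e y he ⟨e', y', h1, h2, h3⟩
      by_contra hs
      apply h3
      apply h.2 e' y'
      · rw [hα.mul, h1, ← hα.mul, he]
      · have e1 : cls α y' = cls α y := by
          ext w
          show α w = α y' ↔ α w = α y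
          rw [h2]
        have e2 : cls α e' = cls α e := by
          ext w
          show α w = α e' ↔ α w = α e
          rw [h1]
        rw [e1, e2]
        exact hs)
  -- the two quotients
  obtain ⟨M', iM, fM, β, hβ, hβs, hβr⟩ := exists_quot (hfc_cg L) (hfc_fin α hr)
  obtain ⟨N, iN, fN, η, hη, hηs, hηr⟩ := exists_quot (eqv_cg hδ.cg k) (eqv_fin hδ.cg hδ.fin k)
  obtain ⟨K₁, hK₁⟩ := hδ.ap
  obtain ⟨K₂, hK₂⟩ := eqv_ap hδ.cg hK₁ k
  have aM : Aper M' K := aper_of_quot hβ hβs (fun x y hxy => (hβr x y).2 hxy) h.1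
  have aN : Aper N K₂ := aper_of_quot hη hηs (fun x y hxy => (hηr x y).2 hxy) hK₂
  have aM' : Aper M' (max K K₂) := aM.of_le (le_max_left _ _)
  have aN' : Aper N (max K K₂) := aN.of_le (le_max_right _ _)
  obtain ⟨kk, hkk⟩ := pt hβ hη aM' aN'
    (fun x hx => hδ.eps x (dom_base hδ.cg ((hηr x []).1 (by rw [hx, hη.one])).1))
    (fun x a hx => hδ.sgl x a (dom_base hδ.cg ((hηr x [a]).1 hx).1))
    (r := fun x y => η x = η y) (hfc_cg_ker hη) (fun _ _ hxy => hxy)
  obtain ⟨N₁, hN₁, hidem⟩ := exists_idem M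
  -- one step
  have hstep : ∀ s s' : M', Step β η s s' → ∀ x y, β x = s → β y = s' → SynLe L x y := by
    rintro s s' ⟨G, E, Y, H, hE1, hE2, hY, hs, hs'⟩ x y hx hy
    have hx' : SynEq L x (G ++ E ++ H) := (hβr _ _).1 (hx.trans hs)
    have hy' : SynEq L (G ++ E ++ Y ++ E ++ H) y := (hβr _ _).1 (hs'.symm.trans hy.symm)
    -- the power
    have f1 : α (pw E N₁ ++ pw E N₁) = α (pw E N₁) := by
      rw [hα.mul, hα.pw]
      exact hidem _
    have f2 : SynEq L (pw E N₁) E := by
      refine (hβr _ _).1 ?_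
      rw [hβ.pw, idem_pow hE1 hN₁]
    have f3 : η (pw E N₁) = η Y := by
      rw [hη.pw, idem_pow hE2 hN₁, hY]
    have f4 : Dom δ k Y (pw E N₁) := ((hηr _ _).1 f3).2
    have f5 : SynLe L (pw E N₁) (pw E N₁ ++ Y ++ pw E N₁) := by
      by_contra hcon
      exact hB (pw E N₁) Y f1 ⟨pw E N₁, Y, rfl, rfl, hcon⟩ f4
    have f6 : SynLe L E (E ++ Y ++ E) :=
      hfc_trans (hfc_of_eq f2.symm) (hfc_trans f5 (hfc_of_eq ((f2.app (SynEq.refl L Y)).app f2)))
    have f7 : SynLe L (G ++ E ++ H) (G ++ (E ++ Y ++ E) ++ H) := hfc_ctx f6 G H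
    have e1 : G ++ (E ++ Y ++ E) ++ H = G ++ E ++ Y ++ E ++ H := by simp [List.append_assoc]
    rw [e1] at f7
    exact hfc_trans (hfc_of_eq hx') (hfc_trans f7 (hfc_of_eq hy'))
  have hchain : ∀ s s' : M', Chain β η s s' → ∀ x y, β x = s → β y = s' → SynLe L x y := by
    intro s s' hc
    induction hc with
    | refl => exact fun x y hx hy => hfc_of_eq ((hβr _ _).1 (hx.trans hy.symm))
    | @tail t t' _ h2 ih =>
      intro x y hx hy
      obtain ⟨z, hz⟩ := hβs t
      exact hfc_trans (ih x z hx hz) (hstep _ _ h2 z y hz hy)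
  have hup : ∀ u v, Dom (fun x y => η x = η y) kk u v → u ∈ L → v ∈ L := by
    intro u v hD hu
    have h1 := hchain _ _ (hkk u v hD) u v rfl rfl [] []
    simp only [List.nil_append, List.append_nil] at h1
    exact h1 hu
  -- the up-sets
  have hcls : ∀ u, Pol (B A (n + 1)) {v | (fun x y => η x = η y) u v} := by
    intro u
    refine Pol.base (union_B hδ.cg hδ.fin (fun w => Pol.base (hδ.cls w)) k ?_)
    intro x y hxy
    have hη' : η x = η y := (hηr _ _).2 hxy
    show η u = η x ↔ η u = η y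
    rw [hη']
  obtain ⟨m, c, hc⟩ := eqv_fin (hfc_cg_ker hη) (hfc_fin η (fun _ _ hxy => hxy)) kk
  let ι : Type := {p : Fin m // ∃ x ∈ L, c x = p}
  let rp : ι → List A := fun p => p.2.choose
  have hrX : ∀ p : ι, rp p ∈ L := fun p => p.2.choose_spec.1
  have hrc : ∀ p : ι, c (rp p) = p.1 := fun p => p.2.choose_spec.2
  have hpol : Pol (B A (n + 1))
      {w | ∃ p : ι, w ∈ (fun p : ι => {w | Dom (fun x y => η x = η y) kk (rp p) w}) p} :=
    pol_finite_union _ fun p => dom_pol (hfc_cg_ker hη) hcls kk (rp p)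
  have e : L = {w | ∃ p : ι, w ∈ (fun p : ι => {w | Dom (fun x y => η x = η y) kk (rp p) w}) p} := by
    ext w
    constructor
    · intro hw
      exact ⟨⟨c w, w, hw, rfl⟩, (hc _ _ (hrc ⟨c w, w, hw, rfl⟩)).1⟩
    · rintro ⟨p, hw⟩
      exact hup _ _ hw (hrX p)
  rw [e]
  exact half_of_pol hpol

end Pool.Agent.MSL
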