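import Pool.Agent.MSL.Bas

/-!
# Project MSL: insertion lemma (D3)

Induction on `k`.  `k = 0`: `h.symm hY`.  Step `k + 1`: from `Eqv r (k+1) E (E ++ E)` one gets
`Eqv r (k+1) E (E ++ E ++ E)` and (`eqv_mono`) the same at level `k`, so by induction `E ≤_k EYE`.
Show `EEE ≤_(k+1) EEE Y EEE`; then `E ≤_(k+1) EEE ≤_(k+1) EEEYEEE ≤_(k+1) EYE` (`dom_app`, `dom_trans`).
Let `EEE = w₁ w₂` (use `List.append_eq_append_iff` to find the copy in which the cut is, `E = e₁ e₂`):
copy 0: `w₁ = e₁`, `w₂ = e₂ E E`: answer `e₁ | e₂ E E Y E E E`;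
copy 1: `w₁ = E e₁`, `w₂ = e₂ E`: answer `E e₁ | e₂ E Y E E E`;
copy 2: `w₁ = E E e₁`, `w₂ = e₂`: answer `E E E Y E E e₁ | e₂`.
In each case the part without `Y` is literally the same, and the other part is above it at level `k`
because `E ≤_k EYE` and `E =_k EE =_k EEE` (so `E ≤_k E Y E E E` and `EE ≤_k E E E Y E E`).
-/

namespace Pool.Agent.MSL

open Pool.Agent.DD Pool.Agent.HLV

variable {A M N S : Type}

variable {r : List A → List A → Prop}

/-- (D3) -/
theorem dom_ins (h : Cg r) {k : ℕ} {E Y : List A} (hE : Eqv r k E (E ++ E))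
    (hY : r (E ++ Y ++ E) E) : Dom r k E (E ++ Y ++ E) := by
  have key : ∀ j, j ≤ k → Dom r j E (E ++ Y ++ E) := by
    intro j
    induction j with
    | zero => exact fun _ => h.symm hY
    | succ j ih =>
        intro hj
        have hc := eqv_cg h j
        have hc1 := eqv_cg h (j + 1)
        have e2 : Eqv r (j + 1) E (E ++ E) := ⟨dom_mono h hj hE.1, dom_mono h hj hE.2⟩
        have e3 : Eqv r (j + 1) E (E ++ E ++ E) := hc1.trans e2 (hc1.app e2 (hc1.refl E))
        have e3' : Eqv r j E (E ++ E ++ E) :=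
          ⟨dom_mono h (Nat.le_succ j) e3.1, dom_mono h (Nat.le_succ j) e3.2⟩
        have d0 : Dom r j E (E ++ Y ++ E) := ih (by omega)
        have d1 : Dom r j E (E ++ Y ++ (E ++ E ++ E)) :=
          dom_trans h d0 (dom_app h (dom_refl h j _) e3'.1)
        have d2 : Dom r j E (E ++ E ++ E ++ Y ++ E) :=
          dom_trans h d0 (dom_app h (dom_app h e3'.1 (dom_refl h j Y)) (dom_refl h j E))
        have main : Dom r (j + 1) (E ++ E ++ E) (E ++ E ++ E ++ Y ++ (E ++ E ++ E)) := by
          intro w₁ w₂ hw
          rcases List.append_eq_append_iff.1 hw with ⟨a, h1, h2⟩ | ⟨c, h1, h2⟩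
          · refine ⟨E ++ E ++ E ++ Y ++ (E ++ E ++ a), w₂, ?_, ?_, dom_refl h j _⟩
            · have : E ++ E ++ E = E ++ E ++ a ++ w₂ := by
                rw [List.append_assoc (E ++ E) a w₂, ← h2]
              rw [List.append_assoc (E ++ E ++ E ++ Y), ← this]
            · rw [h1]
              have := dom_app h (dom_app h d2 (dom_refl h j E)) (dom_refl h j a)
              simpa [List.append_assoc] using this
          · rcases List.append_eq_append_iff.1 h1 with ⟨a, h3, h4⟩ | ⟨c', h3, h4⟩
            · refine ⟨w₁, c ++ (E ++ Y ++ (E ++ E ++ E)), ?_, dom_refl h j _, ?_⟩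
              · have : E ++ E ++ E = w₁ ++ c ++ E := by rw [h1]
                rw [this]
                simp [List.append_assoc]
              · rw [h2]
                exact dom_app h (dom_refl h j c) d1
            · refine ⟨w₁, c ++ (E ++ Y ++ (E ++ E ++ E)), ?_, dom_refl h j _, ?_⟩
              · have : E ++ E ++ E = w₁ ++ c ++ E := by rw [h1]
                rw [this]
                simp [List.append_assoc]
              · rw [h2]
                exact dom_app h (dom_refl h j c) d1
        refine dom_trans h e3.1 (dom_trans h main ?_)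
        exact dom_app h (dom_app h e3.2 (dom_refl h _ Y)) e3.2
  exact key k le_rfl

end Pool.Agent.MSL
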