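import Pool.Agent.MSL.Hfa
import Pool.Agent.MSL.Idm
import Pool.Agent.MSL.Ins
import Pool.Agent.MSL.Dap
import Pool.Agent.MSL.Hde
import Pool.Agent.HLV.Pair

/-!
# Project MSL: half levels: the criterion is necessary

First part: `snd_aper`.  Second part: `half_pair` gives words `Y₁`, `E₁` with the values of `y`, `e` and `Dom δ k Y₁ E₁`; a
power `E` of `E₁` satisfies `E =_k EE`, `E =_k E Y₁ E` (`dom_ins`), and `HLV.pol_jump` applies.
-/

namespace Pool.Agent.MSL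

open Pool.Agent.DD Pool.Agent.HLV

variable {A M : Type}

private theorem Hfd_ap {r : List A → List A → Prop} (h : Cg r) {N : ℕ} (hr : ApR r N) (x : List A)
    {j : ℕ} (hj : N ≤ j) : r (pw x N) (pw x j) := by
  induction hj with
  | refl => exact h.refl _
  | step hj ih => exact h.trans ih (h.symm (ApR.mono h hr hj x))

/-- The words `E` and `Y₁`. -/
private theorem Hfd_words [Finite A] {n : ℕ} [Monoid M] {α : List A → M} (hα : IsHom α)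
    {δ : List A → List A → Prop} (hδ : Base n δ) (k : ℕ) {e Y₁ E₁ : List A}
    (he : α e * α e = α e) (hE : α E₁ = α e) (hd : Dom δ k Y₁ E₁) :
    ∃ E : List A, α E = α e ∧ Eqv δ k E (E ++ E) ∧ Eqv δ k E (E ++ Y₁ ++ E) := by
  obtain ⟨K0, hK0⟩ := hδ.ap
  obtain ⟨N0, hN0⟩ := eqv_ap hδ.cg hK0 k
  have hcg := eqv_cg hδ.cg k
  have hN : ApR (Eqv δ k) (N0 + 1) := ApR.mono hcg hN0 (Nat.le_succ N0)
  have hEE : Eqv δ k (pw E₁ (N0 + 1)) (pw E₁ (N0 + 1) ++ pw E₁ (N0 + 1)) := by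
    rw [← pw_add]
    exact Hfd_ap hcg hN E₁ (by omega)
  have hEE1 : Eqv δ k (pw E₁ (N0 + 1)) (pw E₁ (N0 + 1) ++ E₁ ++ pw E₁ (N0 + 1)) := by
    have h1 : pw E₁ (N0 + 1) ++ E₁ ++ pw E₁ (N0 + 1) = pw E₁ ((N0 + 1) + 1 + (N0 + 1)) := by
      rw [pw_add E₁ ((N0 + 1) + 1) (N0 + 1), pw_succ' E₁ (N0 + 1)]
    rw [h1]
    exact Hfd_ap hcg hN E₁ (by omega)
  have hlow : Dom δ k (pw E₁ (N0 + 1) ++ Y₁ ++ pw E₁ (N0 + 1)) (pw E₁ (N0 + 1)) := by
    refine dom_trans hδ.cg ?_ hEE1.2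
    exact dom_app hδ.cg (dom_app hδ.cg (dom_refl hδ.cg k _) hd) (dom_refl hδ.cg k _)
  refine ⟨pw E₁ (N0 + 1), ?_, hEE, dom_ins hδ.cg hEE (dom_base hδ.cg hlow), hlow⟩
  rw [hα.pw, hE, idem_pow he (by omega)]

theorem critH_of_mem [Finite A] {n : ℕ} [Monoid M] [Finite M] {α : List A → M} (hα : IsHom α)
    {L : Lang A} (hr : ∀ x y, α x = α y → SynEq L x y) {K : ℕ} (hK : Nat.card M ≤ K)
    (hL : L ∈ Half (B A (n + 1))) : CritH n α L K := by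
  refine ⟨snd_aper (half_sub_B hL) hα hr hK, fun e y he hsep s t hst => ?_⟩
  obtain ⟨Fs, m, hm, hF, hj⟩ := pol_jump (half_iff.1 hL)
  obtain ⟨δ, k, hδ, hsyn⟩ := exists_base n Fs hF
  obtain ⟨Y₁, hY, E₁, hE, hd⟩ := half_pair hsep hδ k
  have he2 : α e * α e = α e := by rw [← hα.mul, he]
  obtain ⟨E, hE2, hEE, hEY⟩ := Hfd_words hα hδ k he2 hE hd
  have h1 : α (pw E m) = α e := by rw [hα.pw, hE2, idem_pow he2 hm]
  have h2 : s ++ pw E m ++ t ∈ L := (hr e (pw E m) h1.symm s t).1 hst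
  have h3 := hj E Y₁ (fun F hF' => hsyn _ _ hEE F hF') (fun F hF' => hsyn _ _ hEY F hF') s t h2
  have h4 : α (pw E m ++ Y₁ ++ pw E m) = α (e ++ y ++ e) := by
    rw [hα.mul3, hα.mul3, h1, show α Y₁ = α y from hY]
  exact (hr _ _ h4 s t).1 h3

end Pool.Agent.MSL
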