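import Pool.Agent.MSL.Shr

/-!
# Project MSL: syntactic equivalence with bounded contexts

`synN_iff`: contexts of `W m c` come from words over `Fin m` (`of_W`), and every context over `Fin m` may be replaced by one of
`W m c` with the same `tr` (`exists_W`, `tr_app`, `acN_congr`).
`synN_congr`: `synN` depends only on `tr c x`, `tr c y` (`tr_app`, `acN_congr`).
-/

namespace Pool.Agent.MSL

open Pool.Agent.DD Pool.Agent.HLV Pool.Agent.HSP

private theorem Syd_ctx {c : Code} {s s' t t' x x' : List ℕ} (hs : tr c s = tr c s')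
    (hx : tr c x = tr c x') (ht : tr c t = tr c t') :
    acN c (s ++ x ++ t) = acN c (s' ++ x' ++ t') :=
  acN_congr (tr_app (tr_app hs hx) ht)

private theorem Syd_bool {a b : Bool} : a = b ↔ (a = true ↔ b = true) := by
  cases a <;> cases b <;> simp

private theorem Syd_map {m : ℕ} {c : Code} (s x t : List (Fin m)) :
    acN c (s.map Fin.val ++ x.map Fin.val ++ t.map Fin.val) = true ↔
      s ++ x ++ t ∈ langC m c := by
  rw [← List.map_append, ← List.map_append]
  exact acN_iff

theorem synN_iff {m : ℕ} {c : Code} {x y : List (Fin m)} :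
    synN m c (x.map Fin.val) (y.map Fin.val) ↔ SynEq (langC m c) x y := by
  constructor
  · intro h s t
    obtain ⟨s', hs', es⟩ := exists_W m c s
    obtain ⟨t', ht', et⟩ := exists_W m c t
    have h1 := h _ hs' _ ht'
    rw [Syd_ctx es (rfl : tr c (x.map Fin.val) = _) et,
      Syd_ctx es (rfl : tr c (y.map Fin.val) = _) et] at h1
    rw [← Syd_map s x t, ← Syd_map s y t]
    exact Syd_bool.1 h1
  · intro h s hs t ht
    obtain ⟨s', rfl⟩ := of_W hs
    obtain ⟨t', rfl⟩ := of_W ht
    rw [Syd_bool, Syd_map s' x t', Syd_map s' y t']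
    exact h s' t'

theorem synN_congr {m : ℕ} {c : Code} {x x' y y' : List ℕ} (hx : tr c x = tr c x')
    (hy : tr c y = tr c y') (h : synN m c x y) : synN m c x' y' := by
  intro s hs t ht
  have h1 := h s hs t ht
  rw [Syd_ctx (rfl : tr c s = _) hx (rfl : tr c t = _),
    Syd_ctx (rfl : tr c s = _) hy (rfl : tr c t = _)] at h1
  exact h1

end Pool.Agent.MSL
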