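import Pool.Agent.MSL.Hfc
import Pool.Agent.MSL.Hfd
import Pool.Agent.MSL.Syd

/-!
# Project MSL: half levels: the criterion in numbers

As `critN_iff` (Eqc.lean): `exists_rec m c`: `M`, `α`, `K = kN c`; `mem_of_critH`, `critH_of_mem`; `CritH ↔ CritHN` by replacing words
(`exists_W`, `of_W`, `synN_iff`, `tr_app`, `acN_congr`); `sleN m c (x.map Fin.val) (y.map Fin.val) ↔ SynLe (langC m c) x y` as in Syd.lean.
-/

namespace Pool.Agent.MSL

open Pool.Agent.DD Pool.Agent.HLV Pool.Agent.HSP

private theorem Hfe_ctx {c : Code} {s s' t t' x x' : List ℕ} (hs : tr c s = tr c s')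
    (hx : tr c x = tr c x') (ht : tr c t = tr c t') :
    acN c (s ++ x ++ t) = acN c (s' ++ x' ++ t') :=
  acN_congr (tr_app (tr_app hs hx) ht)

private theorem Hfe_map {m : ℕ} {c : Code} (s x t : List (Fin m)) :
    acN c (s.map Fin.val ++ x.map Fin.val ++ t.map Fin.val) = true ↔
      s ++ x ++ t ∈ langC m c := by
  rw [← List.map_append, ← List.map_append]
  exact acN_iff

private theorem Hfe_congr {m : ℕ} {c : Code} {x x' y y' : List ℕ} (hx : tr c x = tr c x')
    (hy : tr c y = tr c y') (h : sleN m c x y) : sleN m c x' y' := by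
  intro s hs t ht h0
  have h1 := h s hs t ht
  rw [Hfe_ctx (rfl : tr c s = _) hx (rfl : tr c t = _),
    Hfe_ctx (rfl : tr c s = _) hy (rfl : tr c t = _)] at h1
  exact h1 h0

private theorem Hfe_pw {A C : Type} (f : A → C) (x : List A) (k : ℕ) :
    (pw x k).map f = pw (x.map f) k := by
  unfold pw
  rw [List.map_flatten, List.map_replicate]

private theorem Hfe_tr {c : Code} {x x' : List ℕ} (h : tr c x = tr c x') (k : ℕ) :
    tr c (pw x k) = tr c (pw x' k) := by
  induction k with
  | zero => rfl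
  | succ k ih =>
    rw [pw_succ, pw_succ]
    exact tr_app h ih

private theorem Hfe_cl {m : ℕ} {c : Code} {e e' : List ℕ} (h : tr c e = tr c e') :
    clN m c e = clN m c e' := by
  unfold clN
  rw [h]

theorem sleN_iff {m : ℕ} {c : Code} {x y : List (Fin m)} :
    sleN m c (x.map Fin.val) (y.map Fin.val) ↔ SynLe (langC m c) x y := by
  constructor
  · intro h s t hst
    obtain ⟨s', hs', es⟩ := exists_W m c s
    obtain ⟨t', ht', et⟩ := exists_W m c t
    have h1 := h _ hs' _ ht'
    rw [Hfe_ctx es (rfl : tr c (x.map Fin.val) = _) et,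
      Hfe_ctx es (rfl : tr c (y.map Fin.val) = _) et] at h1
    exact (Hfe_map s y t).1 (h1 ((Hfe_map s x t).2 hst))
  · intro h s hs t ht hst
    obtain ⟨s', rfl⟩ := of_W hs
    obtain ⟨t', rfl⟩ := of_W ht
    exact (Hfe_map s' y t').2 (h s' t' ((Hfe_map s' x t').1 hst))

theorem critHN_iff {m n : ℕ} (c : Code) :
    CritHN m n c ↔ langC m c ∈ Half (B (Fin m) (n + 1)) := by
  obtain ⟨M, iM, fM, α, hα, hcard, hiff, hsyn⟩ := exists_rec m c
  have hcl : ∀ e : List (Fin m), clN m c (e.map Fin.val) = cls α e := by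
    intro e
    ext w
    exact (hiff w e).symm
  have hid : ∀ e : List (Fin m), tr c (e.map Fin.val ++ e.map Fin.val) = tr c (e.map Fin.val) ↔
      α (e ++ e) = α e := by
    intro e
    rw [hiff, List.map_append]
  have hcrit : CritHN m n c ↔ CritH n α (langC m c) (kN c) := by
    unfold CritHN CritH
    constructor
    · rintro ⟨c1, c2⟩
      refine ⟨fun x => ?_, fun e y he hs => ?_⟩
      · obtain ⟨x', hx, tx⟩ := exists_W m c x
        rw [← synN_iff, Hfe_pw, Hfe_pw]
        exact synN_congr (Hfe_tr tx _) (Hfe_tr tx _) (c1 _ hx)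
      · obtain ⟨e', he', te⟩ := exists_W m c e
        obtain ⟨y', hy', ty⟩ := exists_W m c y
        have k1 : tr c (e'.map Fin.val ++ e'.map Fin.val) = tr c (e'.map Fin.val) := by
          rw [tr_app te te, te, (hid e).2 he]
        have k2 : ¬ Separable (Half (B (Fin m) n)) (clN m c (y'.map Fin.val))
            (clN m c (e'.map Fin.val)) := by
          rw [Hfe_cl te, Hfe_cl ty, hcl, hcl]
          exact hs
        have k3 := c2 _ he' _ hy' k1 k2
        rw [← sleN_iff]
        simp only [List.map_append]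
        exact Hfe_congr te (tr_app (tr_app te ty) te) k3
    · rintro ⟨c1, c2⟩
      refine ⟨fun x hx => ?_, fun e he y hy h1 h2 => ?_⟩
      · obtain ⟨x, rfl⟩ := of_W hx
        rw [← Hfe_pw, ← Hfe_pw, synN_iff]
        exact c1 x
      · obtain ⟨e, rfl⟩ := of_W he
        obtain ⟨y, rfl⟩ := of_W hy
        rw [hcl, hcl] at h2
        have k3 := c2 e y ((hid e).1 h1) h2
        rw [← sleN_iff] at k3
        simpa only [List.map_append] using k3
  rw [hcrit]
  exact ⟨mem_of_critH hα hsyn, critH_of_mem hα hsyn hcard⟩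

end Pool.Agent.MSL
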