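import Pool.Agent.MSL.Com

/-!
# Project MSL: a relation which separates the bad pairs
-/

namespace Pool.Agent.MSL

open Pool.Agent.DD Pool.Agent.HLV

variable {A M : Type}

private theorem hyp1_pair [Finite A] {n : ℕ} {α : List A → M} (Bad : M → M → Prop)
    (h : ∀ e y : List A, α (e ++ e) = α e → Bad (α e) (α y) →
      Separable (B A (n + 1)) (cls α e) (cls α y)) (i : M × M) :
    ∃ p : (List A → List A → Prop) × ℕ, Base n p.1 ∧ ∀ E Y, α E = i.1 → α Y = i.2 →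
      α (E ++ E) = α E → Bad (α E) (α Y) → ¬ Eqv p.1 p.2 E Y := by
  by_cases hc : ∃ e y : List A, α e = i.1 ∧ α y = i.2 ∧ α (e ++ e) = α e ∧ Bad (α e) (α y)
  · obtain ⟨e, y, h1, h2, h3, h4⟩ := hc
    obtain ⟨Z, hZ, hZ1, hZ2⟩ := h e y h3 h4
    obtain ⟨δ, k, hb, hδ⟩ := exists_base n [Z] (by
      intro L hL
      rw [List.mem_singleton] at hL
      rw [hL]
      exact hZ)
    refine ⟨(δ, k), hb, fun E Y hE hY _ _ hEY => ?_⟩
    have h5 := hδ E Y hEY Z (List.mem_singleton.2 rfl) [] []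
    simp only [List.nil_append, List.append_nil] at h5
    have h6 : E ∈ Z := hZ1 (show α E = α e by rw [hE, h1])
    exact hZ2 Y (h5.1 h6) (show α Y = α y by rw [hY, h2])
  · obtain ⟨δ, k, hb, -⟩ := exists_base (A := A) n [] (fun L hL => absurd hL List.not_mem_nil)
    exact ⟨(δ, k), hb, fun E Y hE hY h3 h4 _ => hc ⟨E, Y, hE, hY, h3, h4⟩⟩

theorem hyp1 [Finite A] {n : ℕ} [Finite M] {α : List A → M} (Bad : M → M → Prop)
    (h : ∀ e y : List A, α (e ++ e) = α e → Bad (α e) (α y) →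
      Separable (B A (n + 1)) (cls α e) (cls α y)) :
    ∃ (δ : List A → List A → Prop) (k : ℕ), Base n δ ∧ ∀ E Y, α (E ++ E) = α E →
      Bad (α E) (α Y) → ¬ Eqv δ k E Y := by
  choose p hp1 hp2 using hyp1_pair Bad h
  obtain ⟨δ, k, hb, hδ⟩ := exists_common (fun i => (p i).1) (fun i => (p i).2) hp1
  exact ⟨δ, k, hb, fun E Y h1 h2 h3 => hp2 (α E, α Y) E Y rfl rfl h1 h2
    ⟨hδ _ _ _ h3.1, hδ _ _ _ h3.2⟩⟩

end Pool.Agent.MSL
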