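import Pool.Agent.MSL.Tgi
import Pool.Agent.MSL.Bse
import Pool.Agent.HLV.Pick
import Pool.Agent.HLV.Pump
import Pool.Agent.HLV.Inv

/-!
# Project MSL: the side condition from words over `A` (M1)

Suppose that `Z ∈ B (Tg A) (n+1)` separates `plus (BX W K₀)` from `Ve V G K₀` (`¬ Mix`).  `Rec Z` (`rec_B`), so
`HLV.exists_contexts`: finitely many contexts `cs` of `Z`.  For every `c ∈ cs` the language
`iq (fun a => [Tg.lt a]) c.1 c.2 Z` over `A` is in `B A (n+1)` (`HLV.iq_B`); `exists_base` for these languages: `δ`, `k`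
such that `Eqv δ k x y` implies `SynEq Z (x.map Tg.lt) (y.map Tg.lt)` (`ext (fun a => [Tg.lt a]) x = x.map Tg.lt`).
`h δ k`: `E ∈ V`, `F ∈ W`, `x ∈ G`, so `E`, `F`, `x` (mapped) are `SynEq Z`.
`Z` is controlled by a list `Ps` of products of members of `B (Tg A) n` (`BoolCl.exists_list`, `MonCl_B`); let `Qs` be the
list of all factors, `m` large.  Marks: `¬ Separable (Half (B (Fin 2) n)) K₀ᶜ K₀` (a separator would be `K₀ᶜ`).
`HLV.exists_below` over `Fin 2`, for the finitely many restricted quotients of the `P ∈ Ps` (`iq (fun i => [Tg.mk i]) c.1 c.2 P`,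
`Pol` by `HLV.iq_pol`, contexts from `exists_contexts`) and of the `Q ∈ Qs` (`iq_B`): `b ∈ K₀ᶜ`, `a ∈ K₀` such that
`Below Ps (b.map Tg.mk) (a.map Tg.mk)` and `SynEq Q` for `Q ∈ Qs`.  So `u = blk F b`, `v = blk F a` satisfy
`Below Ps u v`, `SynEq Q u v`.  `HLV.pump` (`y = []`): `N₀ ≥ 1`, `SynEq P (pw v N₀) (pw v N₀ ++ u ++ pw v N₀)` for `P ∈ Ps`, so for
`Z`.  `pw v N₀ ∈ plus (BX W K₀) ⊆ Z`, so `pw (blk F a) N₀ ++ blk F b ++ pw (blk F a) N₀ ∈ Z`, and replacing `F` by `E`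
in the outer blocks and by `x` in the middle one (`SynEq Z`): a word of `Ve V G K₀` in `Z`: contradiction.
-/

namespace Pool.Agent.MSL

open Pool.Agent.DD Pool.Agent.HLV

variable {A : Type}

private theorem mxa_ext {C D : Type} (g : C → D) (x : List C) :
    ext (fun a => [g a]) x = x.map g := by
  induction x with
  | nil => rfl
  | cons a x ih => rw [ext_cons, ih]; rfl

private theorem mxa_lift {C D : Type} (g : C → D) {Z : Lang D} (hZ : Rec Z) :
    ∃ Ls : List (Lang C), (∀ L ∈ Ls, ∃ c : List D × List D, L = iq (fun a => [g a]) c.1 c.2 Z) ∧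
      ∀ x y : List C, (∀ L ∈ Ls, x ∈ L → y ∈ L) →
        ∀ s t, s ++ x.map g ++ t ∈ Z → s ++ y.map g ++ t ∈ Z := by
  obtain ⟨cs, hcs⟩ := exists_contexts hZ
  refine ⟨cs.map (fun c => iq (fun a => [g a]) c.1 c.2 Z), fun L hL => ?_, fun x y h s t hs => ?_⟩
  · obtain ⟨c, _, rfl⟩ := List.mem_map.1 hL
    exact ⟨c, rfl⟩
  · obtain ⟨c, hc, hcw⟩ := hcs s t
    rw [hcw] at hs ⊢
    have h1 := h _ (List.mem_map.2 ⟨c, hc, rfl⟩)
    rw [mem_iq, mem_iq, mxa_ext, mxa_ext] at h1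
    exact h1 hs

private theorem mxa_quot {C D : Type} [Finite C] [Finite D] (g : C → D) {i : ℕ}
    (Ps : List (Lang D)) (hP : ∀ P ∈ Ps, Pol (B D i) P) :
    ∃ Ss : List (Lang C), (∀ S ∈ Ss, Pol (B C i) S) ∧
      ∀ u v : List C, (∀ S ∈ Ss, u ∈ S → v ∈ S) → Below Ps (u.map g) (v.map g) := by
  induction Ps with
  | nil => exact ⟨[], by simp, fun u v _ P hP => absurd hP (by simp)⟩
  | cons P Ps ih =>
      obtain ⟨Ss, h1, h2⟩ := ih fun P' hP' => hP P' (List.mem_cons.2 (Or.inr hP'))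
      have hPp := hP P (List.mem_cons.2 (Or.inl rfl))
      obtain ⟨Ls, h3, h4⟩ := mxa_lift g (rec_B (pol_sub_B hPp))
      refine ⟨Ls ++ Ss, fun S hS => ?_, fun u v huv P' hP' s t hst => ?_⟩
      · rcases List.mem_append.1 hS with hS | hS
        · obtain ⟨c, rfl⟩ := h3 S hS
          exact iq_pol (fun a => by simp) hPp c.1 c.2
        · exact h1 S hS
      · rcases List.mem_cons.1 hP' with rfl | hP'
        · exact h4 u v (fun S hS => huv S (List.mem_append.2 (Or.inl hS))) s t hst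
        · exact h2 u v (fun S hS => huv S (List.mem_append.2 (Or.inr hS))) P' hP' s t hst

private theorem mxa_fac {D : Type} {n : ℕ} (Ps : List (Lang D)) (hP : ∀ P ∈ Ps, P ∈ MonCl (B D n)) :
    ∃ (Qs : List (Lang D)) (m : ℕ), (∀ Q ∈ Qs, Q ∈ B D n) ∧
      ∀ P ∈ Ps, ∃ L₀ ∈ Qs, ∃ Ls : List (Lang D), (∀ K ∈ Ls, K ∈ Qs) ∧ P = catList L₀ Ls ∧
        Ls.length + 1 ≤ m := by
  induction Ps with
  | nil => exact ⟨[], 0, by simp, fun P hP => absurd hP (by simp)⟩
  | cons P Ps ih =>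
      obtain ⟨Qs, m, h1, h2⟩ := ih fun P' h' => hP P' (List.mem_cons.2 (Or.inr h'))
      obtain ⟨L₀, hL₀, Ls, hLs, hPe⟩ := MonCl_B (hP P (List.mem_cons.2 (Or.inl rfl)))
      refine ⟨(L₀ :: Ls) ++ Qs, max (Ls.length + 1) m, fun Q hq => ?_, fun P' h' => ?_⟩
      · rcases List.mem_append.1 hq with hq | hq
        · rcases List.mem_cons.1 hq with rfl | hq
          · exact hL₀
          · exact hLs Q hq
        · exact h1 Q hq
      · rcases List.mem_cons.1 h' with rfl | h'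
        · exact ⟨L₀, List.mem_append.2 (Or.inl (List.mem_cons.2 (Or.inl rfl))), Ls,
            fun K hK => List.mem_append.2 (Or.inl (List.mem_cons.2 (Or.inr hK))), hPe,
            le_max_left _ _⟩
        · obtain ⟨L₁, hL₁, Ls', h3, h4, h5⟩ := h2 P' h'
          exact ⟨L₁, List.mem_append.2 (Or.inr hL₁), Ls',
            fun K hK => List.mem_append.2 (Or.inr (h3 K hK)), h4, h5.trans (le_max_right _ _)⟩

private theorem mxa_pw {D : Type} {L : Lang D} {x y : List D} (h : SynEq L x y) (n : ℕ) :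
    SynEq L (pw x n) (pw y n) := by
  induction n with
  | zero => exact SynEq.refl L _
  | succ n ih => rw [pw_succ, pw_succ]; exact h.app ih

private theorem mxa_blk {L : Lang (Tg A)} {x y : List A}
    (h : SynEq L (x.map Tg.lt) (y.map Tg.lt)) (b : List (Fin 2)) :
    SynEq L (blk x b) (blk y b) :=
  ((h.right [Tg.hs]).right (b.map Tg.mk)).right [Tg.dl]

private theorem mxa_plus {V : Lang A} {K₀ : Lang (Fin 2)} {x : List A} (hx : x ∈ V)
    {a : List (Fin 2)} (ha : a ∈ K₀) {N : ℕ} (hN : 1 ≤ N) : pw (blk x a) N ∈ plus (BX V K₀) := by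
  refine ⟨List.replicate N (blk x a), ?_, fun y hy => ?_, rfl⟩
  · intro h
    have h1 := congrArg List.length h
    rw [List.length_replicate, List.length_nil] at h1
    omega
  · rw [List.eq_of_mem_replicate hy]
    exact ⟨x, hx, a, ha, rfl⟩

theorem mix_of [Finite A] {n : ℕ} {K₀ : Lang (Fin 2)} (h0 : K₀ᶜ ∉ Half (B (Fin 2) n))
    {V W G : Lang A} (h : ∀ (δ : List A → List A → Prop) (k : ℕ), Base n δ →
      ∃ E ∈ V, ∃ F ∈ W, ∃ x ∈ G, Eqv δ k E F ∧ Eqv δ k F x) : Mix n K₀ V W G := by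
  rintro ⟨Z, hZ, hsub, hdis⟩
  -- the words over `A`
  obtain ⟨Ls, hL1, hL2⟩ := mxa_lift (Tg.lt : A → Tg A) (rec_B hZ)
  obtain ⟨δ, k, hb, hδ⟩ := exists_base n Ls (by
    intro L hL
    obtain ⟨c, rfl⟩ := hL1 L hL
    exact iq_B (fun a => by simp) hZ c.1 c.2)
  obtain ⟨E, hE, F, hF, x, hx, hEF, hFx⟩ := h δ k hb
  have hsyn : ∀ y z : List A, Eqv δ k y z → SynEq Z (y.map Tg.lt) (z.map Tg.lt) := by
    intro y z hyz s t
    exact ⟨hL2 y z (fun L hL => (hδ y z hyz L hL).mem.1) s t,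
      hL2 z y (fun L hL => (hδ y z hyz L hL).mem.2) s t⟩
  -- the products
  have hZ' : BoolCl (MonCl (B (Tg A) n)) Z := hZ
  obtain ⟨Ps, hP1, hP2⟩ := hZ'.exists_list
  obtain ⟨Qs, m, hQ, hPs⟩ := mxa_fac Ps hP1
  -- the marks
  have hns : ¬ Separable (Half (B (Fin 2) n)) K₀ᶜ K₀ := by
    rintro ⟨S, hS, h1, h2⟩
    apply h0
    have e : S = K₀ᶜ := Set.Subset.antisymm (fun w hw => h2 w hw) h1
    rwa [e] at hS
  obtain ⟨Ss, hS1, hS2⟩ := mxa_quot (i := n) (Tg.mk : Fin 2 → Tg A)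
    (Ps ++ (Qs ++ Qs.map (fun Q => Qᶜ))) (by
      intro P hP
      rcases List.mem_append.1 hP with hP | hP
      · exact pol_of_monCl (hP1 P hP)
      rcases List.mem_append.1 hP with hP | hP
      · exact Pol.base (hQ P hP)
      · obtain ⟨Q, hQ', rfl⟩ := List.mem_map.1 hP
        exact Pol.base (B_compl (hQ Q hQ')))
  obtain ⟨b, hbK, a, haK, hba⟩ := exists_pair hns Ss hS1
  have hbel := hS2 b a hba
  have hu1 : Below Ps (blk F b) (blk F a) := by
    have h1 : Below Ps (b.map Tg.mk) (a.map Tg.mk) := fun P hP =>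
      hbel P (List.mem_append.2 (Or.inl hP))
    exact ((Below.refl Ps (F.map Tg.lt ++ [Tg.hs])).app h1).app (Below.refl Ps [Tg.dl])
  have hu2 : ∀ Q ∈ Qs, SynEq Q (blk F b) (blk F a) := by
    intro Q hQm
    have h1 : SynEq Q (b.map Tg.mk) (a.map Tg.mk) := by
      intro s t
      refine ⟨hbel Q (List.mem_append.2 (Or.inr (List.mem_append.2 (Or.inl hQm)))) s t, ?_⟩
      intro hst
      by_contra hcon
      exact hbel Qᶜ (List.mem_append.2 (Or.inr (List.mem_append.2 (Or.inr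
        (List.mem_map.2 ⟨Q, hQm, rfl⟩))))) s t hcon hst
    exact (h1.left (F.map Tg.lt ++ [Tg.hs])).right [Tg.dl]
  obtain ⟨N₀, hN₀, hpump⟩ := pump Ps Qs m (by
    intro R hR
    rcases List.mem_append.1 hR with hR | hR
    · exact rec_B (MonCl_sub_B (hP1 R hR))
    · exact rec_B (hQ R hR)) hPs hu1 hu2 []
  have hZp : SynEq Z (pw (blk F a) N₀) (pw (blk F a) N₀ ++ blk F b ++ pw (blk F a) N₀) := by
    refine hP2 _ _ fun P hP => ?_
    have h1 := (hpump P hP).2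
    rw [List.append_nil, List.append_nil] at h1
    exact h1
  have h1 : pw (blk F a) N₀ ∈ Z := hsub (mxa_plus hF haK hN₀)
  have h2 : pw (blk F a) N₀ ++ blk F b ++ pw (blk F a) N₀ ∈ Z := hZp.mem.1 h1
  have hFE : SynEq Z (pw (blk F a) N₀) (pw (blk E a) N₀) :=
    (mxa_pw (mxa_blk (hsyn E F hEF) a) N₀).symm
  have hFx' : SynEq Z (blk F b) (blk x b) := mxa_blk (hsyn F x hFx) b
  have h3 : pw (blk E a) N₀ ++ blk x b ++ pw (blk E a) N₀ ∈ Z :=
    (((hFE.app hFx').app hFE).mem).1 h2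
  exact hdis _ h3 ⟨_, mxa_plus hE haK hN₀, _, ⟨x, hx, b, hbK, rfl⟩, _, mxa_plus hE haK hN₀, rfl⟩

end Pool.Agent.MSL
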