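import Pool.Agent.MSL.Com
import Pool.Agent.MSL.Mxa

/-!
# Project MSL: a relation which separates the bad tuples

For every tuple of values in `M` (`Hyb_one`): if there are bad words with these values, one of the sets `Mix` fails, and `mix_of`
(contrapositive) gives a relation `δ` and a number `k`; otherwise any relation will do.  `exists_common` combines the
finitely many relations.
-/

namespace Pool.Agent.MSL

open Pool.Agent.DD Pool.Agent.HLV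

variable {A M : Type}

private theorem Hyb_mix [Finite A] {n : ℕ} {K₀ : Lang (Fin 2)} (h0 : K₀ᶜ ∉ Half (B (Fin 2) n))
    {V W G : Lang A} (h : ¬ Mix n K₀ V W G) :
    ∃ (δ : List A → List A → Prop) (k : ℕ), Base n δ ∧
      ∀ E ∈ V, ∀ F ∈ W, ∀ x ∈ G, ¬ (Eqv δ k E F ∧ Eqv δ k F x) := by
  by_contra hcon
  refine h (mix_of h0 fun δ k hδ => ?_)
  by_contra h2
  refine hcon ⟨δ, k, hδ, fun E hE F hF x hx h3 => h2 ⟨E, hE, F, hF, x, hx, h3⟩⟩

private theorem Hyb_one [Finite A] {n : ℕ} {α : List A → M} {K₀ : Lang (Fin 2)}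
    (h0 : K₀ᶜ ∉ Half (B (Fin 2) n)) (Bad : M → M → M → M → M → M → Prop)
    (h : ∀ e f a b c d : List A, α (e ++ e) = α e → α (f ++ f) = α f →
      Bad (α e) (α f) (α a) (α b) (α c) (α d) →
      ¬ Mix n K₀ (cls α e) (cls α f) (cls α a) ∨ ¬ Mix n K₀ (cls α e) (cls α f) (cls α b) ∨
      ¬ Mix n K₀ (cls α e) (cls α f) (cls α c) ∨ ¬ Mix n K₀ (cls α e) (cls α f) (cls α d))
    (i : M × M × M × M × M × M) :
    ∃ (δ : List A → List A → Prop) (k : ℕ), Base n δ ∧ ∀ E F a b c d : List A,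
      (α E, α F, α a, α b, α c, α d) = i →
      α (E ++ E) = α E → α (F ++ F) = α F → Bad (α E) (α F) (α a) (α b) (α c) (α d) →
      ¬ (Eqv δ k E F ∧ Eqv δ k F a ∧ Eqv δ k F b ∧ Eqv δ k F c ∧ Eqv δ k F d) := by
  by_cases hex : ∃ e f a b c d : List A, (α e, α f, α a, α b, α c, α d) = i ∧
      α (e ++ e) = α e ∧ α (f ++ f) = α f ∧ Bad (α e) (α f) (α a) (α b) (α c) (α d)
  · obtain ⟨e, f, a, b, c, d, hi, he, hf, hbad⟩ := hex
    have key : ∀ g : List A, ¬ Mix n K₀ (cls α e) (cls α f) (cls α g) →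
        ∃ (δ : List A → List A → Prop) (k : ℕ), Base n δ ∧
          ∀ E F x, α E = α e → α F = α f → α x = α g → ¬ (Eqv δ k E F ∧ Eqv δ k F x) := by
      intro g hg
      obtain ⟨δ, k, h1, h2⟩ := Hyb_mix h0 hg
      exact ⟨δ, k, h1, fun E F x h3 h4 h5 => h2 E h3 F h4 x h5⟩
    rcases h e f a b c d he hf hbad with h1 | h1 | h1 | h1
    · obtain ⟨δ, k, h2, h3⟩ := key a h1
      refine ⟨δ, k, h2, fun E F a' b' c' d' hi' _ _ _ h4 => ?_⟩
      rw [← hi] at hi'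
      simp only [Prod.mk.injEq] at hi'
      exact h3 E F a' hi'.1 hi'.2.1 hi'.2.2.1 ⟨h4.1, h4.2.1⟩
    · obtain ⟨δ, k, h2, h3⟩ := key b h1
      refine ⟨δ, k, h2, fun E F a' b' c' d' hi' _ _ _ h4 => ?_⟩
      rw [← hi] at hi'
      simp only [Prod.mk.injEq] at hi'
      exact h3 E F b' hi'.1 hi'.2.1 hi'.2.2.2.1 ⟨h4.1, h4.2.2.1⟩
    · obtain ⟨δ, k, h2, h3⟩ := key c h1
      refine ⟨δ, k, h2, fun E F a' b' c' d' hi' _ _ _ h4 => ?_⟩
      rw [← hi] at hi'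
      simp only [Prod.mk.injEq] at hi'
      exact h3 E F c' hi'.1 hi'.2.1 hi'.2.2.2.2.1 ⟨h4.1, h4.2.2.2.1⟩
    · obtain ⟨δ, k, h2, h3⟩ := key d h1
      refine ⟨δ, k, h2, fun E F a' b' c' d' hi' _ _ _ h4 => ?_⟩
      rw [← hi] at hi'
      simp only [Prod.mk.injEq] at hi'
      exact h3 E F d' hi'.1 hi'.2.1 hi'.2.2.2.2.2 ⟨h4.1, h4.2.2.2.2⟩
  · obtain ⟨δ, h1, -⟩ := exists_base0 (A := A) n [] (fun Q hQ => absurd hQ (List.not_mem_nil))
    refine ⟨δ, 0, h1, fun E F a b c d hi he hf hbad _ => ?_⟩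
    exact hex ⟨E, F, a, b, c, d, hi, he, hf, hbad⟩

theorem hyp2 [Finite A] {n : ℕ} [Finite M] {α : List A → M} {K₀ : Lang (Fin 2)}
    (h0 : K₀ᶜ ∉ Half (B (Fin 2) n)) (Bad : M → M → M → M → M → M → Prop)
    (h : ∀ e f a b c d : List A, α (e ++ e) = α e → α (f ++ f) = α f →
      Bad (α e) (α f) (α a) (α b) (α c) (α d) →
      ¬ Mix n K₀ (cls α e) (cls α f) (cls α a) ∨ ¬ Mix n K₀ (cls α e) (cls α f) (cls α b) ∨
      ¬ Mix n K₀ (cls α e) (cls α f) (cls α c) ∨ ¬ Mix n K₀ (cls α e) (cls α f) (cls α d)) :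
    ∃ (δ : List A → List A → Prop) (k : ℕ), Base n δ ∧ ∀ E F a b c d : List A,
      α (E ++ E) = α E → α (F ++ F) = α F → Bad (α E) (α F) (α a) (α b) (α c) (α d) →
      ¬ (Eqv δ k E F ∧ Eqv δ k F a ∧ Eqv δ k F b ∧ Eqv δ k F c ∧ Eqv δ k F d) := by
  choose δ k h1 h2 using Hyb_one h0 Bad h
  obtain ⟨δ', k', h3, h4⟩ := exists_common δ k h1
  refine ⟨δ', k', h3, fun E F a b c d he hf hbad h5 => ?_⟩
  have h6 : ∀ (i : M × M × M × M × M × M) (x y : List A), Eqv δ' k' x y → Eqv (δ i) (k i) x y :=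
    fun i x y h7 => ⟨h4 i x y h7.1, h4 i y x h7.2⟩
  exact h2 (α E, α F, α a, α b, α c, α d) E F a b c d rfl he hf hbad
    ⟨h6 _ _ _ h5.1, h6 _ _ _ h5.2.1, h6 _ _ _ h5.2.2.1, h6 _ _ _ h5.2.2.2.1, h6 _ _ _ h5.2.2.2.2⟩

end Pool.Agent.MSL
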