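import Pool.Agent.MSL.Bas

/-!
# Project MSL: items: iterating `G D ≤ G`

Induction on `J`, for the statement with the extra information `Dom r k G G'` (and for all `k`): from
`Dom r (J + 1 + k) (G ++ D) G` get `G = G₁ ++ D₁`, `G ≤_(J+k) G₁`, `D ≤_(J+k) D₁` (`dom_two`).  So
`G₁ ++ D₁ ≤_(J+k) G₁`; the induction hypothesis for `G₁`, `D₁` gives `G₁ = G' ++ xs.flatten`, `xs.length = J`, all
`x ∈ xs` satisfy `D₁ ≤_k x`, pairwise.  Take `xs ++ [D₁]`: `D ≤_k D₁ ≤_k x`.
-/

namespace Pool.Agent.MSL

open Pool.Agent.DD Pool.Agent.HLV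

variable {A : Type}

variable {r : List A → List A → Prop}

theorem items (h : Cg r) (J k : ℕ) {G D : List A} (hG : Dom r (J + k) (G ++ D) G) :
    ∃ (G' : List A) (xs : List (List A)), G = G' ++ xs.flatten ∧ xs.length = J ∧
      (∀ x ∈ xs, Dom r k D x) ∧ xs.Pairwise (fun a b => Dom r k b a) := by
  induction J generalizing G D with
  | zero =>
    refine ⟨G, [], by simp, rfl, ?_, List.Pairwise.nil⟩
    intro x hx
    simp at hx
  | succ J ih =>
    have e1 : J + 1 + k = (J + k) + 1 := by omega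
    rw [e1] at hG
    obtain ⟨G₁, D₁, hGG, h1, h2⟩ := dom_two hG
    have h3 : Dom r (J + k) (G₁ ++ D₁) G₁ := by
      rw [← hGG]
      exact h1
    obtain ⟨G', xs, e2, e3, e4, e5⟩ := ih h3
    have h4 : Dom r k D D₁ := dom_mono h (by omega) h2
    refine ⟨G', xs ++ [D₁], ?_, ?_, ?_, ?_⟩
    · rw [hGG, e2, List.flatten_append]
      simp
    · rw [List.length_append, e3]
      rfl
    · intro x hx
      rcases List.mem_append.1 hx with hx | hx
      · exact dom_trans h h4 (e4 x hx)
      · rw [List.mem_singleton.1 hx]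
        exact h4
    · rw [List.pairwise_append]
      refine ⟨e5, List.pairwise_singleton _ _, ?_⟩
      intro a ha b hb
      rw [List.mem_singleton.1 hb]
      exact e4 a ha

end Pool.Agent.MSL
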