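import Pool.Agent.MSL.Bas

/-!
# Project MSL: the consequence (J) of (H2)

`jj`: `hS.h2` with `F := E`, `q := W`, `r := W'`, `s := []`, `t := []`:
`α (E W E W' E) = a b` with `a = α (E W E)`, `b = α (E W' E)` (`e e = e`), `α (E [] E [] E) = e`, `e ^ K = e` (`hS.pos`,
`idem_pow`), `η (E W E [] E) = η (E W E) η E = η E`, `η (E W' E [] E) = η E`.  It says
`(ab)^K e = (ab)^K α (W E) e`; `(ab)^K = (ab)^K e` (`K ≥ 1`, `b e = b`), so `(ab)^K = (ab)^K (e α W e) = (ab)^K a`.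
`jj_abs`: `p = p (ab) = ... = p (ab)^K`, so `p a = p (ab)^K a = p (ab)^K = p`.
-/

namespace Pool.Agent.MSL

open Pool.Agent.DD Pool.Agent.HLV

variable {A M N : Type} [Monoid M] [Monoid N] {α : List A → M} {η : List A → N} {K : ℕ}

theorem jj (hS : Setup α η K) {E W W' : List A} (h1 : α E * α E = α E) (h2 : η E * η E = η E)
    (h3 : η (E ++ W ++ E) = η E) (h4 : η (E ++ W' ++ E) = η E) :
    (α (E ++ W ++ E) * α (E ++ W' ++ E)) ^ K * α (E ++ W ++ E) =
      (α (E ++ W ++ E) * α (E ++ W' ++ E)) ^ K := by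
  have ha : α (E ++ W ++ E) = α E * α W * α E := hS.αh.mul3 _ _ _
  have hb : α (E ++ W' ++ E) = α E * α W' * α E := hS.αh.mul3 _ _ _
  have e1 : η (E ++ W ++ E ++ [] ++ E) = η E := by
    rw [List.append_nil, hS.ηh.mul, h3, h2]
  have e2 : η (E ++ W' ++ E ++ [] ++ E) = η E := by
    rw [List.append_nil, hS.ηh.mul, h4, h2]
  have key := hS.h2 E E W W' [] [] h1 h1 h2 h2 e1 e2
  have e3 : α (E ++ W ++ E ++ W' ++ E) = α (E ++ W ++ E) * α (E ++ W' ++ E) := by
    rw [ha, hb]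
    simp only [hS.αh.mul]
    calc α E * α W * α E * α W' * α E = α E * α W * (α E * α E) * α W' * α E := by rw [h1]
      _ = α E * α W * α E * (α E * α W' * α E) := by simp only [mul_assoc]
  have e4 : α (E ++ [] ++ E ++ [] ++ E) = α E := by
    rw [List.append_nil, List.append_nil, hS.αh.mul, hS.αh.mul, h1, h1]
  have e5 : α (W ++ E ++ []) = α W * α E := by rw [List.append_nil, hS.αh.mul]
  rw [e3, e4, e5, idem_pow h1 hS.pos] at key
  have e6 : (α (E ++ W ++ E) * α (E ++ W' ++ E)) ^ K * α E =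
      (α (E ++ W ++ E) * α (E ++ W' ++ E)) ^ K := by
    obtain ⟨k, rfl⟩ : ∃ k, K = k + 1 := ⟨K - 1, by have := hS.pos; omega⟩
    rw [pow_succ, mul_assoc, mul_assoc, hb, mul_assoc (α E * α W') (α E) (α E), h1]
  rw [e6] at key
  calc (α (E ++ W ++ E) * α (E ++ W' ++ E)) ^ K * α (E ++ W ++ E)
      = (α (E ++ W ++ E) * α (E ++ W' ++ E)) ^ K * α E * (α W * α E) := by
        rw [ha]; simp only [mul_assoc]
    _ = (α (E ++ W ++ E) * α (E ++ W' ++ E)) ^ K * (α W * α E) := by rw [e6]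
    _ = (α (E ++ W ++ E) * α (E ++ W' ++ E)) ^ K * (α W * α E) * α E := by
        rw [mul_assoc _ (α W * α E) (α E), mul_assoc (α W) (α E) (α E), h1]
    _ = (α (E ++ W ++ E) * α (E ++ W' ++ E)) ^ K := key.symm

theorem jj_abs (hS : Setup α η K) {E W W' : List A} (h1 : α E * α E = α E) (h2 : η E * η E = η E)
    (h3 : η (E ++ W ++ E) = η E) (h4 : η (E ++ W' ++ E) = η E) {p : M}
    (hp : p * (α (E ++ W ++ E) * α (E ++ W' ++ E)) = p) : p * α (E ++ W ++ E) = p := by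
  have h5 : ∀ n : ℕ, p * (α (E ++ W ++ E) * α (E ++ W' ++ E)) ^ n = p := by
    intro n
    induction n with
    | zero => rw [pow_zero, mul_one]
    | succ n ih => rw [pow_succ, ← mul_assoc, ih, hp]
  calc p * α (E ++ W ++ E)
      = p * (α (E ++ W ++ E) * α (E ++ W' ++ E)) ^ K * α (E ++ W ++ E) := by rw [h5 K]
    _ = p * ((α (E ++ W ++ E) * α (E ++ W' ++ E)) ^ K * α (E ++ W ++ E)) := by rw [mul_assoc]
    _ = p := by rw [jj hS h1 h2 h3 h4, h5 K]

end Pool.Agent.MSL
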