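import Pool.Agent.MSL.Jmz
import Pool.Agent.DD.Jump
import Pool.Agent.HLV.Coll

/-!
# Project MSL: jumps: the first identity

`jump_prep`: `Ps`, `Qs`, `m`, `κ`.  Take this `Qs`.  `E' = pw E m` (`m ≥ 1` may be assumed; for `Q ∈ Qs`: `E' ~ E`, `SynEq.pw`).
`DD.jump` (`E`, `Z := Y`): `Below Ps E' (E' ++ Y ++ E')`.  Put `X = pw (z ++ E' ++ Y ++ E') κ`.
(i) `X ++ (z ++ E') ++ X` is below `X ++ (z ++ E' ++ Y ++ E') ++ X = pw (..) (2κ+1)`, which is `SynEq P` to `X` (`P ∈ Ps`).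
(ii) For `Q ∈ Qs`: `z E' Y E' ~ z E'`, so `X ~ (z E')^κ`, `X X ~ X`, `X (z E') X ~ (z E')^(2κ+1) ~ X`.  `DD.jump` (`E := X`, `Z := z ++ E'`):
`Below Ps (pw X m) (pw X m ++ (z ++ E') ++ pw X m)`; and `pw X m` is `SynEq P` to `X` (`HLV.pw_mul`, `κ m ≥ κ`).
So `X` and `X (z E') X` are below each other for `Ps` in all contexts: `SynEq P` for all `P ∈ Ps`, so `SynEq L`.  Finally replace `E'` by
`E` (`SynEq L E E'` since `E ~ E E`: `SynEq.pw`) and the exponent `κ` by `K` (both `≥ K` or use `max κ K`: for `L`,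
`pw x j ~ pw x K` for `j ≥ K` by `hap`; take `κ' = max κ K` instead of `κ` everywhere).
-/

namespace Pool.Agent.MSL

open Pool.Agent.DD Pool.Agent.HLV

variable {A : Type}

private theorem jma_pw {L : Lang A} {x y : List A} (h : SynEq L x y) (n : ℕ) :
    SynEq L (pw x n) (pw y n) := by
  induction n with
  | zero => exact SynEq.refl L _
  | succ n ih =>
      rw [pw_succ, pw_succ y]
      exact h.app ih

private theorem jma_ap {L : Lang A} {K : ℕ} (hap : ∀ x, SynEq L (pw x (K + 1)) (pw x K)) (x : List A)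
    {j : ℕ} (hj : K ≤ j) : SynEq L (pw x j) (pw x K) := by
  induction hj with
  | refl => exact SynEq.refl L _
  | @step j hj ih =>
      have h1 : SynEq L (pw x (j + 1)) (pw x (K + 1)) := by
        rw [pw_succ, pw_succ x K]
        exact ih.left x
      exact h1.trans (hap x)

private theorem jma_mid (u : List A) (a : ℕ) : pw u a ++ u ++ pw u a = pw u (2 * a + 1) := by
  rw [← pw_succ', ← pw_add]
  congr 1
  omega

/-- the core: `X` and `X (z E') X` are equivalent for all members of `Ps` -/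
private theorem jma_core {Ps Qs : List (Lang A)} {m κ : ℕ} (hm : 1 ≤ m)
    (hP : ∀ P ∈ Ps, ∃ L₀ ∈ Qs, ∃ Ls : List (Lang A), (∀ R ∈ Ls, R ∈ Qs) ∧ P = catList L₀ Ls ∧
        Ls.length + 1 ≤ m)
    (hκ : 1 ≤ κ)
    (hexp : ∀ R ∈ Ps ++ Qs, ∀ (x : List A) (j : ℕ), κ ≤ j → SynEq R (pw x j) (pw x κ))
    {E Y z : List A} (hE : ∀ Q ∈ Qs, SynEq Q E (E ++ E) ∧ SynEq Q E (E ++ Y ++ E)) :
    ∀ P ∈ Ps, SynEq P
      (pw (z ++ pw E m ++ Y ++ pw E m) κ ++ (z ++ pw E m) ++ pw (z ++ pw E m ++ Y ++ pw E m) κ)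
      (pw (z ++ pw E m ++ Y ++ pw E m) κ) := by
  obtain ⟨E', hE'⟩ : ∃ E', E' = pw E m := ⟨_, rfl⟩
  rw [← hE']
  obtain ⟨u, hu⟩ : ∃ u, u = z ++ E' ++ Y ++ E' := ⟨_, rfl⟩
  rw [← hu]
  obtain ⟨X, hX⟩ : ∃ X, X = pw u κ := ⟨_, rfl⟩
  rw [← hX]
  have hQE : ∀ Q ∈ Qs, SynEq Q E E' := fun Q hQ => by
    rw [hE']
    exact (hE Q hQ).1.pw hm
  -- the first jump
  have j1 : Below Ps E' (E' ++ Y ++ E') := by
    have h := jump E Y Qs Ps m hP (fun Q hQ => (hE Q hQ).1) (fun Q hQ => (hE Q hQ).2)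
    rwa [← hE'] at h
  have hXuX : X ++ u ++ X = pw u (2 * κ + 1) := by rw [hX, jma_mid]
  have b1 : Below Ps (X ++ (z ++ E') ++ X) (X ++ u ++ X) := by
    refine (Below.app (Below.app (Below.refl Ps X) ?_) (Below.refl Ps X))
    have h := Below.app (Below.refl Ps z) j1
    rw [hu]
    simpa only [List.append_assoc] using h
  -- the second jump
  have hQu : ∀ Q ∈ Qs, SynEq Q (z ++ E') u := by
    intro Q hQ
    have h1 : SynEq Q (E' ++ Y ++ E') (E ++ Y ++ E) :=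
      ((hQE Q hQ).symm.app (SynEq.refl Q Y)).app (hQE Q hQ).symm
    have h2 : SynEq Q E' (E' ++ Y ++ E') := ((hQE Q hQ).symm.trans (hE Q hQ).2).trans h1.symm
    have h3 := h2.left z
    rw [hu]
    simpa only [List.append_assoc] using h3
  have hQX : ∀ Q ∈ Qs, SynEq Q X (X ++ X) := by
    intro Q hQ
    have h1 := hexp Q (List.mem_append_right _ hQ) u (κ + κ) (by omega)
    rw [pw_add, ← hX] at h1
    exact h1.symm
  have hQX' : ∀ Q ∈ Qs, SynEq Q X (X ++ (z ++ E') ++ X) := by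
    intro Q hQ
    have h1 := hexp Q (List.mem_append_right _ hQ) u (2 * κ + 1) (by omega)
    rw [← hXuX, ← hX] at h1
    have h2 : SynEq Q (X ++ (z ++ E') ++ X) (X ++ u ++ X) :=
      ((SynEq.refl Q X).app (hQu Q hQ)).app (SynEq.refl Q X)
    exact (h2.trans h1).symm
  have j2 : Below Ps (pw X m) (pw X m ++ (z ++ E') ++ pw X m) :=
    jump X (z ++ E') Qs Ps m hP hQX hQX'
  intro P hPm
  have hPX : SynEq P (X ++ u ++ X) X := by
    have h1 := hexp P (List.mem_append_left _ hPm) u (2 * κ + 1) (by omega)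
    rwa [← hXuX, ← hX] at h1
  have hPm' : SynEq P (pw X m) X := by
    have h1 := hexp P (List.mem_append_left _ hPm) u (κ * m) (Nat.le_mul_of_pos_right κ hm)
    rw [← pw_mul, ← hX] at h1
    exact h1
  intro s t
  constructor
  · intro h
    exact (hPX s t).1 (b1 P hPm s t h)
  · intro h
    have h1 := j2 P hPm s t ((hPm' s t).2 h)
    have h2 : SynEq P (pw X m ++ (z ++ E') ++ pw X m) (X ++ (z ++ E') ++ X) :=
      (hPm'.app (SynEq.refl P (z ++ E'))).app hPm'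
    exact (h2 s t).1 h1

theorem jump_one [Finite A] {n : ℕ} {L : Lang A} (hL : L ∈ B A (n + 2)) {K : ℕ}
    (hap : ∀ x, SynEq L (pw x (K + 1)) (pw x K)) :
    ∃ Qs : List (Lang A), (∀ Q ∈ Qs, Q ∈ B A (n + 1)) ∧ ∀ E Y z : List A,
      (∀ Q ∈ Qs, SynEq Q E (E ++ E) ∧ SynEq Q E (E ++ Y ++ E)) → SynEq L E (E ++ E) →
      I1 L K E Y z := by
  obtain ⟨Ps, Qs, m, κ, hκ, hQs, hP, hexp, hctrl⟩ := jump_prep hL
  refine ⟨Qs, hQs, fun E Y z hE hLE => ?_⟩
  have hm' : 1 ≤ max m 1 := le_max_right _ _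
  have hκ' : 1 ≤ max κ K := hκ.trans (le_max_left _ _)
  have hP' : ∀ P ∈ Ps, ∃ L₀ ∈ Qs, ∃ Ls : List (Lang A), (∀ R ∈ Ls, R ∈ Qs) ∧ P = catList L₀ Ls ∧
      Ls.length + 1 ≤ max m 1 := by
    intro P hPm
    obtain ⟨L₀, h1, Ls, h2, h3, h4⟩ := hP P hPm
    exact ⟨L₀, h1, Ls, h2, h3, h4.trans (le_max_left _ _)⟩
  have hexp' : ∀ R ∈ Ps ++ Qs, ∀ (x : List A) (j : ℕ), max κ K ≤ j →
      SynEq R (pw x j) (pw x (max κ K)) := by
    intro R hR x j hj
    exact (hexp R hR x j ((le_max_left _ _).trans hj)).trans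
      (hexp R hR x (max κ K) (le_max_left _ _)).symm
  have h1 := hctrl _ _ (jma_core (z := z) hm' hP' hκ' hexp' hE)
  have h2 : SynEq L E (pw E (max m 1)) := hLE.pw hm'
  have h3 : SynEq L (z ++ E) (z ++ pw E (max m 1)) := h2.left z
  have h4 : SynEq L (z ++ E ++ Y ++ E) (z ++ pw E (max m 1) ++ Y ++ pw E (max m 1)) :=
    (h3.app (SynEq.refl L Y)).app h2
  have h5 : SynEq L (pw (z ++ E ++ Y ++ E) K)
      (pw (z ++ pw E (max m 1) ++ Y ++ pw E (max m 1)) (max κ K)) :=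
    ((jma_ap hap (z ++ E ++ Y ++ E) (le_max_right κ K)).symm).trans (jma_pw h4 (max κ K))
  unfold I1
  exact (((h5.app h3).app h5).trans h1).trans h5.symm

end Pool.Agent.MSL
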