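import Pool.Agent.MSL.Jmz
import Pool.Agent.DD.Jump
import Pool.Agent.HLV.Coll

/-!
# Project MSL: jumps: the second identity

`jump_prep`: `Ps`, `Qs`, `m`, `κ`; take this `Qs`, `κ' = max κ K`.  `E' = pw E (κ' m)`, `F' = pw F (κ' m)` (`m ≥ 1`; `= pw (pw E κ') m`,
`HLV.pw_mul`): for `Q ∈ Qs`: `E' ~ E`, `F' ~ F` (`SynEq.pw`); for `P ∈ Ps`: `E' E' ~ E'`, `F' F' ~ F'`.
`DD.jump` (`E := pw E κ'`, `Z := a ++ F' ++ d`; for `Q`: `E (a F' d) E ~ E (a F d) E ~ E`): `Below Ps E' (E' ++ (a ++ F' ++ d) ++ E')`;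
similarly `Below Ps F' (F' ++ (b ++ E' ++ c) ++ F')`.
`U = pw (E' a F' b E') κ'`, `V = pw (E' c F' d E') κ'` (`κ' ≥ 1`: `U` ends with `E'`, `V` starts with `E'`).  For `P ∈ Ps` (`~` = `SynEq P`):
`U V = U₀ E' E' V₀ ~ U₀ E' V₀`, which is below `U₀ E' (a F' d) E' V₀ = U (a F' d) V`.
`U (a F' d) V` is below `U (a F' (b E' c) F' d) V ~ U (E' a F' b E') (E' c F' d E') V = pw (..) (κ'+1) ++ pw (..) (κ'+1) ~ U V`.
So `SynEq P (U V) (U (a F' d) V)`, so `SynEq L`.  Replace `E'`, `F'` by `E`, `F` (`SynEq L`, `SynEq.pw`) and `κ'` by `K` (`hap`).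
-/

namespace Pool.Agent.MSL

open Pool.Agent.DD Pool.Agent.HLV

variable {A : Type}

private theorem jmb_pwc {L : Lang A} {x y : List A} (h : SynEq L x y) (n : ℕ) :
    SynEq L (pw x n) (pw y n) := by
  induction n with
  | zero => exact SynEq.refl L _
  | succ n ih => rw [pw_succ, pw_succ]; exact h.app ih

private theorem jmb_ap {L : Lang A} {K : ℕ} (hap : ∀ x, SynEq L (pw x (K + 1)) (pw x K))
    {j : ℕ} (hj : K ≤ j) (x : List A) : SynEq L (pw x j) (pw x K) := by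
  induction hj with
  | refl => exact SynEq.refl L _
  | @step j hj ih =>
      have h1 : SynEq L (pw x (j + 1)) (pw x (K + 1)) := by
        rw [pw_succ, pw_succ]
        exact ih.left x
      exact h1.trans (hap x)

/-- The jump lemma for one of the two words. -/
private theorem jmb_below {Ps Qs : List (Lang A)} {m : ℕ}
    (hP : ∀ P ∈ Ps, ∃ L₀ ∈ Qs, ∃ Ls : List (Lang A), (∀ R ∈ Ls, R ∈ Qs) ∧ P = catList L₀ Ls ∧
      Ls.length + 1 ≤ m) {E F a d : List A} {k : ℕ} (hk : 1 ≤ k) (hm : 1 ≤ m)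
    (hQ : ∀ Q ∈ Qs, SynEq Q E (E ++ E) ∧ SynEq Q F (F ++ F) ∧
      SynEq Q E (E ++ (a ++ F ++ d) ++ E)) :
    Below Ps (pw E (k * m))
      (pw E (k * m) ++ (a ++ pw F (k * m) ++ d) ++ pw E (k * m)) := by
  have hkm : 1 ≤ k * m := Nat.mul_pos hk hm
  have h := DD.jump (pw E k) (a ++ pw F (k * m) ++ d) Qs Ps m hP
    (fun Q hQ' => ((hQ Q hQ').1.pw hk).symm.trans
      ((hQ Q hQ').1.trans (((hQ Q hQ').1.pw hk).app ((hQ Q hQ').1.pw hk))))
    (fun Q hQ' => by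
      obtain ⟨h1, h2, h3⟩ := hQ Q hQ'
      have e1 := h1.pw hk
      have e2 := h2.pw hkm
      exact e1.symm.trans (h3.trans ((e1.app (((SynEq.refl Q a).app e2).app
        (SynEq.refl Q d))).app e1)))
  rw [pw_mul] at h
  exact h

/-- The words with large exponents: every product. -/
private theorem jmb_prod {P : Lang A} {E F a b c d : List A} {k : ℕ} (hk : 1 ≤ k)
    (hE : SynEq P (E ++ E) E) (hX : ∀ x, SynEq P (pw x (k + 1)) (pw x k))
    (h1 : Below [P] E (E ++ (a ++ F ++ d) ++ E))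
    (h2 : Below [P] F (F ++ (b ++ E ++ c) ++ F)) :
    SynEq P (pw (E ++ a ++ F ++ b ++ E) k ++ pw (E ++ c ++ F ++ d ++ E) k)
      (pw (E ++ a ++ F ++ b ++ E) k ++ (a ++ F ++ d) ++ pw (E ++ c ++ F ++ d ++ E) k) := by
  obtain ⟨k', rfl⟩ : ∃ k', k = k' + 1 := ⟨k - 1, by omega⟩
  have hU : pw (E ++ a ++ F ++ b ++ E) (k' + 1) =
      (pw (E ++ a ++ F ++ b ++ E) k' ++ (E ++ a ++ F ++ b)) ++ E := by
    rw [pw_succ']
    simp only [List.append_assoc]
  have hV : pw (E ++ c ++ F ++ d ++ E) (k' + 1) =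
      E ++ ((c ++ F ++ d ++ E) ++ pw (E ++ c ++ F ++ d ++ E) k') := by
    rw [pw_succ]
    simp only [List.append_assoc]
  have hX1 := hX (E ++ a ++ F ++ b ++ E)
  have hY1 := hX (E ++ c ++ F ++ d ++ E)
  rw [pw_succ'] at hX1
  rw [pw_succ] at hY1
  generalize pw (E ++ a ++ F ++ b ++ E) (k' + 1) = U at hU hX1 ⊢
  generalize pw (E ++ c ++ F ++ d ++ E) (k' + 1) = V at hV hY1 ⊢
  generalize pw (E ++ a ++ F ++ b ++ E) k' ++ (E ++ a ++ F ++ b) = U₀ at hU
  generalize (c ++ F ++ d ++ E) ++ pw (E ++ c ++ F ++ d ++ E) k' = V₀ at hV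
  -- absorption
  have hUE : SynEq P U (U ++ E) := by
    rw [hU, List.append_assoc]
    exact hE.symm.left U₀
  have hEV : SynEq P V (E ++ V) := by
    rw [hV, ← List.append_assoc]
    exact hE.symm.right V₀
  -- the first comparison
  have c1 : Below [P] (U ++ V) (U ++ (a ++ F ++ d) ++ V) := by
    have g1 : SynEq P (U ++ V) (U₀ ++ E ++ V₀) := by
      have g2 := (hE.left U₀).right V₀
      rw [hU, hV]
      simpa only [List.append_assoc] using g2
    have g3 : Below [P] (U₀ ++ E ++ V₀) (U₀ ++ (E ++ (a ++ F ++ d) ++ E) ++ V₀) :=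
      ((Below.refl [P] U₀).app h1).app (Below.refl [P] V₀)
    have g4 : U₀ ++ (E ++ (a ++ F ++ d) ++ E) ++ V₀ = U ++ (a ++ F ++ d) ++ V := by
      rw [hU, hV]
      simp only [List.append_assoc]
    rw [g4] at g3
    intro R hR s t hx
    have hR' : R = P := by simpa using hR
    subst hR'
    exact g3 R hR s t ((g1 s t).1 hx)
  -- the second comparison
  have c2 : Below [P] (U ++ (a ++ F ++ d) ++ V) (U ++ V) := by
    have g3 : Below [P] (U ++ (a ++ F ++ d) ++ V)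
        (U ++ (a ++ (F ++ (b ++ E ++ c) ++ F) ++ d) ++ V) :=
      ((Below.refl [P] U).app (((Below.refl [P] a).app h2).app (Below.refl [P] d))).app
        (Below.refl [P] V)
    have g5 : SynEq P (U ++ (a ++ (F ++ (b ++ E ++ c) ++ F) ++ d) ++ V)
        ((U ++ (E ++ a ++ F ++ b ++ E)) ++ ((E ++ c ++ F ++ d ++ E) ++ V)) := by
      have e1 := ((hUE.right (a ++ F ++ b)).app hE.symm).app
        ((SynEq.refl P (c ++ F ++ d)).app hEV)
      simpa only [List.append_assoc] using e1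
    have g6 : SynEq P ((U ++ (E ++ a ++ F ++ b ++ E)) ++ ((E ++ c ++ F ++ d ++ E) ++ V))
        (U ++ V) := hX1.app hY1
    intro R hR s t hx
    have hR' : R = P := by simpa using hR
    subst hR'
    exact ((g5.trans g6) s t).1 (g3 R hR s t hx)
  exact fun s t => ⟨c1 P (by simp) s t, c2 P (by simp) s t⟩

theorem jump_two [Finite A] {n : ℕ} {L : Lang A} (hL : L ∈ B A (n + 2)) {K : ℕ}
    (hap : ∀ x, SynEq L (pw x (K + 1)) (pw x K)) :
    ∃ Qs : List (Lang A), (∀ Q ∈ Qs, Q ∈ B A (n + 1)) ∧ ∀ E F a b c d : List A,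
      (∀ Q ∈ Qs, SynEq Q E (E ++ E) ∧ SynEq Q F (F ++ F) ∧
        SynEq Q E (E ++ (a ++ F ++ d) ++ E) ∧ SynEq Q F (F ++ (b ++ E ++ c) ++ F)) →
      SynEq L E (E ++ E) → SynEq L F (F ++ F) → I2 L K E F a b c d := by
  obtain ⟨Ps, Qs, m, κ, hκ, hQB, hP, hper, hctl⟩ := jump_prep hL
  refine ⟨Qs, hQB, fun E F a b c d hQ hE hF => ?_⟩
  have hP' : ∀ P ∈ Ps, ∃ L₀ ∈ Qs, ∃ Ls : List (Lang A), (∀ R ∈ Ls, R ∈ Qs) ∧
      P = catList L₀ Ls ∧ Ls.length + 1 ≤ m + 1 := fun P hPm => by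
    obtain ⟨L₀, h1, Ls, h2, h3, h4⟩ := hP P hPm
    exact ⟨L₀, h1, Ls, h2, h3, Nat.le_succ_of_le h4⟩
  obtain ⟨k, hk⟩ : ∃ k, k = max κ K := ⟨_, rfl⟩
  have hkκ : κ ≤ k := by omega
  have hkK : K ≤ k := by omega
  have hk1 : 1 ≤ k := by omega
  have hkm : k ≤ k * (m + 1) := Nat.le_mul_of_pos_right k (Nat.succ_pos m)
  have b1 := jmb_below hP' (E := E) (F := F) (a := a) (d := d) hk1 (Nat.succ_pos m)
    (fun Q hQ' => ⟨(hQ Q hQ').1, (hQ Q hQ').2.1, (hQ Q hQ').2.2.1⟩)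
  have b2 := jmb_below hP' (E := F) (F := E) (a := b) (d := c) hk1 (Nat.succ_pos m)
    (fun Q hQ' => ⟨(hQ Q hQ').2.1, (hQ Q hQ').1, (hQ Q hQ').2.2.2⟩)
  obtain ⟨N, hN⟩ : ∃ N, N = k * (m + 1) := ⟨_, rfl⟩
  rw [← hN] at b1 b2 hkm
  have main : SynEq L (pw (pw E N ++ a ++ pw F N ++ b ++ pw E N) k ++
      pw (pw E N ++ c ++ pw F N ++ d ++ pw E N) k)
      (pw (pw E N ++ a ++ pw F N ++ b ++ pw E N) k ++ (a ++ pw F N ++ d) ++
        pw (pw E N ++ c ++ pw F N ++ d ++ pw E N) k) := by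
    apply hctl
    intro P hPm
    have hR : ∀ (x : List A) (j : ℕ), κ ≤ j → SynEq P (pw x j) (pw x κ) :=
      hper P (List.mem_append_left Qs hPm)
    refine jmb_prod hk1 ?_ (fun x => (hR x (k + 1) (by omega)).trans (hR x k hkκ).symm) ?_ ?_
    · rw [← pw_add]
      exact (hR E (N + N) (by omega)).trans (hR E N (by omega)).symm
    · intro R hR' s t hx
      have hR'' : R = P := by simpa using hR'
      subst hR''
      exact b1 R hPm s t hx
    · intro R hR' s t hx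
      have hR'' : R = P := by simpa using hR'
      subst hR''
      exact b2 R hPm s t hx
  have hN1 : 1 ≤ N := by omega
  have eE : SynEq L (pw E N) E := (hE.pw hN1).symm
  have eF : SynEq L (pw F N) F := (hF.pw hN1).symm
  have eX : SynEq L (pw (pw E N ++ a ++ pw F N ++ b ++ pw E N) k)
      (pw (E ++ a ++ F ++ b ++ E) K) :=
    (jmb_pwc ((((eE.right a).app eF).right b).app eE) k).trans (jmb_ap hap hkK _)
  have eY : SynEq L (pw (pw E N ++ c ++ pw F N ++ d ++ pw E N) k)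
      (pw (E ++ c ++ F ++ d ++ E) K) :=
    (jmb_pwc ((((eE.right c).app eF).right d).app eE) k).trans (jmb_ap hap hkK _)
  exact (eX.app eY).symm.trans (main.trans ((eX.app ((eF.left a).right d)).app eY))

end Pool.Agent.MSL
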