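import Pool.Agent.MSL.Bas
import Pool.Agent.DD.Rec

/-!
# Project MSL: jumps: preparation

`L` is controlled by a list `Ps` of members of `MonCl (B A (n+1))` (`BoolCl.exists_list`), each of which is
`catList L₀ Ls` with all factors in `B A (n+1)` (`MonCl_B`); `Qs` = all factors, `m` larger than all lengths.  All members
of `Ps ++ Qs` are `Rec` (`rec_B`, `MonCl_sub_B`): each of them has an exponent `κ_R` with
`SynEq R (pw x (j+1)) (pw x j)` for `j ≥ κ_R` (a homomorphism into an aperiodic monoid, words with equal values are `SynEq R`);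
`κ` = maximum of these and `1`.
-/

namespace Pool.Agent.MSL

open Pool.Agent.DD Pool.Agent.HLV

variable {A : Type}

private theorem jmz_factors {n : ℕ} (Ps : List (Lang A)) (hPs : ∀ P ∈ Ps, P ∈ MonCl (B A n)) :
    ∃ (Qs : List (Lang A)) (m : ℕ), (∀ Q ∈ Qs, Q ∈ B A n) ∧
      ∀ P ∈ Ps, ∃ L₀ ∈ Qs, ∃ Ls : List (Lang A), (∀ R ∈ Ls, R ∈ Qs) ∧ P = catList L₀ Ls ∧
        Ls.length + 1 ≤ m := by
  induction Ps with
  | nil => exact ⟨[], 0, by simp, by simp⟩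
  | cons P Ps ih =>
      obtain ⟨Qs, m, h1, h2⟩ := ih (fun K hK => hPs K (by simp [hK]))
      obtain ⟨L₀, hL₀, Ls, hLs, hP⟩ := MonCl_B (hPs P (by simp))
      refine ⟨L₀ :: (Ls ++ Qs), max m (Ls.length + 1), ?_, ?_⟩
      · intro Q hQ
        rcases List.mem_cons.1 hQ with rfl | hQ
        · exact hL₀
        · rcases List.mem_append.1 hQ with hQ | hQ
          · exact hLs Q hQ
          · exact h1 Q hQ
      · intro K hK
        rcases List.mem_cons.1 hK with rfl | hK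
        · exact ⟨L₀, by simp, Ls, fun K hK => by simp [hK], hP, le_max_right _ _⟩
        · obtain ⟨L₁, hL₁, Ks, hKs, hK', hlen⟩ := h2 K hK
          exact ⟨L₁, by simp [hL₁], Ks, fun K hK => by simp [hKs K hK], hK',
            le_trans hlen (le_max_left _ _)⟩

private theorem jmz_exp {R : Lang A} (hR : Rec R) :
    ∃ k : ℕ, ∀ (x : List A) (j : ℕ), k ≤ j → SynEq R (pw x j) (pw x k) := by
  obtain ⟨N, iM, iF, φ, h1, h2, ⟨k, h3⟩, h4⟩ := hR
  have hφ : IsHom φ := ⟨h1, h2⟩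
  have hap : Aper N k := h3
  refine ⟨k, fun x j hj s t => ?_⟩
  apply h4
  rw [h2, h2, h2, h2, hφ.pw, hφ.pw, hap.mono hj]

private theorem jmz_exps (Rs : List (Lang A)) (hRs : ∀ R ∈ Rs, Rec R) :
    ∃ κ : ℕ, 1 ≤ κ ∧ ∀ R ∈ Rs, ∀ (x : List A) (j : ℕ), κ ≤ j → SynEq R (pw x j) (pw x κ) := by
  induction Rs with
  | nil => exact ⟨1, le_rfl, fun R hR => absurd hR List.not_mem_nil⟩
  | cons R Rs ih =>
      obtain ⟨κ, hκ, h1⟩ := ih (fun K hK => hRs K (List.mem_cons_of_mem _ hK))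
      obtain ⟨k, hk⟩ := jmz_exp (hRs R List.mem_cons_self)
      refine ⟨max κ k, le_trans hκ (le_max_left _ _), ?_⟩
      intro K hK x j hj
      rcases List.mem_cons.1 hK with rfl | hK
      · exact (hk x j (le_trans (le_max_right _ _) hj)).trans (hk x _ (le_max_right _ _)).symm
      · exact (h1 K hK x j (le_trans (le_max_left _ _) hj)).trans
          (h1 K hK x _ (le_max_left _ _)).symm

theorem jump_prep [Finite A] {n : ℕ} {L : Lang A} (hL : L ∈ B A (n + 2)) :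
    ∃ (Ps Qs : List (Lang A)) (m κ : ℕ), 1 ≤ κ ∧ (∀ Q ∈ Qs, Q ∈ B A (n + 1)) ∧
      (∀ P ∈ Ps, ∃ L₀ ∈ Qs, ∃ Ls : List (Lang A), (∀ R ∈ Ls, R ∈ Qs) ∧ P = catList L₀ Ls ∧
        Ls.length + 1 ≤ m) ∧
      (∀ R ∈ Ps ++ Qs, ∀ (x : List A) (j : ℕ), κ ≤ j → SynEq R (pw x j) (pw x κ)) ∧
      ∀ x y, (∀ P ∈ Ps, SynEq P x y) → SynEq L x y := by
  have hL' : BoolCl (MonCl (B A (n + 1))) L := hL
  obtain ⟨Ps, hPs, hctrl⟩ := hL'.exists_list
  obtain ⟨Qs, m, hQs, hfac⟩ := jmz_factors Ps hPs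
  have hrec : ∀ R ∈ Ps ++ Qs, Rec R := by
    intro R hR
    rcases List.mem_append.1 hR with hR | hR
    · exact rec_B (MonCl_sub_B (hPs R hR))
    · exact rec_B (hQs R hR)
  obtain ⟨κ, hκ, hexp⟩ := jmz_exps (Ps ++ Qs) hrec
  exact ⟨Ps, Qs, m, κ, hκ, hQs, hfac, hexp, hctrl⟩

end Pool.Agent.MSL
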