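import Pool.Agent.MSL.Bas

/-!
# Project MSL: the label lemma for factorization forests

`lab i` is the label of the cut between the blocks number `i - 1` and `i`.  Induction on `Λ` (`Finset.induction`),
for all `bs`.  `Λ = ∅`: then `bs.length ≤ 1`, so `bs.flatten` is `[]` or a block.  Step `insert e Λ`: let
`i₁ < ... < i_s` be the cuts with label `e`.  If there is none, use the induction hypothesis.  Otherwise
`bs.flatten = U₀ U₁ ... U_s` with `U₀` the product of the blocks before `i₁`, `U_s` the product of the blocks from
`i_s` on, and each middle part is a product of blocks between two consecutive `e`-cuts: its value is `e`,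
`e * e = e`, and no interior cut has label `e`, so by the induction hypothesis all parts have height `≤ H`.
The product of the middle parts has height `≤ H + 1` (an idempotent node; if it is empty it is `[]`), the whole
`≤ H + 3` (two binary nodes).  It may be easier to do a second induction on the length of `bs`: claim that a
list of blocks which starts at an `e`-cut (or is everything) is `(parts with value e) ++ rest`.
`Ht` is monotone in the height (first alternative).
-/

namespace Pool.Agent.MSL

open Pool.Agent.DD Pool.Agent.HLV

variable {A M N S : Type}

theorem ht_mono [Monoid S] {τ : List A → S} {h h' : ℕ} (hh : h ≤ h') {u : List A}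
    (hu : Ht τ h u) : Ht τ h' u := by
  induction hh with
  | refl => exact hu
  | step _ ih => exact Or.inl ih

/-- The hypothesis of the label lemma for a piece of the sequence of blocks. -/
private theorem Lab_take {τ : List A → S} [Monoid S] {bs : List (List A)} {lab : ℕ → S} {c : ℕ}
    (hc : c ≤ bs.length)
    (h3 : ∀ i j, 0 < i → i < j → j < bs.length → lab i = lab j →
      τ ((bs.drop i).take (j - i)).flatten = lab i ∧ lab i * lab i = lab i) :
    ∀ i j, 0 < i → i < j → j < (bs.take c).length → lab i = lab j →
      τ (((bs.take c).drop i).take (j - i)).flatten = lab i ∧ lab i * lab i = lab i := by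
  intro i j hi hij hj hl
  rw [List.length_take, Nat.min_eq_left hc] at hj
  have := h3 i j hi hij (by omega) hl
  rw [List.drop_take, List.take_take, Nat.min_eq_left (by omega : j - i ≤ c - i)]
  exact this

private theorem Lab_parts [Monoid S] {τ : List A → S} {h H : ℕ} {Λ : Finset S} {e : S}
    (ih : ∀ (bs : List (List A)) (lab : ℕ → S), (∀ b ∈ bs, Ht τ h b) →
      (∀ i, 0 < i → i < bs.length → lab i ∈ Λ) →
      (∀ i j, 0 < i → i < j → j < bs.length → lab i = lab j →
        τ ((bs.drop i).take (j - i)).flatten = lab i ∧ lab i * lab i = lab i) →
      Ht τ H bs.flatten) (n : ℕ) :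
    ∀ (bs : List (List A)) (lab : ℕ → S), bs.length ≤ n → (∀ b ∈ bs, Ht τ h b) →
      (∀ i, 0 < i → i < bs.length → lab i = e ∨ lab i ∈ Λ) → lab 0 = e →
      (∀ i j, i < j → j < bs.length → lab i = lab j →
        τ ((bs.drop i).take (j - i)).flatten = lab i ∧ lab i * lab i = lab i) →
      ∃ (us : List (List A)) (r : List A), bs.flatten = us.flatten ++ r ∧
        (∀ x ∈ us, Ht τ H x ∧ τ x = e) ∧ Ht τ H r ∧ (us = [] ∨ e * e = e) := by
  induction n with
  | zero =>
      intro bs lab hn h1 h2 h0 h3
      have hb : bs = [] := List.length_eq_zero_iff.1 (by omega)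
      subst hb
      refine ⟨[], [], by simp, by simp, ?_, Or.inl rfl⟩
      exact ht_mono (Nat.zero_le H) (show ([] : List A).length ≤ 1 by simp)
  | succ n IH =>
      intro bs lab hn h1 h2 h0 h3
      by_cases hex : ∃ j, 0 < j ∧ j < bs.length ∧ lab j = e
      · classical
        obtain ⟨hj0, hjl, hje⟩ := Nat.find_spec hex
        have hmin : ∀ i, i < Nat.find hex → ¬ (0 < i ∧ i < bs.length ∧ lab i = e) :=
          fun i hi => Nat.find_min hex hi
        generalize Nat.find hex = j at hj0 hjl hje hmin
        obtain ⟨hv, hee⟩ := h3 0 j hj0 hjl (by rw [h0, hje])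
        rw [h0] at hee
        rw [h0, List.drop_zero, Nat.sub_zero] at hv
        have hfst : Ht τ H (bs.take j).flatten := by
          refine ih (bs.take j) lab (fun b hb => h1 b (List.mem_of_mem_take hb)) ?_
            (Lab_take (le_of_lt hjl) fun i k hi hik hk hl => h3 i k hik hk hl)
          intro i hi hil
          rw [List.length_take, Nat.min_eq_left (le_of_lt hjl)] at hil
          rcases h2 i hi (by omega) with h4 | h4
          · exact absurd ⟨hi, by omega, h4⟩ (hmin i hil)
          · exact h4
        obtain ⟨us, r, hf, hus, hr, _⟩ := IH (bs.drop j) (fun i => lab (i + j))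
          (by rw [List.length_drop]; omega)
          (fun b hb => h1 b (List.mem_of_mem_drop hb))
          (fun i hi hil => h2 (i + j) (by omega) (by rw [List.length_drop] at hil; omega))
          (by simpa using hje)
          (fun i k hik hk hl => by
            rw [List.length_drop] at hk
            have h5 := h3 (i + j) (k + j) (by omega) (by omega) hl
            rw [List.drop_drop]
            have e1 : k + j - (i + j) = k - i := by omega
            rw [e1] at h5
            rw [Nat.add_comm j i]
            exact h5)
        refine ⟨(bs.take j).flatten :: us, r, ?_, ?_, hr, Or.inr hee⟩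
        · rw [List.flatten_cons, List.append_assoc, ← hf, ← List.flatten_append,
            List.take_append_drop]
        · intro x hx
          rcases List.mem_cons.1 hx with rfl | hx
          · exact ⟨hfst, hv⟩
          · exact hus x hx
      · refine ⟨[], bs.flatten, by simp, by simp, ?_, Or.inl rfl⟩
        refine ih bs lab h1 ?_ (fun i j _ hij hj hl => h3 i j hij hj hl)
        intro i hi hil
        rcases h2 i hi hil with h4 | h4
        · exact absurd ⟨i, hi, hil, h4⟩ hex
        · exact h4

theorem label_lemma [Monoid S] {τ : List A → S} (hτ : IsHom τ) (h : ℕ) (Λ : Finset S) :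
    ∃ H, ∀ (bs : List (List A)) (lab : ℕ → S), (∀ b ∈ bs, Ht τ h b) →
      (∀ i, 0 < i → i < bs.length → lab i ∈ Λ) →
      (∀ i j, 0 < i → i < j → j < bs.length → lab i = lab j →
        τ ((bs.drop i).take (j - i)).flatten = lab i ∧ lab i * lab i = lab i) →
      Ht τ H bs.flatten := by
  classical
  induction Λ using Finset.induction with
  | empty =>
      refine ⟨h, fun bs lab h1 h2 _ => ?_⟩
      match bs, h1, h2 with
      | [], _, _ => exact ht_mono (Nat.zero_le h) (show ([] : List A).length ≤ 1 by simp)
      | [b], h1, _ =>
          have := h1 b (by simp)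
          simpa using this
      | b :: c :: l, _, h2 =>
          have := h2 1 (by omega) (by simp)
          simp at this
  | insert e Λ he ih =>
      obtain ⟨H, ih⟩ := ih
      refine ⟨H + 3, fun bs lab h1 h2 h3 => ?_⟩
      by_cases hex : ∃ j, 0 < j ∧ j < bs.length ∧ lab j = e
      · obtain ⟨hj0, hjl, hje⟩ := Nat.find_spec hex
        have hmin : ∀ i, i < Nat.find hex → ¬ (0 < i ∧ i < bs.length ∧ lab i = e) :=
          fun i hi => Nat.find_min hex hi
        generalize Nat.find hex = j at hj0 hjl hje hmin
        have hfst : Ht τ H (bs.take j).flatten := by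
          refine ih (bs.take j) lab (fun b hb => h1 b (List.mem_of_mem_take hb)) ?_
            (Lab_take (le_of_lt hjl) h3)
          intro i hi hil
          rw [List.length_take, Nat.min_eq_left (le_of_lt hjl)] at hil
          rcases Finset.mem_insert.1 (h2 i hi (by omega)) with h4 | h4
          · exact absurd ⟨hi, by omega, h4⟩ (hmin i hil)
          · exact h4
        obtain ⟨us, r, hf, hus, hr, hee⟩ := Lab_parts ih (bs.drop j).length (bs.drop j)
          (fun i => lab (i + j)) (e := e) le_rfl
          (fun b hb => h1 b (List.mem_of_mem_drop hb))
          (fun i hi hil => Finset.mem_insert.1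
            (h2 (i + j) (by omega) (by rw [List.length_drop] at hil; omega)))
          (by simpa using hje)
          (fun i k hik hk hl => by
            rw [List.length_drop] at hk
            have h5 := h3 (i + j) (k + j) (by omega) (by omega) (by omega) hl
            rw [List.drop_drop]
            have e1 : k + j - (i + j) = k - i := by omega
            rw [e1] at h5
            rw [Nat.add_comm j i]
            exact h5)
        have hmid : Ht τ (H + 1) us.flatten := by
          rcases hee with h0 | hee
          · subst h0
            exact ht_mono (Nat.zero_le _) (show ([] : List A).length ≤ 1 by simp)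
          · exact Or.inr (Or.inr ⟨e, us, hee, rfl, hus⟩)
        have htail : Ht τ (H + 2) (bs.drop j).flatten := by
          rw [hf]
          exact Or.inr (Or.inl ⟨us.flatten, r, rfl, hmid, ht_mono (Nat.le_succ H) hr⟩)
        refine Or.inr (Or.inl ⟨(bs.take j).flatten, (bs.drop j).flatten, ?_,
          ht_mono (by omega) hfst, htail⟩)
        rw [← List.flatten_append, List.take_append_drop]
      · refine ht_mono (by omega : H ≤ H + 3) (ih bs lab h1 ?_ h3)
        intro i hi hil
        rcases Finset.mem_insert.1 (h2 i hi hil) with h4 | h4
        · exact absurd ⟨i, hi, hil, h4⟩ hex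
        · exact h4

end Pool.Agent.MSL
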