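import Pool.Agent.MSL.Fa
import Pool.Agent.MSL.Fb
import Pool.Agent.MSL.Ram
import Pool.Agent.MSL.Blk

/-!
# Project MSL: No fall

`m = η DD`.  `ret_prefix`: `Ret (x ++ y)` implies `Ret x` (return word `y ++ r`).  `Ret (DD ++ x) ↔ Ret x` when
`s d = s`, `m m = m`.  Show `Ret α η s m (DD ++ x)` for all prefixes `x` of `X` by induction on the length of `x`
(`List.reverseRecOn`, or on `n` for `X.take n`).
`x = []`: return word `[]`.
`x ++ [a]` (a prefix of `X`), `Ret (DD ++ x)`: let `V` be the shortest suffix of `DD ++ x ++ [a]` with `Bl m (ρ+1) V`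
(the whole word has it since `DD` has it: `bl_inf`).  It is not empty (`inl_nil`), and `V = c :: V₀` with
`¬ Bl m (ρ+1) V₀`, so `¬ Bl m (ρ+2) V` (`bl_cons`).  `ramsey_blocks` (`ρ + 1 = ρ + j`, `j = 1`):
`V = V₁ F V₂`, `F` idempotent for `α` and `η`, `InL η m F`, `Bl m 1 V₂`, so `V₂ ≠ []`.
`DD x a = U V = U₀ F V₂`, `U₀ = U V₁`.  Since `V₂ ≠ []`, `U₀ F` is a prefix of `DD ++ x`, so `Ret (U₀ ++ F)`.
`F ++ V₂` is a suffix of `V`, so a suffix of `DD ++ (x ++ [a])`, and `¬ Bl m (ρ+2) (F ++ V₂)` (`bl_inf`); `hW`: there is a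
factor `B` of `DD = B₁ ++ B ++ B₂` with `F V₂ ≤ B`; `fact_two`: `Ret (B₁ ++ (F ++ V₂))`, so `Ret (B₁ ++ F)`.
`fact_one` (`x := U₀`, `x' := B₁`): `s α(U₀F) = s α(B₁F)`, `m η(U₀F) = m η(B₁F)`; so the return word of `B₁ F V₂` is one
of `U₀ F V₂ = DD x a`.  Finally `Ret (DD ++ X)` gives `Ret X`.
-/

namespace Pool.Agent.MSL

open Pool.Agent.DD Pool.Agent.HLV

variable {A M N : Type} [Monoid M] [Monoid N] {α : List A → M} {η : List A → N} {K : ℕ}

theorem ret_prefix {s : M} {m : N} {x y : List A} (h : Ret α η s m (x ++ y)) :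
    Ret α η s m x := by
  obtain ⟨r, h1, h2⟩ := h
  exact ⟨y ++ r, by rwa [← List.append_assoc], by rwa [← List.append_assoc]⟩

/-- A shortest suffix with `j + 1` blocks. -/
private theorem short_suffix {η : List A → N} (hη : IsHom η) {K : ℕ} (aN : Aper N K) {m : N}
    (hm : m ≠ 1) {j : ℕ} {w : List A} (hw : Bl η m (j + 1) w) :
    ∃ V, V <:+ w ∧ Bl η m (j + 1) V ∧ ¬ Bl η m (j + 2) V := by
  induction w with
  | nil =>
      obtain ⟨y, z, h1, h2, -⟩ := hw
      have h3 : y = [] := (List.append_eq_nil_iff.1 h1.symm).1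
      rw [h3] at h2
      exact absurd h2 (inl_nil hη aN hm)
  | cons c w ih =>
      by_cases h : Bl η m (j + 1) w
      · obtain ⟨V, h1, h2, h3⟩ := ih h
        exact ⟨V, h1.trans (List.suffix_cons c w), h2, h3⟩
      · exact ⟨c :: w, List.suffix_refl _, hw, fun h' => h (bl_cons hη aN hm h')⟩

theorem noFall (hS : Setup α η K) {ρ kM R : ℕ} (hρ : RamC (M × N) ρ) (hz : FactZ α η K R kM)
    {DD X : List A} {s : M} (hd : α DD * α DD = α DD) (hm : η DD * η DD = η DD)
    (h1 : η DD ≠ 1) (hs : s * α DD = s) (hB : Bl η (η DD) (ρ + 1) DD)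
    (hW : ∀ x, x <+: X → ∀ V, V <:+ DD ++ x → ¬ Bl η (η DD) (ρ + 2) V →
      ∃ B, B <:+: DD ∧ Dom (Th η R) kM V B) :
    Ret α η s (η DD) X := by
  have hα := hS.αh
  have hη := hS.ηh
  have main : ∀ x : List A, x <+: X → Ret α η s (η DD) (DD ++ x) := by
    intro x
    induction x using List.reverseRecOn with
    | nil =>
        intro _
        refine ⟨[], ?_, ?_⟩
        · rw [List.append_nil, List.append_nil]
          exact hs
        · rw [List.append_nil, List.append_nil, hm, hm]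
    | append_singleton x a ih =>
        intro hx
        have hx' : x <+: X := (List.prefix_append x [a]).trans hx
        have ihx := ih hx'
        -- the whole word has `ρ + 1` blocks
        have hw : Bl η (η DD) (ρ + 1) (DD ++ (x ++ [a])) :=
          bl_inf hη ⟨[], x ++ [a], by simp⟩ hB
        obtain ⟨V, hVs, hVb, hVn⟩ := short_suffix hη hS.aN h1 hw
        obtain ⟨V₁, F, V₂, hV, hF, hF', hFn, hV2⟩ := ramsey_blocks hα hη hρ hVb
        have hV2' : InL η (η DD) V₂ := (bl_one hη).1 hV2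
        have hne : V₂ ≠ [] := by
          rintro rfl
          exact inl_nil hη hS.aN h1 hV2'
        obtain ⟨U, hU⟩ := hVs
        have e1 : (U ++ V₁) ++ F ++ V₂ = DD ++ (x ++ [a]) := by
          rw [← hU, hV]
          simp only [List.append_assoc]
        obtain ⟨V₂', a', hV2e⟩ : ∃ V₂' a', V₂ = V₂' ++ [a'] := by
          rcases List.eq_nil_or_concat V₂ with h | ⟨v', c, h⟩
          · exact absurd h hne
          · exact ⟨v', c, by rw [h, List.concat_eq_append]⟩
        have e2 : (U ++ V₁) ++ F ++ V₂' = DD ++ x := by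
          have h3 : ((U ++ V₁) ++ F ++ V₂') ++ [a'] = (DD ++ x) ++ [a] := by
            rw [List.append_assoc _ V₂' [a'], ← hV2e, e1, List.append_assoc]
          exact (List.append_inj' h3 rfl).1
        have hR1 : Ret α η s (η DD) ((U ++ V₁) ++ F) := by
          rw [← e2] at ihx
          exact ret_prefix ihx
        have hsuf : F ++ V₂ <:+ DD ++ (x ++ [a]) :=
          ⟨U ++ V₁, by rw [← List.append_assoc]; exact e1⟩
        have hnb : ¬ Bl η (η DD) (ρ + 2) (F ++ V₂) := by
          intro hb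
          refine hVn (bl_inf hη ⟨V₁, [], ?_⟩ hb)
          rw [hV, List.append_nil, List.append_assoc]
        obtain ⟨B, ⟨B₁, B₂, hBD⟩, hdom⟩ := hW (x ++ [a]) hx (F ++ V₂) hsuf hnb
        have hR2 : Ret α η s (η DD) (B₁ ++ (F ++ V₂)) := by
          have h4 := fact_two hS (R := R) (kM := kM) hz (B₁ := B₁) (B₀ := B) (B₂ := B₂)
            (B' := F ++ V₂) (s := s) (by rw [hBD]; exact hm) (by rw [hBD]; exact hs) hdom
          rwa [hBD] at h4
        have hR3 : Ret α η s (η DD) (B₁ ++ F) := by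
          rw [← List.append_assoc] at hR2
          exact ret_prefix hR2
        obtain ⟨f1, f2⟩ := fact_one hS (x := U ++ V₁) (x' := B₁) hd hm hs hF hF' hFn hR1 hR3
        obtain ⟨r, r1, r2⟩ := hR2
        refine ⟨r, ?_, ?_⟩
        · rw [← e1]
          have e3 : (U ++ V₁) ++ F ++ V₂ ++ r = ((U ++ V₁) ++ F) ++ (V₂ ++ r) := by
            simp only [List.append_assoc]
          have e4 : B₁ ++ (F ++ V₂) ++ r = (B₁ ++ F) ++ (V₂ ++ r) := by
            simp only [List.append_assoc]
          rw [e3, hα.mul, ← mul_assoc, f1, mul_assoc, ← hα.mul, ← e4]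
          exact r1
        · rw [← e1]
          have e3 : (U ++ V₁) ++ F ++ V₂ ++ r = ((U ++ V₁) ++ F) ++ (V₂ ++ r) := by
            simp only [List.append_assoc]
          have e4 : B₁ ++ (F ++ V₂) ++ r = (B₁ ++ F) ++ (V₂ ++ r) := by
            simp only [List.append_assoc]
          rw [e3]
          calc η DD * η (((U ++ V₁) ++ F) ++ (V₂ ++ r)) * η DD
              = (η DD * η ((U ++ V₁) ++ F)) * η (V₂ ++ r) * η DD := by
                rw [hη.mul ((U ++ V₁) ++ F)]
                simp only [mul_assoc]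
            _ = (η DD * η (B₁ ++ F)) * η (V₂ ++ r) * η DD := by rw [f2]
            _ = η DD * η (B₁ ++ (F ++ V₂) ++ r) * η DD := by
                rw [e4, hη.mul (B₁ ++ F)]
                simp only [mul_assoc]
            _ = η DD := r2
  obtain ⟨r, r1, r2⟩ := main X (List.prefix_refl X)
  refine ⟨r, ?_, ?_⟩
  · rw [List.append_assoc, hα.mul, ← mul_assoc, hs] at r1
    exact r1
  · rw [List.append_assoc, hη.mul, ← mul_assoc, hm] at r2
    exact r2

end Pool.Agent.MSL
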