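import Pool.Agent.MSL.Bas

/-!
# Project MSL: shifting a window to the left

`mid ++ post` is a list of words in which each word is dominated by the earlier ones. A window of consecutive
entries is dominated by any window of the same length more to the left (`Shf_slice`), so a window of length at most
`mid.length` is dominated by a window in `mid` (`shift_inf`), also with `q` extra words dominating `D` (`shift_suf`).
-/

namespace Pool.Agent.MSL

open Pool.Agent.DD Pool.Agent.HLV

variable {A : Type}

variable {r : List A → List A → Prop}

/-- windows more to the left dominate -/
private theorem Shf_slice (h : Cg r) {k : ℕ} {L : List (List A)}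
    (hp : L.Pairwise (fun a b => Dom r k b a)) (n : ℕ) :
    ∀ i j : ℕ, i ≤ j → j + n ≤ L.length →
      Dom r k ((L.drop j).take n).flatten ((L.drop i).take n).flatten := by
  induction n with
  | zero =>
      intro i j _ _
      simp only [List.take_zero]
      exact dom_refl h k _
  | succ n ih =>
      intro i j hij hj
      have hj' : j < L.length := by omega
      have hi' : i < L.length := by omega
      rw [List.drop_eq_getElem_cons hj', List.drop_eq_getElem_cons hi', List.take_succ_cons,
        List.take_succ_cons, List.flatten_cons, List.flatten_cons]
      refine dom_app h ?_ (ih (i + 1) (j + 1) (by omega) (by omega))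
      rcases Nat.lt_or_ge i j with h1 | h1
      · exact (List.pairwise_iff_getElem.1 hp) i j hi' hj' h1
      · have : i = j := by omega
        subst this
        exact dom_refl h k _

/-- windows of words which dominate `D` -/
private theorem Shf_pow (h : Cg r) {k : ℕ} {D : List A} {L : List (List A)}
    (hD : ∀ x ∈ L, Dom r k D x) (q : ℕ) :
    ∀ i : ℕ, i + q ≤ L.length → Dom r k (pw D q) ((L.drop i).take q).flatten := by
  induction q with
  | zero =>
      intro i _
      simp only [List.take_zero]
      exact dom_refl h k _
  | succ q ih =>
      intro i hi
      have hi' : i < L.length := by omega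
      rw [List.drop_eq_getElem_cons hi', List.take_succ_cons, List.flatten_cons, pw_succ]
      exact dom_app h (hD _ (List.getElem_mem hi')) (ih (i + 1) (by omega))

/-- windows in the left part -/
private theorem Shf_infix {B : Type} (mid post : List B) (i n : ℕ) (hi : i + n ≤ mid.length) :
    ((mid ++ post).drop i).take n <:+: mid := by
  rw [List.drop_append_of_le_length (by omega),
    List.take_append_of_le_length (by rw [List.length_drop]; omega)]
  exact (List.take_prefix _ _).isInfix.trans (List.drop_suffix _ _).isInfix

theorem shift_inf (h : Cg r) {k : ℕ} {mid post ys : List (List A)}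
    (hp : (mid ++ post).Pairwise (fun a b => Dom r k b a)) (hy : ys <:+: mid ++ post)
    (hl : ys.length ≤ mid.length) : ∃ zs, zs <:+: mid ∧ Dom r k ys.flatten zs.flatten := by
  obtain ⟨p, q, hpq⟩ := hy
  have hlen : p.length + ys.length + q.length = (mid ++ post).length := by
    rw [← hpq, List.length_append, List.length_append]
  have hys : ys = ((mid ++ post).drop p.length).take ys.length := by
    rw [← hpq, List.append_assoc, List.drop_left, List.take_left]
  refine ⟨((mid ++ post).drop (min p.length (mid.length - ys.length))).take ys.length,
    Shf_infix _ _ _ _ (by omega), ?_⟩
  have := Shf_slice h hp ys.length (min p.length (mid.length - ys.length)) p.length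
    (min_le_left _ _) (by omega)
  rw [← hys] at this
  exact this

theorem shift_suf (h : Cg r) {k q : ℕ} {D : List A} {mid post ys : List (List A)}
    (hp : (mid ++ post).Pairwise (fun a b => Dom r k b a)) (hD : ∀ x ∈ mid ++ post, Dom r k D x)
    (hy : ys <:+ mid ++ post) (hl : ys.length + q ≤ mid.length) :
    ∃ zs, zs <:+: mid ∧ Dom r k (ys.flatten ++ pw D q) zs.flatten := by
  obtain ⟨p, hpq⟩ := hy
  have hlen : p.length + ys.length = (mid ++ post).length := by
    rw [← hpq]; simp [List.length_append]
  have hlen2 : (mid ++ post).length = mid.length + post.length := List.length_append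
  have hys : ys = ((mid ++ post).drop p.length).take ys.length := by
    rw [← hpq, List.drop_left, List.take_length]
  refine ⟨((mid ++ post).drop (mid.length - (ys.length + q))).take (ys.length + q),
    Shf_infix _ _ _ _ (by omega), ?_⟩
  rw [List.take_add, List.flatten_append, List.drop_drop]
  refine dom_app h ?_ (Shf_pow h hD q _ (by omega))
  have := Shf_slice h hp ys.length (mid.length - (ys.length + q)) p.length
    (by omega) (by omega)
  rw [← hys] at this
  exact this

end Pool.Agent.MSL
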