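import Pool.Agent.MSL.Win
import Pool.Agent.MSL.Shf
import Pool.Agent.MSL.Tha
import Pool.Agent.MSL.Fac

/-!
# Project MSL: claim (W), prefixes of the rest of the items

`Q = (ρ+2) K + 1`.  All items have the value `η D`.  `V` is a factor of `(mid ++ post).flatten`; it has few blocks, so it
is a factor of `ys.flatten` with `ys` at most `Q` consecutive items (`win_inf`); the items can be shifted into `mid`
(`shift_inf`), and `dom_factor` gives a factor `B` of `mid.flatten` which dominates `V`.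
-/

namespace Pool.Agent.MSL

open Pool.Agent.DD Pool.Agent.HLV

variable {A N : Type} [Monoid N] {η : List A → N}

variable {R kM ρ : ℕ} {D : List A} {mid post : List (List A)}

theorem wca (hη : IsHom η) {K : ℕ} (hx : ∀ x ∈ mid ++ post, Dom (Th η R) (kM + 2) D x)
    (hp : (mid ++ post).Pairwise (fun a b => Dom (Th η R) (kM + 2) b a))
    (hl : 2 * ((ρ + 2) * K + 1) ≤ mid.length) {x : List A} (hX : x <+: post.flatten)
    {V : List A} (hV : V <:+ mid.flatten ++ x) (hb : ¬ Bl η (η D ^ K) (ρ + 2) V) :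
    ∃ B, B <:+: mid.flatten ∧ Dom (Th η R) kM V B := by
  have hcg := th_cg hη R
  have hval : ∀ x ∈ mid ++ post, η x = η D := fun x h => (dom_base hcg (hx x h)).1.symm
  have hVi : V <:+: (mid ++ post).flatten := by
    obtain ⟨t, ht⟩ := hX
    obtain ⟨s, hs⟩ := hV
    refine ⟨s, t, ?_⟩
    rw [hs, List.append_assoc, ht, List.flatten_append]
  obtain ⟨ys, hy1, hy2, hy3⟩ := win_inf hη hval hVi (b := ρ + 1) hb
  have hlen : ys.length ≤ mid.length := by
    have h1 : ys.length ≤ (ρ + 2) * K + 1 := hy3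
    omega
  obtain ⟨zs, hz1, hz2⟩ := shift_inf hcg hp hy1 hlen
  obtain ⟨B, hB1, hB2⟩ := dom_factor hcg hz2 hy2
  refine ⟨B, hB1.trans ?_, hB2⟩
  obtain ⟨s, t, hst⟩ := hz1
  refine ⟨s.flatten, t.flatten, ?_⟩
  rw [← hst, List.flatten_append, List.flatten_append]

end Pool.Agent.MSL
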