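import Pool.Agent.MSL.Win
import Pool.Agent.MSL.Shf
import Pool.Agent.MSL.Tha
import Pool.Agent.MSL.Fac

/-!
# Project MSL: claim (W), prefixes which reach into `X'`

`Q = (ρ+2) K + 1`, `x = post.flatten ++ x'`, `V` a suffix of `(mid ++ post).flatten ++ x'`, `x'` a prefix of `X'`.
Either `V = V₀ ++ x'` with `V₀` a suffix of `(mid ++ post).flatten`, or `V` is a suffix of `x'`; in both cases `V` is
dominated by a factor of at most `2 Q` items.
-/

namespace Pool.Agent.MSL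

open Pool.Agent.DD Pool.Agent.HLV

variable {A N : Type} [Monoid N] {η : List A → N}

variable {R kM ρ : ℕ} {D : List A} {mid post : List (List A)}

private theorem wcb_pw {Q q : ℕ} {ys : List (List A)} (h : ys <:+: List.replicate q D)
    (hl : ys.length ≤ Q) : ys.flatten <+: pw D Q := by
  have h1 : ys = List.replicate ys.length D :=
    List.eq_replicate_of_mem fun b hb => List.eq_of_mem_replicate (h.subset hb)
  rw [h1]
  refine ⟨pw D (Q - ys.length), ?_⟩
  unfold pw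
  rw [← List.flatten_append, List.replicate_append_replicate]
  have h2 : ys.length + (Q - ys.length) = Q := by omega
  rw [h2]

private theorem wcb_flat {zs mid : List (List A)} (h : zs <:+: mid) :
    zs.flatten <:+: mid.flatten := by
  obtain ⟨s, t, rfl⟩ := h
  exact ⟨s.flatten, t.flatten, by rw [List.flatten_append, List.flatten_append]⟩

theorem wcb (hη : IsHom η) {K : ℕ} (hR : ρ + 2 ≤ R)
    (hx : ∀ x ∈ mid ++ post, Dom (Th η R) (kM + 2) D x)
    (hp : (mid ++ post).Pairwise (fun a b => Dom (Th η R) (kM + 2) b a))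
    (hl : 2 * ((ρ + 2) * K + 1) ≤ mid.length) {X' P : List A} {q : ℕ}
    (hX : Dom (Th η R) (kM + 4) X' P) (hP : P <+: pw D q) {x' : List A} (hx' : x' <+: X')
    {V : List A} (hV : V <:+ mid.flatten ++ (post.flatten ++ x'))
    (hb : ¬ Bl η (η D ^ K) (ρ + 2) V) :
    ∃ B, B <:+: mid.flatten ∧ Dom (Th η R) kM V B := by
  have h := th_cg hη R
  obtain ⟨P', hP', hd⟩ := dom_prefix (k := kM + 3) hX hx'
  have hP2 : P' <+: (List.replicate q D).flatten := hP'.trans hP
  have hrep : ∀ x ∈ List.replicate q D, η x = η D := fun x hx => by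
    rw [List.eq_of_mem_replicate hx]
  have hval : ∀ x ∈ mid ++ post, η x = η D := fun x hx' => (dom_base h (hx x hx')).1.symm
  obtain ⟨t, ht⟩ := hV
  rw [← List.append_assoc, ← List.flatten_append] at ht
  rcases List.append_eq_append_iff.1 ht with ⟨c, hc1, hc2⟩ | ⟨c, hc1, hc2⟩
  · -- V = c ++ x'
    have hbx : ¬ Bl η (η D ^ K) (ρ + 2) x' := fun hb' =>
      hb (bl_inf hη ⟨c, [], by rw [hc2, List.append_nil]⟩ hb')
    have hbP : ¬ Bl η (η D ^ K) (ρ + 2) P' := fun hb' =>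
      hbx ((th_bl (dom_base h hd) hR).2 hb')
    have hbc : ¬ Bl η (η D ^ K) (ρ + 2) c := fun hb' =>
      hb (bl_inf hη ⟨[], x', by rw [hc2, List.nil_append]⟩ hb')
    obtain ⟨ys, hy1, hy2, hy3⟩ := win_pre hη hrep hP2 (b := ρ + 1) hbP
    have hPQ : P' <+: pw D ((ρ + 2) * K + 1) := hy2.trans (wcb_pw hy1.isInfix hy3)
    obtain ⟨ws, hw1, hw2, hw3⟩ := win_suf hη hval (V := c) ⟨t, hc1.symm⟩ (b := ρ + 1) hbc
    have hw4 : ws.length ≤ (ρ + 2) * K + 1 := hw3
    obtain ⟨zs, hz1, hz2⟩ := shift_suf h (k := kM + 2) (q := (ρ + 2) * K + 1) hp hx hw1 (by omega)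
    have hfac : c ++ P' <:+: ws.flatten ++ pw D ((ρ + 2) * K + 1) := by
      obtain ⟨a, ha⟩ := hw2
      obtain ⟨b, hb⟩ := hPQ
      exact ⟨a, b, by rw [← ha, ← hb]; simp only [List.append_assoc]⟩
    obtain ⟨B, hB1, hB2⟩ := dom_factor h hz2 hfac
    refine ⟨B, hB1.trans (wcb_flat hz1), dom_trans h ?_ hB2⟩
    rw [hc2]
    exact dom_app h (dom_refl h _ _) (dom_mono h (by omega) hd)
  · -- x' = c ++ V
    obtain ⟨W, hW1, hW2⟩ := dom_suffix (k := kM + 2) hd (w := V) ⟨c, hc2.symm⟩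
    have hbW : ¬ Bl η (η D ^ K) (ρ + 2) W := fun hb' =>
      hb ((th_bl (dom_base h hW2) hR).2 hb')
    have hWinf : W <:+: (List.replicate q D).flatten := hW1.isInfix.trans hP2.isInfix
    obtain ⟨ys, hy1, hy2, hy3⟩ := win_inf hη hrep hWinf (b := ρ + 1) hbW
    have hWQ : W <:+: pw D ((ρ + 2) * K + 1) := hy2.trans (wcb_pw hy1 hy3).isInfix
    obtain ⟨zs, hz1, hz2⟩ := shift_suf h (k := kM + 2) (q := (ρ + 2) * K + 1) (ys := []) hp hx
      (List.nil_suffix) (by rw [List.length_nil]; omega)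
    have hz3 : Dom (Th η R) (kM + 2) (pw D ((ρ + 2) * K + 1)) zs.flatten := hz2
    obtain ⟨B, hB1, hB2⟩ := dom_factor h hz3 hWQ
    exact ⟨B, hB1.trans (wcb_flat hz1), dom_trans h (dom_mono h (by omega) hW2) hB2⟩

end Pool.Agent.MSL
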