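import Pool.Agent.MSL.Itm
import Pool.Agent.MSL.Grp
import Pool.Agent.MSL.Wca
import Pool.Agent.MSL.Wcb
import Pool.Agent.MSL.Nof

/-!
# Project MSL: the left lemma (LL)

`RM` from `exists_ramsey M`, `g = 2 * ((ρ+2) * K + 1) + (ρ+1) * K`, `k₀ = g * RM + (kM + 2)`.  `items` with `J = g * RM`,
`k = kM + 2`: `G = G' ++ xs.flatten`; `grp`: `xs = pre ++ mid ++ post`.  `G₀ = G' ++ pre.flatten`, `DD = mid.flatten`,
`X₀ = post.flatten`.  All items have the value `c = η D` (`dom_base`), so `η DD = c ^ mid.length = c ^ K`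
(`mid.length ≥ g ≥ K`, `Aper.mono`).  `c ^ K ≠ 1`: `η (pw D K) = c ^ K`, `hS.one` gives `pw D K = []`, so `D = []`
(`K ≥ 1`).  `Bl (c^K) (ρ+1) DD`: `items_bl`.  `noFall` with `s = α (G₀ ++ DD)` (`s * α DD = s`), `X = X₀ ++ X'`; `hW`: a
prefix `x` of `post.flatten ++ X'` is a prefix of `post.flatten` (`wca`) or `post.flatten ++ x'` with `x' <+: X'`
(`wcb`; `mid.flatten ++ (post.flatten ++ x')`).
-/

namespace Pool.Agent.MSL

open Pool.Agent.DD Pool.Agent.HLV

variable {A M N : Type} [Monoid M] [Monoid N] {α : List A → M} {η : List A → N} {K : ℕ}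

private theorem flatten_val (hη : IsHom η) {c : N} {xs : List (List A)} (h : ∀ x ∈ xs, η x = c) :
    η xs.flatten = c ^ xs.length := by
  induction xs with
  | nil => simp [hη.one]
  | cons x xs ih =>
      rw [List.flatten_cons, hη.mul, h x List.mem_cons_self,
        ih (fun y hy => h y (List.mem_cons_of_mem _ hy)), List.length_cons, pow_succ']

theorem ll [Finite M] [Finite N] (hS : Setup α η K) {ρ kM R : ℕ} (hρ : RamC (M × N) ρ)
    (hz : FactZ α η K R kM) (hR : ρ + 2 ≤ R) :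
    ∃ k₀, ∀ G D : List A, D ≠ [] → Dom (Th η R) k₀ (G ++ D) G →
      ∃ G₀ DD X₀ : List A, G = G₀ ++ DD ++ X₀ ∧ α DD * α DD = α DD ∧ η DD = η D ^ K ∧
        ∀ (X' P : List A) (q : ℕ), Dom (Th η R) (kM + 4) X' P → P <+: pw D q →
          Ret α η (α (G₀ ++ DD)) (η DD) (X₀ ++ X') := by
  obtain ⟨RM, hRM⟩ := exists_ramsey M
  have hcg := th_cg hS.ηh R
  refine ⟨(2 * ((ρ + 2) * K + 1) + (ρ + 1) * K) * RM + (kM + 2), ?_⟩
  intro G D hD hdom
  obtain ⟨G', xs, hG, hxl, hxD, hxp⟩ := items hcg _ _ hdom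
  obtain ⟨pre, mid, post, hxs, hgm, hidem⟩ := grp hS.αh hRM _ hxl
  have hK := hS.pos
  have hval : ∀ x ∈ xs, η x = η D := fun x hx => (dom_base hcg (hxD x hx)).1.symm
  have hvm : ∀ x ∈ mid, η x = η D := fun x hx => hval x (by
    rw [hxs]
    simp only [List.mem_append]
    tauto)
  have hxmp : ∀ x ∈ mid ++ post, Dom (Th η R) (kM + 2) D x := fun x hx => hxD x (by
    rw [hxs, List.append_assoc]
    exact List.mem_append_right _ hx)
  have hpmp : (mid ++ post).Pairwise (fun a b => Dom (Th η R) (kM + 2) b a) := by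
    rw [hxs, List.append_assoc] at hxp
    exact (List.pairwise_append.1 hxp).2.1
  have h1K : (ρ + 1) * K = ρ * K + K := by ring
  have h2K : (ρ + 2) * K = ρ * K + 2 * K := by ring
  have hKm : K ≤ mid.length := by
    rw [h1K, h2K] at hgm
    omega
  have hlm : 2 * ((ρ + 2) * K + 1) ≤ mid.length := by omega
  have hlb : (ρ + 1) * K ≤ mid.length := by omega
  have hvDD : η mid.flatten = η D ^ K := by
    rw [flatten_val hS.ηh hvm, hS.aN.mono hKm]
  refine ⟨G' ++ pre.flatten, mid.flatten, post.flatten, ?_, hidem, hvDD, ?_⟩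
  · rw [hG, hxs]
    simp only [List.flatten_append, List.append_assoc]
  · intro X' P q hX' hP
    refine noFall hS hρ hz (DD := mid.flatten) (X := post.flatten ++ X') hidem ?_ ?_ ?_ ?_ ?_
    · rw [hvDD, hS.aN.idem]
    · intro h
      have h1 : η (pw D K) = 1 := by
        rw [hS.ηh.pw, ← hvDD, h]
      have h2 := hS.one _ h1
      unfold pw at h2
      rw [List.flatten_eq_nil_iff] at h2
      exact hD (h2 D (List.mem_replicate.2 ⟨by omega, rfl⟩))
    · rw [hS.αh.mul, mul_assoc, hidem]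
    · rw [hvDD]
      exact items_bl hS.ηh hvm hlb
    · intro x hx V hV hb
      rw [hvDD] at hb
      obtain ⟨t, ht⟩ := hx
      rcases List.append_eq_append_iff.1 ht with ⟨c, hc1, hc2⟩ | ⟨c, hc1, hc2⟩
      · -- post.flatten = x ++ c
        exact wca hS.ηh hxmp hpmp hlm ⟨c, hc1.symm⟩ hV hb
      · -- x = post.flatten ++ c
        rw [hc1] at hV
        exact wcb hS.ηh hR hxmp hpmp hlm hX' hP ⟨t, hc2.symm⟩ hV hb

end Pool.Agent.MSL
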