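import Pool.Agent.MSL.Bas

/-!
# Project MSL: the statements (LO), (RO), (OS) and the conditions `L(c)`, `R(c)`
-/

namespace Pool.Agent.MSL

open Pool.Agent.DD Pool.Agent.HLV

variable {A M N : Type} [Monoid M] [Monoid N]

/-- `L(c)` for the cut `Y = Y₁ | Y₂`. -/
def Lc (η : List A → N) (R k P : ℕ) (G E H Y₁ Y₂ : List A) : Prop :=
  ∃ z T : List A, z ++ T = G ++ pw E (2 * P) ∧ Dom (Th η R) k (G ++ E ++ Y₁) z ∧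
    Dom (Th η R) k (Y₂ ++ E ++ H) (T ++ pw E P ++ H)

/-- `R(c)` for the cut `Y = Y₁ | Y₂`. -/
def Rc (η : List A → N) (R k P : ℕ) (G E H Y₁ Y₂ : List A) : Prop :=
  ∃ T z : List A, T ++ z = pw E (2 * P) ++ H ∧ Dom (Th η R) k (Y₂ ++ E ++ H) z ∧
    Dom (Th η R) k (G ++ E ++ Y₁) (G ++ pw E P ++ T)

/-- The statement (LO). -/
def LOp (α : List A → M) (η : List A → N) (R k : ℕ) : Prop :=
  ∀ (P : ℕ) (G E Y₀ Y₁ Y₂ H : List A), 1 ≤ P → α E * α E = α E →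
    Eqv (Th η R) k E (E ++ E) → E ++ Y₀ ++ E = Y₁ ++ Y₂ → η (E ++ Y₀ ++ E) = η E → η E ≠ 1 →
    InL η (η E) Y₁ → Lc η R k P G E H Y₁ Y₂ →
    α (G ++ E ++ (E ++ Y₀ ++ E) ++ E ++ H) = α (G ++ E ++ H) ∨
      ∃ r, α (G ++ E ++ Y₁ ++ r ++ E) = α (G ++ E) ∧ η (E ++ Y₁ ++ r ++ E) = η E

/-- The statement (RO). -/
def ROp (α : List A → M) (η : List A → N) (R k : ℕ) : Prop :=
  ∀ (P : ℕ) (G E Y₀ Y₁ Y₂ H : List A), 1 ≤ P → α E * α E = α E →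
    Eqv (Th η R) k E (E ++ E) → E ++ Y₀ ++ E = Y₁ ++ Y₂ → η (E ++ Y₀ ++ E) = η E → η E ≠ 1 →
    InL η (η E) Y₂ → Rc η R k P G E H Y₁ Y₂ →
    α (G ++ E ++ (E ++ Y₀ ++ E) ++ E ++ H) = α (G ++ E ++ H) ∨
      ∃ r, α (E ++ r ++ Y₂ ++ E ++ H) = α (E ++ H) ∧ η (E ++ r ++ Y₂ ++ E) = η E

/-- The statement (OS). -/
def OSp (α : List A → M) (η : List A → N) (R k : ℕ) : Prop :=
  ∀ G E Y H : List A, α E * α E = α E → Eqv (Th η R) k E (E ++ E) → η Y = η E →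
    Dom (Th η R) k (G ++ E ++ Y ++ E ++ H) (G ++ E ++ H) →
    α (G ++ E ++ Y ++ E ++ H) = α (G ++ E ++ H)

end Pool.Agent.MSL
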