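import Pool.Agent.MSL.Nof
import Pool.Agent.MSL.Lod

/-!
# Project MSL: (LO), case (i)

`m = η DD`, `n = η E`, both idempotent.  `r₁` is the return word of `X₀ ++ Y₁`, `s = α (G₀ ++ DD)`, and
`r = r₁ ++ DD ++ X₀`.  `α (G ++ E) = s α X₀`, hence the first equation.  For the second one `a = m η(X₀)` satisfies
`a n = a` (compare the suffixes `E` and `DD ++ X₀` of `G ++ pw E (2P)`), and `ap_two` is applied to `u = a`,
`v = n η(Y₁ r₁) m`.
-/

namespace Pool.Agent.MSL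

open Pool.Agent.DD Pool.Agent.HLV

variable {A M N : Type} [Monoid M] [Monoid N] {α : List A → M} {η : List A → N} {K : ℕ}

private theorem Loa_eta (hS : Setup α η K) {P : ℕ} (hP : 1 ≤ P) {G E G₀ DD X₀ : List A}
    (hE' : η E * η E = η E) (hG : G ++ pw E (2 * P) = G₀ ++ DD ++ X₀)
    (hmn : ∃ a b, η DD = a * η E * b) : η DD * η X₀ * η E = η DD * η X₀ := by
  have s1 : E <:+ G ++ pw E (2 * P) := by
    obtain ⟨q, hq⟩ : ∃ q, 2 * P = q + 1 := ⟨2 * P - 1, by omega⟩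
    rw [hq, pw_succ']
    exact ⟨G ++ pw E q, by rw [List.append_assoc]⟩
  have s2 : DD ++ X₀ <:+ G ++ pw E (2 * P) := by
    rw [hG]
    exact ⟨G₀, by rw [List.append_assoc]⟩
  rw [← hS.ηh.mul]
  rcases List.suffix_or_suffix_of_suffix s1 s2 with ⟨T, hT⟩ | ⟨T, hT⟩
  · rw [← hT, hS.ηh.mul, mul_assoc, hE']
  · obtain ⟨x, y, hxy⟩ := hmn
    have h1 : η T * η (DD ++ X₀) = η E := by rw [← hS.ηh.mul, hT]
    have h2 : η (DD ++ X₀) = (x * η T) * η (DD ++ X₀) * (y * η X₀) := by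
      calc η (DD ++ X₀) = η DD * η X₀ := hS.ηh.mul _ _
        _ = x * η E * y * η X₀ := by rw [← hxy]
        _ = x * (η T * η (DD ++ X₀)) * y * η X₀ := by rw [h1]
        _ = (x * η T) * η (DD ++ X₀) * (y * η X₀) := by simp only [mul_assoc]
    have h3 := (ap_one hS.aN h2).1
    rw [mul_assoc, h1] at h3
    rw [← h3, mul_assoc, hE']

theorem lo_a (hS : Setup α η K) {P : ℕ} (hP : 1 ≤ P) {G E Y₁ G₀ DD X₀ : List A}
    (hE : α E * α E = α E) (hE' : η E * η E = η E) (hG : G ++ pw E (2 * P) = G₀ ++ DD ++ X₀)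
    (hd : α DD * α DD = α DD) (hm : η DD * η DD = η DD) (hmn : ∃ a b, η DD = a * η E * b)
    (hnm : ∃ a b, η E = a * η DD * b)
    (hr : Ret α η (α (G₀ ++ DD)) (η DD) (X₀ ++ Y₁)) :
    ∃ r, α (G ++ E ++ Y₁ ++ r ++ E) = α (G ++ E) ∧ η (E ++ Y₁ ++ r ++ E) = η E := by
  obtain ⟨r₁, h1, h2⟩ := hr
  refine ⟨r₁ ++ DD ++ X₀, ?_, ?_⟩
  · have hp : α (G ++ E) = α (G₀ ++ DD) * α X₀ := by
      have h3 := congrArg α hG
      rw [hS.αh.mul, hS.αh.pw, idem_pow hE (by omega), ← hS.αh.mul] at h3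
      rw [h3, hS.αh.mul]
    have hpe : α (G ++ E) * α E = α (G ++ E) := by
      rw [hS.αh.mul, mul_assoc, hE]
    have hsd : α (G₀ ++ DD) * α DD = α (G₀ ++ DD) := by
      rw [hS.αh.mul, mul_assoc, hd]
    calc α (G ++ E ++ Y₁ ++ (r₁ ++ DD ++ X₀) ++ E)
        = α (G ++ E) * α Y₁ * (α r₁ * α DD * α X₀) * α E := by
          rw [hS.αh.mul, hS.αh.mul, hS.αh.mul, hS.αh.mul (r₁ ++ DD), hS.αh.mul r₁]
      _ = (α (G₀ ++ DD) * ((α X₀ * α Y₁) * α r₁)) * α DD * α X₀ * α E := by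
          rw [hp]; simp only [mul_assoc]
      _ = (α (G₀ ++ DD) * α (X₀ ++ Y₁ ++ r₁)) * α DD * α X₀ * α E := by
          rw [hS.αh.mul3 X₀ Y₁ r₁]
      _ = α (G ++ E) := by rw [h1, hsd, ← hp, hpe]
  · have ha := Loa_eta hS hP hE' hG hmn
    have hret : η DD * η X₀ * (η Y₁ * η r₁) * η DD = η DD := by
      rw [hS.ηh.mul3 X₀ Y₁ r₁] at h2
      calc η DD * η X₀ * (η Y₁ * η r₁) * η DD = η DD * (η X₀ * η Y₁ * η r₁) * η DD := by
            simp only [mul_assoc]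
        _ = η DD := h2
    obtain ⟨x, y, hxy⟩ := hnm
    have h3 : (η E * (η Y₁ * η r₁) * η DD) * (η DD * η X₀) = η E := by
      refine ap_two hS.aN (m := η DD) (u := η DD * η X₀) hm hE' ?_ ha ?_ ?_ ?_ hxy
      · rw [← mul_assoc, hm]
      · simp only [← mul_assoc]; rw [hE']
      · rw [mul_assoc, hm]
      · calc η DD * η X₀ * (η E * (η Y₁ * η r₁) * η DD)
            = (η DD * η X₀ * η E) * (η Y₁ * η r₁) * η DD := by simp only [mul_assoc]
          _ = η DD := by rw [ha, hret]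
    calc η (E ++ Y₁ ++ (r₁ ++ DD ++ X₀) ++ E)
        = η E * η Y₁ * (η r₁ * η DD * η X₀) * η E := by
          rw [hS.ηh.mul, hS.ηh.mul, hS.ηh.mul, hS.ηh.mul (r₁ ++ DD), hS.ηh.mul r₁]
      _ = η E * (η Y₁ * η r₁) * (η DD * η DD) * η X₀ * η E := by
          rw [hm]; simp only [mul_assoc]
      _ = ((η E * (η Y₁ * η r₁) * η DD) * (η DD * η X₀)) * η E := by simp only [mul_assoc]
      _ = η E := by rw [h3, hE']

end Pool.Agent.MSL
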