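import Pool.Agent.MSL.Blk

/-!
# Project MSL: windows: factors with few blocks

A product of `b * K` items over `c` has `b` blocks for `c ^ K` (`items_bl`). A factor (suffix, prefix) of a product of items
which has few blocks lies in a short window: a window of minimal length cannot be shortened at its ends, so that the word
contains all the items in the middle of the window.
-/

namespace Pool.Agent.MSL

open Pool.Agent.DD Pool.Agent.HLV

variable {A N : Type} [Monoid N] {η : List A → N}

private theorem Win_flat (hη : IsHom η) {c : N} {xs : List (List A)} (hx : ∀ x ∈ xs, η x = c) :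
    η xs.flatten = c ^ xs.length := by
  induction xs with
  | nil => rw [List.flatten_nil, List.length_nil, pow_zero, hη.one]
  | cons x xs ih =>
      rw [List.flatten_cons, hη.mul, ih fun y hy => hx y (List.mem_cons_of_mem _ hy),
        hx x List.mem_cons_self, List.length_cons, pow_succ']

theorem items_bl (hη : IsHom η) {c : N} {K : ℕ} {xs : List (List A)}
    (hx : ∀ x ∈ xs, η x = c) {b : ℕ} (hb : b * K ≤ xs.length) : Bl η (c ^ K) b xs.flatten := by
  induction b generalizing xs with
  | zero => trivial
  | succ b ih =>
      have h1 : K + b * K ≤ xs.length := by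
        have h2 : (b + 1) * K = K + b * K := by ring
        rwa [h2] at hb
      refine ⟨(xs.take K).flatten, (xs.drop K).flatten, ?_, ⟨1, 1, ?_⟩, ?_⟩
      · rw [← List.flatten_append, List.take_append_drop]
      · rw [Win_flat hη fun x hx' => hx x (List.mem_of_mem_take hx'), one_mul, mul_one,
          List.length_take, min_eq_left (by omega)]
      · refine ih (fun x hx' => hx x (List.mem_of_mem_drop hx')) ?_
        rw [List.length_drop]
        omega

private theorem Win_no (hη : IsHom η) {c : N} {K : ℕ} {xs : List (List A)}
    (hx : ∀ x ∈ xs, η x = c) {V : List A} {b : ℕ} (hb : ¬ Bl η (c ^ K) (b + 1) V)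
    (h : xs.flatten <:+: V) : xs.length < (b + 1) * K := by
  by_contra h1
  exact hb (bl_inf hη h (items_bl hη hx (not_lt.1 h1)))

theorem win_inf (hη : IsHom η) {c : N} {K : ℕ} {xs : List (List A)} (hx : ∀ x ∈ xs, η x = c)
    {V : List A} (hV : V <:+: xs.flatten) {b : ℕ} (hb : ¬ Bl η (c ^ K) (b + 1) V) :
    ∃ ys, ys <:+: xs ∧ V <:+: ys.flatten ∧ ys.length ≤ (b + 1) * K + 1 := by
  have key : ∀ (n : ℕ) (ys : List (List A)), ys.length = n → ys <:+: xs → V <:+: ys.flatten →
      ∃ zs, zs <:+: xs ∧ V <:+: zs.flatten ∧ zs.length ≤ (b + 1) * K + 1 := by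
    intro n
    induction n using Nat.strong_induction_on with
    | _ n ih =>
      intro ys hn h1 h2
      by_cases hl : ys.length ≤ (b + 1) * K + 1
      · exact ⟨ys, h1, h2, hl⟩
      cases ys with
      | nil => exact absurd (Nat.zero_le _) hl
      | cons y ys =>
        rcases List.eq_nil_or_concat ys with h3 | ⟨mid, y', h3⟩
        · subst h3
          exact absurd (by simp) hl
        · rw [List.concat_eq_append] at h3
          subst h3
          obtain ⟨s, t, h4⟩ := h2
          rw [List.flatten_cons, List.append_assoc] at h4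
          rcases List.append_eq_append_iff.1 h4 with ⟨y1, e1, e2⟩ | ⟨s1, e1, e2⟩
          · -- y = s ++ y1, V ++ t = y1 ++ (mid ++ [y']).flatten
            rw [List.flatten_append, List.flatten_singleton, ← List.append_assoc] at e2
            rcases List.append_eq_append_iff.1 e2 with ⟨t1, f1, f2⟩ | ⟨y2, f1, f2⟩
            · -- y1 ++ mid.flatten = V ++ t1
              refine ih (y :: mid).length ?_ (y :: mid) rfl ?_ ?_
              · rw [← hn]
                simp
              · refine List.IsInfix.trans ?_ h1
                exact ⟨[], [y'], by simp⟩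
              · refine ⟨s, t1, ?_⟩
                rw [List.flatten_cons, e1, List.append_assoc, List.append_assoc, f1]
            · -- V = y1 ++ mid.flatten ++ y2
              exfalso
              have h5 : mid.flatten <:+: V := ⟨y1, y2, f1.symm⟩
              have h6 := Win_no hη (fun x hx' => hx x (h1.subset (by simp [hx']))) hb h5
              apply hl
              rw [List.length_cons, List.length_append, List.length_singleton]
              omega
          · -- s = y ++ s1, (mid ++ [y']).flatten = s1 ++ (V ++ t)
            refine ih (mid ++ [y']).length ?_ (mid ++ [y']) rfl ?_ ?_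
            · rw [← hn]
              simp
            · refine List.IsInfix.trans ?_ h1
              exact ⟨[y], [], by simp⟩
            · exact ⟨s1, t, by rw [e2, List.append_assoc]⟩
  exact key _ xs rfl (List.infix_refl _) hV

theorem win_suf (hη : IsHom η) {c : N} {K : ℕ} {xs : List (List A)} (hx : ∀ x ∈ xs, η x = c)
    {V : List A} (hV : V <:+ xs.flatten) {b : ℕ} (hb : ¬ Bl η (c ^ K) (b + 1) V) :
    ∃ ys, ys <:+ xs ∧ V <:+ ys.flatten ∧ ys.length ≤ (b + 1) * K + 1 := by
  have key : ∀ (ys : List (List A)), ys <:+ xs → V <:+ ys.flatten →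
      ∃ zs, zs <:+ xs ∧ V <:+ zs.flatten ∧ zs.length ≤ (b + 1) * K + 1 := by
    intro ys
    induction ys with
    | nil => exact fun h1 h2 => ⟨[], h1, h2, Nat.zero_le _⟩
    | cons y ys ih =>
      intro h1 h2
      have h0 : ys <:+ y :: ys := ⟨[y], rfl⟩
      obtain ⟨t, h4⟩ := h2
      rw [List.flatten_cons] at h4
      rcases List.append_eq_append_iff.1 h4 with ⟨y1, e1, e2⟩ | ⟨s1, e1, e2⟩
      · -- y = t ++ y1, V = y1 ++ ys.flatten
        have h5 : ys.flatten <:+: V := ⟨y1, [], by rw [List.append_nil, e2]⟩
        have h6 := Win_no hη (fun x hx' => hx x ((h0.trans h1).subset hx')) hb h5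
        refine ⟨y :: ys, h1, ⟨t, ?_⟩, ?_⟩
        · rw [List.flatten_cons, e2, e1, List.append_assoc]
        · rw [List.length_cons]
          omega
      · exact ih (h0.trans h1) ⟨s1, e2.symm⟩
  exact key xs (List.suffix_refl _) hV

theorem win_pre (hη : IsHom η) {c : N} {K : ℕ} {xs : List (List A)} (hx : ∀ x ∈ xs, η x = c)
    {V : List A} (hV : V <+: xs.flatten) {b : ℕ} (hb : ¬ Bl η (c ^ K) (b + 1) V) :
    ∃ ys, ys <+: xs ∧ V <+: ys.flatten ∧ ys.length ≤ (b + 1) * K + 1 := by
  have key : ∀ (n : ℕ) (ys : List (List A)), ys.length = n → ys <+: xs → V <+: ys.flatten →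
      ∃ zs, zs <+: xs ∧ V <+: zs.flatten ∧ zs.length ≤ (b + 1) * K + 1 := by
    intro n
    induction n with
    | zero =>
      intro ys hn h1 h2
      exact ⟨ys, h1, h2, by omega⟩
    | succ n ih =>
      intro ys hn h1 h2
      rcases List.eq_nil_or_concat ys with h3 | ⟨mid, y, h3⟩
      · subst h3
        exact ⟨[], h1, h2, Nat.zero_le _⟩
      · rw [List.concat_eq_append] at h3
        subst h3
        have h0 : mid <+: mid ++ [y] := ⟨[y], rfl⟩
        have hm : mid.length = n := by simpa using hn
        obtain ⟨t, h4⟩ := h2
        rw [List.flatten_append, List.flatten_singleton] at h4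
        rcases List.append_eq_append_iff.1 h4 with ⟨t1, f1, f2⟩ | ⟨y2, f1, f2⟩
        · -- mid.flatten = V ++ t1
          exact ih mid hm (h0.trans h1) ⟨t1, f1.symm⟩
        · -- V = mid.flatten ++ y2
          have h5 : mid.flatten <:+: V := ⟨[], y2, by rw [List.nil_append, f1]⟩
          have h6 := Win_no hη (fun x hx' => hx x ((h0.trans h1).subset hx')) hb h5
          refine ⟨mid ++ [y], h1, ⟨t, ?_⟩, ?_⟩
          · rw [List.flatten_append, List.flatten_singleton, h4]
          · rw [List.length_append, List.length_singleton]
            omega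
  exact key _ xs rfl (List.prefix_refl _) hV

end Pool.Agent.MSL
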