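import Pool.Agent.MSL.Nof
import Pool.Agent.MSL.Lod
import Pool.Agent.MSL.Tha
import Pool.Agent.MSL.Fac
import Pool.Agent.MSL.Win

/-!
# Project MSL: (LO), case (ii)

`m = η DD = c ^ K`, `c = η D`, idempotent, `≠ 1` (`D ≠ []`, as in `ll`).  `Y = E Y₀ E`, `Z = Y E H`.
`¬ InL η m (Y E)` because `η (Y E) = η E` (`hn`).  `Bl m (ρ+2) Z`: `Z ≤ D^q Z` with `q = (ρ+2) K`, `D^q` has `ρ + 2` blocks
(`items_bl` for `List.replicate q D`), `th_bl`, `dom_base`.  Let `X'` be the shortest prefix of `Z` with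
`Bl m (ρ+1) X'`; `¬ Bl m (ρ+2) X'` (`bl_snoc`; `X' ≠ []` by `inl_nil`).  `X' = y₁ y₂ ... y_(ρ+1) z` (`Bl` unfolded: `y₁ ∈ L_m`,
`Bl m ρ` of the rest); `y₁` is not a prefix of `Y E`, so `y₁ = Y E h₁`; the rest `V` has `Bl m ρ`, `ramsey_blocks`
(`j = 0`): `V = V₁ F V₂`, `F` idempotent, `InL η m F`.  So `Z = Y E h F h'`, where `h = h₁ V₁`, and therefore
`H = h F h'`, and `Y E h F` is a prefix of `X'`, so `¬ Bl m (ρ+2) (Y E h F)`.
`hdom q` (`q = (ρ+2) K`) and `dom_prefix`: `Y E h F ≤_(kM+4) Z₁ <+: D^q Z`.  `Z₁` does not contain `D^q`, since it has no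
`ρ + 2` blocks (`th_bl`), so `Z₁ <+: pw D q`.  `hret`: `Ret (X₀ Y E h F)`.  Also `E h F ≤ Y E h F` (`hEE`, `dom_app`,
`dom_mono`), so `Ret (X₀ E h F)`.  `fact_one` with `x = X₀ Y E h`, `x' = X₀ E h`, `s = α (G₀ DD)`:
`s α(X₀ Y E h F) = s α(X₀ E h F)`.  Since `s α(X₀) = α (G E)`: `α (G E Y E h F) = α (G E E h F)`; multiply by `α h'` and use
`e e = e`.
-/

namespace Pool.Agent.MSL

open Pool.Agent.DD Pool.Agent.HLV

variable {A M N : Type} [Monoid M] [Monoid N] {α : List A → M} {η : List A → N} {K : ℕ}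

private theorem Lob_prefix (hη : IsHom η) (aN : Aper N K) {m : N} (hm : m ≠ 1) {ρ : ℕ}
    (Z : List A) (hZ : Bl η m (ρ + 1) Z) :
    ∃ X, X <+: Z ∧ Bl η m (ρ + 1) X ∧ ¬ Bl η m (ρ + 2) X := by
  induction Z using List.reverseRecOn with
  | nil =>
    exfalso
    obtain ⟨y, z, h1, h2, -⟩ := hZ
    have h3 : y = [] := (List.append_eq_nil_iff.1 h1.symm).1
    rw [h3] at h2
    exact inl_nil hη aN hm h2
  | append_singleton Z a ih =>
    by_cases h : Bl η m (ρ + 1) Z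
    · obtain ⟨X, h1, h2, h3⟩ := ih h
      exact ⟨X, h1.trans (List.prefix_append Z [a]), h2, h3⟩
    · exact ⟨Z ++ [a], List.prefix_rfl, hZ, fun h' => h (bl_snoc hη aN hm h')⟩

theorem lo_b (hS : Setup α η K) {ρ kM R : ℕ} (hρ : RamC (M × N) ρ) (hR : ρ + 2 ≤ R)
    {G E Y₀ H G₀ DD X₀ D : List A} (hD : D ≠ []) (hE : α E * α E = α E)
    (hd : α DD * α DD = α DD) (hDD : η DD = η D ^ K) (hG : α (G ++ E) = α (G₀ ++ DD ++ X₀))
    (hn : ¬ ∃ a b, η E = a * η DD * b) (hE' : η E * η E = η E) (hY : η (E ++ Y₀ ++ E) = η E)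
    (hdom : ∀ q, Dom (Th η R) (kM + 5) ((E ++ Y₀ ++ E) ++ E ++ H)
      (pw D q ++ ((E ++ Y₀ ++ E) ++ E ++ H)))
    (hEE : Dom (Th η R) (kM + 4) E ((E ++ Y₀ ++ E) ++ E))
    (hret : ∀ (X' P : List A) (q : ℕ), Dom (Th η R) (kM + 4) X' P → P <+: pw D q →
      Ret α η (α (G₀ ++ DD)) (η DD) (X₀ ++ X')) :
    α (G ++ E ++ (E ++ Y₀ ++ E) ++ E ++ H) = α (G ++ E ++ H) := by
  set Y := E ++ Y₀ ++ E with hYdef
  have hη := hS.ηh
  have hα := hS.αh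
  have aN := hS.aN
  have hm1 : η DD ≠ 1 := by
    intro h
    rw [hDD] at h
    have h1 := aN.mul (η D)
    rw [h, mul_one] at h1
    exact hD (hS.one D h1)
  have hmm : η DD * η DD = η DD := by
    rw [hDD]
    exact aN.idem _
  have hYE : η (Y ++ E) = η E := by rw [hη.mul, hY, hE']
  have hpw : Bl η (η DD) (ρ + 2) (pw D ((ρ + 2) * K)) := by
    have h1 := items_bl (η := η) hη (c := η D) (K := K) (xs := List.replicate ((ρ + 2) * K) D)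
      (fun x hx => by rw [List.eq_of_mem_replicate hx]) (b := ρ + 2) (by rw [List.length_replicate])
    rw [← hDD] at h1
    exact h1
  have hcg := th_cg hη R
  have hZ : Bl η (η DD) (ρ + 2) (Y ++ E ++ H) := by
    rw [th_bl (dom_base hcg (hdom ((ρ + 2) * K))) hR]
    exact bl_inf hη (List.prefix_append _ _).isInfix hpw
  obtain ⟨X, hXZ, hX1, hX2⟩ := Lob_prefix (ρ := ρ) hη aN hm1 (Y ++ E ++ H)
    (bl_le (by omega) hZ)
  obtain ⟨T, hT⟩ := hXZ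
  obtain ⟨y₁, V, hXV, hy₁, hV⟩ := hX1
  have hsplit : ∃ h₁, y₁ = Y ++ E ++ h₁ ∧ H = h₁ ++ (V ++ T) := by
    rw [hXV, List.append_assoc y₁ V T] at hT
    rcases List.append_eq_append_iff.1 hT with ⟨c, hc1, hc2⟩ | ⟨c, hc1, hc2⟩
    · exfalso
      have h2 := inl_sup hη [] c hy₁
      rw [List.nil_append, ← hc1] at h2
      obtain ⟨a, b, hab⟩ := h2
      rw [hYE] at hab
      exact hn ⟨a, b, hab⟩
    · exact ⟨c, hc1, hc2⟩
  obtain ⟨h₁, hy₁', hH⟩ := hsplit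
  obtain ⟨V₁, F, V₂, hVF, hF, hF', hFn, -⟩ := ramsey_blocks hα hη (j := 0) hρ hV
  have hHF : H = (h₁ ++ V₁) ++ F ++ (V₂ ++ T) := by
    rw [hH, hVF]
    simp only [List.append_assoc]
  have hpre : Y ++ E ++ (h₁ ++ V₁) ++ F <+: X := ⟨V₂, by
    rw [hXV, hy₁', hVF]
    simp only [List.append_assoc]⟩
  have hnb : ¬ Bl η (η DD) (ρ + 2) (Y ++ E ++ (h₁ ++ V₁) ++ F) := fun h =>
    hX2 (bl_inf hη hpre.isInfix h)
  obtain ⟨Z₁, hZ₁, hZ₁d⟩ := dom_prefix (k := kM + 4) (hdom ((ρ + 2) * K))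
    (hpre.trans ⟨T, hT⟩)
  have hZ₂ : Z₁ <+: pw D ((ρ + 2) * K) := by
    rcases List.prefix_or_prefix_of_prefix hZ₁ (List.prefix_append (pw D ((ρ + 2) * K)) _) with h | h
    · exact h
    · exfalso
      refine hnb ?_
      rw [th_bl (dom_base hcg hZ₁d) hR]
      exact bl_inf hη h.isInfix hpw
  have r1 := hret _ _ _ hZ₁d hZ₂
  have hd2 : Dom (Th η R) (kM + 4) (E ++ (h₁ ++ V₁) ++ F) (Y ++ E ++ (h₁ ++ V₁) ++ F) := by
    have h3 := dom_app hcg (dom_app hcg hEE (dom_refl hcg (kM + 4) (h₁ ++ V₁)))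
      (dom_refl hcg (kM + 4) F)
    exact h3
  have r2 := hret _ _ _ (dom_trans hcg hd2 hZ₁d) hZ₂
  have hs : α (G₀ ++ DD) * α DD = α (G₀ ++ DD) := by
    rw [hα.mul, mul_assoc, hd]
  have r1' : Ret α η (α (G₀ ++ DD)) (η DD) ((X₀ ++ (Y ++ E ++ (h₁ ++ V₁))) ++ F) := by
    rw [List.append_assoc]
    exact r1
  have r2' : Ret α η (α (G₀ ++ DD)) (η DD) ((X₀ ++ (E ++ (h₁ ++ V₁))) ++ F) := by
    rw [List.append_assoc]
    exact r2
  have key := (fact_one hS hd hmm hs hF hF' hFn r1' r2').1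
  have hGE : α (G₀ ++ DD) * α X₀ = α (G ++ E) := by rw [hG, ← hα.mul]
  have e1 : α (G ++ E ++ Y ++ E ++ H) =
      α (G₀ ++ DD) * α (X₀ ++ (Y ++ E ++ (h₁ ++ V₁)) ++ F) * α (V₂ ++ T) := by
    rw [List.append_assoc X₀, hα.mul X₀, ← mul_assoc, hGE, ← hα.mul, ← hα.mul, hHF]
    simp only [List.append_assoc]
  have e2 : α (G ++ E ++ H) =
      α (G₀ ++ DD) * α (X₀ ++ (E ++ (h₁ ++ V₁)) ++ F) * α (V₂ ++ T) := by
    rw [List.append_assoc X₀, hα.mul X₀, ← mul_assoc, hGE, hHF]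
    simp only [hα.mul, mul_assoc]
    rw [← mul_assoc (α E) (α E), hE]
  rw [e1, e2, key]

end Pool.Agent.MSL
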