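import Pool.Agent.MSL.Tha

/-!
# Project MSL: insertion of a word over an idempotent does not change `θ` (T2)

`η E = n` is idempotent (from `hE.1`), `η (EYE) = n`.  Let `m`, `r ≤ R`, `a`, `b`.
(<=, from `aEb` to `aEYEb`)  Claim, by induction on `r` for all `a`: `Bl m r (a ++ pw E (r+1) ++ b)` implies
`∃ i j, i + j = r ∧ Bl m r (a ++ pw E i ++ (E ++ Y ++ E) ++ pw E j ++ b)`.  `r + 1`: `a E^(r+2) b = y ++ z`, `y ∈ L_m`,
`Bl m r z`.  If `y` is a prefix of `a E` (`y ++ c = a E`): `z = c E^(r+1) b`, induction hypothesis for `c`.  If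
`y = a E p`: `η y = η a n η p = η (a E Y E p)`, so `a E Y E p ∈ L_m`, rest unchanged, `i = 0`.
Then: `θ E = θ (pw E q)`, `q ≥ 1` (`hE`, `th_cg`), so `Bl m r (aEb)` gives `Bl m r (a E^(r+1) b)`, the claim, and back
(`E^(i+1) ~ E`, `E^(j+1) ~ E`): `Bl m r (a E Y E b)`.
(=>, from `aEYEb` to `aEb`)  If `n = c m d` for some `c`, `d`: every power `E^r` has `r` blocks, so `Bl m r (a E^r b)`,
so `Bl m r (aEb)` (for `r = 0` trivial).  Otherwise, by induction on `r` for all `a`:
`Bl m r (a ++ (E ++ Y ++ E) ++ b)` implies `Bl m r (a ++ (E ++ E) ++ b)`.  `a EYE b = y ++ z`: (i) `y` is a prefix of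
`a`: induction hypothesis.  (ii) `y = a EYE p`: same `η`.  (iii) `y = a w₁`, `EYE = w₁ w₂`, `z = w₂ b`: `η a n =
η (a w₁) η w₂` is in `NmN`, so `a E ∈ L_m`; if `Bl m (r'+1) (w₂ b)`, `w₂ b = y' ++ z'`: `y'` is not a prefix of `w₂`
(otherwise `n ∈ NmN`), so `y' = w₂ p`, `η (E p) = η w₁ η (w₂ p)`, `E p ∈ L_m`; so `Bl m r (E b)`; add the two.
Then `θ (EE) = θ E`.
-/

namespace Pool.Agent.MSL

open Pool.Agent.DD Pool.Agent.HLV

variable {A M N S : Type}

private theorem tt_inl [Monoid N] {η : List A → N} {m : N} {x y : List A} (h : InL η m x)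
    (e : η x = η y) : InL η m y := by
  obtain ⟨a, b, h⟩ := h
  exact ⟨a, b, by rw [← e, h]⟩

/-- contexts: one copy more or less -/
private theorem tt_dup [Monoid N] {η : List A → N} {R : ℕ} {E : List A} (hE : Th η R E (E ++ E))
    {m : N} {r : ℕ} (hr : r ≤ R) (a b : List A) :
    Bl η m r (a ++ (E ++ b)) ↔ Bl η m r (a ++ (E ++ (E ++ b))) := by
  have h := hE.2 m r hr a b
  simpa only [List.append_assoc] using h

private theorem tt_idem [Monoid N] {η : List A → N} (hη : IsHom η) {R : ℕ} {E : List A}
    (hE : Th η R E (E ++ E)) : η E * η E = η E := by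
  rw [← hη.mul]
  exact hE.1.symm

private theorem tt_eye [Monoid N] {η : List A → N} (hη : IsHom η) {R : ℕ} {E Y : List A}
    (hE : Th η R E (E ++ E)) (hY : η Y = η E) : η (E ++ Y ++ E) = η E := by
  rw [hη.mul, hη.mul, hY, tt_idem hη hE, tt_idem hη hE]

/-- from `aEb` to `aEYEb` -/
private theorem tt_up [Monoid N] {η : List A → N} (hη : IsHom η) {R : ℕ} {E Y : List A}
    (hE : Th η R E (E ++ E)) (hY : η Y = η E) {m : N} (b : List A) :
    ∀ r, r ≤ R → ∀ a, Bl η m r (a ++ (E ++ b)) → Bl η m r (a ++ (E ++ (Y ++ (E ++ b)))) := by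
  intro r
  induction r with
  | zero => intro _ a _; trivial
  | succ r ih =>
      intro hr a h
      have h1 := (tt_dup hE hr a b).1 h
      obtain ⟨y, z, hyz, hy, hz⟩ := h1
      have hyz' : (a ++ E) ++ (E ++ b) = y ++ z := by rw [← hyz, List.append_assoc]
      rcases List.append_eq_append_iff.1 hyz' with ⟨p, h2, h3⟩ | ⟨c, h2, h3⟩
      · -- `y = a E p`, `E b = p z`
        have h4 : InL η m (a ++ (E ++ (Y ++ (E ++ p)))) := by
          refine tt_inl hy ?_
          rw [h2]
          have e1 : a ++ (E ++ (Y ++ (E ++ p))) = a ++ (E ++ Y ++ E) ++ p := by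
            simp only [List.append_assoc]
          rw [e1, hη.mul, hη.mul, hη.mul (a ++ (E ++ Y ++ E)), hη.mul a, tt_eye hη hE hY]
        have h5 : Bl η m (r + 1) ((a ++ (E ++ Y)) ++ (E ++ (E ++ b))) := by
          refine ⟨a ++ (E ++ (Y ++ (E ++ p))), z, ?_, h4, hz⟩
          rw [h3]
          simp only [List.append_assoc]
        have h6 := (tt_dup hE hr (a ++ (E ++ Y)) b).2 h5
        simpa only [List.append_assoc] using h6
      · -- `a E = y c`, `z = c E b`
        rw [h3] at hz
        have h4 := ih (by omega) c hz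
        have h5 : Bl η m (r + 1) (a ++ (E ++ (E ++ (Y ++ (E ++ b))))) := by
          refine ⟨y, c ++ (E ++ (Y ++ (E ++ b))), ?_, hy, h4⟩
          rw [← List.append_assoc y, ← h2, List.append_assoc]
        exact (tt_dup hE hr a (Y ++ (E ++ b))).2 h5

private theorem tt_all [Monoid N] {η : List A → N} (hη : IsHom η) {R : ℕ} {E : List A}
    (hE : Th η R E (E ++ E)) {m : N} (hm : InL η m E) (b : List A) :
    ∀ r, r ≤ R → ∀ a, Bl η m r (a ++ (E ++ b)) := by
  intro r
  induction r with
  | zero => intro _ a; trivial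
  | succ r ih =>
      intro hr a
      refine (tt_dup hE hr a b).2 ?_
      have h1 := ih (by omega) []
      refine ⟨a ++ E, E ++ b, by rw [List.append_assoc], ?_, h1⟩
      have h2 := inl_sup hη a [] hm
      rwa [List.append_nil] at h2

/-- from `aEYEb` to `aEb` -/
private theorem tt_down [Monoid N] {η : List A → N} (hη : IsHom η) {R : ℕ} {E Y : List A}
    (hE : Th η R E (E ++ E)) (hY : η Y = η E) {m : N} (hm : ¬ InL η m E) (b : List A) :
    ∀ r, r ≤ R → ∀ a, Bl η m r (a ++ ((E ++ Y ++ E) ++ b)) → Bl η m r (a ++ (E ++ b)) := by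
  intro r
  induction r with
  | zero => intro _ a _; trivial
  | succ r ih =>
      intro hr a h
      obtain ⟨y, z, hyz, hy, hz⟩ := h
      rcases List.append_eq_append_iff.1 hyz with ⟨p, h2, h3⟩ | ⟨c, h2, h3⟩
      · -- `y = a p`, `EYE b = p z`
        rcases List.append_eq_append_iff.1 h3 with ⟨q, h4, h5⟩ | ⟨w, h4, h5⟩
        · -- `p = EYE q`, `b = q z`
          refine ⟨a ++ (E ++ q), z, ?_, ?_, hz⟩
          · rw [h5]
            simp only [List.append_assoc]
          · refine tt_inl hy ?_
            rw [h2, h4, hη.mul, hη.mul, hη.mul a, hη.mul E, tt_eye hη hE hY]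
        · -- `EYE = p w`, `z = w b`
          have hn : η E = η p * η w := by rw [← hη.mul, ← h4, tt_eye hη hE hY]
          have h6 : InL η m (a ++ E) := by
            obtain ⟨s, t, hst⟩ := hy
            refine ⟨s, t * η w, ?_⟩
            rw [hη.mul, hn, ← mul_assoc, ← hη.mul, ← h2, hst, mul_assoc]
          cases r with
          | zero =>
              exact ⟨a ++ E, b, by rw [List.append_assoc], h6, trivial⟩
          | succ r =>
              obtain ⟨y', z', hyz', hy', hz'⟩ := hz
              rw [h5] at hyz'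
              refine (tt_dup hE hr a b).2 ?_
              refine ⟨a ++ E, E ++ b, by rw [List.append_assoc], h6, ?_⟩
              rcases List.append_eq_append_iff.1 hyz' with ⟨u, h7, h8⟩ | ⟨u, h7, h8⟩
              · -- `y' = w u`, `b = u z'`
                refine ⟨E ++ u, z', ?_, ?_, hz'⟩
                · rw [h8, List.append_assoc]
                · obtain ⟨s, t, hst⟩ := hy'
                  refine ⟨η p * s, t, ?_⟩
                  rw [hη.mul, hn, mul_assoc, ← hη.mul, ← h7, hst]
                  simp only [mul_assoc]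
              · -- `w = y' u`
                exfalso
                apply hm
                obtain ⟨s, t, hst⟩ := hy'
                refine ⟨η p * s, t * η u, ?_⟩
                rw [hn, h7, hη.mul, hst]
                simp only [mul_assoc]
      · -- `a = y c`, `z = c EYE b`
        rw [h3] at hz
        have h4 := ih (by omega) c hz
        exact ⟨y, c ++ (E ++ b), by rw [h2, List.append_assoc], hy, h4⟩

theorem th_ins [Monoid N] {η : List A → N} (hη : IsHom η) {R : ℕ} {E Y : List A}
    (hE : Th η R E (E ++ E)) (hY : η Y = η E) : Th η R (E ++ Y ++ E) E := by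
  refine ⟨tt_eye hη hE hY, ?_⟩
  intro m r hr a b
  constructor
  · intro h
    rw [List.append_assoc] at h
    rw [List.append_assoc]
    by_cases hm : InL η m E
    · exact tt_all hη hE hm b r hr a
    · exact tt_down hη hE hY hm b r hr a h
  · intro h
    rw [List.append_assoc] at h
    have h1 := tt_up hη hE hY b r hr a h
    simpa only [List.append_assoc] using h1

end Pool.Agent.MSL
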