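import Pool.Agent.MSL.Ll
import Pool.Agent.MSL.Loa
import Pool.Agent.MSL.Lob
import Pool.Agent.MSL.Ins
import Pool.Agent.MSL.Tt

/-!
# Project MSL: (LO)

`D = Y₁ ++ T` for `z`, `T` from `Lc`; the left lemma `ll` for `G ++ pw E (2P)` and `D` gives `G₀`, `DD`, `X₀`; if `η E` is in
the ideal of `η DD` then `lo_a` gives the second alternative, otherwise `lo_b` gives the first.
-/

namespace Pool.Agent.MSL

open Pool.Agent.DD Pool.Agent.HLV

variable {A M N : Type} [Monoid M] [Monoid N] {α : List A → M} {η : List A → N} {K : ℕ}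

theorem exists_lo [Finite M] [Finite N] (hS : Setup α η K) {ρ kM R : ℕ}
    (hρ : RamC (M × N) ρ) (hz : FactZ α η K R kM) (hR : ρ + 2 ≤ R) : ∃ k, LOp α η R k := by
  obtain ⟨k₀, hll⟩ := ll hS hρ hz hR
  have cg : Cg (Th η R) := th_cg hS.ηh R
  refine ⟨max k₀ (kM + 6), ?_⟩
  have hk0 : k₀ ≤ max k₀ (kM + 6) := le_max_left _ _
  have hk1 : kM + 6 ≤ max k₀ (kM + 6) := le_max_right _ _
  generalize max k₀ (kM + 6) = k₁ at hk0 hk1
  intro P G E Y₀ Y₁ Y₂ H hP hE hEE hYY hY hn1 hY1 hLc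
  obtain ⟨z, T, hzT, hz1, hT⟩ := hLc
  have hE' : η E * η E = η E := by
    have h1 := (dom_base cg hEE.1).1
    rw [hS.ηh.mul] at h1
    exact h1.symm
  have hY1ne : Y₁ ≠ [] := by
    intro h1
    rw [h1] at hY1
    exact inl_nil hS.ηh hS.aN hn1 hY1
  have hD : Y₁ ++ T ≠ [] := by
    intro h1
    exact hY1ne (List.append_eq_nil_iff.mp h1).1
  have hP2 : 1 ≤ 2 * P := by omega
  have d1 : Dom (Th η R) k₁ ((z ++ T) ++ (Y₁ ++ T)) (z ++ T) := by
    have e1 : Dom (Th η R) k₁ ((G ++ pw E (2 * P)) ++ (Y₁ ++ T)) ((G ++ E) ++ (Y₁ ++ T)) :=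
      dom_app cg (dom_app cg (dom_refl cg k₁ G) (eqv_pw cg hEE hP2).2) (dom_refl cg k₁ _)
    have e2 : Dom (Th η R) k₁ ((G ++ E ++ Y₁) ++ T) (z ++ T) :=
      dom_app cg hz1 (dom_refl cg k₁ T)
    rw [← hzT] at e1
    have e3 : (G ++ E) ++ (Y₁ ++ T) = (G ++ E ++ Y₁) ++ T := (List.append_assoc (G ++ E) Y₁ T).symm
    rw [e3] at e1
    exact dom_trans cg e1 e2
  obtain ⟨G₀, DD, X₀, hG, hd, hDD, hret⟩ := hll (z ++ T) (Y₁ ++ T) hD (dom_mono cg hk0 d1)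
  have hm : η DD * η DD = η DD := by
    rw [hDD]
    exact hS.aN.idem _
  have hαG : α (z ++ T) = α (G ++ E) := by
    rw [hzT, hS.αh.mul, hS.αh.pw, idem_pow hE hP2, ← hS.αh.mul]
  have hmn : ∃ a b, η DD = a * η E * b := by
    obtain ⟨a, b, hab⟩ := hY1
    refine ⟨a, b * η T * η (Y₁ ++ T) ^ (K - 1), ?_⟩
    have h1 : K = (K - 1) + 1 := by
      have := hS.pos
      omega
    calc η DD = η (Y₁ ++ T) ^ K := hDD
      _ = η (Y₁ ++ T) ^ ((K - 1) + 1) := by rw [← h1]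
      _ = η (Y₁ ++ T) * η (Y₁ ++ T) ^ (K - 1) := pow_succ' _ _
      _ = (a * η E * b * η T) * η (Y₁ ++ T) ^ (K - 1) := by
          rw [hS.ηh.mul, hab]
      _ = a * η E * (b * η T * η (Y₁ ++ T) ^ (K - 1)) := by
          simp only [mul_assoc]
  by_cases hn : ∃ a b, η E = a * η DD * b
  · right
    have hpre : Y₁ <+: pw (Y₁ ++ T) 1 := by
      refine ⟨T, ?_⟩
      rw [pw_succ, pw_zero, List.append_nil]
    exact lo_a hS hP hE hE' (hzT.symm.trans hG) hd hm hmn hn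
      (hret Y₁ Y₁ 1 (dom_refl cg _ Y₁) hpre)
  · left
    have hth : Th η R (E ++ (E ++ Y₀ ++ E) ++ E) E := th_ins hS.ηh (dom_base cg hEE.1) hY
    have hins : Dom (Th η R) k₁ E (E ++ (E ++ Y₀ ++ E) ++ E) := dom_ins cg hEE hth
    have hEY : Dom (Th η R) k₁ E ((E ++ Y₀ ++ E) ++ E) := by
      have e1 : E ++ (E ++ Y₀ ++ E) ++ E = (E ++ E) ++ (Y₀ ++ E ++ E) := by
        simp only [List.append_assoc]
      have e2 : (E ++ Y₀ ++ E) ++ E = E ++ (Y₀ ++ E ++ E) := by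
        simp only [List.append_assoc]
      rw [e1] at hins
      rw [e2]
      exact dom_trans cg hins (dom_app cg hEE.2 (dom_refl cg k₁ _))
    have hD1 : Dom (Th η R) k₁ ((E ++ Y₀ ++ E) ++ E ++ H)
        ((Y₁ ++ T) ++ ((E ++ Y₀ ++ E) ++ E ++ H)) := by
      have e1 : (E ++ Y₀ ++ E) ++ E ++ H = Y₁ ++ (Y₂ ++ E ++ H) := by
        rw [hYY]
        simp only [List.append_assoc]
      have e2 : Dom (Th η R) k₁ (Y₁ ++ (Y₂ ++ E ++ H)) (Y₁ ++ (T ++ pw E P ++ H)) :=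
        dom_app cg (dom_refl cg k₁ Y₁) hT
      have e3 : Dom (Th η R) k₁ (Y₁ ++ (T ++ pw E P ++ H)) (Y₁ ++ (T ++ ((E ++ Y₀ ++ E) ++ E) ++ H)) :=
        dom_app cg (dom_refl cg k₁ Y₁) (dom_app cg (dom_app cg (dom_refl cg k₁ T)
          (dom_trans cg (eqv_pw cg hEE hP).2 hEY)) (dom_refl cg k₁ H))
      have e4 : Y₁ ++ (T ++ ((E ++ Y₀ ++ E) ++ E) ++ H) =
          (Y₁ ++ T) ++ ((E ++ Y₀ ++ E) ++ E ++ H) := by
        simp only [List.append_assoc]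
      have e5 := dom_trans cg e2 e3
      rw [← e1, e4] at e5
      exact e5
    have hdom : ∀ q, Dom (Th η R) k₁ ((E ++ Y₀ ++ E) ++ E ++ H)
        (pw (Y₁ ++ T) q ++ ((E ++ Y₀ ++ E) ++ E ++ H)) := by
      intro q
      induction q with
      | zero =>
        rw [pw_zero, List.nil_append]
        exact dom_refl cg k₁ _
      | succ q ih =>
        rw [pw_succ, List.append_assoc (Y₁ ++ T)]
        exact dom_trans cg hD1 (dom_app cg (dom_refl cg k₁ _) ih)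
    have hGG : α (G ++ E) = α (G₀ ++ DD ++ X₀) := by
      rw [← hG, hαG]
    exact lo_b (kM := kM) hS hρ hR hD hE hd hDD hGG hn hE' hY
      (fun q => dom_mono cg (by omega) (hdom q)) (dom_mono cg (by omega) hEY) hret

end Pool.Agent.MSL
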