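import Pool.Agent.MSL.Mxs
import Pool.Agent.MSL.Bse

/-!
# Project MSL: a relation over `Tg A` which sees `δ`, the marks and the delimiters

`exists_base0` over `Tg A`, applied to the inverse images of the classes of `δ`, the inverse images of the factors of
`K₀`, the words over `Tg.lt`-letters, the words over `Tg.mk`-letters, and the words with last letter `Tg.dl`.
-/

namespace Pool.Agent.MSL

open Pool.Agent.DD Pool.Agent.HLV

variable {A : Type}

/-- Words with all letters in the range of `f`. -/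
private theorem Mxb_map_eq {C D : Type} (f : D → C) (z : List C) (h : ∀ c ∈ z, ∃ a, c = f a) :
    ∃ y : List D, z = y.map f := by
  induction z with
  | nil => exact ⟨[], rfl⟩
  | cons c z ih =>
      obtain ⟨a, ha⟩ := h c (by simp)
      obtain ⟨y, hy⟩ := ih fun c' hc' => h c' (by simp [hc'])
      exact ⟨a :: y, by rw [ha, hy, List.map_cons]⟩

/-- Representatives of the classes of a relation of finite index. -/
private theorem Mxb_reps {D : Type} {r : List D → List D → Prop} (h : FinIdx r) :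
    ∃ us : List (List D), ∀ x, ∃ u ∈ us, r u x := by
  classical
  obtain ⟨n, c, hc⟩ := h
  have h1 : ∀ i : Fin n, ∃ u : List D, (∃ x, c x = i) → c u = i := by
    intro i
    by_cases hi : ∃ x, c x = i
    · obtain ⟨x, hx⟩ := hi
      exact ⟨x, fun _ => hx⟩
    · exact ⟨[], fun h => absurd h hi⟩
  choose u hu using h1
  refine ⟨(List.finRange n).map u, fun x => ⟨u (c x), ?_, ?_⟩⟩
  · exact List.mem_map.2 ⟨c x, List.mem_finRange _, rfl⟩
  · exact hc _ _ (hu (c x) ⟨x, rfl⟩)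

/-- The factors of a finite list of products. -/
private theorem Mxb_factors {D : Type} {n : ℕ} (Ps : List (Lang D))
    (hP : ∀ P ∈ Ps, P ∈ MonCl (B D n)) :
    ∃ (Fs : List (Lang D)) (k : ℕ), (∀ F ∈ Fs, F ∈ B D n) ∧
      ∀ P ∈ Ps, ∃ L₀ ∈ Fs, ∃ Ls : List (Lang D), (∀ K ∈ Ls, K ∈ Fs) ∧ Ls.length ≤ k ∧
        P = catList L₀ Ls := by
  induction Ps with
  | nil => exact ⟨[], 0, by simp, fun P hP => absurd hP (by simp)⟩
  | cons P Ps ih =>
      obtain ⟨Fs, k, h1, h2⟩ := ih fun P' hP' => hP P' (by simp [hP'])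
      obtain ⟨L₀, hL₀, Ls, hLs, hPL⟩ := MonCl_B (hP P (by simp))
      refine ⟨L₀ :: (Ls ++ Fs), max k Ls.length, ?_, ?_⟩
      · intro F hF
        rcases List.mem_cons.1 hF with rfl | hF
        · exact hL₀
        · rcases List.mem_append.1 hF with hF | hF
          · exact hLs F hF
          · exact h1 F hF
      · intro P' hP'
        rcases List.mem_cons.1 hP' with rfl | hP'
        · exact ⟨L₀, by simp, Ls, fun K hK => by simp [hK], le_max_right _ _, hPL⟩
        · obtain ⟨M₀, hM₀, Ms, hMs, hk, hPM⟩ := h2 P' hP'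
          exact ⟨M₀, by simp [hM₀], Ms, fun K hK => by simp [hMs K hK],
            hk.trans (le_max_left _ _), hPM⟩

/-- Domination preserves products. -/
private theorem Mxb_cat {C D : Type} {r : List C → List C → Prop} (hr : Cg r) (g : C → D)
    {Fs : List (Lang D)} (hF : ∀ x y, r x y → ∀ F ∈ Fs, SynEq {z : List C | z.map g ∈ F} x y)
    (Ls : List (Lang D)) :
    ∀ L₀ ∈ Fs, (∀ K ∈ Ls, K ∈ Fs) → ∀ k : ℕ, Ls.length ≤ k → ∀ x y : List C, Dom r k x y →
      x.map g ∈ catList L₀ Ls → y.map g ∈ catList L₀ Ls := by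
  induction Ls with
  | nil =>
      intro L₀ h0 _ k _ x y hxy hx
      exact (hF x y (dom_base hr hxy) L₀ h0).mem.1 hx
  | cons K Ks ih =>
      intro L₀ h0 hK k hk x y hxy hx
      obtain ⟨u, hu, v, hv, huv⟩ := hx
      obtain ⟨x₁, x₂, hx12, hx1, hx2⟩ := List.map_eq_append_iff.1 huv
      obtain ⟨k, rfl⟩ : ∃ k₁, k = k₁ + 1 := ⟨k - 1, by
        rw [List.length_cons] at hk
        omega⟩
      rw [hx12] at hxy
      obtain ⟨y₁, y₂, hy, h1, h2⟩ := dom_two hxy
      refine ⟨y₁.map g, ?_, y₂.map g, ?_, by rw [hy, List.map_append]⟩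
      · refine (hF x₁ y₁ (dom_base hr h1) L₀ h0).mem.1 ?_
        show x₁.map g ∈ L₀
        rw [hx1]
        exact hu
      · refine ih K (hK K (by simp)) (fun K' hK' => hK K' (by simp [hK'])) k ?_ x₂ y₂ h2 ?_
        · rw [List.length_cons] at hk
          omega
        · rw [hx2]
          exact hv

/-- Domination and images. -/
private theorem Mxb_dom_map {C D : Type} {r' : List C → List C → Prop}
    {r : List D → List D → Prop} (g : C → D)
    (h : ∀ z z', r' z z' → r (z.map g) (z'.map g)) (k : ℕ) :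
    ∀ z z' : List C, Dom r' k z z' → Dom r k (z.map g) (z'.map g) := by
  induction k with
  | zero => exact h
  | succ k ih =>
      intro z z' hz u₁ u₂ hu
      obtain ⟨w₁, w₂, hw, hw1, hw2⟩ := List.map_eq_append_iff.1 hu
      obtain ⟨v₁, v₂, hv, h1, h2⟩ := hz w₁ w₂ hw
      refine ⟨v₁.map g, v₂.map g, by rw [hv, List.map_append], ?_, ?_⟩
      · rw [← hw1]
        exact ih _ _ h1
      · rw [← hw2]
        exact ih _ _ h2

theorem exists_big [Finite A] [Nonempty A] {n : ℕ} (hn : 1 ≤ n) {δ : List A → List A → Prop}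
    (hδ : Base n δ) {K₀ : Lang (Fin 2)} (h0 : K₀ ∈ Half (B (Fin 2) n)) :
    ∃ (δ' : List (Tg A) → List (Tg A) → Prop) (k' : ℕ), Base n δ' ∧
      (∀ (k : ℕ) (x y : List A), Dom δ' k (x.map Tg.lt) (y.map Tg.lt) → Dom δ k x y) ∧
      (∀ (x : List A) (z : List (Tg A)), δ' (x.map Tg.lt) z → ∃ y : List A, z = y.map Tg.lt) ∧
      (∀ (b : List (Fin 2)) (z : List (Tg A)), δ' (b.map Tg.mk) z →
        ∃ b' : List (Fin 2), z = b'.map Tg.mk) ∧
      (∀ b b' : List (Fin 2), Dom δ' k' (b.map Tg.mk) (b'.map Tg.mk) → b ∈ K₀ → b' ∈ K₀) ∧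
      (∀ x z : List (Tg A), δ' (x ++ [Tg.dl]) z → ∃ z', z = z' ++ [Tg.dl]) := by
  classical
  obtain ⟨a₀⟩ := ‹Nonempty A›
  obtain ⟨g, hg⟩ : ∃ g : Tg A → A, ∀ a, g (Tg.lt a) = a :=
    ⟨fun c => match c with
      | Tg.lt a => a
      | _ => a₀, fun a => rfl⟩
  obtain ⟨g', hg'⟩ : ∃ g' : Tg A → Fin 2, ∀ i, g' (Tg.mk i) = i :=
    ⟨fun c => match c with
      | Tg.mk i => i
      | _ => 0, fun i => rfl⟩
  have hgm : ∀ x : List A, (x.map Tg.lt).map g = x := by
    intro x
    induction x with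
    | nil => rfl
    | cons a x ih => rw [List.map_cons, List.map_cons, hg, ih]
  have hgm' : ∀ b : List (Fin 2), (b.map (Tg.mk (A := A))).map g' = b := by
    intro b
    induction b with
    | nil => rfl
    | cons a x ih => rw [List.map_cons, List.map_cons, hg', ih]
  obtain ⟨us, hus⟩ := Mxb_reps hδ.fin
  obtain ⟨Ps, hPs, hK⟩ := h0
  obtain ⟨Fs, k', hFs, hPF⟩ := Mxb_factors Ps hPs
  obtain ⟨δ', hδ', hS⟩ := exists_base0 (A := Tg A) n
    (us.map (fun u => {z : List (Tg A) | z.map g ∈ {v | δ u v}}) ++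
      (Fs.map (fun F => {z : List (Tg A) | z.map g' ∈ F}) ++
        [{z : List (Tg A) | ∀ c ∈ z, ∃ a, c = Tg.lt a},
          {z : List (Tg A) | ∀ c ∈ z, ∃ i, c = Tg.mk i},
          {z : List (Tg A) | ∃ z', z = z' ++ [Tg.dl]}])) (by
    intro Q hQ
    rcases List.mem_append.1 hQ with hQ | hQ
    · obtain ⟨u, -, rfl⟩ := List.mem_map.1 hQ
      exact map_B g (hδ.cls u)
    · rcases List.mem_append.1 hQ with hQ | hQ
      · obtain ⟨F, hF, rfl⟩ := List.mem_map.1 hQ
        exact map_B g' (hFs F hF)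
      · rcases List.mem_cons.1 hQ with rfl | hQ
        · exact B_mono hn (sub_B _)
        · rcases List.mem_cons.1 hQ with rfl | hQ
          · exact B_mono hn (sub_B _)
          · rw [List.mem_singleton.1 hQ]
            exact B_mono hn (end_B _))
  have hS1 : ∀ z z', δ' z z' → δ (z.map g) (z'.map g) := by
    intro z z' hz
    obtain ⟨u, hu, hx⟩ := hus (z.map g)
    have h1 := (hS z z' hz {z : List (Tg A) | z.map g ∈ {v | δ u v}}
      (List.mem_append_left _ (List.mem_map.2 ⟨u, hu, rfl⟩))).mem.1 hx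
    exact hδ.cg.trans (hδ.cg.symm hx) h1
  have hS2 : ∀ z z', δ' z z' → ∀ F ∈ Fs, SynEq {z : List (Tg A) | z.map g' ∈ F} z z' := by
    intro z z' hz F hF
    exact hS z z' hz _ (List.mem_append_right _
      (List.mem_append_left _ (List.mem_map.2 ⟨F, hF, rfl⟩)))
  refine ⟨δ', k', hδ', ?_, ?_, ?_, ?_, ?_⟩
  · intro k x y hxy
    have h1 := Mxb_dom_map g hS1 k _ _ hxy
    rw [hgm, hgm] at h1
    exact h1
  · intro x z hz
    refine Mxb_map_eq Tg.lt z ?_
    refine (hS _ z hz {z : List (Tg A) | ∀ c ∈ z, ∃ a, c = Tg.lt a} (by simp)).mem.1 ?_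
    intro c hc
    obtain ⟨a, -, ha⟩ := List.mem_map.1 hc
    exact ⟨a, ha.symm⟩
  · intro b z hz
    refine Mxb_map_eq Tg.mk z ?_
    refine (hS _ z hz {z : List (Tg A) | ∀ c ∈ z, ∃ i, c = Tg.mk i} (by simp)).mem.1 ?_
    intro c hc
    obtain ⟨a, -, ha⟩ := List.mem_map.1 hc
    exact ⟨a, ha.symm⟩
  · intro b b' hbb hb
    rw [hK] at hb ⊢
    obtain ⟨P, hP, hbP⟩ := hb
    refine ⟨P, hP, ?_⟩
    obtain ⟨L₀, hL₀, Ls, hLs, hk, rfl⟩ := hPF P hP
    have h1 := Mxb_cat hδ'.cg g' hS2 Ls L₀ hL₀ hLs k' hk _ _ hbb (by rw [hgm']; exact hbP)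
    rw [hgm'] at h1
    exact h1
  · intro x z hz
    exact (hS _ z hz {z : List (Tg A) | ∃ z', z = z' ++ [Tg.dl]} (by simp)).mem.1 ⟨x, rfl⟩

end Pool.Agent.MSL
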