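import Pool.Agent.MSL.Tgi
import Pool.Agent.HLV.PolB
import Pool.Agent.HLV.Inv

/-!
# Project MSL: languages over `Tg A` of dot-depth one

For a predicate `p` on letters of a finite alphabet `C`, the language of the words with all letters in `p` is the
complement of the finite union, over the letters `c` with `¬ p c`, of `cat univ (cat {[c]} univ)`, which is in
`MonCl (B C 0)`; so it is in `B C 1` (`BoolCl`).  `{z | ∃ x, z = x.map Tg.lt}`: `p c = (∃ a, c = Tg.lt a)`.
`{z | ∃ z', z = z' ++ [c]} = cat univ {[c]}`.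
`map_B`: for `g : C → A`, `{z | z.map g ∈ L} = iq (fun c => [g c]) [] [] L` (`HLV.iq_B`).
-/

namespace Pool.Agent.MSL

open Pool.Agent.DD Pool.Agent.HLV

variable {A : Type}

theorem sub_B {C : Type} [Finite C] (p : C → Prop) : {z : List C | ∀ c ∈ z, p c} ∈ B C 1 := by
  have h1 : Pol (B C 0) {w : List C | ∃ c : {c : C // ¬ p c},
      w ∈ DD.cat (Set.univ : Lang C) (DD.cat ({[c.1]} : Lang C) (Set.univ : Lang C))} :=
    pol_finite_union _ fun c => Pol.cat (Pol.base (univ_mem_B 0))
      (Pol.cat (Pol.base (finite_mem_B (Set.finite_singleton _) 0)) (Pol.base (univ_mem_B 0)))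
  have h2 := B_compl (pol_sub_B h1)
  have e : {w : List C | ∃ c : {c : C // ¬ p c},
      w ∈ DD.cat (Set.univ : Lang C) (DD.cat ({[c.1]} : Lang C) (Set.univ : Lang C))}ᶜ =
      {z : List C | ∀ c ∈ z, p c} := by
    ext z
    constructor
    · intro hz c hc
      by_contra hp
      obtain ⟨s, t, rfl⟩ := List.append_of_mem hc
      exact hz ⟨⟨c, hp⟩, s, trivial, c :: t, ⟨[c], rfl, t, trivial, rfl⟩, rfl⟩
    · rintro hz ⟨⟨c, hp⟩, s, -, y, ⟨x, hx, t, -, rfl⟩, rfl⟩
      have hx' : x = [c] := hx
      subst hx'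
      exact hp (hz c (by simp))
  rw [← e]
  exact h2

theorem end_B {C : Type} (c : C) : {z : List C | ∃ z', z = z' ++ [c]} ∈ B C 1 := by
  have h1 : Pol (B C 0) (DD.cat (Set.univ : Lang C) ({[c]} : Lang C)) :=
    Pol.cat (Pol.base (univ_mem_B 0)) (Pol.base (finite_mem_B (Set.finite_singleton _) 0))
  have e : DD.cat (Set.univ : Lang C) ({[c]} : Lang C) = {z : List C | ∃ z', z = z' ++ [c]} := by
    ext z
    constructor
    · rintro ⟨x, -, y, hy, rfl⟩
      have hy' : y = [c] := hy
      exact ⟨x, by rw [hy']⟩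
    · rintro ⟨x, rfl⟩
      exact ⟨x, trivial, [c], rfl, rfl⟩
  rw [← e]
  exact pol_sub_B h1

theorem map_B {C : Type} [Finite C] (g : C → A) {i : ℕ} {L : Lang A}
    (h : L ∈ B A i) : {z : List C | z.map g ∈ L} ∈ B C i := by
  have h1 := iq_B (ψ := fun c : C => [g c]) (fun a => by simp) h [] []
  have e : iq (fun c : C => [g c]) [] [] L = {z : List C | z.map g ∈ L} := by
    ext z
    rw [mem_iq, List.nil_append, List.append_nil]
    have e1 : ext (fun c : C => [g c]) z = z.map g := by
      induction z with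
      | nil => rfl
      | cons a z ih => rw [ext_cons, ih]; rfl
    rw [e1]
    rfl
  rw [← e]
  exact h1

end Pool.Agent.MSL
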