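import Pool.Agent.MSL.Tgi
import Pool.Agent.HSP.EDefs
import Pool.Agent.HSP.Decd

/-!
# Project MSL: the criterion in numbers (effective part, definitions)

A code `c` (`Pool.Agent.DD.Defs`) has the states `< bnd c`.  Words over `Fin m` become lists of numbers by
`List.map Fin.val`.  `tr c w`: the list of the states reached by `w` from the states `0, 1, ..., bnd c - 1`.
-/

namespace Pool.Agent.MSL

open Pool.Agent.DD Pool.Agent.HLV Pool.Agent.HSP

/-- The vector of the states reached by `w` from all states. -/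
def tr (c : Code) (w : List ℕ) : List ℕ :=
  w.foldl (fun v a => v.map fun q => stepC c q a) (List.range (bnd c))

/-- The bound for the size of the transition monoid; it is also used as exponent. -/
def kN (c : Code) : ℕ := bnd c ^ bnd c

/-- All words of length `< kN c` over the letters `< m`. -/
def W (m : ℕ) (c : Code) : List (List ℕ) := (List.range (kN c)).flatMap (wds m)

/-- Acceptance of a word of numbers. -/
def acN (c : Code) (w : List ℕ) : Bool :=
  decide (w.foldl (fun q a => stepC c q a) 0 ∈ c.2)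

/-- Syntactic equivalence, with bounded contexts. -/
def synN (m : ℕ) (c : Code) (x y : List ℕ) : Prop :=
  ∀ s ∈ W m c, ∀ t ∈ W m c, acN c (s ++ x ++ t) = acN c (s ++ y ++ t)

/-- The words with the same vector as `e`. -/
def clN (m : ℕ) (c : Code) (e : List ℕ) : Lang (Fin m) := {w | tr c (w.map Fin.val) = tr c e}

/-- The criterion. -/
def CritN (m n : ℕ) (K₀ : Lang (Fin 2)) (c : Code) : Prop :=
  (∀ x ∈ W m c, synN m c (pw x (kN c + 1)) (pw x (kN c))) ∧
  (∀ e ∈ W m c, ∀ y ∈ W m c, ∀ z ∈ W m c, tr c (e ++ e) = tr c e →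
    ¬ Separable (B (Fin m) (n + 1)) (clN m c e) (clN m c y) →
    synN m c (pw (z ++ e ++ y ++ e) (kN c) ++ (z ++ e) ++ pw (z ++ e ++ y ++ e) (kN c))
      (pw (z ++ e ++ y ++ e) (kN c))) ∧
  (∀ e ∈ W m c, ∀ f ∈ W m c, ∀ a ∈ W m c, ∀ b ∈ W m c, ∀ g ∈ W m c, ∀ d ∈ W m c,
    tr c (e ++ e) = tr c e → tr c (f ++ f) = tr c f →
    Mix n K₀ (clN m c e) (clN m c f) (clN m c a) →
    Mix n K₀ (clN m c e) (clN m c f) (clN m c b) →
    Mix n K₀ (clN m c e) (clN m c f) (clN m c g) →
    Mix n K₀ (clN m c e) (clN m c f) (clN m c d) →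
    synN m c (pw (e ++ a ++ f ++ b ++ e) (kN c) ++ pw (e ++ g ++ f ++ d ++ e) (kN c))
      (pw (e ++ a ++ f ++ b ++ e) (kN c) ++ (a ++ f ++ d) ++
        pw (e ++ g ++ f ++ d ++ e) (kN c)))

/-- The letters of `Tg (Fin m)` as numbers. -/
def tg (m : ℕ) : Tg (Fin m) → Fin (m + 4)
  | .lt a => ⟨a.val, by omega⟩
  | .mk i => ⟨m + i.val, by omega⟩
  | .hs => ⟨m + 2, by omega⟩
  | .dl => ⟨m + 3, by omega⟩

/-! ### The machine for the languages `plus (BX E K₀)` and `Ve E G K₀` -/

/-- States: stage, phase, vector, state of the automaton of the marks. -/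
abbrev MS : Type := ℕ × (ℕ × (List ℕ × ℕ))

/-- Parameters: the automaton, the words `e`, `g`. -/
abbrev MP : Type := Code × (List ℕ × List ℕ)

/-- The dead state. -/
def mdead : MS := (0, (3, ([], 0)))

/-- The step.  Phase `0`: at the beginning of a block, `1`: after some letters of the word of the block,
`2`: after `#`, `3`: dead.  Stage `0`: nothing, `1`: blocks of type `E`, `2`: then one block of type `G`,
`3`: then blocks of type `E`. -/
def mstep (m : ℕ) (V₀ : Code) (p : MP) (s : MS) (a : ℕ) : MS :=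
  if a < m then
    (if s.2.1 ≤ 1 then (s.1, (1, (s.2.2.1.map (fun q => stepC p.1 q a), 0))) else mdead)
  else if a < m + 2 then
    (if s.2.1 = 2 then (s.1, (2, (s.2.2.1, stepC V₀ s.2.2.2 (a - m)))) else mdead)
  else if a = m + 2 then (if s.2.1 ≤ 1 then (s.1, (2, (s.2.2.1, 0))) else mdead)
  else if s.2.1 = 2 ∧ s.2.2.2 ∈ V₀.2 ∧ s.2.2.1 = tr p.1 p.2.1 then
    ((if s.1 ≤ 1 then 1 else 3), (0, (List.range (bnd p.1), 0)))
  else if s.2.1 = 2 ∧ s.2.2.2 ∉ V₀.2 ∧ s.2.2.1 = tr p.1 p.2.2 ∧ s.1 = 1 then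
    (2, (0, (List.range (bnd p.1), 0)))
  else mdead

/-- The initial state. -/
def minit (p : MP) : MS := (0, (0, (List.range (bnd p.1), 0)))

/-- The final states, stage `t`. -/
def macc (t : ℕ) (s : MS) : Bool := decide (s.1 = t ∧ s.2.1 = 0)

/-- The run. -/
def mrun (m : ℕ) (V₀ : Code) (p : MP) (w : List ℕ) : MS := w.foldl (mstep m V₀ p) (minit p)

/-- The languages of the stages. -/
def StL {A : Type} (E G : Lang A) (K₀ : Lang (Fin 2)) : ℕ → Lang (Tg A)
  | 0 => {[]}
  | 1 => plus (BX E K₀)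
  | 2 => {w | ∃ x ∈ plus (BX E K₀), ∃ y ∈ BX G K₀ᶜ, w = x ++ y}
  | _ => Ve E G K₀

end Pool.Agent.MSL
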