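import Pool.Agent.MSL.Bas
import Pool.Agent.MSL.Ram

/-!
# Project MSL: chains: the inductive step
-/

namespace Pool.Agent.MSL

open Pool.Agent.DD Pool.Agent.HLV

variable {A M N S : Type}

private theorem pta_flatten [Monoid S] {φ : List A → S} (hφ : IsHom φ) {e : S} (he : e * e = e)
    (l : List (List A)) (hl : l ≠ []) (h : ∀ x ∈ l, φ x = e) : φ l.flatten = e := by
  induction l with
  | nil => exact absurd rfl hl
  | cons x l ih =>
      rw [List.flatten_cons, hφ.mul, h x List.mem_cons_self]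
      by_cases hl' : l = []
      · subst hl'
        rw [List.flatten_nil, hφ.one, mul_one]
      · rw [ih hl' (fun y hy => h y (List.mem_cons_of_mem _ hy)), he]

private theorem pta_two [Monoid S] [Monoid N] {σ : List A → S} {η : List A → N} (hσ : IsHom σ)
    {x y v w : List A} (c1 : Chain σ η (σ x) (σ v)) (c2 : Chain σ η (σ y) (σ w)) :
    Chain σ η (σ (x ++ y)) (σ (v ++ w)) := by
  have h1 := chain_mul hσ c1 [] y
  have h2 := chain_mul hσ c2 v []
  rw [hσ.one, one_mul, one_mul] at h1
  rw [hσ.one, mul_one, mul_one] at h2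
  rw [hσ.mul, hσ.mul]
  exact h1.trans h2

theorem pt_step [Monoid S] [Monoid N] {σ : List A → S} {η : List A → N} (hσ : IsHom σ)
    (hη : IsHom η) (one : ∀ x, η x = 1 → x = []) {r : List A → List A → Prop} (h : Cg r)
    (hr : ∀ x y, r x y → η x = η y) (h' k : ℕ)
    (ih : ∀ u, Ht (fun x => (σ x, η x)) h' u → ∀ v, Dom r k u v → Chain σ η (σ u) (σ v)) :
    ∀ u, Ht (fun x => (σ x, η x)) (h' + 1) u → ∀ v, Dom r (k + 2) u v →
      Chain σ η (σ u) (σ v) := by
  have case1 : ∀ u, Ht (fun x => (σ x, η x)) h' u → ∀ v, Dom r (k + 2) u v →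
      Chain σ η (σ u) (σ v) := fun u hu v hv => ih u hu v (dom_mono h (by omega) hv)
  have case2 : ∀ x y, Ht (fun x => (σ x, η x)) h' x → Ht (fun x => (σ x, η x)) h' y →
      ∀ v, Dom r (k + 2) (x ++ y) v → Chain σ η (σ (x ++ y)) (σ v) := by
    intro x y hx hy v hv
    obtain ⟨v₁, v₂, rfl, a1, a2⟩ := dom_two (k := k + 1) hv
    exact pta_two hσ (ih x hx v₁ (dom_mono h (by omega) a1)) (ih y hy v₂ (dom_mono h (by omega) a2))
  intro u hu v hv
  rcases hu with hu | ⟨x, y, rfl, hx, hy⟩ | ⟨e, us, he, rfl, hus⟩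
  · exact case1 u hu v hv
  · exact case2 x y hx hy v hv
  · rcases us with _ | ⟨u₁, rest⟩
    · have h1 : η [] = η v := hr _ _ (dom_base h hv)
      have h2 : v = [] := one v (by rw [← h1, hη.one])
      rw [h2]
      exact Relation.ReflTransGen.refl
    · rcases List.eq_nil_or_concat' rest with rfl | ⟨mid, ur, rfl⟩
      · have h1 : [u₁].flatten = u₁ := by simp
        rw [h1] at hv ⊢
        exact case1 u₁ (hus u₁ List.mem_cons_self).1 v hv
      · have m1 : u₁ ∈ u₁ :: (mid ++ [ur]) := List.mem_cons_self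
        have m2 : ur ∈ u₁ :: (mid ++ [ur]) := by simp
        by_cases hmid : mid = []
        · subst hmid
          have h1 : (u₁ :: ([] ++ [ur])).flatten = u₁ ++ ur := by simp
          rw [h1] at hv ⊢
          exact case2 u₁ ur (hus u₁ m1).1 (hus ur m2).1 v hv
        · have h1 : (u₁ :: (mid ++ [ur])).flatten = u₁ ++ mid.flatten ++ ur := by simp
          rw [h1] at hv ⊢
          obtain ⟨v₁, v₂, v₃, rfl, a1, a2, a3⟩ := dom_three h hv
          have eσ : ∀ x ∈ u₁ :: (mid ++ [ur]), σ x = e.1 := fun x hx =>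
            congrArg Prod.fst (hus x hx).2
          have eη : ∀ x ∈ u₁ :: (mid ++ [ur]), η x = e.2 := fun x hx =>
            congrArg Prod.snd (hus x hx).2
          have he1 : e.1 * e.1 = e.1 := congrArg Prod.fst he
          have he2 : e.2 * e.2 = e.2 := congrArg Prod.snd he
          have hMσ : σ mid.flatten = e.1 := pta_flatten hσ he1 mid hmid
            (fun x hx => eσ x (by simp [hx]))
          have hMη : η mid.flatten = e.2 := pta_flatten hη he2 mid hmid
            (fun x hx => eη x (by simp [hx]))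
          have hv2 : η v₂ = e.2 := by rw [← hMη]; exact (hr _ _ (dom_base h a2)).symm
          have c1 := ih u₁ (hus u₁ m1).1 v₁ a1
          have c3 := ih ur (hus ur m2).1 v₃ a3
          have st : Step σ η (σ (u₁ ++ mid.flatten ++ ur)) (σ (u₁ ++ v₂ ++ ur)) := by
            refine ⟨u₁, u₁, v₂, ur, ?_, ?_, ?_, ?_, ?_⟩
            · rw [eσ u₁ m1, he1]
            · rw [eη u₁ m1, he2]
            · rw [eη u₁ m1, hv2]
            · simp only [hσ.mul, eσ u₁ m1, eσ ur m2, hMσ]
            · simp only [hσ.mul, eσ u₁ m1, eσ ur m2, mul_assoc, he1]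
          have c : Chain σ η (σ (u₁ ++ v₂ ++ ur)) (σ (v₁ ++ v₂ ++ v₃)) :=
            pta_two hσ (pta_two hσ c1 Relation.ReflTransGen.refl) c3
          exact Relation.ReflTransGen.head st c

end Pool.Agent.MSL
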