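import Pool.Agent.MSL.Trn

/-!
# Project MSL: short words

`exists_short`: take the shortest word `x'` with `α x' = α x`.  If `x'.length ≥ card M`, two of the `x'.length + 1` prefixes have the
same value, and cutting out the part between them gives a shorter word with the same value.
`mem_W`: `wds m i` is the list of all lists of length `i` with entries `< m` (see the private lemma `mem_wds` in
`Pool.Agent.HSP.EAlph`; prove it again).  `exists_W`: `exists_rec` and `exists_short`.  `of_W`: a list of numbers `< m` is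
`x.map Fin.val`.
-/

namespace Pool.Agent.MSL

open Pool.Agent.DD Pool.Agent.HLV Pool.Agent.HSP

private theorem shr_mem_wds (M : ℕ) : ∀ (i : ℕ) (w : List ℕ),
    w ∈ wds M i ↔ w.length = i ∧ ∀ a ∈ w, a < M := by
  intro i
  induction i with
  | zero =>
    intro w
    show w ∈ [[]] ↔ _
    rw [List.mem_singleton]
    constructor
    · rintro rfl
      exact ⟨rfl, by simp⟩
    · rintro ⟨h, _⟩
      exact List.eq_nil_of_length_eq_zero h
  | succ i ih =>
    intro w
    show w ∈ (wds M i).flatMap (fun w => (List.range M).map fun a => a :: w) ↔ _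
    rw [List.mem_flatMap]
    constructor
    · rintro ⟨u, hu, h⟩
      obtain ⟨a, ha, rfl⟩ := List.mem_map.1 h
      obtain ⟨h1, h2⟩ := (ih u).1 hu
      refine ⟨by simp [h1], ?_⟩
      intro b hb
      rcases List.mem_cons.1 hb with rfl | hb
      · exact List.mem_range.1 ha
      · exact h2 b hb
    · rintro ⟨h1, h2⟩
      rcases w with _ | ⟨a, u⟩
      · simp at h1
      · refine ⟨u, (ih u).2 ⟨by simpa using h1, fun b hb => h2 b (List.mem_cons_of_mem _ hb)⟩, ?_⟩
        exact List.mem_map.2 ⟨a, List.mem_range.2 (h2 a List.mem_cons_self), rfl⟩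

private theorem shr_lift {m : ℕ} (w : List ℕ) (h : ∀ a ∈ w, a < m) :
    ∃ x : List (Fin m), x.map Fin.val = w := by
  induction w with
  | nil => exact ⟨[], rfl⟩
  | cons a u ih =>
      obtain ⟨x, hx⟩ := ih fun b hb => h b (List.mem_cons_of_mem _ hb)
      exact ⟨⟨a, h a List.mem_cons_self⟩ :: x, by simp [hx]⟩

theorem exists_short {A M : Type} [Monoid M] [Finite M] {α : List A → M} (hα : IsHom α)
    (x : List A) : ∃ x' : List A, x'.length < Nat.card M ∧ α x' = α x := by
  classical
  obtain ⟨n, hn⟩ : ∃ n, x.length = n := ⟨_, rfl⟩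
  induction n using Nat.strong_induction_on generalizing x with
  | _ n ih =>
    rcases Nat.lt_or_ge n (Nat.card M) with h | h
    · exact ⟨x, by omega, rfl⟩
    · haveI := Fintype.ofFinite M
      let f : Fin (n + 1) → M := fun i => α (x.take i.val)
      have hninj : ¬ Function.Injective f := by
        intro hinj
        have h1 := Fintype.card_le_of_injective f hinj
        rw [Nat.card_eq_fintype_card] at h
        rw [Fintype.card_fin] at h1
        omega
      obtain ⟨i, j, hij, hlt⟩ : ∃ i j : Fin (n + 1), f i = f j ∧ i < j := by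
        have h1 : ∃ i j : Fin (n + 1), f i = f j ∧ i ≠ j := by
          by_contra hcon
          apply hninj
          intro i j hij
          by_contra hne
          exact hcon ⟨i, j, hij, hne⟩
        obtain ⟨i, j, hij, hne⟩ := h1
        rcases lt_or_gt_of_ne hne with h2 | h2
        · exact ⟨i, j, hij, h2⟩
        · exact ⟨j, i, hij.symm, h2⟩
      have hcut : α (x.take i.val ++ x.drop j.val) = α x := by
        have h1 : α (x.take i.val) = α (x.take j.val) := hij
        rw [hα.mul, h1, ← hα.mul, List.take_append_drop]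
      have hlt' : i.val < j.val := hlt
      have hj : j.val < n + 1 := j.2
      obtain ⟨x', h1, h2⟩ := ih (x.take i.val ++ x.drop j.val).length (by
        rw [List.length_append, List.length_take, List.length_drop, hn]
        omega) _ rfl
      exact ⟨x', h1, h2.trans hcut⟩

theorem mem_W {m : ℕ} {c : Code} {w : List ℕ} :
    w ∈ W m c ↔ w.length < kN c ∧ ∀ a ∈ w, a < m := by
  show w ∈ (List.range (kN c)).flatMap (wds m) ↔ _
  rw [List.mem_flatMap]
  constructor
  · rintro ⟨i, hi, hw⟩
    obtain ⟨h1, h2⟩ := (shr_mem_wds m i w).1 hw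
    exact ⟨by rw [h1]; exact List.mem_range.1 hi, h2⟩
  · rintro ⟨h1, h2⟩
    exact ⟨w.length, List.mem_range.2 h1, (shr_mem_wds m _ w).2 ⟨rfl, h2⟩⟩

theorem exists_W (m : ℕ) (c : Code) (x : List (Fin m)) :
    ∃ x' : List (Fin m), x'.map Fin.val ∈ W m c ∧
      tr c (x'.map Fin.val) = tr c (x.map Fin.val) := by
  obtain ⟨M, iM, iF, α, hα, hc, htr, _⟩ := exists_rec m c
  obtain ⟨x', h1, h2⟩ := exists_short hα x
  refine ⟨x', mem_W.2 ⟨?_, ?_⟩, (htr _ _).1 h2⟩
  · rw [List.length_map]
    exact lt_of_lt_of_le h1 hc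
  · intro a ha
    obtain ⟨b, _, rfl⟩ := List.mem_map.1 ha
    exact b.2

theorem of_W {m : ℕ} {c : Code} {w : List ℕ} (h : w ∈ W m c) :
    ∃ x : List (Fin m), x.map Fin.val = w := by
  exact shr_lift w (mem_W.1 h).2

end Pool.Agent.MSL
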