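import Pool.Agent.MSL.Bas

/-!
# Project MSL: the alphabet `Tg A`
-/

namespace Pool.Agent.MSL

open Pool.Agent.DD Pool.Agent.HLV

variable {A : Type}

instance instFiniteTg [Finite A] : Finite (Tg A) := by
  have h : Function.Surjective (fun x : A ⊕ (Fin 2 ⊕ Bool) => match x with
      | Sum.inl a => Tg.lt a
      | Sum.inr (Sum.inl i) => Tg.mk i
      | Sum.inr (Sum.inr true) => Tg.hs
      | Sum.inr (Sum.inr false) => (Tg.dl : Tg A)) := by
    intro x
    cases x with
    | lt a => exact ⟨Sum.inl a, rfl⟩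
    | mk i => exact ⟨Sum.inr (Sum.inl i), rfl⟩
    | hs => exact ⟨Sum.inr (Sum.inr true), rfl⟩
    | dl => exact ⟨Sum.inr (Sum.inr false), rfl⟩
  exact Finite.of_surjective _ h

end Pool.Agent.MSL
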