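import Pool.Agent.MSL.Nde

/-!
# Project MSL: the transition monoid of a code

The monoid of the maps of the states `< bnd c` (with the product `f * g = fun q => g (f q)`), and the homomorphism which maps a word to
its action on the states; two words have the same value if and only if their vectors `tr c` are equal.
-/

namespace Pool.Agent.MSL

open Pool.Agent.DD Pool.Agent.HLV Pool.Agent.HSP

private theorem trn_fold (c : Code) (w v : List ℕ) :
    w.foldl (fun v a => v.map fun q => stepC c q a) v =
      v.map fun q => w.foldl (fun q a => stepC c q a) q := by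
  induction w generalizing v with
  | nil =>
    simp only [List.foldl_nil]
    exact (List.map_id' v).symm
  | cons a w ih =>
    rw [List.foldl_cons, ih, List.map_map]
    rfl

theorem tr_eq (c : Code) (w : List ℕ) :
    tr c w = (List.range (bnd c)).map fun q => w.foldl (fun q a => stepC c q a) q := by
  unfold tr
  exact trn_fold c w _

private theorem trn_iff {c : Code} {x y : List ℕ} : tr c x = tr c y ↔
    ∀ q < bnd c, x.foldl (fun q a => stepC c q a) q = y.foldl (fun q a => stepC c q a) q := by
  rw [tr_eq, tr_eq, List.map_inj_left]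
  constructor
  · intro h q hq
    exact h q (List.mem_range.2 hq)
  · intro h q hq
    exact h q (List.mem_range.1 hq)

private theorem trn_lt (c : Code) (w : List ℕ) {q : ℕ} (hq : q < bnd c) :
    w.foldl (fun q a => stepC c q a) q < bnd c := by
  induction w generalizing q with
  | nil => exact hq
  | cons a w ih =>
    rw [List.foldl_cons]
    exact ih (stepC_lt c q a)

theorem tr_app {c : Code} {x x' y y' : List ℕ} (h : tr c x = tr c x') (h' : tr c y = tr c y') :
    tr c (x ++ y) = tr c (x' ++ y') := by
  rw [trn_iff] at h h' ⊢
  intro q hq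
  rw [List.foldl_append, List.foldl_append, ← h q hq]
  exact h' _ (trn_lt c x hq)

theorem acN_congr {c : Code} {x y : List ℕ} (h : tr c x = tr c y) : acN c x = acN c y := by
  unfold acN
  rw [trn_iff.1 h 0 (bnd_pos c)]

theorem acN_iff {m : ℕ} {c : Code} {x : List (Fin m)} :
    acN c (x.map Fin.val) = true ↔ x ∈ langC m c := by
  unfold acN
  rw [decide_eq_true_iff, List.foldl_map]
  rfl

/-- the action of a word on the states -/
private def trnAct (m : ℕ) (c : Code) (x : List (Fin m)) : Function.End (Fin (bnd c)) := fun q =>
  ⟨(x.map Fin.val).foldl (fun q a => stepC c q a) q.val, trn_lt c _ q.isLt⟩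

private theorem trnAct_iff {m : ℕ} {c : Code} {x y : List (Fin m)} :
    trnAct m c x = trnAct m c y ↔ tr c (x.map Fin.val) = tr c (y.map Fin.val) := by
  rw [trn_iff]
  constructor
  · intro h q hq
    exact congrArg Fin.val (congrFun h ⟨q, hq⟩)
  · intro h
    funext q
    exact Fin.ext (h q.val q.isLt)

theorem exists_rec (m : ℕ) (c : Code) : ∃ (M : Type) (_ : Monoid M) (_ : Finite M)
    (α : List (Fin m) → M), IsHom α ∧ Nat.card M ≤ kN c ∧
      (∀ x y, α x = α y ↔ tr c (x.map Fin.val) = tr c (y.map Fin.val)) ∧
      ∀ x y, α x = α y → SynEq (langC m c) x y := by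
  have hfin : Finite (Function.End (Fin (bnd c))) := inferInstanceAs (Finite (Fin (bnd c) → Fin (bnd c)))
  have hiff : ∀ x y : List (Fin m), MulOpposite.op (trnAct m c x) = MulOpposite.op (trnAct m c y) ↔
      tr c (x.map Fin.val) = tr c (y.map Fin.val) := fun x y =>
    MulOpposite.op_injective.eq_iff.trans trnAct_iff
  refine ⟨(Function.End (Fin (bnd c)))ᵐᵒᵖ, inferInstance, Finite.of_equiv _ MulOpposite.opEquiv,
    fun x => MulOpposite.op (trnAct m c x), ⟨?_, ?_⟩, ?_, hiff, ?_⟩
  · rw [← MulOpposite.op_one]
    refine congrArg MulOpposite.op ?_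
    funext q
    exact Fin.ext rfl
  · intro x y
    rw [← MulOpposite.op_mul]
    refine congrArg MulOpposite.op ?_
    funext q
    refine Fin.ext ?_
    have h1 : (trnAct m c (x ++ y) q).val =
        ((x ++ y).map Fin.val).foldl (fun q a => stepC c q a) q.val := rfl
    have h2 : ((trnAct m c y * trnAct m c x) q).val =
        (y.map Fin.val).foldl (fun q a => stepC c q a)
          ((x.map Fin.val).foldl (fun q a => stepC c q a) q.val) := rfl
    rw [h1, h2, List.map_append, List.foldl_append]
  · have h1 : Nat.card (Function.End (Fin (bnd c)))ᵐᵒᵖ = Nat.card (Fin (bnd c) → Fin (bnd c)) :=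
      Nat.card_congr MulOpposite.opEquiv.symm
    rw [h1, Nat.card_eq_fintype_card, Fintype.card_fun, Fintype.card_fin]
    exact le_rfl
  · intro x y h s t
    have h1 := (hiff x y).1 h
    have h2 : tr c ((s ++ x ++ t).map Fin.val) = tr c ((s ++ y ++ t).map Fin.val) := by
      rw [List.map_append, List.map_append, List.map_append, List.map_append]
      exact tr_app (tr_app rfl h1) rfl
    rw [← acN_iff, ← acN_iff, acN_congr h2]

end Pool.Agent.MSL
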