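import Pool.Agent.MSL.Ttd
import Pool.Agent.MSL.Cfl

/-!
# Project MSL: closure properties of positive truth-table reductions

`tt_pred`: `g a = if P a then [] else [[]]` (`ComputablePred.computable_iff` gives a computable Boolean, `Computable.cond`).
`tt_query`: `g a = [[f a]]`.  `tt_and`: append the two lists.  `tt_or`: `g a = (g₁ a).flatMap fun q => (g₂ a).map fun q' => q ++ q'`
(`cl_flatMap` twice, the inner map is `flatMap` to one-element lists); if all `q ++ q'` contain a pair in `S` and `P a` fails, some `q` has no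
pair in `S`, so every `q'` has one.  `tt_comp`: `g (f a)`.  `tt_forall`: `g' a = (l a).flatMap fun b => g (a, b)`.
`tt_dec`: if `S` is computable then so is `P`: `cp_forall` twice (`∃ p ∈ q` is `¬ ∀ p ∈ q, ¬`), `cp_comp`, `cp_not`.
-/

namespace Pool.Agent.MSL

open Pool.Agent.DD Pool.Agent.HLV Pool.Agent.HSP

variable {α β : Type} [Primcodable α] [Primcodable β] {S : Code × Code → Prop}

theorem tt_pred {P : α → Prop} (hP : ComputablePred P) : TT S P := by
  obtain ⟨f, hf, rfl⟩ := ComputablePred.computable_iff.1 hP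
  refine ⟨fun a => cond (f a) [] [[]], Computable.cond hf (Computable.const _) (Computable.const _),
    fun a => ?_⟩
  show f a = true ↔ ∀ q ∈ cond (f a) ([] : List (List (Code × Code))) [[]], ∃ p ∈ q, S p
  cases f a
  · refine ⟨fun h => absurd h (by decide), fun h => ?_⟩
    obtain ⟨p, hp, -⟩ := h [] (List.mem_singleton_self _)
    exact absurd hp List.not_mem_nil
  · exact ⟨fun _ q hq => absurd hq List.not_mem_nil, fun _ => rfl⟩

theorem tt_query {f : α → Code × Code} (hf : Computable f) : TT S fun a => S (f a) := by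
  refine ⟨fun a => [[f a]], Computable.list_cons.comp
    (Computable.list_cons.comp hf (Computable.const [])) (Computable.const []), fun a => ?_⟩
  constructor
  · intro h q hq
    rw [List.mem_singleton] at hq
    exact ⟨f a, by rw [hq]; exact List.mem_singleton_self _, h⟩
  · intro h
    obtain ⟨p, hp, hS⟩ := h [f a] (List.mem_singleton_self _)
    rw [List.mem_singleton] at hp
    rwa [hp] at hS

theorem tt_and {P Q : α → Prop} (hP : TT S P) (hQ : TT S Q) : TT S fun a => P a ∧ Q a := by
  obtain ⟨g, hg, h1⟩ := hP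
  obtain ⟨g', hg', h2⟩ := hQ
  refine ⟨fun a => g a ++ g' a, Computable.list_append.comp hg hg', fun a => ?_⟩
  show (P a ∧ Q a) ↔ ∀ q ∈ g a ++ g' a, ∃ p ∈ q, S p
  rw [h1 a, h2 a]
  constructor
  · rintro ⟨k1, k2⟩ q hq
    rcases List.mem_append.1 hq with hq | hq
    · exact k1 q hq
    · exact k2 q hq
  · intro k
    exact ⟨fun q hq => k q (List.mem_append_left _ hq), fun q hq => k q (List.mem_append_right _ hq)⟩

theorem tt_or {P Q : α → Prop} (hP : TT S P) (hQ : TT S Q) : TT S fun a => P a ∨ Q a := by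
  obtain ⟨g, hg, h1⟩ := hP
  obtain ⟨g', hg', h2⟩ := hQ
  have hc1 : Computable fun y : (α × List (Code × Code)) × List (Code × Code) =>
      [y.1.2 ++ y.2] :=
    Computable.list_cons.comp (Computable.list_append.comp
      (Computable.snd.comp Computable.fst) Computable.snd) (Computable.const [])
  have hc2 : Computable fun x : α × List (Code × Code) =>
      (g' x.1).flatMap fun q' => [x.2 ++ q'] :=
    cl_flatMap (l := fun x : α × List (Code × Code) => g' x.1) (hg'.comp Computable.fst)
      (h := fun y => [y.1.2 ++ y.2]) hc1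
  have hc3 : Computable fun a => (g a).flatMap fun q => (g' a).flatMap fun q' => [q ++ q'] :=
    cl_flatMap (l := g) hg (h := fun x => (g' x.1).flatMap fun q' => [x.2 ++ q']) hc2
  refine ⟨_, hc3, fun a => ?_⟩
  show (P a ∨ Q a) ↔ ∀ q ∈ (g a).flatMap fun q => (g' a).flatMap fun q' => [q ++ q'], ∃ p ∈ q, S p
  rw [h1 a, h2 a]
  constructor
  · rintro k q hq
    rw [List.mem_flatMap] at hq
    obtain ⟨q1, hq1, hq⟩ := hq
    rw [List.mem_flatMap] at hq
    obtain ⟨q2, hq2, hq⟩ := hq
    rw [List.mem_singleton] at hq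
    subst hq
    rcases k with k | k
    · obtain ⟨p, hp, hS⟩ := k q1 hq1
      exact ⟨p, List.mem_append_left _ hp, hS⟩
    · obtain ⟨p, hp, hS⟩ := k q2 hq2
      exact ⟨p, List.mem_append_right _ hp, hS⟩
  · intro k
    by_contra hcon
    rw [not_or] at hcon
    obtain ⟨n1, n2⟩ := hcon
    push Not at n1 n2
    obtain ⟨q1, hq1, k1⟩ := n1
    obtain ⟨q2, hq2, k2⟩ := n2
    obtain ⟨p, hp, hS⟩ := k (q1 ++ q2) (List.mem_flatMap.2 ⟨q1, hq1,
      List.mem_flatMap.2 ⟨q2, hq2, List.mem_singleton_self _⟩⟩)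
    rcases List.mem_append.1 hp with hp | hp
    · exact k1 p hp hS
    · exact k2 p hp hS

theorem tt_comp {P : β → Prop} (hP : TT S P) {f : α → β} (hf : Computable f) :
    TT S fun a => P (f a) := by
  obtain ⟨g, hg, h1⟩ := hP
  exact ⟨fun a => g (f a), hg.comp hf, fun a => h1 (f a)⟩

theorem tt_forall {P : α × β → Prop} (hP : TT S P) {l : α → List β} (hl : Computable l) :
    TT S fun a => ∀ b ∈ l a, P (a, b) := by
  obtain ⟨g, hg, h1⟩ := hP
  refine ⟨fun a => (l a).flatMap fun b => g (a, b), cl_flatMap hl hg, fun a => ?_⟩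
  constructor
  · intro k q hq
    rw [List.mem_flatMap] at hq
    obtain ⟨b, hb, hq⟩ := hq
    exact (h1 (a, b)).1 (k b hb) q hq
  · intro k b hb
    rw [h1]
    exact fun q hq => k q (List.mem_flatMap.2 ⟨b, hb, hq⟩)

theorem tt_congr {P Q : α → Prop} (hP : TT S P) (h : ∀ a, P a ↔ Q a) : TT S Q := by
  obtain ⟨g, hg, hr⟩ := hP
  exact ⟨g, hg, fun a => (h a).symm.trans (hr a)⟩

theorem tt_dec {P : α → Prop} (hP : TT S P) (hS : ComputablePred S) : ComputablePred P := by
  obtain ⟨g, hg, hr⟩ := hP
  have h1 : ComputablePred fun y : (α × List (Code × Code)) × (Code × Code) => ¬ S y.2 :=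
    cp_not (cp_comp hS Computable.snd)
  have h2 : ComputablePred fun x : α × List (Code × Code) => ∀ p ∈ x.2, ¬ S p :=
    cp_forall (P := fun y : (α × List (Code × Code)) × (Code × Code) => ¬ S y.2) h1
      (l := fun x : α × List (Code × Code) => x.2) Computable.snd
  have h3 : ComputablePred fun a => ∀ q ∈ g a, ¬ ∀ p ∈ q, ¬ S p :=
    cp_forall (P := fun x : α × List (Code × Code) => ¬ ∀ p ∈ x.2, ¬ S p) (cp_not h2) hg
  refine h3.of_eq fun a => ?_
  rw [hr a]
  constructor
  · intro k q hq
    by_contra hc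
    exact k q hq fun p hp hS' => hc ⟨p, hp, hS'⟩
  · intro k q hq hc
    obtain ⟨p, hp, hS'⟩ := k q hq
    exact hc p hp hS'

end Pool.Agent.MSL
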