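import Pool.Agent.MSL.Hde

/-!
# Project MSL: positive truth-table reductions (definition)
-/

namespace Pool.Agent.MSL

open Pool.Agent.DD Pool.Agent.HLV Pool.Agent.HSP

/-- `P` is reducible to `S` by a positive truth-table reduction: from `a` one computes finitely many
finite lists of pairs, and `P a` holds iff each list contains a pair in `S`. -/
def TT {α : Type} [Primcodable α] (S : Code × Code → Prop) (P : α → Prop) : Prop :=
  ∃ g : α → List (List (Code × Code)), Computable g ∧
    ∀ a, (P a ↔ ∀ q ∈ g a, ∃ p ∈ q, S p)

/-- The separation problem for the family `C` over `Fin m`. -/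
def SepQ (m : ℕ) (C : Set (Lang (Fin m))) (p : Code × Code) : Prop :=
  Separable C (langC m p.1) (langC m p.2)

end Pool.Agent.MSL
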