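import Pool.Agent.MSL.Ttc
import Pool.Agent.MSL.Dea
import Pool.Agent.MSL.Mcd
import Pool.Agent.MSL.Alp

/-!
# Project MSL: reduction of the criterion, pairs

The separation problem for the classes of two words, the side condition `Mix` and the second condition of the criterion are reducible to the
separation problem over one alphabet (codes for the languages and for their images under the coding).
-/

namespace Pool.Agent.MSL

open Pool.Agent.DD Pool.Agent.HLV Pool.Agent.HSP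

theorem tt_sep (m n : ℕ) :
    TT (SepQ m (B (Fin m) (n + 1))) fun x : Code × (List ℕ × List ℕ) =>
      Separable (B (Fin m) (n + 1)) (clN m x.1 x.2.1) (clN m x.1 x.2.2) := by
  obtain ⟨f, hf, hr⟩ := exists_ccode m
  have hc : Computable fun x : Code × (List ℕ × List ℕ) => (f (x.1, x.2.1), f (x.1, x.2.2)) :=
    (hf.comp (Computable.fst.pair (Computable.fst.comp Computable.snd))).pair
      (hf.comp (Computable.fst.pair (Computable.snd.comp Computable.snd)))
  refine tt_congr (tt_query hc) fun x => ?_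
  unfold SepQ
  rw [hr, hr]

theorem tt_mix (m n : ℕ) (V₀ : Code) :
    TT (SepQ (m + 2) (B (Fin (m + 2)) (n + 1)))
      fun x : Code × (List ℕ × (List ℕ × List ℕ)) =>
      ¬ Mix n (langC 2 V₀) (clN (m + 2) x.1 x.2.1) (clN (m + 2) x.1 x.2.2.1)
        (clN (m + 2) x.1 x.2.2.2) := by
  obtain ⟨fp, hfp, hp⟩ := exists_pcode (m + 2) V₀
  obtain ⟨fv, hfv, hv⟩ := exists_vcode (m + 2) V₀
  obtain ⟨g, hg, hr⟩ := exists_cimg m
  have c1 : Computable fun x : Code × (List ℕ × (List ℕ × List ℕ)) => x.1 := Computable.fst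
  have c2 : Computable fun x : Code × (List ℕ × (List ℕ × List ℕ)) => x.2.1 :=
    Computable.fst.comp Computable.snd
  have c3 : Computable fun x : Code × (List ℕ × (List ℕ × List ℕ)) => x.2.2.1 :=
    Computable.fst.comp (Computable.snd.comp Computable.snd)
  have c4 : Computable fun x : Code × (List ℕ × (List ℕ × List ℕ)) => x.2.2.2 :=
    Computable.snd.comp (Computable.snd.comp Computable.snd)
  have hc : Computable fun x : Code × (List ℕ × (List ℕ × List ℕ)) =>
      (g (m + 2 + 4, fp (x.1, x.2.2.1)), g (m + 2 + 4, fv (x.1, (x.2.1, x.2.2.2)))) :=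
    (hg.comp ((Computable.const (m + 2 + 4)).pair (hfp.comp (c1.pair c3)))).pair
      (hg.comp ((Computable.const (m + 2 + 4)).pair (hfv.comp (c1.pair (c2.pair c4)))))
  refine tt_congr (tt_query hc) fun x => ?_
  unfold SepQ Mix
  rw [hr, hr, cimg_sepB (Nat.succ_le_succ (Nat.zero_le n)), hp, hv, not_not]
  exact (sep_tg (m + 2) (n + 1) _ _).symm

private theorem Tte_app {α : Type} [Primcodable α] {f g : α → List ℕ} (hf : Primrec f) (hg : Primrec g) :
    Primrec fun a => f a ++ g a := Primrec.list_append.comp hf hg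

private theorem Tte_pw {α : Type} [Primcodable α] {f : α → List ℕ} {k : α → ℕ} (hf : Primrec f)
    (hk : Primrec k) : Primrec fun a => pw (f a) (k a) := pr_pw.comp (hf.pair hk)

theorem tt_c1 (m n : ℕ) :
    TT (SepQ m (B (Fin m) (n + 1))) fun c : Code => ∀ e ∈ W m c, ∀ y ∈ W m c, ∀ z ∈ W m c,
      tr c (e ++ e) = tr c e →
      ¬ Separable (B (Fin m) (n + 1)) (clN m c e) (clN m c y) →
      synN m c (pw (z ++ e ++ y ++ e) (kN c) ++ (z ++ e) ++ pw (z ++ e ++ y ++ e) (kN c))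
        (pw (z ++ e ++ y ++ e) (kN c)) := by
  have pc : Primrec fun x : ((Code × List ℕ) × List ℕ) × List ℕ => x.1.1.1 :=
    Primrec.fst.comp (Primrec.fst.comp Primrec.fst)
  have pe : Primrec fun x : ((Code × List ℕ) × List ℕ) × List ℕ => x.1.1.2 :=
    Primrec.snd.comp (Primrec.fst.comp Primrec.fst)
  have py : Primrec fun x : ((Code × List ℕ) × List ℕ) × List ℕ => x.1.2 :=
    Primrec.snd.comp Primrec.fst
  have pz : Primrec fun x : ((Code × List ℕ) × List ℕ) × List ℕ => x.2 := Primrec.snd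
  have pk : Primrec fun x : ((Code × List ℕ) × List ℕ) × List ℕ => kN x.1.1.1 := pr_kN.comp pc
  have pp : Primrec fun x : ((Code × List ℕ) × List ℕ) × List ℕ =>
      pw (x.2 ++ x.1.1.2 ++ x.1.2 ++ x.1.1.2) (kN x.1.1.1) :=
    Tte_pw (Tte_app (Tte_app (Tte_app pz pe) py) pe) pk
  have h1 : TT (SepQ m (B (Fin m) (n + 1))) fun x : ((Code × List ℕ) × List ℕ) × List ℕ =>
      ¬ tr x.1.1.1 (x.1.1.2 ++ x.1.1.2) = tr x.1.1.1 x.1.1.2 :=
    tt_pred (cp_not (cp_comp dec_idem (pc.pair pe).to_comp))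
  have h2 : TT (SepQ m (B (Fin m) (n + 1))) fun x : ((Code × List ℕ) × List ℕ) × List ℕ =>
      Separable (B (Fin m) (n + 1)) (clN m x.1.1.1 x.1.1.2) (clN m x.1.1.1 x.1.2) :=
    tt_comp (tt_sep m n) (pc.pair (pe.pair py)).to_comp
  have h3 : TT (SepQ m (B (Fin m) (n + 1))) fun x : ((Code × List ℕ) × List ℕ) × List ℕ =>
      synN m x.1.1.1 (pw (x.2 ++ x.1.1.2 ++ x.1.2 ++ x.1.1.2) (kN x.1.1.1) ++ (x.2 ++ x.1.1.2) ++
        pw (x.2 ++ x.1.1.2 ++ x.1.2 ++ x.1.1.2) (kN x.1.1.1))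
        (pw (x.2 ++ x.1.1.2 ++ x.1.2 ++ x.1.1.2) (kN x.1.1.1)) :=
    tt_pred (cp_comp (dec_synN m) (pc.pair ((Tte_app (Tte_app pp (Tte_app pz pe)) pp).pair pp)).to_comp)
  have h4 : TT (SepQ m (B (Fin m) (n + 1))) fun x : ((Code × List ℕ) × List ℕ) × List ℕ =>
      (tr x.1.1.1 (x.1.1.2 ++ x.1.1.2) = tr x.1.1.1 x.1.1.2 →
      ¬ Separable (B (Fin m) (n + 1)) (clN m x.1.1.1 x.1.1.2) (clN m x.1.1.1 x.1.2) →
      synN m x.1.1.1 (pw (x.2 ++ x.1.1.2 ++ x.1.2 ++ x.1.1.2) (kN x.1.1.1) ++ (x.2 ++ x.1.1.2) ++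
        pw (x.2 ++ x.1.1.2 ++ x.1.2 ++ x.1.1.2) (kN x.1.1.1))
        (pw (x.2 ++ x.1.1.2 ++ x.1.2 ++ x.1.1.2) (kN x.1.1.1))) := by
    refine tt_congr (tt_or h1 (tt_or h2 h3)) fun x => ?_
    constructor
    · rintro (h | h | h) h5 h6
      · exact absurd h5 h
      · exact absurd h h6
      · exact h
    · intro h
      by_cases h5 : tr x.1.1.1 (x.1.1.2 ++ x.1.1.2) = tr x.1.1.1 x.1.1.2
      · by_cases h6 : Separable (B (Fin m) (n + 1)) (clN m x.1.1.1 x.1.1.2) (clN m x.1.1.1 x.1.2)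
        · exact Or.inr (Or.inl h6)
        · exact Or.inr (Or.inr (h h5 h6))
      · exact Or.inl h5
  have h5 := tt_forall h4 (l := fun a : (Code × List ℕ) × List ℕ => W m a.1.1)
    ((pr_W m).comp (Primrec.fst.comp Primrec.fst)).to_comp
  have h6 := tt_forall h5 (l := fun a : Code × List ℕ => W m a.1) ((pr_W m).comp Primrec.fst).to_comp
  exact tt_forall h6 (l := fun a : Code => W m a) (pr_W m).to_comp

end Pool.Agent.MSL
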