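import Pool.Agent.MSL.Tte

/-!
# Project MSL: reduction of the criterion, tuples

`tt_forall` six times (tuple `((((((c, e), f), a), b), g), d)`); the condition is equivalent to
`¬ tr c (e ++ e) = tr c e ∨ ¬ tr c (f ++ f) = tr c f ∨ ¬ Mix .. a ∨ ¬ Mix .. b ∨ ¬ Mix .. g ∨ ¬ Mix .. d ∨ synN ..`: `tt_or`, `tt_comp` of `tt_mix`,
`tt_pred` of the computable ones (as in Dec.lean), `tt_congr`.
-/

namespace Pool.Agent.MSL

open Pool.Agent.DD Pool.Agent.HLV Pool.Agent.HSP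

private abbrev TtfT : Type := (((((Code × List ℕ) × List ℕ) × List ℕ) × List ℕ) × List ℕ) × List ℕ

private theorem Ttf_c : Computable fun x : TtfT => x.1.1.1.1.1.1 :=
  Computable.fst.comp (Computable.fst.comp (Computable.fst.comp (Computable.fst.comp
    (Computable.fst.comp Computable.fst))))

private theorem Ttf_e : Computable fun x : TtfT => x.1.1.1.1.1.2 :=
  Computable.snd.comp (Computable.fst.comp (Computable.fst.comp (Computable.fst.comp
    (Computable.fst.comp Computable.fst))))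

private theorem Ttf_f : Computable fun x : TtfT => x.1.1.1.1.2 :=
  Computable.snd.comp (Computable.fst.comp (Computable.fst.comp (Computable.fst.comp
    Computable.fst)))

private theorem Ttf_a : Computable fun x : TtfT => x.1.1.1.2 :=
  Computable.snd.comp (Computable.fst.comp (Computable.fst.comp Computable.fst))

private theorem Ttf_b : Computable fun x : TtfT => x.1.1.2 :=
  Computable.snd.comp (Computable.fst.comp Computable.fst)

private theorem Ttf_g : Computable fun x : TtfT => x.1.2 :=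
  Computable.snd.comp Computable.fst

private theorem Ttf_d : Computable fun x : TtfT => x.2 := Computable.snd

private theorem Ttf_app {f g : TtfT → List ℕ} (hf : Computable f) (hg : Computable g) :
    Computable fun x => f x ++ g x :=
  Computable.list_append.comp hf hg

private theorem Ttf_pw0 {β : Type} [Primcodable β] {f : β → List ℕ} (hf : Computable f) {g : β → ℕ}
    (hg : Computable g) : Computable fun x => pw (f x) (g x) :=
  Computable.comp (f := fun x : List ℕ × ℕ => pw x.1 x.2) (g := fun x => (f x, g x))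
    pr_pw.to_comp (hf.pair hg)

private theorem Ttf_k : Computable fun x : TtfT => kN x.1.1.1.1.1.1 :=
  Computable.comp (f := kN) (g := fun x : TtfT => x.1.1.1.1.1.1) pr_kN.to_comp Ttf_c

private theorem Ttf_pw {f : TtfT → List ℕ} (hf : Computable f) :
    Computable fun x => pw (f x) (kN x.1.1.1.1.1.1) :=
  Ttf_pw0 hf Ttf_k

theorem tt_c2 (m n : ℕ) (V₀ : Code) :
    TT (SepQ (m + 2) (B (Fin (m + 2)) (n + 1))) fun c : Code =>
      ∀ e ∈ W (m + 2) c, ∀ f ∈ W (m + 2) c, ∀ a ∈ W (m + 2) c, ∀ b ∈ W (m + 2) c,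
      ∀ g ∈ W (m + 2) c, ∀ d ∈ W (m + 2) c, tr c (e ++ e) = tr c e → tr c (f ++ f) = tr c f →
      Mix n (langC 2 V₀) (clN (m + 2) c e) (clN (m + 2) c f) (clN (m + 2) c a) →
      Mix n (langC 2 V₀) (clN (m + 2) c e) (clN (m + 2) c f) (clN (m + 2) c b) →
      Mix n (langC 2 V₀) (clN (m + 2) c e) (clN (m + 2) c f) (clN (m + 2) c g) →
      Mix n (langC 2 V₀) (clN (m + 2) c e) (clN (m + 2) c f) (clN (m + 2) c d) →
      synN (m + 2) c (pw (e ++ a ++ f ++ b ++ e) (kN c) ++ pw (e ++ g ++ f ++ d ++ e) (kN c))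
        (pw (e ++ a ++ f ++ b ++ e) (kN c) ++ (a ++ f ++ d) ++
          pw (e ++ g ++ f ++ d ++ e) (kN c)) := by
  have hW : Computable (W (m + 2)) := (pr_W (m + 2)).to_comp
  have hmix : ∀ {r : TtfT → List ℕ}, Computable r →
      TT (SepQ (m + 2) (B (Fin (m + 2)) (n + 1))) fun x : TtfT =>
        ¬ Mix n (langC 2 V₀) (clN (m + 2) x.1.1.1.1.1.1 x.1.1.1.1.1.2)
          (clN (m + 2) x.1.1.1.1.1.1 x.1.1.1.1.2) (clN (m + 2) x.1.1.1.1.1.1 (r x)) := by
    intro r hr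
    exact tt_comp (tt_mix m n V₀) (f := fun x : TtfT =>
      (x.1.1.1.1.1.1, (x.1.1.1.1.1.2, (x.1.1.1.1.2, r x))))
      (Ttf_c.pair (Ttf_e.pair (Ttf_f.pair hr)))
  have hid : ∀ {r : TtfT → List ℕ}, Computable r →
      TT (SepQ (m + 2) (B (Fin (m + 2)) (n + 1))) fun x : TtfT =>
        ¬ tr x.1.1.1.1.1.1 (r x ++ r x) = tr x.1.1.1.1.1.1 (r x) := by
    intro r hr
    exact tt_pred (cp_not (cp_comp dec_idem (f := fun x : TtfT => (x.1.1.1.1.1.1, r x))
      (Ttf_c.pair hr)))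
  have h1 : Computable fun x : TtfT =>
      x.1.1.1.1.1.2 ++ x.1.1.1.2 ++ x.1.1.1.1.2 ++ x.1.1.2 ++ x.1.1.1.1.1.2 :=
    Ttf_app (Ttf_app (Ttf_app (Ttf_app Ttf_e Ttf_a) Ttf_f) Ttf_b) Ttf_e
  have h2 : Computable fun x : TtfT =>
      x.1.1.1.1.1.2 ++ x.1.2 ++ x.1.1.1.1.2 ++ x.2 ++ x.1.1.1.1.1.2 :=
    Ttf_app (Ttf_app (Ttf_app (Ttf_app Ttf_e Ttf_g) Ttf_f) Ttf_d) Ttf_e
  have h3 : Computable fun x : TtfT => x.1.1.1.2 ++ x.1.1.1.1.2 ++ x.2 :=
    Ttf_app (Ttf_app Ttf_a Ttf_f) Ttf_d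
  have hsyn : TT (SepQ (m + 2) (B (Fin (m + 2)) (n + 1))) fun x : TtfT =>
      synN (m + 2) x.1.1.1.1.1.1
        (pw (x.1.1.1.1.1.2 ++ x.1.1.1.2 ++ x.1.1.1.1.2 ++ x.1.1.2 ++ x.1.1.1.1.1.2)
          (kN x.1.1.1.1.1.1) ++
          pw (x.1.1.1.1.1.2 ++ x.1.2 ++ x.1.1.1.1.2 ++ x.2 ++ x.1.1.1.1.1.2) (kN x.1.1.1.1.1.1))
        (pw (x.1.1.1.1.1.2 ++ x.1.1.1.2 ++ x.1.1.1.1.2 ++ x.1.1.2 ++ x.1.1.1.1.1.2)
          (kN x.1.1.1.1.1.1) ++ (x.1.1.1.2 ++ x.1.1.1.1.2 ++ x.2) ++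
          pw (x.1.1.1.1.1.2 ++ x.1.2 ++ x.1.1.1.1.2 ++ x.2 ++ x.1.1.1.1.1.2)
            (kN x.1.1.1.1.1.1)) := by
    refine tt_pred (cp_comp (dec_synN (m + 2)) (f := fun x : TtfT => (x.1.1.1.1.1.1,
      (pw (x.1.1.1.1.1.2 ++ x.1.1.1.2 ++ x.1.1.1.1.2 ++ x.1.1.2 ++ x.1.1.1.1.1.2)
          (kN x.1.1.1.1.1.1) ++
          pw (x.1.1.1.1.1.2 ++ x.1.2 ++ x.1.1.1.1.2 ++ x.2 ++ x.1.1.1.1.1.2) (kN x.1.1.1.1.1.1),
        pw (x.1.1.1.1.1.2 ++ x.1.1.1.2 ++ x.1.1.1.1.2 ++ x.1.1.2 ++ x.1.1.1.1.1.2)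
          (kN x.1.1.1.1.1.1) ++ (x.1.1.1.2 ++ x.1.1.1.1.2 ++ x.2) ++
          pw (x.1.1.1.1.1.2 ++ x.1.2 ++ x.1.1.1.1.2 ++ x.2 ++ x.1.1.1.1.1.2)
            (kN x.1.1.1.1.1.1)))) ?_)
    exact Ttf_c.pair ((Ttf_app (Ttf_pw h1) (Ttf_pw h2)).pair
      (Ttf_app (Ttf_app (Ttf_pw h1) h3) (Ttf_pw h2)))
  have hall := tt_or (hid Ttf_e) (tt_or (hid Ttf_f) (tt_or (hmix Ttf_a) (tt_or (hmix Ttf_b)
    (tt_or (hmix Ttf_g) (tt_or (hmix Ttf_d) hsyn)))))
  have hW1 : Computable fun c : Code => W (m + 2) c := hW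
  have k6 := tt_forall hall (l := fun x : ((((Code × List ℕ) × List ℕ) × List ℕ) × List ℕ) ×
    List ℕ => W (m + 2) x.1.1.1.1.1) (hW.comp (Computable.fst.comp (Computable.fst.comp
      (Computable.fst.comp (Computable.fst.comp Computable.fst)))))
  have k5 := tt_forall k6 (l := fun x : (((Code × List ℕ) × List ℕ) × List ℕ) × List ℕ =>
    W (m + 2) x.1.1.1.1) (hW.comp (Computable.fst.comp (Computable.fst.comp
      (Computable.fst.comp Computable.fst))))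
  have k4 := tt_forall k5 (l := fun x : ((Code × List ℕ) × List ℕ) × List ℕ =>
    W (m + 2) x.1.1.1) (hW.comp (Computable.fst.comp (Computable.fst.comp Computable.fst)))
  have k3 := tt_forall k4 (l := fun x : (Code × List ℕ) × List ℕ =>
    W (m + 2) x.1.1) (hW.comp (Computable.fst.comp Computable.fst))
  have k2 := tt_forall k3 (l := fun x : Code × List ℕ => W (m + 2) x.1) (hW.comp Computable.fst)
  have k1 := tt_forall k2 (l := fun c : Code => W (m + 2) c) hW1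
  refine tt_congr k1 fun c => ?_
  refine forall₂_congr fun e _ => forall₂_congr fun f _ => forall₂_congr fun a _ =>
    forall₂_congr fun b _ => forall₂_congr fun g _ => forall₂_congr fun d _ => ?_
  constructor
  · intro h q1 q2 q3 q4 q5 q6
    rcases h with h | h | h | h | h | h | h
    · exact absurd q1 h
    · exact absurd q2 h
    · exact absurd q3 h
    · exact absurd q4 h
    · exact absurd q5 h
    · exact absurd q6 h
    · exact h
  · intro h
    by_contra hc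
    simp only [not_or, not_not] at hc
    obtain ⟨q1, q2, q3, q4, q5, q6, q7⟩ := hc
    exact q7 (h q1 q2 q3 q4 q5 q6)

end Pool.Agent.MSL
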