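import Pool.Agent.MSL.Uld
import Pool.Agent.MSL.Alg
import Pool.Agent.MSL.Quo
import Pool.Agent.MSL.Dfi
import Pool.Agent.MSL.Dap

/-!
# Project MSL: uniform lemma: the relations at level `k + 1`

`ul_mon` (all in an aperiodic monoid): `E = Q T = Q F T = Q R S T = (Q R) E (S T)` (`R = R E`, `S = E S`); (A1)
(`ap_one`): `Q R E = E`, so `Q R = E`, and `E (S T) = E`, so `S T = E`.
`F = R S = R E S = R (Q T) S = (R Q) F (T S)` (`Q = Q F`, `T = F T`); (A1): `R Q = F`, `T S = F`.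
`R = R E = R Q T = F T = T`; `Q = Q F = Q T S = E S = S`.
`ul_eqs`: the quotient monoid of `Eqv δ (k+1)` (`exists_quot`, `eqv_cg`, `eqv_fin`; aperiodic by `eqv_ap` and
`aper_of_quot`), and `ul_mon`.
-/

namespace Pool.Agent.MSL

open Pool.Agent.DD Pool.Agent.HLV

variable {A M M' : Type} [Monoid M] [Monoid M'] {α : List A → M} {β : List A → M'}
  {δ : List A → List A → Prop} {k K : ℕ} {E F Q R S T : List A}

theorem ul_mon {S' : Type} [Monoid S'] {K : ℕ} (h : Aper S' K) {E F Q R S T : S'} (EE : E * E = E)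
    (FF : F * F = F) (EQ : E * Q = Q) (QF : Q * F = Q) (FR : F * R = R) (RE : R * E = R)
    (ES : E * S = S) (SF : S * F = S) (FT : F * T = T) (TE : T * E = T) (QT : Q * T = E)
    (RS : R * S = F) : Q * R = E ∧ R * Q = F ∧ R = T ∧ Q = S := by
  have h1 : E = (Q * R) * E * (S * T) := by
    calc E = Q * T := QT.symm
      _ = Q * (F * T) := by rw [FT]
      _ = Q * ((R * S) * T) := by rw [RS]
      _ = Q * ((R * (E * S)) * T) := by rw [ES]
      _ = (Q * R) * E * (S * T) := by simp only [mul_assoc]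
  have h2 : Q * R = E := by
    have h3 := (ap_one h h1).1
    rw [mul_assoc, RE] at h3
    exact h3
  have h4 : F = (R * Q) * F * (T * S) := by
    calc F = R * S := RS.symm
      _ = R * (E * S) := by rw [ES]
      _ = R * ((Q * T) * S) := by rw [QT]
      _ = R * ((Q * (F * T)) * S) := by rw [FT]
      _ = (R * Q) * F * (T * S) := by simp only [mul_assoc]
  have h5 : R * Q = F := by
    have h3 := (ap_one h h4).1
    rw [mul_assoc, QF] at h3
    exact h3
  have h6 : T * S = F := by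
    have h3 := (ap_one h h4).2
    rw [← mul_assoc, FT] at h3
    exact h3
  refine ⟨h2, h5, ?_, ?_⟩
  · calc R = R * E := RE.symm
      _ = R * (Q * T) := by rw [QT]
      _ = (R * Q) * T := by rw [mul_assoc]
      _ = F * T := by rw [h5]
      _ = T := FT
  · calc Q = Q * F := QF.symm
      _ = Q * (T * S) := by rw [h6]
      _ = (Q * T) * S := by rw [mul_assoc]
      _ = E * S := by rw [QT]
      _ = S := ES

theorem ul_eqs (h : Cg δ) (hf : FinIdx δ) {K' : ℕ} (hap : ApR δ K')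
    (ht : TupV α δ k E F Q R S T) :
    Eqv δ (k + 1) (Q ++ R) E ∧ Eqv δ (k + 1) (R ++ Q) F ∧ Eqv δ (k + 1) R T ∧
      Eqv δ (k + 1) Q S := by
  obtain ⟨S', iM, _, φ, hφ, hs, key⟩ := exists_quot (eqv_cg h (k + 1)) (eqv_fin h hf (k + 1))
  obtain ⟨K'', hK⟩ := eqv_ap h hap (k + 1)
  have hA : Aper S' K'' := aper_of_quot hφ hs (fun x y e => (key x y).2 e) hK
  have tr : ∀ x y z : List A, Eqv δ (k + 1) (x ++ y) z → φ x * φ y = φ z := by
    intro x y z e
    rw [← hφ.mul]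
    exact (key _ _).2 e
  obtain ⟨h1, h2, h3, h4⟩ := ul_mon hA (tr _ _ _ ht.EE.2) (tr _ _ _ ht.FF.2) (tr _ _ _ ht.EQ.2)
    (tr _ _ _ ht.QF.2) (tr _ _ _ ht.FR.2) (tr _ _ _ ht.RE.2) (tr _ _ _ ht.ES.2)
    (tr _ _ _ ht.SF.2) (tr _ _ _ ht.FT.2) (tr _ _ _ ht.TE.2) (tr _ _ _ ht.QT) (tr _ _ _ ht.RS)
  refine ⟨(key _ _).1 ?_, (key _ _).1 ?_, (key _ _).1 h3, (key _ _).1 h4⟩
  · rw [hφ.mul]
    exact h1
  · rw [hφ.mul]
    exact h2

end Pool.Agent.MSL
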