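import Pool.Agent.MSL.Ula

/-!
# Project MSL: uniform lemma: the step for `F`

`R ++ Q ≤_(k+1) F`, so `F = F₁ ++ F₂`, `R ≤_k F₁`, `Q ≤_k F₂`.  The new tuple is `F' = F₂ F F₁`, `Q' = Q F F₁`,
`R' = F₂ F R`, `S' = S F F₁`, `T' = F₂ F T`.  The relations are computed in the quotient monoids of `Sim` and of
`Eqv δ (k+1)`; the values of the identity are unchanged, and `E =_(k+1) Q F R ≤_k F₂ F F₁`.
-/

namespace Pool.Agent.MSL

open Pool.Agent.DD Pool.Agent.HLV

variable {A M M' : Type} [Monoid M] [Monoid M'] {α : List A → M} {β : List A → M'}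
  {δ : List A → List A → Prop} {k K : ℕ} {E F Q R S T : List A}

/-- the quotient monoid of a congruence -/
private theorem Ulb_quot {r : List A → List A → Prop} (h : Cg r) :
    ∃ (S : Type) (_ : Monoid S) (φ : List A → S), IsHom φ ∧ ∀ x y, φ x = φ y ↔ r x y := by
  let st : Setoid (List A) := ⟨r, ⟨h.refl, fun h1 => h.symm h1, fun h1 h2 => h.trans h1 h2⟩⟩
  let mulQ : Quotient st → Quotient st → Quotient st :=
    Quotient.map₂ (fun x y : List A => x ++ y) (fun _ _ h1 _ _ h2 => h.app h1 h2)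
  let inst : Monoid (Quotient st) :=
    { mul := mulQ
      one := Quotient.mk st []
      mul_assoc := by
        intro a b c
        refine Quotient.inductionOn₃ a b c (fun x y z => ?_)
        exact congrArg (Quotient.mk st) (List.append_assoc x y z)
      one_mul := by
        intro a
        refine Quotient.inductionOn a (fun x => ?_)
        exact congrArg (Quotient.mk st) (List.nil_append x)
      mul_one := by
        intro a
        refine Quotient.inductionOn a (fun x => ?_)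
        exact congrArg (Quotient.mk st) (List.append_nil x) }
  have key : ∀ x y, Quotient.mk st x = Quotient.mk st y ↔ r x y := fun x y =>
    ⟨fun e => Quotient.exact e, fun e => Quotient.sound e⟩
  exact ⟨Quotient st, inst, Quotient.mk st, ⟨rfl, fun x y => rfl⟩, key⟩

/-- absorbed products in front of another factor -/
private theorem Ulb_re {S : Type} [Monoid S] {a b c : S} (h : a * b = c) (x : S) :
    a * (b * x) = c * x := by rw [← mul_assoc, h]

theorem ul_F (h : Cg δ) (hf : FinIdx δ) {K' : ℕ} (hap : ApR δ K') (hα : IsHom α)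
    (hαβ : ∀ x y, α x = α y → β x = β y) (ht : TupV α δ k E F Q R S T)
    (hb : BadI β K Q R S T) :
    ∃ F' Q' R' S' T', TupV α δ k E F' Q' R' S' T' ∧ BadI β K Q' R' S' T' ∧ Dom δ k E F' := by
  obtain ⟨e1, e2, -, -⟩ := ul_eqs h hf hap ht
  obtain ⟨F₁, F₂, hF, hR, hQ⟩ := dom_two e2.1
  obtain ⟨S₁, i₁, φ, hφ, kφ⟩ := Ulb_quot (sim_cg hα h k)
  obtain ⟨S₂, i₂, ψ, hψ, kψ⟩ := Ulb_quot (eqv_cg h (k + 1))
  have tr : ∀ {x y : List A}, Sim α δ k x y → φ x = φ y := fun h1 => (kφ _ _).2 h1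
  have tr' : ∀ {x y : List A}, Sim α δ k x y → ψ x = ψ y := fun h1 => (kψ _ _).2 h1.2
  have aEE := tr ht.EE
  have aFF := tr ht.FF
  have aEQ := tr ht.EQ
  have aQF := tr ht.QF
  have aFR := tr ht.FR
  have aRE := tr ht.RE
  have aES := tr ht.ES
  have aSF := tr ht.SF
  have aFT := tr ht.FT
  have aTE := tr ht.TE
  have aF : φ F₁ * φ F₂ = φ F := by rw [← hφ.mul, ← hF]
  have bEE := tr' ht.EE
  have bFF := tr' ht.FF
  have bF : ψ F₁ * ψ F₂ = ψ F := by rw [← hψ.mul, ← hF]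
  have bRS : ψ (R ++ S) = ψ F := (kψ _ _).2 ht.RS
  have bQF := tr' ht.QF
  have bFR := tr' ht.FR
  have bSF := tr' ht.SF
  rw [hφ.mul] at aEE aFF aEQ aQF aFR aRE aES aSF aFT aTE
  rw [hψ.mul] at bEE bFF bRS bQF bFR bSF
  -- values which do not change
  have cQR : Sim α δ k ((Q ++ F ++ F₁) ++ (F₂ ++ F ++ R)) (Q ++ R) := by
    rw [← kφ]
    simp only [hφ.mul, mul_assoc, aFF, aQF, aFR, aF, Ulb_re aFF, Ulb_re aQF, Ulb_re aFR,
      Ulb_re aF]
  have cST : Sim α δ k ((S ++ F ++ F₁) ++ (F₂ ++ F ++ T)) (S ++ T) := by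
    rw [← kφ]
    simp only [hφ.mul, mul_assoc, aFF, aSF, aFT, aF, Ulb_re aFF, Ulb_re aSF, Ulb_re aFT,
      Ulb_re aF]
  have cQT : Sim α δ k ((Q ++ F ++ F₁) ++ (F₂ ++ F ++ T)) (Q ++ T) := by
    rw [← kφ]
    simp only [hφ.mul, mul_assoc, aFF, aQF, aFT, aF, Ulb_re aFF, Ulb_re aQF, Ulb_re aFT,
      Ulb_re aF]
  refine ⟨F₂ ++ F ++ F₁, Q ++ F ++ F₁, F₂ ++ F ++ R, S ++ F ++ F₁, F₂ ++ F ++ T, ?_, ?_, ?_⟩
  · refine ⟨ht.EE, ?_, ?_, ?_, ?_, ?_, ?_, ?_, ?_, ?_, ?_, ?_⟩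
    · rw [← kφ]
      simp only [hφ.mul, mul_assoc, aFF, aF, Ulb_re aFF, Ulb_re aF]
    · rw [← kφ]
      simp only [hφ.mul, mul_assoc, Ulb_re aEQ]
    · rw [← kφ]
      simp only [hφ.mul, mul_assoc, aFF, aF, aQF, Ulb_re aFF, Ulb_re aF, Ulb_re aQF]
    · rw [← kφ]
      simp only [hφ.mul, mul_assoc, aFF, aF, aFR, Ulb_re aFF, Ulb_re aF, Ulb_re aFR]
    · rw [← kφ]
      simp only [hφ.mul, mul_assoc, aRE]
    · rw [← kφ]
      simp only [hφ.mul, mul_assoc, Ulb_re aES]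
    · rw [← kφ]
      simp only [hφ.mul, mul_assoc, aFF, aF, aSF, Ulb_re aFF, Ulb_re aF, Ulb_re aSF]
    · rw [← kφ]
      simp only [hφ.mul, mul_assoc, aFF, aF, aFT, Ulb_re aFF, Ulb_re aF, Ulb_re aFT]
    · rw [← kφ]
      simp only [hφ.mul, mul_assoc, aTE]
    · exact (eqv_cg h (k + 1)).trans cQT.2 ht.QT
    · rw [← kψ]
      simp only [hψ.mul, mul_assoc, Ulb_re bRS, Ulb_re bFF, bFF]
  · intro hc
    apply hb
    rw [← hαβ _ _ cQR.1, ← hαβ _ _ cST.1, ← hαβ _ _ cQT.1]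
    exact hc
  · have d1 : Eqv δ (k + 1) E (Q ++ F ++ R) := by
      rw [← kψ]
      have : ψ (Q ++ R) = ψ E := (kψ _ _).2 e1
      rw [hψ.mul] at this
      simp only [hψ.mul, mul_assoc, bFR, this]
    exact dom_trans h (eqv_mono h (Nat.le_succ k) d1).1
      (dom_app h (dom_app h hQ (dom_refl h k F)) hR)

end Pool.Agent.MSL
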