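import Pool.Agent.MSL.Bas

/-!
# Project MSL: tuples (uniform lemma, Section 8)
-/

namespace Pool.Agent.MSL

open Pool.Agent.DD Pool.Agent.HLV

variable {A M M' : Type}

/-- Equality of the values of `α` and equivalence at level `k + 1`. -/
def Sim (α : List A → M) (δ : List A → List A → Prop) (k : ℕ) (x y : List A) : Prop :=
  α x = α y ∧ Eqv δ (k + 1) x y

/-- Valid tuples. -/
structure TupV (α : List A → M) (δ : List A → List A → Prop) (k : ℕ) (E F Q R S T : List A) :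
    Prop where
  EE : Sim α δ k (E ++ E) E
  FF : Sim α δ k (F ++ F) F
  EQ : Sim α δ k (E ++ Q) Q
  QF : Sim α δ k (Q ++ F) Q
  FR : Sim α δ k (F ++ R) R
  RE : Sim α δ k (R ++ E) R
  ES : Sim α δ k (E ++ S) S
  SF : Sim α δ k (S ++ F) S
  FT : Sim α δ k (F ++ T) T
  TE : Sim α δ k (T ++ E) T
  QT : Eqv δ (k + 1) (Q ++ T) E
  RS : Eqv δ (k + 1) (R ++ S) F

/-- The identity fails (values in `M'`). -/
def BadI [Monoid M'] (β : List A → M') (K : ℕ) (Q R S T : List A) : Prop :=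
  β (Q ++ R) ^ K * β (S ++ T) ^ K ≠ β (Q ++ R) ^ K * β (Q ++ T) * β (S ++ T) ^ K

theorem sim_cg [Monoid M] {α : List A → M} (hα : IsHom α) {δ : List A → List A → Prop}
    (h : Cg δ) (k : ℕ) : Cg (Sim α δ k) where
  refl x := ⟨rfl, (eqv_cg h (k + 1)).refl x⟩
  symm h1 := ⟨h1.1.symm, (eqv_cg h (k + 1)).symm h1.2⟩
  trans h1 h2 := ⟨h1.1.trans h2.1, (eqv_cg h (k + 1)).trans h1.2 h2.2⟩
  app h1 h2 := ⟨by rw [hα.mul, hα.mul, h1.1, h2.1], (eqv_cg h (k + 1)).app h1.2 h2.2⟩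

end Pool.Agent.MSL
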