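import Pool.Agent.MSL.Bas

/-!
# Project MSL: the consequence (Z) of (H1)

Induction on the chain (`Relation.ReflTransGen.head_induction_on` or `trans_induction_on`).
Reflexive: `(bζ)^K (bζ) (bζ)^K = (bζ)^K` (`Aper`).
One step `b' = g e h`, `b = g e y e h` (values of `G, E, Y, H`): with `z = h ζ g`, `x = b ζ`:
`x^(j+1) = g e y e (z e y e)^j h ζ`; so (replace `x^K` by `x^(K+1)`, `Aper.mono`)
`x^(K+1) (g e h ζ) x^(K+1) = g e y e (zeye)^K (z e) (zeye) (zeye)^K h ζ = g e y e (zeye)^K h ζ = x^(K+1)`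
by `(zeye)(zeye)^K = (zeye)^K` and `hS.h1 E Y z`.
Transitivity: let `P b' b` be the statement for all `ζ`.  `P b'' b'`, `P b' b` imply `P b'' b`: put
`E₀ = (bζ)^K`, `E₀ (b' ζ) E₀ = E₀`, so `E₀ (b' ζ E₀)^j = E₀`; `P b'' b'` for `ζ E₀`:
`(b' ζ E₀)^K (b'' ζ E₀) (b' ζ E₀)^K = (b' ζ E₀)^K`; multiply by `E₀` on the left: `E₀ b'' ζ E₀ = E₀`.
-/

namespace Pool.Agent.MSL

open Pool.Agent.DD Pool.Agent.HLV

variable {A M N S : Type}

private theorem zz_add [Monoid M] {K : ℕ} (hM : Aper M K) (x : M) (j : ℕ) :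
    x ^ (K + j) = x ^ K := by
  induction j with
  | zero => rfl
  | succ j ih =>
    have h1 : x ^ (K + (j + 1)) = x ^ (K + j) * x := by rw [← pow_succ, Nat.add_assoc]
    rw [h1, ih, ← pow_succ]
    exact hM x

private theorem zz_idem [Monoid M] {K : ℕ} (hM : Aper M K) (x : M) :
    x ^ K * x ^ K = x ^ K := by
  rw [← pow_add]
  exact zz_add hM x K

private theorem zz_left [Monoid M] {K : ℕ} (hM : Aper M K) (x : M) :
    x * x ^ K = x ^ K := by
  rw [← pow_succ']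
  exact hM x

private theorem zz_right [Monoid M] {K : ℕ} (hM : Aper M K) (x : M) :
    x ^ K * x = x ^ K := by
  rw [← pow_succ]
  exact hM x

private theorem zz_pow [Monoid M] (p q : M) (j : ℕ) :
    (p * q) ^ (j + 1) = p * (q * p) ^ j * q := by
  induction j with
  | zero => simp
  | succ j ih =>
    rw [pow_succ, ih, pow_succ]
    simp only [mul_assoc]

private theorem zz_step [Monoid M] [Monoid N] {α : List A → M} {η : List A → N} {K : ℕ}
    (hS : Setup α η K) {b' b : M} (h : Step α η b' b) (ζ : M) :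
    (b * ζ) ^ K * (b' * ζ) * (b * ζ) ^ K = (b * ζ) ^ K := by
  obtain ⟨G, E, Y, H, hE, hηE, hηY, hs, hs'⟩ := h
  have e1 : b' = α G * α E * α H := by
    rw [hs, hS.αh.mul, hS.αh.mul]
  have e2 : b = α G * α E * α Y * α E * α H := by
    rw [hs', hS.αh.mul, hS.αh.mul, hS.αh.mul, hS.αh.mul]
  set g := α G with hg
  set e := α E with he
  set y := α Y with hy
  set k := α H with hk
  have h1 := hS.h1 E Y (k * ζ * g) hE hηE hηY
  rw [← he, ← hy] at h1
  set t := k * ζ * g * e * y * e with ht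
  -- `b ζ = p q` with `p = g e y e`, `q = k ζ`, `q p = t`
  have h2 : b * ζ = (g * e * y * e) * (k * ζ) := by
    rw [e2]
    simp only [mul_assoc]
  have h3 : (k * ζ) * (g * e * y * e) = t := by
    rw [ht]
    simp only [mul_assoc]
  have h4 : (b * ζ) ^ K = (g * e * y * e) * t ^ K * (k * ζ) := by
    rw [← hS.aM (b * ζ), h2, zz_pow, h3]
  have h5 : (k * ζ) * (b' * ζ) * (g * e * y * e) = (k * ζ * g * e) * t := by
    rw [e1, ht]
    simp only [mul_assoc]
  have h6 : t * t ^ K = t ^ K := zz_left hS.aM t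
  calc (b * ζ) ^ K * (b' * ζ) * (b * ζ) ^ K
      = ((g * e * y * e) * t ^ K) * ((k * ζ) * (b' * ζ) * (g * e * y * e)) * (t ^ K * (k * ζ)) := by
        rw [h4]
        simp only [mul_assoc]
    _ = (g * e * y * e) * (t ^ K * (k * ζ * g * e) * (t * t ^ K)) * (k * ζ) := by
        rw [h5]
        simp only [mul_assoc]
    _ = (g * e * y * e) * t ^ K * (k * ζ) := by rw [h6, h1]
    _ = (b * ζ) ^ K := h4.symm

private theorem zz_trans [Monoid M] {K : ℕ} (hM : Aper M K) {c b' b : M}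
    (h1 : ∀ ζ : M, (b' * ζ) ^ K * (c * ζ) * (b' * ζ) ^ K = (b' * ζ) ^ K)
    (h2 : ∀ ζ : M, (b * ζ) ^ K * (b' * ζ) * (b * ζ) ^ K = (b * ζ) ^ K) (ζ : M) :
    (b * ζ) ^ K * (c * ζ) * (b * ζ) ^ K = (b * ζ) ^ K := by
  have h3 := h2 ζ
  have h4 : (b * ζ) ^ K * (b * ζ) ^ K = (b * ζ) ^ K := zz_idem hM _
  set x := (b * ζ) ^ K with hx
  have h5 : ∀ j : ℕ, x * (b' * (ζ * x)) ^ j = x := by
    intro j
    induction j with
    | zero => simp
    | succ j ih =>
      rw [pow_succ, ← mul_assoc, ih, ← mul_assoc b' ζ x, ← mul_assoc, h3]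
  have h6 := h1 (ζ * x)
  have h7 : x * ((b' * (ζ * x)) ^ K * (c * (ζ * x)) * (b' * (ζ * x)) ^ K) = x := by
    rw [h6, h5]
  calc x * (c * ζ) * x = x * (c * ζ) * (x * (b' * (ζ * x)) ^ K) := by rw [h5 K]
    _ = x * (c * (ζ * x)) * (b' * (ζ * x)) ^ K := by simp only [mul_assoc]
    _ = (x * (b' * (ζ * x)) ^ K) * (c * (ζ * x)) * (b' * (ζ * x)) ^ K := by rw [h5 K]
    _ = x * ((b' * (ζ * x)) ^ K * (c * (ζ * x)) * (b' * (ζ * x)) ^ K) := by
        simp only [mul_assoc]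
    _ = x := h7

theorem zz [Monoid M] [Monoid N] {α : List A → M} {η : List A → N} {K : ℕ} (hS : Setup α η K)
    {b' b : M} (h : Chain α η b' b) (ζ : M) :
    (b * ζ) ^ K * (b' * ζ) * (b * ζ) ^ K = (b * ζ) ^ K := by
  unfold Chain at h
  revert ζ
  induction h using Relation.ReflTransGen.head_induction_on with
  | refl =>
    intro ζ
    rw [zz_right hS.aM, zz_idem hS.aM]
  | head h1 _ ih =>
    intro ζ
    exact zz_trans hS.aM (fun ξ => zz_step hS h1 ξ) ih ζ

end Pool.Agent.MSL
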